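import Pool.Agent.P.MP_4a7a83_al.Iface

/-! Congruences on a sublattice form a distributive lattice; systems of local congruences indexed
by labellings with values in the pentagon. -/

set_option autoImplicit false

namespace Pool.Agent.P.MP_4a7a83_al.KS

section CO

variable {L : Type} [Lattice L]

/-- A congruence of the sublattice `S`, as a relation on the ambient lattice. -/
@[ext] structure CO (S : Sublattice L) where
  r : L → L → Prop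
  mem : ∀ {a b : L}, r a b → a ∈ S ∧ b ∈ S
  refl : ∀ {a : L}, a ∈ S → r a a
  symm : ∀ {a b : L}, r a b → r b a
  trans : ∀ {a b c : L}, r a b → r b c → r a c
  sup : ∀ {a b c : L}, r a b → c ∈ S → r (a ⊔ c) (b ⊔ c)
  inf : ∀ {a b c : L}, r a b → c ∈ S → r (a ⊓ c) (b ⊓ c)

namespace CO

variable {S : Sublattice L}

theorem sup' (Φ : CO S) {a b c : L} (h : Φ.r a b) (hc : c ∈ S) : Φ.r (c ⊔ a) (c ⊔ b) := by
  rw [sup_comm c a, sup_comm c b]; exact Φ.sup h hc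

theorem inf' (Φ : CO S) {a b c : L} (h : Φ.r a b) (hc : c ∈ S) : Φ.r (c ⊓ a) (c ⊓ b) := by
  rw [inf_comm c a, inf_comm c b]; exact Φ.inf h hc

theorem inf_sup (Φ : CO S) {a b : L} (h : Φ.r a b) : Φ.r (a ⊓ b) (a ⊔ b) := by
  have h1 := Φ.inf' h (Φ.mem h).1
  have h2 := Φ.sup' h (Φ.mem h).1
  rw [inf_idem] at h1
  rw [sup_idem] at h2
  exact Φ.trans (Φ.symm h1) h2

/-- Classes are convex. -/
theorem convex (Φ : CO S) {a b c d : L} (h : Φ.r a b) (hc : c ∈ S) (hd : d ∈ S)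
    (h1 : a ≤ c) (h2 : c ≤ b) (h3 : a ≤ d) (h4 : d ≤ b) : Φ.r c d := by
  have e1 := Φ.inf h hc
  have e2 := Φ.inf h hd
  rw [inf_eq_left.2 h1, inf_eq_right.2 h2] at e1
  rw [inf_eq_left.2 h3, inf_eq_right.2 h4] at e2
  exact Φ.trans (Φ.symm e1) e2

theorem of_inf_sup (Φ : CO S) {a b : L} (ha : a ∈ S) (hb : b ∈ S) (h : Φ.r (a ⊓ b) (a ⊔ b)) :
    Φ.r a b :=
  Φ.convex h ha hb inf_le_left le_sup_left inf_le_right le_sup_right

/-- The join of two congruences. -/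
def join (Φ Ψ : CO S) : CO S where
  r := Relation.TransGen (fun a b => Φ.r a b ∨ Ψ.r a b)
  mem := by
    intro a b h
    induction h with
    | single h => exact h.elim Φ.mem Ψ.mem
    | tail _ h ih => exact ⟨ih.1, (h.elim Φ.mem Ψ.mem).2⟩
  refl := fun h => .single (.inl (Φ.refl h))
  symm := by
    intro a b h
    induction h with
    | single h => exact .single (h.imp Φ.symm Ψ.symm)
    | tail _ h ih => exact Relation.TransGen.head (h.imp Φ.symm Ψ.symm) ih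
  trans := fun h h' => h.trans h'
  sup := by
    intro a b c h hc
    induction h with
    | single h => exact .single (h.imp (fun h => Φ.sup h hc) (fun h => Ψ.sup h hc))
    | tail _ h ih => exact ih.tail (h.imp (fun h => Φ.sup h hc) (fun h => Ψ.sup h hc))
  inf := by
    intro a b c h hc
    induction h with
    | single h => exact .single (h.imp (fun h => Φ.inf h hc) (fun h => Ψ.inf h hc))
    | tail _ h ih => exact ih.tail (h.imp (fun h => Φ.inf h hc) (fun h => Ψ.inf h hc))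

/-- The meet of two congruences. -/
def meet (Φ Ψ : CO S) : CO S where
  r a b := Φ.r a b ∧ Ψ.r a b
  mem h := Φ.mem h.1
  refl h := ⟨Φ.refl h, Ψ.refl h⟩
  symm h := ⟨Φ.symm h.1, Ψ.symm h.2⟩
  trans h h' := ⟨Φ.trans h.1 h'.1, Ψ.trans h.2 h'.2⟩
  sup h hc := ⟨Φ.sup h.1 hc, Ψ.sup h.2 hc⟩
  inf h hc := ⟨Φ.inf h.1 hc, Ψ.inf h.2 hc⟩

/-- The largest congruence. -/
def all (S : Sublattice L) : CO S where
  r a b := a ∈ S ∧ b ∈ S
  mem h := h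
  refl h := ⟨h, h⟩
  symm h := ⟨h.2, h.1⟩
  trans h h' := ⟨h.1, h'.2⟩
  sup h hc := ⟨S.supClosed h.1 hc, S.supClosed h.2 hc⟩
  inf h hc := ⟨S.infClosed h.1 hc, S.infClosed h.2 hc⟩

theorem join_le {Φ Ψ Θ : CO S} (h1 : ∀ a b, Φ.r a b → Θ.r a b) (h2 : ∀ a b, Ψ.r a b → Θ.r a b)
    (a b : L) (h : (join Φ Ψ).r a b) : Θ.r a b := by
  have h' : Relation.TransGen (fun a b => Φ.r a b ∨ Ψ.r a b) a b := h
  clear h
  induction h' with
  | single h => exact h.elim (h1 _ _) (h2 _ _)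
  | tail _ h ih => exact Θ.trans ih (h.elim (h1 _ _) (h2 _ _))

instance : Lattice (CO S) where
  le Φ Ψ := ∀ a b, Φ.r a b → Ψ.r a b
  le_refl _ _ _ h := h
  le_trans _ _ _ h h' a b e := h' a b (h a b e)
  le_antisymm Φ Ψ h h' := by
    ext a b
    exact ⟨h a b, h' a b⟩
  sup := join
  le_sup_left _ _ _ _ h := .single (.inl h)
  le_sup_right _ _ _ _ h := .single (.inr h)
  sup_le _ _ _ h h' := join_le h h'
  inf := meet
  inf_le_left _ _ _ _ h := h.1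
  inf_le_right _ _ _ _ h := h.2
  le_inf _ _ _ h h' a b e := ⟨h a b e, h' a b e⟩

instance : OrderTop (CO S) where
  top := all S
  le_top Φ _ _ h := Φ.mem h

theorem le_def {Φ Ψ : CO S} : Φ ≤ Ψ ↔ ∀ a b, Φ.r a b → Ψ.r a b := Iff.rfl

theorem inf_r {Φ Ψ : CO S} {a b : L} : (Φ ⊓ Ψ).r a b ↔ Φ.r a b ∧ Ψ.r a b := Iff.rfl

theorem top_r {a b : L} : (⊤ : CO S).r a b ↔ a ∈ S ∧ b ∈ S := Iff.rfl

/-- The Funayama-Nakayama argument. -/
theorem distrib_aux (Ω Φ Ψ : CO S) : Ω ⊓ (Φ ⊔ Ψ) ≤ (Ω ⊓ Φ) ⊔ (Ω ⊓ Ψ) := by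
  intro a b h
  have ha := (Ω.mem h.1).1
  have hb := (Ω.mem h.1).2
  apply of_inf_sup _ ha hb
  have hΩ : Ω.r (a ⊓ b) (a ⊔ b) := Ω.inf_sup h.1
  have hJ : Relation.TransGen (fun a b => Φ.r a b ∨ Ψ.r a b) (a ⊓ b) (a ⊔ b) :=
    (Φ ⊔ Ψ).inf_sup h.2
  have hx : a ⊓ b ∈ S := S.infClosed ha hb
  have hy : a ⊔ b ∈ S := S.supClosed ha hb
  have hxy : a ⊓ b ≤ a ⊔ b := inf_le_sup
  generalize a ⊓ b = x at *
  generalize a ⊔ b = y at *
  have step : ∀ u v, (Φ.r u v ∨ Ψ.r u v) →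
      ((Ω ⊓ Φ) ⊔ (Ω ⊓ Ψ)).r ((u ⊓ y) ⊔ x) ((v ⊓ y) ⊔ x) := by
    intro u v huv
    have hu : u ∈ S := (huv.elim Φ.mem Ψ.mem).1
    have hv : v ∈ S := (huv.elim Φ.mem Ψ.mem).2
    have hO : Ω.r ((u ⊓ y) ⊔ x) ((v ⊓ y) ⊔ x) :=
      Ω.convex hΩ (S.supClosed (S.infClosed hu hy) hx) (S.supClosed (S.infClosed hv hy) hx)
        le_sup_right (sup_le inf_le_right hxy) le_sup_right (sup_le inf_le_right hxy)
    rcases huv with e | e
    · exact (le_sup_left : Ω ⊓ Φ ≤ _) _ _ ⟨hO, Φ.sup (Φ.inf e hy) hx⟩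
    · exact (le_sup_right : Ω ⊓ Ψ ≤ _) _ _ ⟨hO, Ψ.sup (Ψ.inf e hy) hx⟩
  have chain : ∀ u v, Relation.TransGen (fun a b => Φ.r a b ∨ Ψ.r a b) u v →
      ((Ω ⊓ Φ) ⊔ (Ω ⊓ Ψ)).r ((u ⊓ y) ⊔ x) ((v ⊓ y) ⊔ x) := by
    intro u v huv
    induction huv with
    | single e => exact step _ _ e
    | tail _ e ih => exact CO.trans _ ih (step _ _ e)
  have := chain _ _ hJ
  rwa [inf_eq_left.2 hxy, sup_idem, inf_idem, sup_eq_left.2 hxy] at this

instance : DistribLattice (CO S) := DistribLattice.ofInfSupLe distrib_aux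

theorem finset_inf_r {ι : Type} (T : Finset ι) (f : ι → CO S) {a b : L} (ha : a ∈ S) (hb : b ∈ S) :
    (T.inf f).r a b ↔ ∀ i ∈ T, (f i).r a b := by
  classical
  induction T using Finset.induction_on with
  | empty => simp [top_r, ha, hb]
  | insert i T _ ih => rw [Finset.inf_insert, inf_r, ih]; simp

end CO

end CO

/-- The admissible labellings of the finite sets of generators. -/
structure LabSys (X : Type) where
  o : X
  Lab : Finset X → (X → N5) → Prop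
  anti : ∀ {Y Y' : Finset X} {q : X → N5}, Y ⊆ Y' → Lab Y' q → Lab Y q
  beta : ∀ {Y : Finset X} {q : X → N5}, Lab Y q → Lab Y (lab (N5.p1 ∘ q))
  gamma : ∀ {Y : Finset X} {q : X → N5}, Lab Y q → Lab Y (lab (N5.p2 ∘ q))
  delta : ∀ {Y : Finset X} {q : X → N5}, Lab Y q → (∀ x ∈ Y, q x ≠ N5.c) →
    Lab Y (lab (N5.p01 ∘ q))

/-- The Boolean function is not constant on `Y`. -/
def NonConst {X : Type} (Y : Finset X) (φ : X → Bool) : Prop :=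
  (∃ x ∈ Y, φ x = false) ∧ (∃ y ∈ Y, φ y = true)

/-- A system of sublattices with local congruences that behaves like the finitely generated
sublattices of a lattice in the variety of the pentagon. -/
structure Sys {X : Type} (Λ : LabSys X) (L : Type) [Lattice L] where
  S : Finset X → Sublattice L
  con : (X → N5) → L → L → Prop
  S_mono : ∀ {Y Y' : Finset X}, Y ⊆ Y' → S Y ≤ S Y'
  refl : ∀ q a, con q a a
  symm : ∀ {q : X → N5} {a b : L}, con q a b → con q b a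
  trans : ∀ {q : X → N5} {a b c : L}, con q a b → con q b c → con q a c
  csup : ∀ {Y : Finset X} {q : X → N5} {a b c : L}, Λ.Lab Y q → a ∈ S Y → b ∈ S Y → c ∈ S Y →
    con q a b → con q (a ⊔ c) (b ⊔ c)
  cinf : ∀ {Y : Finset X} {q : X → N5} {a b c : L}, Λ.Lab Y q → a ∈ S Y → b ∈ S Y → c ∈ S Y →
    con q a b → con q (a ⊓ c) (b ⊓ c)
  loc : ∀ {Y : Finset X} {q q' : X → N5} {a b : L}, Λ.Lab Y q → Λ.Lab Y q' →
    (∀ x ∈ Y, q x = q' x) → a ∈ S Y → b ∈ S Y → con q a b → con q' a b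
  dist_c : ∀ {Y : Finset X} {q : X → N5} {a b : L}, Λ.Lab Y q → a ∈ S Y → b ∈ S Y →
    (∀ x ∈ Y, q x ≠ N5.c) → con (lab (N5.p1 ∘ q)) a b → con (lab (N5.p2 ∘ q)) a b →
    con (lab (N5.p01 ∘ q)) a b → con q a b
  dist_ab : ∀ {Y : Finset X} {q : X → N5} {a b : L}, Λ.Lab Y q → a ∈ S Y → b ∈ S Y →
    ((∀ x ∈ Y, q x ≠ N5.a) ∨ (∀ x ∈ Y, q x ≠ N5.b)) → con (lab (N5.p1 ∘ q)) a b →
    con (lab (N5.p2 ∘ q)) a b → con q a b
  up_beta : ∀ {q : X → N5} {a b : L}, con q a b → con (lab (N5.p1 ∘ q)) a b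
  up_gamma : ∀ {q : X → N5} {a b : L}, con q a b → con (lab (N5.p2 ∘ q)) a b
  up_delta : ∀ {Y : Finset X} {q : X → N5} {a b : L}, a ∈ S Y → b ∈ S Y →
    (∀ x ∈ Y, q x ≠ N5.c) → con q a b → con (lab (N5.p01 ∘ q)) a b
  const : ∀ {Y : Finset X} {φ : X → Bool} {a b : L}, Λ.o ∈ Y → Λ.Lab Y (lab φ) →
    ¬ NonConst Y φ → a ∈ S Y → b ∈ S Y → con (lab φ) a b
  simple : ∀ {Y : Finset X} {φ : X → Bool} (Φ : CO (S Y)), Λ.o ∈ Y → Λ.Lab Y (lab φ) →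
    NonConst Y φ → (∀ a b, a ∈ S Y → b ∈ S Y → con (lab φ) a b → Φ.r a b) →
    ∀ {u v : L}, Φ.r u v → ¬ con (lab φ) u v → ∀ a b, a ∈ S Y → b ∈ S Y → Φ.r a b
  mono : ∀ {Y : Finset X} {h : X → N5} (Φ : CO (S Y)), Λ.o ∈ Y → Λ.Lab Y h →
    Onto Y h → (∀ a b, a ∈ S Y → b ∈ S Y → con h a b → Φ.r a b) →
    ∀ {u v : L}, Φ.r u v → ¬ con h u v → ∀ a b, a ∈ S Y → b ∈ S Y →
      con (lab (N5.p1 ∘ h)) a b → con (lab (N5.p2 ∘ h)) a b → Φ.r a b
  sepZ : ∀ {Y : Finset X} {φ : X → Bool} {x z : X}, Λ.o ∈ Y → Λ.Lab Y (lab φ) → NonConst Y φ →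
    x ∈ Y → z ∈ Y → ∃ u v, u ∈ S Y ∧ v ∈ S Y ∧ ¬ con (lab φ) u v ∧
      ∀ q, Λ.Lab Y q → ((q x ≠ N5.a ∧ q z ≠ N5.a) ∨ (q x ≠ N5.b ∧ q z ≠ N5.b)) →
        ((q x).p1 ≠ φ x ∨ (q z).p1 ≠ φ z) → ((q x).p2 ≠ φ x ∨ (q z).p2 ≠ φ z) →
        con q u v
  sepA : ∀ {Y : Finset X} {h : X → N5} {x y : X}, Λ.o ∈ Y → Λ.Lab Y h → Onto Y h →
    x ∈ Y → y ∈ Y → h x = N5.a → h y = N5.b → ∃ u v, u ∈ S Y ∧ v ∈ S Y ∧ ¬ con h u v ∧
      ∀ q, Λ.Lab Y q → q y ≤ q x → con q u v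

end Pool.Agent.P.MP_4a7a83_al.KS
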