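import Pool.Agent.P.MP_4a7a83_al.Basic

/-!
Links exist when there is enough room.
-/

namespace Pool.Agent.P.MP_4a7a83_al.MS

open Classical N5

theorem exists_linkS {V : Type} [AddCommGroup V] [Module ℚ V] (e : V →ₗ[ℚ] V) (he : e ∘ₗ e = e)
    {σ0 σ1 τ0 τ1 : Submodule ℚ V} (hσ0 : RLe e σ0 σ0) (hτ0 : RLe e τ0 τ0) (hτ1 : RLe e τ1 τ1)
    (hσ : σ0 ≤ σ1) (hτ : τ0 ≤ τ1) (hi : σ1 ⊓ τ1 ≤ σ0 ⊓ τ0) (hb : Big e σ0 σ1) :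
    ∃ ρ : Submodule ℚ V, (∀ v ∈ ρ, e v = v) ∧ LinkS e σ0 σ1 τ0 τ1 ρ := by
  have ee : ∀ v, e (e v) = e v := fun v => LinearMap.congr_fun he v
  obtain ⟨g, hg⟩ : ∃ g : V →ₗ[ℚ] V, ∀ v, g v = 0 ↔ v ∈ τ0 := by
    obtain ⟨C, hC⟩ := τ0.exists_isCompl
    refine ⟨C.subtype ∘ₗ (τ0.quotientEquivOfIsCompl C hC).toLinearMap ∘ₗ τ0.mkQ, fun v => ?_⟩
    simp
  obtain ⟨h, h1, h2⟩ := hb
  have mem : ∀ w, w ∈ (τ1.map e).map (LinearMap.id + h ∘ₗ g) ⊔ σ0.map e ↔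
      ∃ t ∈ τ1, ∃ s ∈ σ0, e t + h (g (e t)) + e s = w := fun w => by
    rw [Submodule.mem_sup]
    constructor
    · rintro ⟨_, ⟨_, ⟨t, ht, rfl⟩, rfl⟩, _, ⟨s, hs, rfl⟩, rfl⟩
      exact ⟨t, ht, s, hs, rfl⟩
    · rintro ⟨t, ht, s, hs, rfl⟩
      exact ⟨_, ⟨_, ⟨t, ht, rfl⟩, rfl⟩, _, ⟨s, hs, rfl⟩, rfl⟩
  have fix : ∀ t s, e (e t + h (g (e t)) + e s) = e t + h (g (e t)) + e s := fun t s => by
    rw [map_add, map_add, ee, ee, (h1 _).2]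
  refine ⟨(τ1.map e).map (LinearMap.id + h ∘ₗ g) ⊔ σ0.map e, fun v hv => ?_, fun v hv => ?_,
    fun v hv => ?_, fun v hv => ?_, fun v hv => ?_⟩
  · obtain ⟨t, -, s, -, rfl⟩ := (mem v).1 hv
    exact fix t s
  · obtain ⟨s, hs, t, ht, rfl⟩ := Submodule.mem_sup.1 hv
    exact (mem _).2 ⟨t, hτ ht, s, hs, by
      rw [(hg _).2 (hτ0 t ht), map_zero, add_zero, map_add, add_comm]⟩
  · obtain ⟨t, ht, s, hs, rfl⟩ := (mem v).1 hv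
    rw [fix]
    exact add_mem (add_mem (Submodule.mem_sup_right (hτ1 t ht)) (Submodule.mem_sup_left (h1 _).1))
      (Submodule.mem_sup_left (hσ (hσ0 s hs)))
  · rw [show e v = e v + h (g (e v)) + e 0 - h (g (e v)) by rw [map_zero]; abel]
    exact sub_mem (Submodule.mem_sup_left ((mem _).2 ⟨v, hv, 0, zero_mem _, rfl⟩))
      (Submodule.mem_sup_right (h1 _).1)
  · obtain ⟨t, ht, s, hs, rfl⟩ := (mem v).1 hv.1
    have k : h (g (e t)) + e s ∈ σ0 ⊓ τ0 := hi ⟨add_mem (h1 _).1 (hσ (hσ0 s hs)), by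
      have := sub_mem hv.2 (hτ1 t ht)
      rwa [add_assoc, add_sub_cancel_left] at this⟩
    have k' : h (g (e t)) ∈ σ0 := by
      have := sub_mem k.1 (hσ0 s hs)
      rwa [add_sub_cancel_right] at this
    rw [fix, add_assoc]
    exact add_mem ((hg _).1 (h2 _ k')) k.2

theorem exists_trivS {V : Type} [AddCommGroup V] [Module ℚ V] (e : V →ₗ[ℚ] V) (he : e ∘ₗ e = e)
    {σ0 τ0 : Submodule ℚ V} (hσ0 : RLe e σ0 σ0) (hτ0 : RLe e τ0 τ0) :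
    ∃ ρ : Submodule ℚ V, (∀ v ∈ ρ, e v = v) ∧ TrivS e σ0 τ0 ρ := by
  have ee : ∀ v, e (e v) = e v := fun v => LinearMap.congr_fun he v
  refine ⟨(σ0 ⊔ τ0).map e, ?_, fun v hv => ⟨v, hv, rfl⟩, ?_⟩
  · rintro _ ⟨u, -, rfl⟩
    exact ee u
  · rintro _ ⟨u, hu, rfl⟩
    obtain ⟨s, hs, t, ht, rfl⟩ := Submodule.mem_sup.1 hu
    rw [ee, map_add]
    exact add_mem (Submodule.mem_sup_left (hσ0 s hs)) (Submodule.mem_sup_right (hτ0 t ht))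

end Pool.Agent.P.MP_4a7a83_al.MS
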