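import Pool.Agent.P.MP_4a7a83_al.Abs

/-! In a system of local congruences every congruence is an intersection of local ones (`dom`),
and every upward closed local predicate is cut out by finitely many pairs (`real`). -/

set_option autoImplicit false

namespace Pool.Agent.P.MP_4a7a83_al.KS

theorem not_onto {X : Type} {Y : Finset X} {q : X → N5} (h : ¬ Onto Y q) :
    ((∀ x ∈ Y, q x ≠ N5.a) ∨ (∀ x ∈ Y, q x ≠ N5.b)) ∨ (∀ x ∈ Y, q x ≠ N5.c) := by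
  by_contra hc
  push Not at hc
  exact h ⟨hc.1.1, hc.1.2, hc.2⟩

theorem Onto.nonConst_beta {X : Type} {Y : Finset X} {h : X → N5} (ho : Onto Y h) :
    NonConst Y (N5.p1 ∘ h) := by
  obtain ⟨⟨x, hx, ex⟩, -, ⟨z, hz, ez⟩⟩ := ho
  exact ⟨⟨z, hz, by simp [ez, N5.p1]⟩, ⟨x, hx, by simp [ex, N5.p1]⟩⟩

theorem Onto.nonConst_gamma {X : Type} {Y : Finset X} {h : X → N5} (ho : Onto Y h) :
    NonConst Y (N5.p2 ∘ h) := by
  obtain ⟨⟨x, hx, ex⟩, -, ⟨z, hz, ez⟩⟩ := ho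
  exact ⟨⟨x, hx, by simp [ex, N5.p2]⟩, ⟨z, hz, by simp [ez, N5.p2]⟩⟩

theorem lab_ne_a {X : Type} (φ : X → Bool) (x : X) : lab φ x ≠ N5.a := by
  unfold lab; cases φ x <;> decide

theorem beta_lab {X : Type} (φ : X → Bool) (x : X) : (lab φ x).p1 = φ x := by
  unfold lab; cases φ x <;> rfl

theorem gamma_lab {X : Type} (φ : X → Bool) (x : X) : (lab φ x).p2 = φ x := by
  unfold lab; cases φ x <;> rfl

theorem lab_congr {X : Type} {φ ψ : X → Bool} {x : X} (h : φ x = ψ x) : lab φ x = lab ψ x := by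
  unfold lab; rw [h]

/-- Local upward closed predicates on the admissible labellings of `Y`. -/
structure UP {X : Type} (Λ : LabSys X) (Y : Finset X) (P : (X → N5) → Prop) : Prop where
  loc : ∀ {q q' : X → N5}, Λ.Lab Y q → Λ.Lab Y q' → (∀ x ∈ Y, q x = q' x) → P q → P q'
  up_beta : ∀ {q : X → N5}, P q → P (lab (N5.p1 ∘ q))
  up_gamma : ∀ {q : X → N5}, P q → P (lab (N5.p2 ∘ q))
  up_delta : ∀ {q : X → N5}, (∀ x ∈ Y, q x ≠ N5.c) → P q → P (lab (N5.p01 ∘ q))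
  dist_c : ∀ {q : X → N5}, Λ.Lab Y q → (∀ x ∈ Y, q x ≠ N5.c) → P (lab (N5.p1 ∘ q)) →
    P (lab (N5.p2 ∘ q)) → P (lab (N5.p01 ∘ q)) → P q
  dist_ab : ∀ {q : X → N5}, Λ.Lab Y q → ((∀ x ∈ Y, q x ≠ N5.a) ∨ (∀ x ∈ Y, q x ≠ N5.b)) →
    P (lab (N5.p1 ∘ q)) → P (lab (N5.p2 ∘ q)) → P q
  const : ∀ {φ : X → Bool}, Λ.Lab Y (lab φ) → ¬ NonConst Y φ → P (lab φ)

namespace Sys

variable {X : Type} {Λ : LabSys X} {L : Type} [Lattice L] (T : Sys Λ L)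

/-- The intersection of the local congruences at the admissible labellings that satisfy `P`. -/
def cP (Y : Finset X) (P : (X → N5) → Prop) : CO (T.S Y) where
  r a b := a ∈ T.S Y ∧ b ∈ T.S Y ∧ ∀ q, Λ.Lab Y q → P q → T.con q a b
  mem h := ⟨h.1, h.2.1⟩
  refl h := ⟨h, h, fun q _ _ => T.refl q _⟩
  symm h := ⟨h.2.1, h.1, fun q hq hp => T.symm (h.2.2 q hq hp)⟩
  trans h h' := ⟨h.1, h'.2.1, fun q hq hp => T.trans (h.2.2 q hq hp) (h'.2.2 q hq hp)⟩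
  sup h hc := ⟨(T.S Y).supClosed h.1 hc, (T.S Y).supClosed h.2.1 hc,
    fun q hq hp => T.csup hq h.1 h.2.1 hc (h.2.2 q hq hp)⟩
  inf h hc := ⟨(T.S Y).infClosed h.1 hc, (T.S Y).infClosed h.2.1 hc,
    fun q hq hp => T.cinf hq h.1 h.2.1 hc (h.2.2 q hq hp)⟩

/-- The local congruence at `q`. -/
def c (Y : Finset X) (q : X → N5) : CO (T.S Y) := T.cP Y (fun q' => ∀ x ∈ Y, q x = q' x)

theorem c_r {Y : Finset X} {q : X → N5} (hq : Λ.Lab Y q) {a b : L} :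
    (T.c Y q).r a b ↔ a ∈ T.S Y ∧ b ∈ T.S Y ∧ T.con q a b :=
  ⟨fun h => ⟨h.1, h.2.1, h.2.2 q hq (fun _ _ => rfl)⟩,
    fun h => ⟨h.1, h.2.1, fun _ hq' e => T.loc hq hq' e h.1 h.2.1 h.2.2⟩⟩

theorem finite_range (Y : Finset X) : (Set.range (T.c Y)).Finite := by
  classical
  refine (Set.finite_range (fun r : Y → N5 =>
    T.cP Y (fun q' => ∀ x (hx : x ∈ Y), r ⟨x, hx⟩ = q' x))).subset ?_
  rintro _ ⟨q, rfl⟩
  exact ⟨fun x => q x, rfl⟩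

theorem exists_inf (Y : Finset X) (P : (X → N5) → Prop) : ∃ Θ : CO (T.S Y),
    (∀ q, Λ.Lab Y q → P q → Θ ≤ T.c Y q) ∧
    (∀ p : CO (T.S Y), InfPrime p → Θ ≤ p → ∃ q, Λ.Lab Y q ∧ P q ∧ T.c Y q ≤ p) ∧
    (∀ (Φ : CO (T.S Y)) (a b : L), a ∈ T.S Y → b ∈ T.S Y →
      (∀ q, Λ.Lab Y q → P q → (Φ ⊔ T.c Y q).r a b) → (Φ ⊔ Θ).r a b) := by
  classical
  let F := (T.finite_range Y).toFinset.filter (fun θ => ∃ q, Λ.Lab Y q ∧ P q ∧ θ = T.c Y q)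
  have hF : ∀ θ, θ ∈ F ↔ ∃ q, Λ.Lab Y q ∧ P q ∧ θ = T.c Y q := by
    intro θ
    simp only [F, Finset.mem_filter, Set.Finite.mem_toFinset, Set.mem_range]
    exact ⟨fun h => h.2, fun ⟨q, h1, h2, h3⟩ => ⟨⟨q, h3.symm⟩, q, h1, h2, h3⟩⟩
  refine ⟨F.inf id, fun q hq hp => Finset.inf_le (f := id) ((hF _).2 ⟨q, hq, hp, rfl⟩), ?_, ?_⟩
  · intro p hp h
    obtain ⟨θ, hθ, h⟩ := hp.finset_inf_le.1 h
    obtain ⟨q, h1, h2, rfl⟩ := (hF θ).1 hθ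
    exact ⟨q, h1, h2, h⟩
  · intro Φ a b ha hb h
    rw [Finset.inf_sup_distrib_left, CO.finset_inf_r _ _ ha hb]
    intro θ hθ
    obtain ⟨q, h1, h2, rfl⟩ := (hF θ).1 hθ
    exact h q h1 h2

theorem c_le_beta {Y : Finset X} {q : X → N5} (hq : Λ.Lab Y q) :
    T.c Y q ≤ T.c Y (lab (N5.p1 ∘ q)) := by
  intro a b h
  rw [T.c_r hq] at h
  exact (T.c_r (Λ.beta hq)).2 ⟨h.1, h.2.1, T.up_beta h.2.2⟩

theorem c_le_gamma {Y : Finset X} {q : X → N5} (hq : Λ.Lab Y q) :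
    T.c Y q ≤ T.c Y (lab (N5.p2 ∘ q)) := by
  intro a b h
  rw [T.c_r hq] at h
  exact (T.c_r (Λ.gamma hq)).2 ⟨h.1, h.2.1, T.up_gamma h.2.2⟩

theorem c_le_delta {Y : Finset X} {q : X → N5} (hq : Λ.Lab Y q) (hc : ∀ x ∈ Y, q x ≠ N5.c) :
    T.c Y q ≤ T.c Y (lab (N5.p01 ∘ q)) := by
  intro a b h
  rw [T.c_r hq] at h
  exact (T.c_r (Λ.delta hq hc)).2 ⟨h.1, h.2.1, T.up_delta h.1 h.2.1 hc h.2.2⟩

theorem le_c_ab {Y : Finset X} {q : X → N5} (hq : Λ.Lab Y q)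
    (hc : (∀ x ∈ Y, q x ≠ N5.a) ∨ (∀ x ∈ Y, q x ≠ N5.b)) :
    T.c Y (lab (N5.p1 ∘ q)) ⊓ T.c Y (lab (N5.p2 ∘ q)) ≤ T.c Y q := by
  intro a b h
  rw [CO.inf_r, T.c_r (Λ.beta hq), T.c_r (Λ.gamma hq)] at h
  exact (T.c_r hq).2 ⟨h.1.1, h.1.2.1, T.dist_ab hq h.1.1 h.1.2.1 hc h.1.2.2 h.2.2.2⟩

theorem le_c_c {Y : Finset X} {q : X → N5} (hq : Λ.Lab Y q) (hc : ∀ x ∈ Y, q x ≠ N5.c) :
    T.c Y (lab (N5.p1 ∘ q)) ⊓ T.c Y (lab (N5.p2 ∘ q)) ⊓ T.c Y (lab (N5.p01 ∘ q)) ≤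
      T.c Y q := by
  intro a b h
  rw [CO.inf_r, CO.inf_r, T.c_r (Λ.beta hq), T.c_r (Λ.gamma hq), T.c_r (Λ.delta hq hc)] at h
  exact (T.c_r hq).2 ⟨h.2.1, h.2.2.1, T.dist_c hq h.2.1 h.2.2.1 hc h.1.1.2.2 h.1.2.2.2 h.2.2.2⟩

/-- Above a two-valued point there is only the point itself and the top. -/
theorem above2 {Y : Finset X} (ho : Λ.o ∈ Y) {φ : X → Bool} (hq : Λ.Lab Y (lab φ))
    {Φ : CO (T.S Y)} (h : T.c Y (lab φ) ≤ Φ) : Φ = T.c Y (lab φ) ∨ Φ = ⊤ := by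
  by_cases hn : NonConst Y φ
  · by_cases e : Φ ≤ T.c Y (lab φ)
    · exact .inl (le_antisymm e h)
    · right
      rw [CO.le_def] at e
      push Not at e
      obtain ⟨u, v, h1, h2⟩ := e
      refine top_le_iff.1 (fun a b hab => ?_)
      refine T.simple Φ ho hq hn (fun a b ha hb e => h a b ((T.c_r hq).2 ⟨ha, hb, e⟩)) h1
        (fun e => h2 ((T.c_r hq).2 ⟨(Φ.mem h1).1, (Φ.mem h1).2, e⟩)) a b hab.1 hab.2
  · right
    exact top_le_iff.1 (fun a b hab => h a b ((T.c_r hq).2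
      ⟨hab.1, hab.2, T.const ho hq hn hab.1 hab.2⟩))

/-- Strictly above an onto point everything contains the monolith. -/
theorem above5 {Y : Finset X} (ho : Λ.o ∈ Y) {h : X → N5} (hq : Λ.Lab Y h) (hon : Onto Y h)
    {Φ : CO (T.S Y)} (hle : T.c Y h ≤ Φ) :
    Φ = T.c Y h ∨ T.c Y (lab (N5.p1 ∘ h)) ⊓ T.c Y (lab (N5.p2 ∘ h)) ≤ Φ := by
  by_cases e : Φ ≤ T.c Y h
  · exact .inl (le_antisymm e hle)
  · right
    rw [CO.le_def] at e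
    push Not at e
    obtain ⟨u, v, h1, h2⟩ := e
    intro a b hab
    rw [CO.inf_r, T.c_r (Λ.beta hq), T.c_r (Λ.gamma hq)] at hab
    exact T.mono Φ ho hq hon (fun a b ha hb e => hle a b ((T.c_r hq).2 ⟨ha, hb, e⟩)) h1
      (fun e => h2 ((T.c_r hq).2 ⟨(Φ.mem h1).1, (Φ.mem h1).2, e⟩)) a b hab.1.1 hab.1.2.1
      hab.1.2.2 hab.2.2.2

/-- Every congruence above the intersection of the local congruences is an intersection of
local congruences. -/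
theorem dom {Y : Finset X} (ho : Λ.o ∈ Y) (Φ : CO (T.S Y))
    (hΦ : ∀ a b, a ∈ T.S Y → b ∈ T.S Y → (∀ q, Λ.Lab Y q → T.con q a b) → Φ.r a b)
    {a b : L} (ha : a ∈ T.S Y) (hb : b ∈ T.S Y)
    (H : ∀ q, Λ.Lab Y q → (∀ u v, Φ.r u v → T.con q u v) → T.con q a b) : Φ.r a b := by
  obtain ⟨Θ, h1, -, h3⟩ := T.exists_inf Y (fun _ => True)
  have hΘ : Θ ≤ Φ := by
    intro u v e
    exact hΦ u v (Θ.mem e).1 (Θ.mem e).2 (fun q hq => ((T.c_r hq).1 (h1 q hq trivial u v e)).2.2)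
  have H' : ∀ q, Λ.Lab Y q → Φ ⊔ T.c Y q = T.c Y q → (Φ ⊔ T.c Y q).r a b := by
    intro q hq e
    rw [e]
    refine (T.c_r hq).2 ⟨ha, hb, H q hq (fun u v huv => ?_)⟩
    exact ((T.c_r hq).1 ((sup_eq_right.1 e) u v huv)).2.2
  have H2 : ∀ φ : X → Bool, Λ.Lab Y (lab φ) → (Φ ⊔ T.c Y (lab φ)).r a b := by
    intro φ hq
    rcases T.above2 ho hq (le_sup_right : _ ≤ Φ ⊔ T.c Y (lab φ)) with e | e
    · exact H' _ hq e
    · rw [e]; exact ⟨ha, hb⟩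
  have Hbg : ∀ q, Λ.Lab Y q →
      (Φ ⊔ (T.c Y (lab (N5.p1 ∘ q)) ⊓ T.c Y (lab (N5.p2 ∘ q)))).r a b := by
    intro q hq
    rw [sup_inf_left]
    exact ⟨H2 _ (Λ.beta hq), H2 _ (Λ.gamma hq)⟩
  have := h3 Φ a b ha hb (fun q hq _ => ?_)
  · rwa [sup_eq_left.2 hΘ] at this
  by_cases hon : Onto Y q
  · rcases T.above5 ho hq hon (le_sup_right : _ ≤ Φ ⊔ T.c Y q) with e | e
    · exact H' _ hq e
    · exact (sup_le le_sup_left e : Φ ⊔ _ ≤ Φ ⊔ T.c Y q) a b (Hbg q hq)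
  · rcases not_onto hon with e | e
    · exact (sup_le_sup_left (T.le_c_ab hq e) Φ) a b (Hbg q hq)
    · refine (sup_le_sup_left (T.le_c_c hq e) Φ) a b ?_
      rw [sup_inf_left]
      exact ⟨Hbg q hq, H2 _ (Λ.delta hq e)⟩

theorem prime2 {Y : Finset X} (ho : Λ.o ∈ Y) {φ : X → Bool} (hq : Λ.Lab Y (lab φ))
    (hn : NonConst Y φ) : InfPrime (T.c Y (lab φ)) := by
  have hne : T.c Y (lab φ) ≠ ⊤ := by
    intro e
    obtain ⟨u, v, hu, hv, h, -⟩ := T.sepZ ho hq hn ho ho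
    have : (T.c Y (lab φ)).r u v := by rw [e]; exact ⟨hu, hv⟩
    exact h ((T.c_r hq).1 this).2.2
  rw [infPrime_iff_infIrred]
  refine ⟨fun hm => hne hm.eq_top, fun Φ Ψ e => ?_⟩
  rcases T.above2 ho hq (e ▸ inf_le_left : T.c Y (lab φ) ≤ Φ) with e1 | e1
  · exact .inl e1
  · right
    rwa [e1, top_inf_eq] at e

theorem prime5 {Y : Finset X} (ho : Λ.o ∈ Y) {h : X → N5} (hq : Λ.Lab Y h) (hon : Onto Y h) :
    InfPrime (T.c Y h) := by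
  have hne : ¬ T.c Y (lab (N5.p1 ∘ h)) ⊓ T.c Y (lab (N5.p2 ∘ h)) ≤ T.c Y h := by
    intro e
    obtain ⟨⟨x, hx, ex⟩, ⟨y, hy, ey⟩, -⟩ := id hon
    obtain ⟨u, v, hu, hv, h1, h2⟩ := T.sepA ho hq hon hx hy ex ey
    refine h1 ((T.c_r hq).1 (e u v ⟨(T.c_r (Λ.beta hq)).2 ⟨hu, hv, h2 _ (Λ.beta hq) ?_⟩,
      (T.c_r (Λ.gamma hq)).2 ⟨hu, hv, h2 _ (Λ.gamma hq) ?_⟩⟩)).2.2
    · simp [lab, ex, ey, N5.p1]
    · simp [lab, ex, ey, N5.p2]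
  rw [infPrime_iff_infIrred]
  refine ⟨fun hm => hne (by rw [hm.eq_top]; exact le_top), fun Φ Ψ e => ?_⟩
  rcases T.above5 ho hq hon (e ▸ inf_le_left : T.c Y h ≤ Φ) with e1 | e1
  · exact .inl e1
  rcases T.above5 ho hq hon (e ▸ inf_le_right : T.c Y h ≤ Ψ) with e2 | e2
  · exact .inr e2
  exact absurd (e ▸ le_inf e1 e2) hne

theorem sep2 {Y : Finset X} (ho : Λ.o ∈ Y) {φ : X → Bool} (hq : Λ.Lab Y (lab φ))
    (hn : NonConst Y φ) {q : X → N5} (hq' : Λ.Lab Y q) (hi : (∃ ψ, q = lab ψ) ∨ Onto Y q)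
    (hle : T.c Y q ≤ T.c Y (lab φ)) :
    (∀ x ∈ Y, (q x).p1 = φ x) ∨ (∀ x ∈ Y, (q x).p2 = φ x) := by
  by_contra hc
  push Not at hc
  obtain ⟨⟨x1, hx1, e1⟩, ⟨x2, hx2, e2⟩⟩ := hc
  have key : ∀ x z, x ∈ Y → z ∈ Y →
      ((q x ≠ N5.a ∧ q z ≠ N5.a) ∨ (q x ≠ N5.b ∧ q z ≠ N5.b)) →
      ((q x).p1 ≠ φ x ∨ (q z).p1 ≠ φ z) → ((q x).p2 ≠ φ x ∨ (q z).p2 ≠ φ z) → False := by
    intro x z hx hz h1 h2 h3
    obtain ⟨u, v, hu, hv, k1, k2⟩ := T.sepZ ho hq hn hx hz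
    exact k1 ((T.c_r hq).1 (hle u v ((T.c_r hq').2 ⟨hu, hv, k2 q hq' h1 h2 h3⟩))).2.2
  rcases hi with ⟨ψ, rfl⟩ | ⟨-, -, z, hz, ez⟩
  · exact key x1 x2 hx1 hx2 (.inl ⟨lab_ne_a _ _, lab_ne_a _ _⟩) (.inl e1) (.inr e2)
  · have av : ∀ x, (q x ≠ N5.a ∧ q z ≠ N5.a) ∨ (q x ≠ N5.b ∧ q z ≠ N5.b) := by
      intro x
      rw [ez]
      cases q x <;> decide
    cases hφ : φ z
    · exact key x1 z hx1 hz (av _) (.inl e1) (.inr (by rw [ez, hφ]; decide))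
    · exact key x2 z hx2 hz (av _) (.inr (by rw [ez, hφ]; decide)) (.inl e2)

theorem sep5 {Y : Finset X} (ho : Λ.o ∈ Y) {h : X → N5} (hq : Λ.Lab Y h) (hon : Onto Y h)
    {q : X → N5} (hq' : Λ.Lab Y q) (hi : (∃ ψ, q = lab ψ) ∨ Onto Y q)
    (hle : T.c Y q ≤ T.c Y h) : ∀ x ∈ Y, q x = h x := by
  have k1 := T.sep2 ho (Λ.beta hq) hon.nonConst_beta hq' hi (hle.trans (T.c_le_beta hq))
  have k2 := T.sep2 ho (Λ.gamma hq) hon.nonConst_gamma hq' hi (hle.trans (T.c_le_gamma hq))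
  have key : ∀ x y, x ∈ Y → y ∈ Y → h x = N5.a → h y = N5.b → ¬ q y ≤ q x := by
    intro x y hx hy ex ey e
    obtain ⟨u, v, hu, hv, k1, k2⟩ := T.sepA ho hq hon hx hy ex ey
    exact k1 ((T.c_r hq).1 (hle u v ((T.c_r hq').2 ⟨hu, hv, k2 q hq' e⟩))).2.2
  obtain ⟨⟨x, hx, ex⟩, ⟨y, hy, ey⟩, -⟩ := id hon
  simp only [Function.comp] at k1 k2
  rcases k1 with k1 | k1 <;> rcases k2 with k2 | k2
  · have := (k1 x hx).symm.trans (k2 x hx)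
    rw [ex] at this
    exact absurd this (by decide)
  · intro w hw
    by_contra hne
    have a1 := k1 w hw
    have a2 := k2 w hw
    have a3 := k1 x hx
    have a4 := k2 x hx
    have a5 := k1 y hy
    have a6 := k2 y hy
    rw [ex] at a3 a4
    rw [ey] at a5 a6
    have hcase : (h w = N5.a ∧ q w = N5.b) ∨ (h w = N5.b ∧ q w = N5.a) := by
      revert hne a1 a2
      cases q w <;> cases h w <;> decide
    rcases hcase with ⟨b1, b2⟩ | ⟨b1, b2⟩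
    · apply key w y hw hy b1 ey
      rw [b2]
      revert a5 a6
      cases q y <;> decide
    · apply key x w hx hw ex b1
      rw [b2]
      revert a3 a4
      cases q x <;> decide
  · exfalso
    have a3 := k1 x hx
    have a4 := k2 x hx
    have a5 := k1 y hy
    have a6 := k2 y hy
    rw [ex] at a3 a4
    rw [ey] at a5 a6
    apply key x y hx hy ex ey
    revert a3 a4 a5 a6
    cases q x <;> cases q y <;> decide
  · have := (k1 x hx).symm.trans (k2 x hx)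
    rw [ex] at this
    exact absurd this (by decide)

/-- The pairs of `F` are all collapsed at `q`. -/
def Closed (F : Set (L × L)) (q : X → N5) : Prop := ∀ p ∈ F, T.con q p.1 p.2

theorem up_closed {Y : Finset X} (ho : Λ.o ∈ Y) {F : Set (L × L)}
    (hF : ∀ p ∈ F, p.1 ∈ T.S Y ∧ p.2 ∈ T.S Y) : UP Λ Y (T.Closed F) where
  loc hq hq' e h p hp := T.loc hq hq' e (hF p hp).1 (hF p hp).2 (h p hp)
  up_beta h p hp := T.up_beta (h p hp)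
  up_gamma h p hp := T.up_gamma (h p hp)
  up_delta hc h p hp := T.up_delta (hF p hp).1 (hF p hp).2 hc (h p hp)
  dist_c hq hc h1 h2 h3 p hp :=
    T.dist_c hq (hF p hp).1 (hF p hp).2 hc (h1 p hp) (h2 p hp) (h3 p hp)
  dist_ab hq hc h1 h2 p hp := T.dist_ab hq (hF p hp).1 (hF p hp).2 hc (h1 p hp) (h2 p hp)
  const hq hn p hp := T.const ho hq hn (hF p hp).1 (hF p hp).2

/-- Every local upward closed predicate is cut out by finitely many pairs. -/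
theorem real {Y : Finset X} (ho : Λ.o ∈ Y) {P : (X → N5) → Prop} (hP : UP Λ Y P) :
    ∃ G : Set (L × L), G.Finite ∧ (∀ p ∈ G, p.1 ∈ T.S Y ∧ p.2 ∈ T.S Y) ∧
      ∀ q, Λ.Lab Y q → (T.Closed G q ↔ P q) := by
  classical
  obtain ⟨Θ, h1, h2, -⟩ := T.exists_inf Y (fun q => P q ∧ ((∃ ψ, q = lab ψ) ∨ Onto Y q))
  have A : ∀ q, Λ.Lab Y q → P q → Θ ≤ T.c Y q := by
    intro q hq hp
    have hb := h1 _ (Λ.beta hq) ⟨hP.up_beta hp, .inl ⟨_, rfl⟩⟩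
    have hg := h1 _ (Λ.gamma hq) ⟨hP.up_gamma hp, .inl ⟨_, rfl⟩⟩
    by_cases hon : Onto Y q
    · exact h1 q hq ⟨hp, .inr hon⟩
    · rcases not_onto hon with e | e
      · exact (le_inf hb hg).trans (T.le_c_ab hq e)
      · exact (le_inf (le_inf hb hg)
          (h1 _ (Λ.delta hq e) ⟨hP.up_delta e hp, .inl ⟨_, rfl⟩⟩)).trans (T.le_c_c hq e)
  have B2 : ∀ φ : X → Bool, Λ.Lab Y (lab φ) → Θ ≤ T.c Y (lab φ) → P (lab φ) := by
    intro φ hq hle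
    by_cases hn : NonConst Y φ
    · obtain ⟨q, hq', ⟨hp, hi⟩, e⟩ := h2 _ (T.prime2 ho hq hn) hle
      rcases T.sep2 ho hq hn hq' hi e with k | k
      · exact hP.loc (Λ.beta hq') hq (fun x hx => lab_congr (k x hx)) (hP.up_beta hp)
      · exact hP.loc (Λ.gamma hq') hq (fun x hx => lab_congr (k x hx)) (hP.up_gamma hp)
    · exact hP.const hq hn
  have B : ∀ q, Λ.Lab Y q → Θ ≤ T.c Y q → P q := by
    intro q hq hle
    by_cases hon : Onto Y q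
    · obtain ⟨q', hq', ⟨hp, hi⟩, e⟩ := h2 _ (T.prime5 ho hq hon) hle
      exact hP.loc hq' hq (T.sep5 ho hq hon hq' hi e) hp
    · have hb := B2 _ (Λ.beta hq) (hle.trans (T.c_le_beta hq))
      have hg := B2 _ (Λ.gamma hq) (hle.trans (T.c_le_gamma hq))
      rcases not_onto hon with e | e
      · exact hP.dist_ab hq e hb hg
      · exact hP.dist_c hq e hb hg (B2 _ (Λ.delta hq e) (hle.trans (T.c_le_delta hq e)))
  have hex : ∀ θ ∈ {θ : CO (T.S Y) | θ ∈ Set.range (T.c Y) ∧ ¬ Θ ≤ θ},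
      ∃ p : L × L, Θ.r p.1 p.2 ∧ ¬ θ.r p.1 p.2 := by
    intro θ e
    have e' := e.2
    rw [CO.le_def] at e'
    push Not at e'
    obtain ⟨u, v, h⟩ := e'
    exact ⟨(u, v), h⟩
  choose f hf using hex
  refine ⟨{p | ∃ θ hθ, f θ hθ = p},
    Set.Finite.dependent_image ((T.finite_range Y).subset (fun θ e => e.1)) f, ?_, ?_⟩
  · rintro p ⟨θ, hθ, rfl⟩
    exact Θ.mem (hf θ hθ).1
  · intro q hq
    constructor
    · intro hG
      by_contra hp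
      have hθ : T.c Y q ∈ {θ : CO (T.S Y) | θ ∈ Set.range (T.c Y) ∧ ¬ Θ ≤ θ} :=
        ⟨⟨q, rfl⟩, fun e => hp (B q hq e)⟩
      have := hf _ hθ
      exact this.2 ((T.c_r hq).2 ⟨(Θ.mem this.1).1, (Θ.mem this.1).2, hG _ ⟨_, hθ, rfl⟩⟩)
    · rintro hp p ⟨θ, hθ, rfl⟩
      exact ((T.c_r hq).1 (A q hq hp _ _ (hf θ hθ).1)).2.2

end Sys

end Pool.Agent.P.MP_4a7a83_al.KS
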