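import Pool.Agent.P.MP_4a7a83_al.Abs

/-! Congruences of a block of a congruence in a modular lattice with a frame are determined by
their traces on one axis. -/

set_option autoImplicit false
set_option linter.unusedSectionVars false

namespace Pool.Agent.P.MP_4a7a83_al.KS

theorem _root_.Pool.Agent.P.MP_4a7a83_al.IsCong.sup {L : Type} [Lattice L] {r : L → L → Prop}
    (h : IsCong r) {a b c d : L} (h1 : r a b) (h2 : r c d) : r (a ⊔ c) (b ⊔ d) :=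
  (h.2 a b c d h1 h2).1

theorem _root_.Pool.Agent.P.MP_4a7a83_al.IsCong.inf {L : Type} [Lattice L] {r : L → L → Prop}
    (h : IsCong r) {a b c d : L} (h1 : r a b) (h2 : r c d) : r (a ⊓ c) (b ⊓ d) :=
  (h.2 a b c d h1 h2).2

theorem _root_.Pool.Agent.P.MP_4a7a83_al.IsCong.between {L : Type} [Lattice L] {r : L → L → Prop}
    (h : IsCong r) {a b c o : L} (h1 : r a o) (h2 : r b o) (hac : a ≤ c) (hcb : c ≤ b) :
    r c o := by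
  have e := h.inf (h.1.trans h1 (h.1.symm h2)) (h.1.refl c)
  rw [inf_eq_left.2 hac, inf_eq_right.2 hcb] at e
  exact h.1.trans (h.1.symm e) h1

variable {B : Type} [Lattice B] [BoundedOrder B] [IsModularLattice B]

theorem sup_inf_axis {e e' s w : B} (h : e ⊓ e' = ⊥) (hs : s ≤ e) (hw : w ≤ e') :
    (s ⊔ w) ⊓ e = s := by
  rw [sup_inf_assoc_of_le _ hs]
  refine sup_eq_left.2 (le_trans ?_ bot_le)
  rw [← h, inf_comm]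
  exact inf_le_inf_left _ hw

theorem indep {e e' s t w w' : B} (h : e ⊓ e' = ⊥) (hst : s ≤ t) (ht : t ≤ e) (hw : w ≤ w')
    (hw' : w' ≤ e') : (s ⊔ w') ⊓ (t ⊔ w) = s ⊔ w := by
  rw [sup_inf_assoc_of_le _ (hst.trans le_sup_left), inf_comm w', sup_comm t w,
    sup_inf_assoc_of_le _ hw]
  have : t ⊓ w' ≤ w := le_trans (by rw [← h]; exact inf_le_inf ht hw') bot_le
  rw [sup_eq_left.2 this]

/-- The sublattice `K` is the block of `o0 ⊔ o1` of the congruence `κ` inside a sublattice `D`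
that contains a frame. -/
structure Blk (K : Sublattice B) where
  D : Sublattice B
  κ : B → B → Prop
  cong : IsCong κ
  e0 : B
  e1 : B
  e2 : B
  o0 : B
  o1 : B
  m0 : e0 ∈ D
  m1 : e1 ∈ D
  m2 : e2 ∈ D
  mo0 : o0 ∈ D
  mo1 : o1 ∈ D
  i01 : e0 ⊓ e1 = ⊥
  i02 : e0 ⊓ e2 = ⊥
  i12 : e1 ⊓ e2 = ⊥
  s01 : e0 ⊔ e1 = ⊤
  s02 : e0 ⊔ e2 = ⊤
  s12 : e1 ⊔ e2 = ⊤
  le0 : o0 ≤ e0
  le1 : o1 ≤ e1
  diag : o0 ⊔ e2 = o1 ⊔ e2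
  mem : ∀ t, t ∈ K ↔ t ∈ D ∧ κ t (o0 ⊔ o1)

namespace Blk

variable {K : Sublattice B} (F : Blk K)

/-- The same block with the two axes exchanged. -/
def swap : Blk K where
  D := F.D
  κ := F.κ
  cong := F.cong
  e0 := F.e1
  e1 := F.e0
  e2 := F.e2
  o0 := F.o1
  o1 := F.o0
  m0 := F.m1
  m1 := F.m0
  m2 := F.m2
  mo0 := F.mo1
  mo1 := F.mo0
  i01 := by rw [inf_comm, F.i01]
  i02 := F.i12
  i12 := F.i02
  s01 := by rw [sup_comm, F.s01]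
  s02 := F.s12
  s12 := F.s02
  le0 := F.le1
  le1 := F.le0
  diag := F.diag.symm
  mem t := by rw [sup_comm, F.mem]

/-- The block on the first axis. -/
def C0 (s : B) : Prop := s ∈ F.D ∧ s ≤ F.e0 ∧ F.κ s F.o0

/-- The block on the second axis. -/
def C1 (s : B) : Prop := s ∈ F.D ∧ s ≤ F.e1 ∧ F.κ s F.o1

theorem i10 : F.e1 ⊓ F.e0 = ⊥ := by rw [inf_comm, F.i01]

theorem C0_o : F.C0 F.o0 := ⟨F.mo0, F.le0, F.cong.1.refl _⟩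

theorem C1_o : F.C1 F.o1 := ⟨F.mo1, F.le1, F.cong.1.refl _⟩

variable {F}

theorem C0.between {s t u : B} (hs : F.C0 s) (ht : F.C0 t) (hu : u ∈ F.D) (h1 : s ≤ u)
    (h2 : u ≤ t) : F.C0 u :=
  ⟨hu, h2.trans ht.2.1, F.cong.between hs.2.2 ht.2.2 h1 h2⟩

theorem C1.between {s t u : B} (hs : F.C1 s) (ht : F.C1 t) (hu : u ∈ F.D) (h1 : s ≤ u)
    (h2 : u ≤ t) : F.C1 u :=
  ⟨hu, h2.trans ht.2.1, F.cong.between hs.2.2 ht.2.2 h1 h2⟩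

theorem C1.sup {s t : B} (hs : F.C1 s) (ht : F.C1 t) : F.C1 (s ⊔ t) :=
  ⟨F.D.supClosed hs.1 ht.1, sup_le hs.2.1 ht.2.1, by
    have := F.cong.sup hs.2.2 ht.2.2
    rwa [sup_idem] at this⟩

theorem mem_sup {s w : B} (hs : F.C0 s) (hw : F.C1 w) : s ⊔ w ∈ K :=
  (F.mem _).2 ⟨F.D.supClosed hs.1 hw.1, F.cong.sup hs.2.2 hw.2.2⟩

theorem mem_between {s t u : B} (hs : s ∈ K) (ht : t ∈ K) (hu : u ∈ F.D) (h1 : s ≤ u)
    (h2 : u ≤ t) : u ∈ K :=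
  (F.mem _).2 ⟨hu, F.cong.between ((F.mem _).1 hs).2 ((F.mem _).1 ht).2 h1 h2⟩

theorem C0_inf {u : B} (hu : u ∈ K) : F.C0 (u ⊓ F.e0) := by
  have h := (F.mem _).1 hu
  refine ⟨F.D.infClosed h.1 F.m0, inf_le_right, ?_⟩
  have := F.cong.inf h.2 (F.cong.1.refl F.e0)
  rwa [sup_inf_axis F.i01 F.le0 F.le1] at this

theorem C1_pr {u : B} (hu : u ∈ K) : F.C1 ((u ⊔ F.e0) ⊓ F.e1) := by
  have h := (F.mem _).1 hu
  refine ⟨F.D.infClosed (F.D.supClosed h.1 F.m0) F.m1, inf_le_right, ?_⟩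
  have := F.cong.inf (F.cong.sup h.2 (F.cong.1.refl F.e0)) (F.cong.1.refl F.e1)
  rwa [sup_comm F.o0, sup_assoc, sup_eq_right.2 F.le0, sup_inf_axis F.i10 F.le1 le_rfl] at this

theorem C1_ax {s : B} (hs : F.C0 s) : F.C1 ((s ⊔ F.e2) ⊓ F.e1) := by
  refine ⟨F.D.infClosed (F.D.supClosed hs.1 F.m2) F.m1, inf_le_right, ?_⟩
  have := F.cong.inf (F.cong.sup hs.2.2 (F.cong.1.refl F.e2)) (F.cong.1.refl F.e1)
  rwa [F.diag, sup_inf_axis F.i12 F.le1 le_rfl] at this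

theorem C0_ax {s : B} (hs : F.C1 s) : F.C0 ((s ⊔ F.e2) ⊓ F.e0) := C1_ax (F := F.swap) hs

theorem ax_sup (F : Blk K) (s : B) : (s ⊔ F.e2) ⊓ F.e1 ⊔ F.e2 = s ⊔ F.e2 := by
  rw [sup_comm _ F.e2, inf_comm, ← sup_inf_assoc_of_le _ (le_sup_right : F.e2 ≤ s ⊔ F.e2),
    sup_comm F.e2 F.e1, F.s12, top_inf_eq]

theorem ax_ax (F : Blk K) {s : B} (hs : s ≤ F.e0) : ((s ⊔ F.e2) ⊓ F.e1 ⊔ F.e2) ⊓ F.e0 = s := by
  rw [F.ax_sup, sup_inf_axis F.i02 hs le_rfl]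

variable (Φ : CO K)

/-- The second coordinate does not matter. -/
theorem shift {s t w w' : B} (hs : F.C0 s) (ht : F.C0 t) (hst : s ≤ t) (hw : F.C1 w)
    (hw' : F.C1 w') (h : Φ.r (s ⊔ w) (t ⊔ w)) : Φ.r (s ⊔ w') (t ⊔ w') := by
  have h1 := Φ.inf (Φ.sup h (mem_sup hs (hw.sup hw'))) (mem_sup ht hw')
  have e1 : s ⊔ w ⊔ (s ⊔ (w ⊔ w')) = s ⊔ (w ⊔ w') :=
    sup_eq_right.2 (sup_le_sup_left le_sup_left _)
  have e2 : (t ⊔ w ⊔ (s ⊔ (w ⊔ w'))) ⊓ (t ⊔ w') = t ⊔ w' :=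
    inf_eq_right.2 (sup_le (le_sup_left.trans le_sup_left)
      (le_sup_right.trans (le_sup_right.trans le_sup_right)))
  rwa [e1, e2, indep F.i01 hst ht.2.1 le_sup_right (hw.sup hw').2.1] at h1

theorem shift' {s t w w' : B} (hs : F.C1 s) (ht : F.C1 t) (hst : s ≤ t) (hw : F.C0 w)
    (hw' : F.C0 w') (h : Φ.r (w ⊔ s) (w ⊔ t)) : Φ.r (w' ⊔ s) (w' ⊔ t) := by
  rw [sup_comm w, sup_comm w] at h
  rw [sup_comm w', sup_comm w']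
  exact shift (F := F.swap) Φ hs ht hst hw hw' h

/-- Domination along the graph of an injective total relation. -/
theorem graph {s t s' t' S : B} (hs : F.C0 s) (ht : F.C0 t) (hst : s ≤ t) (hs' : F.C1 s')
    (ht' : F.C1 t') (hst' : s' ≤ t') (hS : S ∈ F.D) (h1 : s ⊔ s' ≤ S) (h2 : S ≤ t ⊔ t')
    (g1 : Φ.r (S ⊔ t') (t ⊔ t')) (g2 : Φ.r (S ⊓ (t ⊔ s')) (s ⊔ s'))
    (h : Φ.r (F.o0 ⊔ s') (F.o0 ⊔ t')) : Φ.r (s ⊔ F.o1) (t ⊔ F.o1) := by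
  have hK : S ∈ K := mem_between (mem_sup hs hs') (mem_sup ht ht') hS h1 h2
  have k1 := Φ.sup' (shift' Φ hs' ht' hst' F.C0_o hs h) hK
  rw [sup_eq_left.2 h1, ← sup_assoc, sup_eq_left.2 (le_sup_left.trans h1)] at k1
  have k2 := Φ.inf (Φ.trans k1 g1) (mem_sup ht hs')
  rw [inf_eq_right.2 (sup_le_sup_left hst' t)] at k2
  exact shift Φ hs ht hst hs' F.C1_o (Φ.trans (Φ.symm g2) k2)

theorem axis {s t : B} (hs : F.C0 s) (ht : F.C0 t) (hst : s ≤ t)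
    (h : Φ.r (F.o0 ⊔ (s ⊔ F.e2) ⊓ F.e1) (F.o0 ⊔ (t ⊔ F.e2) ⊓ F.e1)) :
    Φ.r (s ⊔ F.o1) (t ⊔ F.o1) := by
  have hs' := C1_ax hs
  have ht' := C1_ax ht
  have hst' : (s ⊔ F.e2) ⊓ F.e1 ≤ (t ⊔ F.e2) ⊓ F.e1 :=
    inf_le_inf_right _ (sup_le_sup_right hst _)
  have es := F.ax_sup s
  have et := F.ax_sup t
  generalize (s ⊔ F.e2) ⊓ F.e1 = s' at *
  generalize (t ⊔ F.e2) ⊓ F.e1 = t' at *
  refine graph Φ hs ht hst hs' ht' hst' (S := (s ⊔ s') ⊔ F.e2 ⊓ (t ⊔ t'))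
    (F.D.supClosed (F.D.supClosed hs.1 hs'.1) (F.D.infClosed F.m2 (F.D.supClosed ht.1 ht'.1)))
    le_sup_left (sup_le (sup_le_sup hst hst') inf_le_right) ?_ ?_ h
  · have : (s ⊔ s') ⊔ F.e2 ⊓ (t ⊔ t') ⊔ t' = t ⊔ t' := by
      refine le_antisymm (sup_le (sup_le (sup_le_sup hst hst') inf_le_right) le_sup_right)
        (sup_le ?_ le_sup_right)
      have : t ≤ t' ⊔ F.e2 ⊓ (t ⊔ t') := by
        rw [← sup_inf_assoc_of_le _ (le_sup_right : t' ≤ t ⊔ t'), et]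
        exact le_inf le_sup_left le_sup_left
      exact this.trans (sup_le le_sup_right (le_sup_right.trans le_sup_left))
    rw [this]
    exact Φ.refl (mem_sup ht ht')
  · have : ((s ⊔ s') ⊔ F.e2 ⊓ (t ⊔ t')) ⊓ (t ⊔ s') = s ⊔ s' := by
      refine le_antisymm ?_ (le_inf le_sup_left (sup_le_sup_right hst _))
      have a1 : (s ⊔ s') ⊔ F.e2 ⊓ (t ⊔ t') ≤ s' ⊔ F.e2 :=
        sup_le (sup_le (es ▸ le_sup_left) le_sup_left) (inf_le_left.trans le_sup_right)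
      refine (inf_le_inf_right _ a1).trans ?_
      rw [inf_comm, sup_comm t s', sup_inf_assoc_of_le _ (le_sup_left : s' ≤ s' ⊔ F.e2), es,
        sup_comm s s']
      refine sup_le_sup_left ?_ _
      exact (inf_le_inf_right _ ht.2.1).trans
        (by rw [inf_comm, sup_inf_axis F.i02 hs.2.1 le_rfl])
    rw [this]
    exact Φ.refl (mem_sup hs hs')

theorem axis' {s t : B} (hs : F.C1 s) (ht : F.C1 t) (hst : s ≤ t)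
    (h : Φ.r ((s ⊔ F.e2) ⊓ F.e0 ⊔ F.o1) ((t ⊔ F.e2) ⊓ F.e0 ⊔ F.o1)) :
    Φ.r (F.o0 ⊔ s) (F.o0 ⊔ t) := by
  rw [sup_comm _ F.o1, sup_comm _ F.o1] at h
  rw [sup_comm F.o0, sup_comm F.o0]
  exact axis (F := F.swap) Φ hs ht hst h

theorem axis_iff {s t : B} (hs : F.C0 s) (ht : F.C0 t) (hst : s ≤ t) :
    Φ.r (F.o0 ⊔ (s ⊔ F.e2) ⊓ F.e1) (F.o0 ⊔ (t ⊔ F.e2) ⊓ F.e1) ↔ Φ.r (s ⊔ F.o1) (t ⊔ F.o1) := by
  refine ⟨axis Φ hs ht hst, fun h => axis' Φ (C1_ax hs) (C1_ax ht)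
    (inf_le_inf_right _ (sup_le_sup_right hst _)) ?_⟩
  rwa [F.ax_ax hs.2.1, F.ax_ax ht.2.1]

theorem axis_iff' {s t : B} (hs : F.C1 s) (ht : F.C1 t) (hst : s ≤ t) :
    Φ.r ((s ⊔ F.e2) ⊓ F.e0 ⊔ F.o1) ((t ⊔ F.e2) ⊓ F.e0 ⊔ F.o1) ↔ Φ.r (F.o0 ⊔ s) (F.o0 ⊔ t) := by
  rw [sup_comm _ F.o1, sup_comm _ F.o1, sup_comm F.o0, sup_comm F.o0]
  exact axis_iff (F := F.swap) Φ hs ht hst

theorem split {u v : B} (hu : u ∈ K) (hv : v ∈ K) (huv : u ≤ v) :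
    Φ.r u v ↔ Φ.r (u ⊓ F.e0 ⊔ F.o1) (v ⊓ F.e0 ⊔ F.o1) ∧
      Φ.r (F.o0 ⊔ (u ⊔ F.e0) ⊓ F.e1) (F.o0 ⊔ (v ⊔ F.e0) ⊓ F.e1) := by
  have hm : F.C1 (u ⊓ F.e1) := C0_inf (F := F.swap) hu
  have hM : F.C0 ((v ⊔ F.e1) ⊓ F.e0) := C1_pr (F := F.swap) hv
  have hD := mem_sup hM hm
  have e1 : ∀ w, u ≤ w → w ≤ v →
      w ⊓ ((v ⊔ F.e1) ⊓ F.e0 ⊔ u ⊓ F.e1) = w ⊓ F.e0 ⊔ u ⊓ F.e1 := by
    intro w h1 h2
    rw [inf_comm w, sup_comm _ (u ⊓ F.e1), sup_inf_assoc_of_le _ (inf_le_left.trans h1),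
      sup_comm, inf_assoc, inf_eq_right.2 (inf_le_right.trans (h2.trans le_sup_left)),
      inf_comm F.e0]
  have e2 : ∀ w, u ≤ w → w ≤ v →
      w ⊔ ((v ⊔ F.e1) ⊓ F.e0 ⊔ u ⊓ F.e1) = (v ⊔ F.e1) ⊓ F.e0 ⊔ (w ⊔ F.e0) ⊓ F.e1 := by
    intro w h1 h2
    have a1 : w ⊔ (v ⊔ F.e1) ⊓ F.e0 = (w ⊔ F.e0) ⊓ (v ⊔ F.e1) := by
      rw [sup_inf_assoc_of_le _ (h2.trans le_sup_left), inf_comm F.e0]
    have a2 : (v ⊔ F.e1) ⊓ F.e0 ⊔ (w ⊔ F.e0) ⊓ F.e1 = (w ⊔ F.e0) ⊓ (v ⊔ F.e1) := by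
      rw [sup_comm, inf_comm (v ⊔ F.e1),
        ← sup_inf_assoc_of_le _ (inf_le_right.trans le_sup_right : (w ⊔ F.e0) ⊓ F.e1 ≤ v ⊔ F.e1),
        sup_comm _ F.e0, inf_comm (w ⊔ F.e0) F.e1,
        ← sup_inf_assoc_of_le _ (le_sup_right : F.e0 ≤ w ⊔ F.e0), F.s01, top_inf_eq]
    rw [sup_comm _ (u ⊓ F.e1), ← sup_assoc, sup_eq_left.2 (inf_le_left.trans h1), a1, a2]
  have b1 : u ⊓ F.e0 ≤ v ⊓ F.e0 := inf_le_inf_right _ huv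
  have b2 : (u ⊔ F.e0) ⊓ F.e1 ≤ (v ⊔ F.e0) ⊓ F.e1 := inf_le_inf_right _ (sup_le_sup_right huv _)
  constructor
  · intro h
    have k1 := Φ.inf h hD
    have k2 := Φ.sup h hD
    rw [e1 u le_rfl huv, e1 v huv le_rfl] at k1
    rw [e2 u le_rfl huv, e2 v huv le_rfl] at k2
    exact ⟨shift Φ (C0_inf hu) (C0_inf hv) b1 hm F.C1_o k1,
      shift' Φ (C1_pr hu) (C1_pr hv) b2 hM F.C0_o k2⟩
  · rintro ⟨h1, h2⟩
    have k1 := shift Φ (C0_inf hu) (C0_inf hv) b1 F.C1_o hm h1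
    have k2 := shift' Φ (C1_pr hu) (C1_pr hv) b2 F.C0_o hM h2
    rw [← e1 u le_rfl huv, ← e1 v huv le_rfl] at k1
    rw [← e2 u le_rfl huv, ← e2 v huv le_rfl] at k2
    generalize (v ⊔ F.e1) ⊓ F.e0 ⊔ u ⊓ F.e1 = d at *
    have c1 := Φ.sup' k1 hu
    have c2 := Φ.inf k2 hv
    rw [sup_inf_self, inf_comm v d, ← sup_inf_assoc_of_le _ huv] at c1
    rw [inf_eq_right.2 (le_sup_left : v ≤ v ⊔ d)] at c2
    exact Φ.trans c1 c2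

/-- A property of congruences tested on the first axis: two congruences of the block are
comparable at a pair as soon as they are comparable on the pairs of the first axis. -/
theorem reduce {u v : B} (hu : u ∈ K) (hv : v ∈ K) :
    ∃ s t s' t', F.C0 s ∧ F.C0 t ∧ s ≤ t ∧ F.C0 s' ∧ F.C0 t' ∧ s' ≤ t' ∧ ∀ Ψ : CO K,
      (Ψ.r u v ↔ Ψ.r (s ⊔ F.o1) (t ⊔ F.o1) ∧ Ψ.r (s' ⊔ F.o1) (t' ⊔ F.o1)) := by
  have h1 : u ⊓ v ∈ K := K.infClosed hu hv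
  have h2 : u ⊔ v ∈ K := K.supClosed hu hv
  have h3 : u ⊓ v ≤ u ⊔ v := inf_le_sup
  have b2 : (u ⊓ v ⊔ F.e0) ⊓ F.e1 ≤ (u ⊔ v ⊔ F.e0) ⊓ F.e1 :=
    inf_le_inf_right _ (sup_le_sup_right h3 _)
  refine ⟨_, _, _, _, C0_inf h1, C0_inf h2, inf_le_inf_right _ h3, C0_ax (C1_pr h1),
    C0_ax (C1_pr h2), inf_le_inf_right _ (sup_le_sup_right b2 _), fun Ψ => ?_⟩
  rw [axis_iff' Ψ (C1_pr h1) (C1_pr h2) b2, ← split Ψ h1 h2 h3]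
  exact ⟨Ψ.inf_sup, Ψ.of_inf_sup hu hv⟩

end Blk

end Pool.Agent.P.MP_4a7a83_al.KS
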