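import Pool.Agent.P.MP_4a7a83_al.LatCon

/-! Quotients, compact congruences, free lattices of a finitely generated variety, and the
reduction of the problem to a construction over free lattices. -/

namespace Pool.Agent.P.MP_4a7a83_al.LE

variable {L : Type} [Lattice L]

/-- finitely generated congruences -/
def IsFG (r : L → L → Prop) : Prop :=
  ∃ F : Set (L × L), F.Finite ∧
    ∀ a b : L, r a b ↔ ∀ s : L → L → Prop, IsCon s → (∀ p ∈ F, s p.1 p.2) → s a b

namespace Con

/-- the congruence generated by a set of pairs -/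
def gen (F : Set (L × L)) : Con L := sInf {s | ∀ p ∈ F, s.1 p.1 p.2}

theorem gen_le_iff {F : Set (L × L)} {s : Con L} : gen F ≤ s ↔ ∀ p ∈ F, s.1 p.1 p.2 :=
  ⟨fun h p hp => h _ _ fun _ ht => ht p hp, fun h => sInf_le h⟩

theorem isFG_iff {α : Con L} : IsFG α.1 ↔ ∃ F : Set (L × L), F.Finite ∧ α = gen F := by
  refine exists_congr fun F => and_congr_right fun _ => ⟨fun h => ext' fun a b => ?_, ?_⟩
  · rw [h]
    exact ⟨fun h s hs => h s.1 s.2 hs, fun h s hs hF => h ⟨s, hs⟩ hF⟩
  · rintro rfl a b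
    exact ⟨fun h s hs hF => h ⟨s, hs⟩ hF, fun h s hs => h s.1 s.2 hs⟩

theorem isFG_iff_compact {α : Con L} : IsFG α.1 ↔ IsCompactElement α := by
  rw [isFG_iff]
  constructor
  · rintro ⟨F, hF, rfl⟩ S u hne hd hu hle
    have e : u = dirUnion S hne hd := hu.unique (isLUB_dirUnion S hne hd)
    subst e
    rw [gen_le_iff] at hle
    simp only [gen_le_iff]
    induction F, hF using Set.Finite.induction_on with
    | empty =>
      obtain ⟨r, hr⟩ := hne
      exact ⟨r, hr, by simp⟩
    | @insert p F _ _ ih =>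
      obtain ⟨r, hr, h1⟩ := ih fun p hp => hle p (Or.inr hp)
      obtain ⟨s, hs, h2⟩ := hle p (Or.inl rfl)
      obtain ⟨t, ht, h3, h4⟩ := hd r hr s hs
      refine ⟨t, ht, ?_⟩
      rintro p (rfl | hp)
      · exact h4 _ _ h2
      · exact h3 _ _ (h1 p hp)
  · intro h
    obtain ⟨_, ⟨F, hF, hFα, rfl⟩, hle⟩ :=
      h {β | ∃ F : Set (L × L), F.Finite ∧ gen F ≤ α ∧ β = gen F} α
        ⟨_, ∅, Set.finite_empty, gen_le_iff.2 (by simp), rfl⟩
        (by
          rintro _ ⟨F, hF, h1, rfl⟩ _ ⟨G, hG, h2, rfl⟩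
          refine ⟨gen (F ∪ G), ⟨F ∪ G, hF.union hG, ?_, rfl⟩, ?_, ?_⟩
          · rw [gen_le_iff] at *
            rintro p (hp | hp)
            exacts [h1 p hp, h2 p hp]
          · exact gen_le_iff.2 fun p hp => gen_le_iff.1 le_rfl p (Or.inl hp)
          · exact gen_le_iff.2 fun p hp => gen_le_iff.1 le_rfl p (Or.inr hp))
        ⟨by
          rintro _ ⟨F, _, h1, rfl⟩
          exact h1, fun u hu a b hab => by
          have h1 : gen {(a, b)} ≤ u :=
            hu ⟨_, Set.finite_singleton _, gen_le_iff.2 (by simpa using hab), rfl⟩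
          exact gen_le_iff.1 h1 (a, b) rfl⟩ le_rfl
    exact ⟨F, hF, le_antisymm hle hFα⟩

variable {M : Type} [Lattice M]

/-- pull back of a congruence -/
def comap (f : LatticeHom L M) (r : Con M) : Con L :=
  ⟨fun a b => r.1 (f a) (f b), ⟨⟨fun _ => r.refl _, r.symm, r.trans⟩, fun a b c d h h' => by
    simp only [map_sup, map_inf]
    exact ⟨r.sup h h', r.inf h h'⟩⟩⟩

theorem comap_iff {f : LatticeHom L M} {r : Con M} {a b : L} :
    (comap f r).1 a b ↔ r.1 (f a) (f b) := Iff.rfl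

/-- correspondence theorem -/
theorem iso_Ici (f : LatticeHom L M) (hf : Function.Surjective f) :
    Nonempty (Con M ≃o Set.Ici (ker f)) := by
  have hk : ∀ r : Con M, ker f ≤ comap f r := fun r a b h => r.of_eq h
  refine ⟨RelIso.ofSurjective (OrderEmbedding.ofMapLEIff
    (fun r : Con M => (⟨comap f r, hk r⟩ : Set.Ici (ker f))) fun r s => ?_) ?_⟩
  · constructor
    · intro h a b hab
      obtain ⟨a, rfl⟩ := hf a
      obtain ⟨b, rfl⟩ := hf b
      exact h a b hab
    · intro h a b hab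
      exact h _ _ hab
  · rintro ⟨s, hs⟩
    choose g hg using id hf
    have hgf : ∀ a, s.1 (g (f a)) a := fun a => hs _ _ (hg _)
    refine ⟨⟨fun a b => s.1 (g a) (g b), ⟨fun _ => s.refl _, s.symm, s.trans⟩,
      fun a b c d h h' => ⟨?_, ?_⟩⟩, Subtype.ext (ext' fun a b => ?_)⟩
    · have h1 : ∀ a c, s.1 (g (a ⊔ c)) (g a ⊔ g c) := fun a c => hs _ _ (by simp [ker_iff, hg])
      exact s.trans (h1 a c) (s.trans (s.sup h h') (s.symm (h1 b d)))
    · have h1 : ∀ a c, s.1 (g (a ⊓ c)) (g a ⊓ g c) := fun a c => hs _ _ (by simp [ker_iff, hg])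
      exact s.trans (h1 a c) (s.trans (s.inf h h') (s.symm (h1 b d)))
    · exact ⟨fun h => s.trans (s.symm (hgf a)) (s.trans h (hgf b)),
        fun h => s.trans (hgf a) (s.trans h (s.symm (hgf b)))⟩

/-- the quotient by a congruence -/
def Quo (α : Con L) : Type := Quotient ⟨α.1, α.2.1⟩

instance (α : Con L) : Max (Quo α) :=
  ⟨Quotient.map₂ (· ⊔ ·) fun _ _ h _ _ h' => α.sup h h'⟩

instance (α : Con L) : Min (Quo α) :=
  ⟨Quotient.map₂ (· ⊓ ·) fun _ _ h _ _ h' => α.inf h h'⟩

instance (α : Con L) : Lattice (Quo α) :=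
  Lattice.mk'
    (fun a b => Quotient.inductionOn₂ a b fun a b => congrArg (Quotient.mk _) (sup_comm a b))
    (fun a b c => Quotient.inductionOn₃ a b c fun a b c =>
      congrArg (Quotient.mk _) (sup_assoc a b c))
    (fun a b => Quotient.inductionOn₂ a b fun a b => congrArg (Quotient.mk _) (inf_comm a b))
    (fun a b c => Quotient.inductionOn₃ a b c fun a b c =>
      congrArg (Quotient.mk _) (inf_assoc a b c))
    (fun a b => Quotient.inductionOn₂ a b fun _ _ => congrArg (Quotient.mk _) sup_inf_self)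
    (fun a b => Quotient.inductionOn₂ a b fun _ _ => congrArg (Quotient.mk _) inf_sup_self)

/-- the projection onto the quotient -/
def mkQ (α : Con L) : LatticeHom L (Quo α) where
  toFun := Quotient.mk _
  map_sup' _ _ := rfl
  map_inf' _ _ := rfl

theorem mkQ_surj (α : Con L) : Function.Surjective (mkQ α) := Quotient.mk_surjective

theorem ker_mkQ (α : Con L) : ker (mkQ α) = α := ext' fun _ _ => Quotient.eq (r := ⟨α.1, α.2.1⟩)

end Con

theorem modular_of_surj {A B : Type} [Lattice A] [Lattice B] (f : LatticeHom A B)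
    (hf : Function.Surjective f) (h : IsModularLattice A) : IsModularLattice B := by
  refine ⟨fun {x} y {z} hxz => ?_⟩
  obtain ⟨x, rfl⟩ := hf x
  obtain ⟨y, rfl⟩ := hf y
  obtain ⟨z, rfl⟩ := hf z
  have h1 := OrderHomClass.mono f
    (h.sup_inf_le_assoc_of_le y (inf_le_right : x ⊓ z ≤ z))
  simp only [map_sup, map_inf] at h1
  rwa [inf_eq_left.2 hxz] at h1

theorem modular_of_inj {A B : Type} [Lattice A] [Lattice B] (f : LatticeHom A B)
    (hf : Function.Injective f) (h : IsModularLattice B) : IsModularLattice A := by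
  refine ⟨fun {x} y {z} hxz => ?_⟩
  have h1 := h.sup_inf_le_assoc_of_le (f y) (OrderHomClass.mono f hxz)
  rw [← inf_eq_left] at h1 ⊢
  apply hf
  simpa only [map_sup, map_inf] using h1

theorem modular_pi {I : Type} (A : I → Type) [∀ i, Lattice (A i)]
    (h : ∀ i, IsModularLattice (A i)) : IsModularLattice (∀ i, A i) :=
  ⟨fun y _ hxz i => (h i).sup_inf_le_assoc_of_le (y i) (hxz i)⟩

/-- isomorphic congruence lattices give isomorphic semilattices of compact congruences -/
theorem conc_iso {M : Type} [Lattice M] (e : Con L ≃o Con M) :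
    Nonempty ({r : L → L → Prop // IsCon r ∧ IsFG r} ≃o {r : M → M → Prop // IsCon r ∧ IsFG r}) := by
  have key : ∀ {L M : Type} [Lattice L] [Lattice M] (e : Con L ≃o Con M) (α : Con L),
      IsFG α.1 → IsFG (e α).1 := by
    intro L M _ _ e α h
    rw [Con.isFG_iff_compact] at h ⊢
    intro S u hne hd hu hle
    obtain ⟨_, ⟨x, hx, rfl⟩, h1⟩ := h (e.symm '' S) (e.symm u) (hne.image _)
      (hd.mono_comp e.symm.monotone) (e.symm.isLUB_image'.2 hu) (e.le_symm_apply.2 hle)
    exact ⟨x, hx, e.le_symm_apply.1 h1⟩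
  refine ⟨Equiv.toOrderIso
    { toFun := fun r => ⟨(e ⟨r.1, r.2.1⟩).1, (e ⟨r.1, r.2.1⟩).2, key e _ r.2.2⟩
      invFun := fun r => ⟨(e.symm ⟨r.1, r.2.1⟩).1, (e.symm ⟨r.1, r.2.1⟩).2, key e.symm _ r.2.2⟩
      left_inv := fun r => Subtype.ext
        (congrArg (fun α : Con L => α.1) (e.symm_apply_apply ⟨r.1, r.2.1⟩))
      right_inv := fun r => Subtype.ext
        (congrArg (fun α : Con M => α.1) (e.apply_symm_apply ⟨r.1, r.2.1⟩)) }
    (fun r s h => e.monotone (show (⟨r.1, r.2.1⟩ : Con L) ≤ ⟨s.1, s.2.1⟩ from h))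
    (fun r s h => e.symm.monotone (show (⟨r.1, r.2.1⟩ : Con M) ≤ ⟨s.1, s.2.1⟩ from h))⟩

/-- images of a lattice whose congruence lattice is that of a modular lattice -/
theorem image_iso {F M : Type} [Lattice F] [Lattice M] (f : LatticeHom F L)
    (hf : Function.Surjective f) (hM : IsModularLattice M) (e : Con F ≃o Con M) :
    ∃ (M' : Type) (_ : Lattice M'), IsModularLattice M' ∧ Nonempty (Con L ≃o Con M') := by
  obtain ⟨e1⟩ := Con.iso_Ici f hf
  obtain ⟨e2⟩ := Con.iso_Ici (Con.mkQ (e (Con.ker f))) (Con.mkQ_surj _)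
  rw [Con.ker_mkQ] at e2
  exact ⟨Con.Quo (e (Con.ker f)), inferInstance, modular_of_surj _ (Con.mkQ_surj _) hM,
    ⟨e1.trans ((e.Ici _).trans e2.symm)⟩⟩

section Free

variable (N : Type) [Lattice N] (Y : Type)

/-- the free lattice on `Y` of the variety generated by `N`: term functions -/
def Free : Sublattice ((Y → N) → N) :=
  ⟨latticeClosure (Set.range fun y q => q y), isSublattice_latticeClosure.supClosed,
    isSublattice_latticeClosure.infClosed⟩

variable {N Y}

/-- the free generators -/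
def gen (y : Y) : Free N Y := ⟨fun q => q y, subset_latticeClosure ⟨y, rfl⟩⟩

theorem Free.ind {p : Free N Y → Prop} (h0 : ∀ y, p (gen y)) (hs : ∀ u v, p u → p v → p (u ⊔ v))
    (hi : ∀ u v, p u → p v → p (u ⊓ v)) (u : Free N Y) : p u := by
  obtain ⟨u, hu⟩ := u
  induction hu using latticeClosure_sup_inf_induction with
  | mem a ha =>
    obtain ⟨y, rfl⟩ := ha
    exact h0 y
  | sup a ha b hb h1 h2 => exact hs ⟨a, ha⟩ ⟨b, hb⟩ h1 h2
  | inf a ha b hb h1 h2 => exact hi ⟨a, ha⟩ ⟨b, hb⟩ h1 h2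

/-- evaluation at a point -/
def ev (q : Y → N) : LatticeHom (Free N Y) N where
  toFun u := u.1 q
  map_sup' _ _ := rfl
  map_inf' _ _ := rfl

@[simp] theorem ev_gen (q : Y → N) (y : Y) : ev q (gen y) = q y := rfl

/-- the kernel of a point -/
def kap (q : Y → N) : Con (Free N Y) := Con.ker (ev q)

theorem kap_iff {q : Y → N} {u v : Free N Y} : (kap q).1 u v ↔ ev q u = ev q v := Iff.rfl

theorem hom_eq_ev (f : LatticeHom (Free N Y) N) (u : Free N Y) :
    f u = ev (fun y => f (gen y)) u := by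
  induction u using Free.ind with
  | h0 y => rfl
  | hs u v h1 h2 => rw [map_sup, map_sup, h1, h2]
  | hi u v h1 h2 => rw [map_inf, map_inf, h1, h2]

/-- sets of points that depend on finitely many coordinates -/
def FinSupp (S : Set (Y → N)) : Prop :=
  ∃ Y0 : Set Y, Y0.Finite ∧ ∀ q q' : Y → N, (∀ y ∈ Y0, q y = q' y) → q ∈ S → q' ∈ S

theorem ev_supp (u : Free N Y) :
    ∃ Y0 : Set Y, Y0.Finite ∧ ∀ q q' : Y → N, (∀ y ∈ Y0, q y = q' y) → ev q u = ev q' u := by
  induction u using Free.ind with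
  | h0 y => exact ⟨{y}, Set.finite_singleton y, fun q q' h => h y rfl⟩
  | hs u v h1 h2 =>
    obtain ⟨A, hA, h1⟩ := h1
    obtain ⟨B, hB, h2⟩ := h2
    refine ⟨A ∪ B, hA.union hB, fun q q' h => ?_⟩
    rw [map_sup, map_sup, h1 q q' fun y hy => h y (Or.inl hy), h2 q q' fun y hy => h y (Or.inr hy)]
  | hi u v h1 h2 =>
    obtain ⟨A, hA, h1⟩ := h1
    obtain ⟨B, hB, h2⟩ := h2
    refine ⟨A ∪ B, hA.union hB, fun q q' h => ?_⟩
    rw [map_inf, map_inf, h1 q q' fun y hy => h y (Or.inl hy), h2 q q' fun y hy => h y (Or.inr hy)]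

theorem finSupp_kap (u v : Free N Y) : FinSupp {q | (kap q).1 u v} := by
  obtain ⟨A, hA, h1⟩ := ev_supp u
  obtain ⟨B, hB, h2⟩ := ev_supp v
  refine ⟨A ∪ B, hA.union hB, fun q q' h hq => ?_⟩
  simp only [Set.mem_ofPred_eq, kap_iff] at hq ⊢
  rw [← h1 q q' fun y hy => h y (Or.inl hy), ← h2 q q' fun y hy => h y (Or.inr hy), hq]

variable [Finite N]

omit [Lattice N] in
theorem exists_lim (U : Ultrafilter (Y → N)) (y : Y) : ∃ n, {q | q y = n} ∈ U := by
  have h : (⋃ n ∈ (Set.univ : Set N), {q : Y → N | q y = n}) ∈ U := by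
    refine Filter.univ_mem' fun q => ?_
    simp
  obtain ⟨n, -, hn⟩ := (Ultrafilter.finite_biUnion_mem_iff Set.finite_univ).1 h
  exact ⟨n, hn⟩

/-- the limit point of an ultrafilter of points -/
noncomputable def plim (U : Ultrafilter (Y → N)) : Y → N := fun y => (exists_lim U y).choose

omit [Lattice N] in
theorem FinSupp.plim_iff {S : Set (Y → N)} (h : FinSupp S) (U : Ultrafilter (Y → N)) :
    plim U ∈ S ↔ S ∈ U := by
  obtain ⟨A, hA, h⟩ := h
  have hT : (⋂ y ∈ A, {q : Y → N | q y = plim U y}) ∈ U :=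
    (Filter.biInter_mem hA).2 fun y _ => (exists_lim U y).choose_spec
  constructor
  · intro hS
    refine Filter.mem_of_superset hT fun q hq => h _ q (fun y hy => ?_) hS
    exact (Set.mem_iInter₂.1 hq y hy).symm
  · intro hS
    obtain ⟨q, hq, hqS⟩ := Ultrafilter.nonempty_of_mem (Filter.inter_mem hT hS)
    exact h q _ (fun y hy => Set.mem_iInter₂.1 hq y hy) hqS

/-- every congruence above the kernel of a point is the kernel of a point -/
theorem kap_above (hP : ∀ x y : N, x ≤ y ∨ y ≤ x ∨ IsBot (x ⊓ y)) (q : Y → N)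
    (ψ : Con (Free N Y)) (h : kap q ≤ ψ) : ∃ q', ψ = kap q' := by
  have ex : ∀ u, ∃ v, ψ.1 v u ∧ ∀ w, ψ.1 w u → ev q v ≤ ev q w := by
    intro u
    obtain ⟨_, ⟨v, hv, rfl⟩, hm⟩ := (wellFounded_lt (α := N)).has_min (ev q '' {v | ψ.1 v u})
      ⟨_, u, ψ.refl u, rfl⟩
    refine ⟨v, hv, fun w hw => ?_⟩
    have h1 : ψ.1 (v ⊓ w) u := by simpa using ψ.inf hv hw
    have h2 := hm _ ⟨_, h1, rfl⟩
    rw [map_inf] at h2
    exact inf_eq_left.1 (eq_of_le_of_not_lt inf_le_left h2)
  choose g hg hmin using ex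
  have mono : ∀ u u', u ≤ u' → ev q (g u) ≤ ev q (g u') := by
    intro u u' huu
    have h1 : ψ.1 (g u ⊓ g u') u := by simpa [inf_eq_left.2 huu] using ψ.inf (hg u) (hg u')
    exact (hmin u _ h1).trans (OrderHomClass.mono (ev q) inf_le_right)
  have cls : ∀ u u', ψ.1 u u' → ev q (g u) = ev q (g u') := fun u u' h' =>
    le_antisymm (hmin u _ (ψ.trans (hg u') (ψ.symm h'))) (hmin u' _ (ψ.trans (hg u) h'))
  have low : ∀ u u', ev q (g u) ≤ ev q (g u') → ev q (g (u ⊓ u')) = ev q (g u) := by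
    intro u u' h'
    have h1 : ψ.1 (g u ⊓ g u') (g u) := h _ _ (by rw [kap_iff, map_inf, inf_eq_left.2 h'])
    exact cls _ _ (ψ.trans (ψ.symm (ψ.inf (hg u) (hg u'))) (ψ.trans h1 (hg u)))
  let j : LatticeHom (Free N Y) N :=
    { toFun := fun u => ev q (g u)
      map_sup' := fun u u' => le_antisymm
        (by
          rw [← map_sup]
          exact hmin _ _ (ψ.sup (hg u) (hg u')))
        (sup_le (mono _ _ le_sup_left) (mono _ _ le_sup_right))
      map_inf' := fun u u' => by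
        rcases hP (ev q (g u)) (ev q (g u')) with h' | h' | h'
        · rw [low u u' h', inf_eq_left.2 h']
        · rw [inf_comm u u', low u' u h', inf_eq_right.2 h']
        · exact le_antisymm (le_inf (mono _ _ inf_le_left) (mono _ _ inf_le_right)) (h' _) }
  refine ⟨fun y => j (gen y), Con.ext' fun u u' => ?_⟩
  rw [kap_iff, ← hom_eq_ev j, ← hom_eq_ev j]
  exact ⟨cls u u', fun h' => ψ.trans (ψ.symm (hg u)) (ψ.trans (h _ _ h') (hg u'))⟩

theorem fam_kap (hP : ∀ x y : N, x ≤ y ∨ y ≤ x ∨ IsBot (x ⊓ y)) :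
    Fam (plim (Y := Y) (N := N)) kap where
  sep _ _ h := Subtype.ext (funext h)
  lim U u v := (finSupp_kap u v).plim_iff U
  above := kap_above hP

end Free

/-- homomorphisms to `N` separate points -/
def Res (N : Type) [Lattice N] (F : Type) [Lattice F] : Prop :=
  ∀ x y : F, (∀ p : LatticeHom F N, p x = p y) → x = y

theorem Res.exists_surj {N : Type} [Lattice N] {F : Type} [Lattice F] (h : Res N F) :
    ∃ f : LatticeHom (Free N F) F, Function.Surjective f := by
  have ex : ∀ u : Free N F, ∃ x : F, ∀ p : LatticeHom F N, ev p u = p x := by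
    intro u
    induction u using Free.ind with
    | h0 y => exact ⟨y, fun _ => rfl⟩
    | hs u v h1 h2 =>
      obtain ⟨x, hx⟩ := h1
      obtain ⟨y, hy⟩ := h2
      exact ⟨x ⊔ y, fun p => by rw [map_sup, map_sup, hx, hy]⟩
    | hi u v h1 h2 =>
      obtain ⟨x, hx⟩ := h1
      obtain ⟨y, hy⟩ := h2
      exact ⟨x ⊓ y, fun p => by rw [map_inf, map_inf, hx, hy]⟩
  choose g hg using ex
  refine ⟨⟨⟨g, fun u v => h _ _ fun p => ?_⟩, fun u v => h _ _ fun p => ?_⟩,
    fun x => ⟨gen x, h _ _ fun p => (hg _ p).symm⟩⟩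
  · rw [map_sup, ← hg, ← hg, ← hg, map_sup]
  · rw [map_inf, ← hg, ← hg, ← hg, map_inf]

/-- the variety generated by `N` -/
def Var (N : Type) [Lattice N] (L : Type) [Lattice L] : Prop :=
  ∃ (F : Type) (_ : Lattice F) (f : LatticeHom F L), Function.Surjective f ∧ Res N F

theorem Var.image {N : Type} [Lattice N] (A B : Type) [Lattice A] [Lattice B] (f : LatticeHom A B)
    (hf : Function.Surjective f) (h : Var N A) : Var N B := by
  obtain ⟨F, _, g, hg, hF⟩ := h
  exact ⟨F, _, f.comp g, hf.comp hg, hF⟩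

theorem Var.sub {N : Type} [Lattice N] (A B : Type) [Lattice A] [Lattice B] (f : LatticeHom A B)
    (hf : Function.Injective f) (h : Var N B) : Var N A := by
  obtain ⟨F, _, g, hg, hF⟩ := h
  let S : Sublattice (F × A) :=
    { carrier := {z | g z.1 = f z.2}
      supClosed' := fun z hz w hw => by
        simp only [Set.mem_ofPred_eq, Prod.fst_sup, Prod.snd_sup, map_sup] at *
        rw [hz, hw]
      infClosed' := fun z hz w hw => by
        simp only [Set.mem_ofPred_eq, Prod.fst_inf, Prod.snd_inf, map_inf] at *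
        rw [hz, hw] }
  refine ⟨S, inferInstance, LatticeHom.snd.comp S.subtype, fun a => ?_, fun z w hzw => ?_⟩
  · obtain ⟨x, hx⟩ := hg (f a)
    exact ⟨⟨(x, a), hx⟩, rfl⟩
  · have h1 : z.1.1 = w.1.1 := hF _ _ fun p => hzw (p.comp (LatticeHom.fst.comp S.subtype))
    have h2 : g z.1.1 = f z.1.2 := z.2
    have h3 : g w.1.1 = f w.1.2 := w.2
    exact Subtype.ext (Prod.ext h1 (hf (by rw [← h2, ← h3, h1])))

theorem Var.pi {N : Type} [Lattice N] (I : Type) (A : I → Type) [∀ i, Lattice (A i)]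
    (h : ∀ i, Var N (A i)) : Var N (∀ i, A i) := by
  choose F inst g hg hF using h
  refine ⟨∀ i, F i, inferInstance,
    ⟨⟨fun x i => g i (x i), fun x y => funext fun i => map_sup (g i) _ _⟩,
      fun x y => funext fun i => map_inf (g i) _ _⟩, fun a => ?_, fun x y hxy => ?_⟩
  · choose x hx using fun i => hg i (a i)
    exact ⟨x, funext hx⟩
  · exact funext fun i => hF i _ _ fun p => hxy (p.comp (Pi.evalLatticeHom i))

theorem Var.self (N : Type) [Lattice N] : Var N N :=
  ⟨N, _, LatticeHom.id N, Function.surjective_id, fun _ _ h => h (LatticeHom.id N)⟩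

/-- the statement to be refuted -/
def Main : Prop :=
  ∀ V W : (α : Type) → [Lattice α] → Prop,
    ((∀ (A B : Type) [Lattice A] [Lattice B] (f : LatticeHom A B),
        Function.Surjective f → V A → V B) ∧
     (∀ (A B : Type) [Lattice A] [Lattice B] (f : LatticeHom A B),
        Function.Injective f → V B → V A) ∧
     (∀ (I : Type) (A : I → Type) [∀ i, Lattice (A i)],
        (∀ i, V (A i)) → V (∀ i, A i))) →
    ((∀ (A B : Type) [Lattice A] [Lattice B] (f : LatticeHom A B),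
        Function.Surjective f → W A → W B) ∧
     (∀ (A B : Type) [Lattice A] [Lattice B] (f : LatticeHom A B),
        Function.Injective f → W B → W A) ∧
     (∀ (I : Type) (A : I → Type) [∀ i, Lattice (A i)],
        (∀ i, W (A i)) → W (∀ i, A i))) →
    (∀ (L : Type) [Lattice L], V L →
      ∃ (M : Type) (_ : Lattice M), W M ∧
        Nonempty ({r : L → L → Prop // IsCon r ∧ IsFG r} ≃o
          {r : M → M → Prop // IsCon r ∧ IsFG r})) →
    (∀ (L : Type) [Lattice L], V L → W L) ∨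
    (∀ (L : Type) [Lattice L], V L → W Lᵒᵈ)

/-- reduction to free lattices -/
theorem not_main_of_free (N : Type) [Lattice N] (hN : ¬ IsModularLattice N)
    (h : ∀ (Y : Type) [Nonempty Y], ∃ (M : Type) (_ : Lattice M),
      IsModularLattice M ∧ Nonempty (Con (Free N Y) ≃o Con M)) : ¬ Main := by
  intro hm
  rcases hm (fun L _ => Var N L) (fun L _ => IsModularLattice L)
    ⟨Var.image, Var.sub, Var.pi⟩
    ⟨fun _ _ _ _ => modular_of_surj, fun _ _ _ _ => modular_of_inj, fun _ => modular_pi⟩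
    (fun L _ hL => by
      rcases isEmpty_or_nonempty L with hE | hE
      · exact ⟨L, _, ⟨fun {x} => hE.elim x⟩, ⟨OrderIso.refl _⟩⟩
      obtain ⟨F, _, f, hf, hF⟩ := hL
      obtain ⟨g, hg⟩ := hF.exists_surj
      have : Nonempty F := hf.nonempty
      obtain ⟨M, _, hM, ⟨e⟩⟩ := h F
      obtain ⟨M', _, hM', ⟨e'⟩⟩ := image_iso (f.comp g) (hf.comp hg) hM e
      exact ⟨M', _, hM', conc_iso e'⟩) with h1 | h1
  · exact hN (h1 N (Var.self N))
  · have h2 := h1 N (Var.self N)
    exact hN (inferInstance : IsModularLattice Nᵒᵈᵒᵈ)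

/-- reduction to a modular lattice with a family of congruences indexed by the points -/
theorem not_main_of_points (N : Type) [Lattice N] [Finite N] (hN : ¬ IsModularLattice N)
    (hP : ∀ x y : N, x ≤ y ∨ y ≤ x ∨ IsBot (x ⊓ y))
    (h : ∀ (Y : Type) [Nonempty Y], ∃ (M : Type) (_ : Lattice M) (θ : (Y → N) → Con M),
      IsModularLattice M ∧ (∀ a b, (∀ q, (θ q).1 a b) → a = b) ∧
      (∀ a b, FinSupp {q | (θ q).1 a b}) ∧ (∀ q ψ, θ q ≤ ψ → ∃ q', ψ = θ q') ∧
      ∀ q q', kap q ≤ kap q' ↔ θ q ≤ θ q') : ¬ Main := by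
  refine not_main_of_free N hN fun Y _ => ?_
  obtain ⟨M, _, θ, hM, h1, h2, h3, h4⟩ := h Y
  exact ⟨M, _, hM, Fam.conIso (fam_kap hP) ⟨h1, fun U a b => (h2 a b).plim_iff U, h3⟩ h4⟩

end Pool.Agent.P.MP_4a7a83_al.LE
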