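import Pool.Agent.P.MP_4a7a83_al.Gen

/-! The system of local congruences of a lattice given by the labellings that are homomorphisms on
a finitely generated sublattice. -/

set_option autoImplicit false

namespace Pool.Agent.P.MP_4a7a83_al.KS

open N5

variable {A : Type} [Lattice A]

/-- The sublattice generated by `Y`. -/
def cl (Y : Finset A) : Sublattice A :=
  ⟨latticeClosure (Y : Set A), isSublattice_latticeClosure.supClosed,
    isSublattice_latticeClosure.infClosed⟩

theorem mem_cl {Y : Finset A} {x : A} (hx : x ∈ Y) : x ∈ cl Y :=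
  subset_latticeClosure (Finset.mem_coe.2 hx)

theorem cl_ind {Y : Finset A} (p : A → Prop) (h0 : ∀ x ∈ Y, p x)
    (hs : ∀ a b, a ∈ cl Y → b ∈ cl Y → p a → p b → p (a ⊔ b))
    (hi : ∀ a b, a ∈ cl Y → b ∈ cl Y → p a → p b → p (a ⊓ b)) {a : A} (ha : a ∈ cl Y) : p a :=
  latticeClosure_sup_inf_induction (s := (Y : Set A)) (fun a _ => p a)
    (fun a ha => h0 a (Finset.mem_coe.1 ha)) (fun a ha b hb => hs a b ha hb)
    (fun a ha b hb => hi a b ha hb) ha

/-- `q` is a homomorphism on the sublattice generated by `Y`. -/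
def HomOn (Y : Finset A) (q : A → N5) : Prop :=
  ∀ s t, s ∈ cl Y → t ∈ cl Y → q (s ⊔ t) = q s ⊔ q t ∧ q (s ⊓ t) = q s ⊓ q t

theorem cl_mono {Y Y' : Finset A} (h : Y ⊆ Y') : cl Y ≤ cl Y' :=
  latticeClosure_mono (Finset.coe_subset.2 h)

theorem HomOn.avoid {Y : Finset A} {q : A → N5} (hq : HomOn Y q) (p : N5 → Prop)
    (hp : ∀ u v, p u → p v → p (u ⊔ v) ∧ p (u ⊓ v)) (h : ∀ x ∈ Y, p (q x)) {a : A}
    (ha : a ∈ cl Y) : p (q a) :=
  cl_ind (fun a => p (q a)) h
    (fun a b ha hb h1 h2 => by rw [(hq a b ha hb).1]; exact (hp _ _ h1 h2).1)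
    (fun a b ha hb h1 h2 => by rw [(hq a b ha hb).2]; exact (hp _ _ h1 h2).2) ha

theorem HomOn.comp {Y : Finset A} {q : A → N5} (hq : HomOn Y q) (θ : N5 → Bool) (p : N5 → Prop)
    (hp : ∀ a ∈ cl Y, p (q a))
    (h : ∀ u v, p u → p v → ofB (θ (u ⊔ v)) = ofB (θ u) ⊔ ofB (θ v) ∧
      ofB (θ (u ⊓ v)) = ofB (θ u) ⊓ ofB (θ v)) : HomOn Y (lab (θ ∘ q)) := by
  intro s t hs ht
  simp only [lab, Function.comp]
  rw [(hq s t hs ht).1, (hq s t hs ht).2]
  exact h _ _ (hp s hs) (hp t ht)

theorem HomOn.avoid_c {Y : Finset A} {q : A → N5} (hq : HomOn Y q) (h : ∀ x ∈ Y, q x ≠ c) {s : A}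
    (hs : s ∈ cl Y) : q s ≠ c :=
  hq.avoid (fun u => u ≠ c) (by decide) h hs

/-- The labellings that are homomorphisms on the generated sublattice. -/
def labA (o : A) : LabSys A where
  o := o
  Lab := HomOn
  anti h hq s t hs ht := hq s t (cl_mono h hs) (cl_mono h ht)
  beta hq := hq.comp p1 (fun _ => True) (fun _ _ => trivial) (by decide)
  gamma hq := hq.comp p2 (fun _ => True) (fun _ _ => trivial) (by decide)
  delta hq hc := hq.comp p01 (fun u => u ≠ c) (fun _ hs => hq.avoid_c hc hs) (by decide)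

theorem lab_eq_iff {X : Type} (φ : X → Bool) (s t : X) : lab φ s = lab φ t ↔ φ s = φ t := by
  unfold lab
  cases φ s <;> cases φ t <;> decide

/-- The system of local congruences of `A`. -/
def sysA (o : A) : Sys (labA o) A where
  S := cl
  con q s t := q s = q t
  S_mono := cl_mono
  refl _ _ := rfl
  symm := Eq.symm
  trans := Eq.trans
  csup hq ha hb hc e := by rw [(hq _ _ ha hc).1, (hq _ _ hb hc).1, e]
  cinf hq ha hb hc e := by rw [(hq _ _ ha hc).2, (hq _ _ hb hc).2, e]
  loc := by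
    intro Y q q' s t hq hq' h hs ht e
    have key : ∀ {u : A}, u ∈ cl Y → q u = q' u := fun hu =>
      cl_ind (fun u => q u = q' u) h
        (fun a b ha hb h1 h2 => by rw [(hq a b ha hb).1, (hq' a b ha hb).1, h1, h2])
        (fun a b ha hb h1 h2 => by rw [(hq a b ha hb).2, (hq' a b ha hb).2, h1, h2]) hu
    rw [← key hs, ← key ht, e]
  dist_c := by
    intro Y q s t hq hs ht hc
    have h1 := HomOn.avoid_c hq hc hs
    have h2 := HomOn.avoid_c hq hc ht
    simp only [lab_eq_iff, Function.comp]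
    revert h1 h2
    cases q s <;> cases q t <;> decide
  dist_ab := by
    intro Y q s t hq hs ht hc
    simp only [lab_eq_iff, Function.comp]
    rcases hc with hc | hc
    · have h1 := HomOn.avoid hq (fun u => u ≠ a) (by decide) hc hs
      have h2 := HomOn.avoid hq (fun u => u ≠ a) (by decide) hc ht
      revert h1 h2
      cases q s <;> cases q t <;> decide
    · have h1 := HomOn.avoid hq (fun u => u ≠ b) (by decide) hc hs
      have h2 := HomOn.avoid hq (fun u => u ≠ b) (by decide) hc ht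
      revert h1 h2
      cases q s <;> cases q t <;> decide
  up_beta e := by simp only [lab, Function.comp, e]
  up_gamma e := by simp only [lab, Function.comp, e]
  up_delta _ _ _ e := by simp only [lab, Function.comp, e]
  const := by
    intro Y φ s t ho hq hn hs ht
    have key : ∀ {u : A}, u ∈ cl Y → lab φ u = lab φ o := fun hu =>
      HomOn.avoid hq (fun w => w = lab φ o) (by rintro u v rfl rfl; simp) (by
        intro x hx
        rw [lab_eq_iff]
        by_contra hne
        apply hn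
        cases e : φ o
        · exact ⟨⟨o, ho, e⟩, ⟨x, hx, by simpa [e] using hne⟩⟩
        · exact ⟨⟨x, hx, by simpa [e] using hne⟩, ⟨o, ho, e⟩⟩) hu
    rw [key hs, key ht]
  simple := by
    intro Y φ Φ _ _ _ h u v huv hne s t hs ht
    have hu := (Φ.mem huv).1
    have hv := (Φ.mem huv).2
    have key : ∀ w, w ∈ cl Y → Φ.r w u := by
      intro w hw
      by_cases e : lab φ w = lab φ u
      · exact h _ _ hw hu e
      · refine Φ.trans (h _ _ hw hv ?_) (Φ.symm huv)
        rw [lab_eq_iff] at e hne ⊢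
        revert e hne
        cases φ w <;> cases φ u <;> cases φ v <;> decide
    exact Φ.trans (key s hs) (Φ.symm (key t ht))
  mono := by
    intro Y h Φ _ hq hon hΦ u v huv hne s t hs ht e1 e2
    obtain ⟨⟨x, hx, ex⟩, ⟨y, hy, ey⟩, ⟨z, hz, ez⟩⟩ := hon
    have mx := mem_cl hx
    have my := mem_cl hy
    have mz := mem_cl hz
    have hu := (Φ.mem huv).1
    have hv := (Φ.mem huv).2
    have fin : ∀ u' v', Φ.r u' v' → ((h u' = a ∧ h v' = b) ∨ (h u' = b ∧ h v' = a)) → Φ.r x y := by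
      intro u' v' k e
      have hu' := (Φ.mem k).1
      have hv' := (Φ.mem k).2
      rcases e with e | e
      · exact Φ.trans (hΦ _ _ mx hu' (ex.trans e.1.symm))
          (Φ.trans k (hΦ _ _ hv' my (e.2.trans ey.symm)))
      · exact Φ.trans (hΦ _ _ mx hv' (ex.trans e.2.symm))
          (Φ.trans (Φ.symm k) (hΦ _ _ hu' my (e.1.trans ey.symm)))
    have S1 : ∀ {w w' : A}, w ∈ cl Y → w' ∈ cl Y → h (w ⊔ w') = h w ⊔ h w' :=
      fun hw hw' => (hq _ _ hw hw').1
    have I1 : ∀ {w w' : A}, w ∈ cl Y → w' ∈ cl Y → h (w ⊓ w') = h w ⊓ h w' :=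
      fun hw hw' => (hq _ _ hw hw').2
    have ms : ∀ {w w' : A}, w ∈ cl Y → w' ∈ cl Y → w ⊔ w' ∈ cl Y :=
      fun hw hw' => (cl Y).supClosed hw hw'
    have mi : ∀ {w w' : A}, w ∈ cl Y → w' ∈ cl Y → w ⊓ w' ∈ cl Y :=
      fun hw hw' => (cl Y).infClosed hw hw'
    have hxy : Φ.r x y := by
      have k1 := fin _ _ (Φ.sup (Φ.inf (Φ.sup huv mz) my) mx)
      have k2 := fin _ _ (Φ.inf (Φ.sup huv mx) my)
      have k3 := fin _ _ (Φ.inf (Φ.sup (Φ.inf huv mz) mx) my)
      rw [S1 (mi (ms hu mz) my) mx, S1 (mi (ms hv mz) my) mx, I1 (ms hu mz) my, I1 (ms hv mz) my,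
        S1 hu mz, S1 hv mz, ex, ey, ez] at k1
      rw [I1 (ms hu mx) my, I1 (ms hv mx) my, S1 hu mx, S1 hv mx, ex, ey] at k2
      rw [I1 (ms (mi hu mz) mx) my, I1 (ms (mi hv mz) mx) my, S1 (mi hu mz) mx, S1 (mi hv mz) mx,
        I1 hu mz, I1 hv mz, ex, ey, ez] at k3
      by_contra hc
      have n1 := fun e => hc (k1 e)
      have n2 := fun e => hc (k2 e)
      have n3 := fun e => hc (k3 e)
      revert hne n1 n2 n3
      cases h u <;> cases h v <;> decide
    simp only [lab_eq_iff, Function.comp] at e1 e2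
    have hc : h s = h t ∨ (h s = a ∧ h t = b) ∨ (h s = b ∧ h t = a) := by
      revert e1 e2
      cases h s <;> cases h t <;> decide
    rcases hc with e | e | e
    · exact hΦ _ _ hs ht e
    · exact Φ.trans (hΦ _ _ hs mx (e.1.trans ex.symm))
        (Φ.trans hxy (hΦ _ _ my ht (ey.trans e.2.symm)))
    · exact Φ.trans (hΦ _ _ hs my (e.1.trans ey.symm))
        (Φ.trans (Φ.symm hxy) (hΦ _ _ mx ht (ex.trans e.2.symm)))
  sepZ := by
    intro Y φ x z _ hφ hn hx hz
    obtain ⟨⟨u, hu, eu⟩, ⟨v, hv, ev⟩⟩ := hn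
    have mx := mem_cl hx
    have mz := mem_cl hz
    have mu := mem_cl hu
    have mv := mem_cl hv
    cases ex : φ x <;> cases ez : φ z
    · have m1 : x ⊔ z ∈ cl Y := (cl Y).supClosed mx mz
      refine ⟨x ⊔ z, x ⊔ z ⊔ v, m1, (cl Y).supClosed m1 mv, ?_, fun q hq _ => ?_⟩
      · rw [(hφ _ _ m1 mv).1, (hφ _ _ mx mz).1]
        simp only [lab, ex, ez, ev]
        decide
      · rw [(hq _ _ m1 mv).1, (hq _ _ mx mz).1]
        cases q x <;> cases q z <;> cases q v <;> decide
    · refine ⟨x ⊓ z, z, (cl Y).infClosed mx mz, mz, ?_, fun q hq => ?_⟩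
      · rw [(hφ _ _ mx mz).2]
        simp only [lab, ex, ez]
        decide
      · rw [(hq _ _ mx mz).2]
        cases q x <;> cases q z <;> decide
    · refine ⟨x ⊓ z, x, (cl Y).infClosed mx mz, mx, ?_, fun q hq => ?_⟩
      · rw [(hφ _ _ mx mz).2]
        simp only [lab, ex, ez]
        decide
      · rw [(hq _ _ mx mz).2]
        cases q x <;> cases q z <;> decide
    · have m1 : x ⊓ z ∈ cl Y := (cl Y).infClosed mx mz
      refine ⟨x ⊓ z, x ⊓ z ⊓ u, m1, (cl Y).infClosed m1 mu, ?_, fun q hq _ => ?_⟩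
      · rw [(hφ _ _ m1 mu).2, (hφ _ _ mx mz).2]
        simp only [lab, ex, ez, eu]
        decide
      · rw [(hq _ _ m1 mu).2, (hq _ _ mx mz).2]
        cases q x <;> cases q z <;> cases q u <;> decide
  sepA := by
    intro Y h x y _ hh _ hx hy ex ey
    have mx := mem_cl hx
    have my := mem_cl hy
    refine ⟨x ⊓ y, y, (cl Y).infClosed mx my, my, ?_, fun q hq e => ?_⟩
    · rw [(hh _ _ mx my).2, ex, ey]
      decide
    · rw [(hq _ _ mx my).2]
      exact inf_eq_right.2 e

/-- A lattice whose homomorphisms to the pentagon separate points is presented by its system. -/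
def presA (o : A) (hA : InV A) : (sysA o).Pres A where
  π := id
  map_sup _ _ := rfl
  map_inf _ _ := rfl
  surj m := ⟨m, ⟨{m}, mem_cl (Finset.mem_singleton_self m)⟩, rfl⟩
  ker := by
    intro s t _ _
    refine ⟨fun e => LabSys.Ev.of_forall (fun q => congrArg q e), fun ⟨Y, h⟩ => ?_⟩
    by_contra hne
    obtain ⟨q, hq⟩ := hA s t hne
    exact hq (h q (fun u v _ _ => ⟨map_sup q u v, map_inf q u v⟩))

end Pool.Agent.P.MP_4a7a83_al.KS
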