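import Pool.Agent.P.MP_4a7a83_al.Mod
import Pool.Agent.P.MP_4a7a83_al.Frame
import Pool.Agent.P.MP_4a7a83_al.SideA
import Pool.Agent.P.MP_4a7a83_al.LatEnd

/-! The block of a base point in the term lattice is a system of local congruences. -/

set_option autoImplicit false
set_option linter.unusedSectionVars false

namespace Pool.Agent.P.MP_4a7a83_al.KS

namespace Mod

variable {X B : Type} [Lattice B] [BoundedOrder B] [IsModularLattice B] (M : Mod X B)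

theorem rfl' (q : X → N5) (s : B) : M.le q s s := M.of_le q le_rfl

theorem sup_mono {q : X → N5} {s t s' t' : B} (h : M.le q s s') (h' : M.le q t t') :
    M.le q (s ⊔ t) (s' ⊔ t') :=
  M.sup_le (M.trans h (M.of_le q le_sup_left)) (M.trans h' (M.of_le q le_sup_right))

theorem inf_mono {q : X → N5} {s t s' t' : B} (h : M.le q s s') (h' : M.le q t t') :
    M.le q (s ⊓ t) (s' ⊓ t') :=
  M.le_inf (M.trans (M.of_le q inf_le_left) h) (M.trans (M.of_le q inf_le_right) h')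

/-- The congruence at `q`. -/
def con (q : X → N5) (s t : B) : Prop := M.le q s t ∧ M.le q t s

theorem isCong_con (q : X → N5) : IsCong (M.con q) :=
  ⟨⟨fun s => ⟨M.rfl' q s, M.rfl' q s⟩, fun h => ⟨h.2, h.1⟩,
    fun h h' => ⟨M.trans h.1 h'.1, M.trans h'.2 h.2⟩⟩,
    fun _ _ _ _ h h' => ⟨⟨M.sup_mono h.1 h'.1, M.sup_mono h.2 h'.2⟩,
      ⟨M.inf_mono h.1 h'.1, M.inf_mono h.2 h'.2⟩⟩⟩

/-- A subinterval of a collapsed interval is collapsed. -/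
theorem sub {q : X → N5} {s t a b : B} (h : M.le q t s) (h1 : s ≤ a) (h2 : b ≤ t) : M.le q b a :=
  M.trans (M.of_le q h2) (M.trans h (M.of_le q h1))

theorem step {q : X → N5} {u v : B} (a b : B) (h : M.le q v u) :
    M.le q ((a ⊔ v) ⊓ b) ((a ⊔ u) ⊓ b) :=
  M.inf_mono (M.sup_mono (M.rfl' q a) h) (M.rfl' q b)

/-- The interval is collapsed at all two-valued labellings that differ on `Y` from a given one. -/
def Pure (Y : Finset X) (a b : B) : Prop :=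
  ∃ χ : X → Bool, ∀ ψ : X → Bool, (∃ x ∈ Y, ψ x ≠ χ x) → M.le (lab ψ) b a

/-- Every interval below `e0` is refined by the flags into pure intervals. -/
theorem purify {Y : Finset X} (R : B → B → Prop)
    (tr : ∀ a b c, a ≤ b → b ≤ c → R a b → R b c → R a c) (Y0 : Finset X) (h0 : Y0 ⊆ Y) :
    ∀ s t, s ∈ M.D Y → t ∈ M.D Y → s ≤ t → t ≤ M.e0 →
      (∀ a b, a ∈ M.D Y → b ∈ M.D Y → s ≤ a → a ≤ b → b ≤ t → M.Pure Y0 a b → R a b) → R s t := by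
  classical
  induction Y0 using Finset.induction_on with
  | empty =>
    intro s t hs ht hst _ h
    exact h s t hs ht le_rfl hst le_rfl ⟨fun _ => true, fun ψ ⟨x, hx, _⟩ => absurd hx (by simp)⟩
  | insert x Y0 hx ih =>
    intro s t hs ht hst hte h
    refine ih ((Finset.subset_insert _ _).trans h0) s t hs ht hst hte ?_
    rintro a b ha hb h1 h2 h3 ⟨χ, hχ⟩
    have hxY : x ∈ Y := h0 (Finset.mem_insert_self _ _)
    have key : ∀ (u v : B) (col : Bool), u ∈ M.D Y → v ∈ M.D Y → u ≤ v →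
        (∀ ψ : X → Bool, ψ x ≠ col → M.le (lab ψ) v u) → R ((a ⊔ u) ⊓ b) ((a ⊔ v) ⊓ b) := by
      intro u v col hu hv huv hc
      have l1 : a ≤ (a ⊔ u) ⊓ b := _root_.le_inf le_sup_left h2
      refine h _ _ ((M.D Y).infClosed ((M.D Y).supClosed ha hu) hb)
        ((M.D Y).infClosed ((M.D Y).supClosed ha hv) hb) (h1.trans l1)
        (inf_le_inf_right _ (sup_le_sup_left huv _)) (inf_le_right.trans h3)
        ⟨Function.update χ x col, ?_⟩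
      rintro ψ ⟨y, hy, e⟩
      by_cases hyx : y = x
      · subst hyx
        rw [Function.update_self] at e
        exact M.step a b (hc ψ e)
      · rw [Function.update_of_ne hyx] at e
        exact M.sub (hχ ψ ⟨y, (Finset.mem_insert.1 hy).resolve_left hyx, e⟩) l1 inf_le_right
    obtain ⟨m1, m2, m3⟩ := M.D_fl hxY
    obtain ⟨l1, l2, l3⟩ := M.fl_mono x
    have k1 := key ⊥ (M.f1 x) false (M.D_const Y).1 m1 bot_le
      (fun ψ e => (M.pure1 ψ x (by simpa using e)).1)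
    have k2 := key _ _ true m1 m2 l1 (fun ψ e => (M.pure0 ψ x (by simpa using e)).1)
    have k3 := key _ _ false m2 m3 l2 (fun ψ e => (M.pure1 ψ x (by simpa using e)).2)
    have k4 := key _ _ true m3 (M.D_const Y).2.1 l3
      (fun ψ e => (M.pure0 ψ x (by simpa using e)).2)
    have mo : ∀ {u v : B}, u ≤ v → (a ⊔ u) ⊓ b ≤ (a ⊔ v) ⊓ b :=
      fun huv => inf_le_inf_right _ (sup_le_sup_left huv _)
    have k := tr _ _ _ (mo bot_le) (mo l3) (tr _ _ _ (mo bot_le) (mo l2)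
      (tr _ _ _ (mo bot_le) (mo l1) k1 k2) k3) k4
    rwa [sup_bot_eq, inf_eq_left.2 h2,
      inf_eq_right.2 ((h3.trans hte).trans le_sup_right : b ≤ a ⊔ M.e0)] at k

variable (o : X)

/-- Equality at the two constant labellings. -/
def kap (s t : B) : Prop := M.con (lab fun _ => false) s t ∧ M.con (lab fun _ => true) s t

theorem isCong_kap : IsCong M.kap :=
  ⟨⟨fun s => ⟨(M.isCong_con _).1.refl s, (M.isCong_con _).1.refl s⟩,
    fun h => ⟨(M.isCong_con _).1.symm h.1, (M.isCong_con _).1.symm h.2⟩,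
    fun h h' => ⟨(M.isCong_con _).1.trans h.1 h'.1, (M.isCong_con _).1.trans h.2 h'.2⟩⟩,
    fun _ _ _ _ h h' => ⟨⟨(M.isCong_con _).sup h.1 h'.1, (M.isCong_con _).sup h.2 h'.2⟩,
      ⟨(M.isCong_con _).inf h.1 h'.1, (M.isCong_con _).inf h.2 h'.2⟩⟩⟩

/-- The base point of the block. -/
def base : B := M.f1 o ⊔ (M.f1 o ⊔ M.e2) ⊓ M.e1

/-- The block of the base point. -/
def K : Sublattice B where
  carrier := {t | M.kap t (M.base o)}
  supClosed' s hs t ht := by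
    have := M.isCong_kap.sup hs ht
    rwa [sup_idem] at this
  infClosed' s hs t ht := by
    have := M.isCong_kap.inf hs ht
    rwa [inf_idem] at this

/-- The part of the block supported in `Y`. -/
def S (Y : Finset X) : Sublattice B := M.D Y ⊓ M.K o

theorem f1_le (x : X) : M.f1 x ≤ M.e0 :=
  (M.fl_mono x).1.trans ((M.fl_mono x).2.1.trans (M.fl_mono x).2.2)

variable {o}

/-- The frame of the block. -/
def blk {Y : Finset X} (ho : o ∈ Y) : Blk (M.S o Y) where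
  D := M.D Y
  κ := M.kap
  cong := M.isCong_kap
  e0 := M.e0
  e1 := M.e1
  e2 := M.e2
  o0 := M.f1 o
  o1 := (M.f1 o ⊔ M.e2) ⊓ M.e1
  m0 := (M.D_const Y).2.1
  m1 := (M.D_const Y).2.2.1
  m2 := (M.D_const Y).2.2.2
  mo0 := (M.D_fl ho).1
  mo1 := (M.D Y).infClosed ((M.D Y).supClosed (M.D_fl ho).1 (M.D_const Y).2.2.2)
    (M.D_const Y).2.2.1
  i01 := M.i01
  i02 := M.i02
  i12 := M.i12
  s01 := M.s01
  s02 := M.s02
  s12 := M.s12
  le0 := M.f1_le o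
  le1 := inf_le_right
  diag := by
    rw [sup_comm _ M.e2, sup_comm (_ ⊓ _) M.e2, inf_comm,
      ← sup_inf_assoc_of_le _ (le_sup_left : M.e2 ≤ M.e2 ⊔ M.f1 o), sup_comm M.e2 M.e1, M.s12,
      top_inf_eq]
  mem _ := Iff.rfl

/-- The restriction of the congruence at `q` to a sublattice. -/
def res (K : Sublattice B) (q : X → N5) : CO K where
  r a b := a ∈ K ∧ b ∈ K ∧ M.con q a b
  mem h := ⟨h.1, h.2.1⟩
  refl h := ⟨h, h, (M.isCong_con q).1.refl _⟩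
  symm h := ⟨h.2.1, h.1, (M.isCong_con q).1.symm h.2.2⟩
  trans h h' := ⟨h.1, h'.2.1, (M.isCong_con q).1.trans h.2.2 h'.2.2⟩
  sup h hc := ⟨K.supClosed h.1 hc, K.supClosed h.2.1 hc,
    (M.isCong_con q).sup h.2.2 ((M.isCong_con q).1.refl _)⟩
  inf h hc := ⟨K.infClosed h.1 hc, K.infClosed h.2.1 hc,
    (M.isCong_con q).inf h.2.2 ((M.isCong_con q).1.refl _)⟩

theorem con_axis {q : X → N5} {e e' s t w : B} (he : e ⊓ e' = ⊥) (hst : s ≤ t) (ht : t ≤ e)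
    (hw : w ≤ e') : M.con q (s ⊔ w) (t ⊔ w) ↔ M.le q t s := by
  constructor
  · intro h
    have := M.inf_mono h.2 (M.rfl' q e)
    rwa [sup_inf_axis he ht hw, sup_inf_axis he (hst.trans ht) hw] at this
  · intro h
    exact ⟨M.of_le q (sup_le_sup_right hst _), M.sup_mono h (M.rfl' q _)⟩

section Local

variable {Y : Finset X} (ho : o ∈ Y)

theorem res_axis {q : X → N5} {s t : B} (hs : (M.blk ho).C0 s) (ht : (M.blk ho).C0 t)
    (hst : s ≤ t) :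
    (M.res (M.S o Y) q).r (s ⊔ (M.blk ho).o1) (t ⊔ (M.blk ho).o1) ↔ M.le q t s :=
  ⟨fun h => (M.con_axis M.i01 hst ht.2.1 inf_le_right).1 h.2.2,
    fun h => ⟨Blk.mem_sup hs (M.blk ho).C1_o, Blk.mem_sup ht (M.blk ho).C1_o,
      (M.con_axis M.i01 hst ht.2.1 inf_le_right).2 h⟩⟩

theorem le_of_ax {q : X → N5} {s t : B} (hs : s ≤ M.e0) (ht : t ≤ M.e0)
    (h : M.le q ((t ⊔ M.e2) ⊓ M.e1) ((s ⊔ M.e2) ⊓ M.e1)) : M.le q t s := by
  have key : ∀ u : B, u ≤ M.e0 → ((u ⊔ M.e2) ⊓ M.e1 ⊔ M.e2) ⊓ M.e0 = u := by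
    intro u hu
    rw [sup_comm _ M.e2, inf_comm (u ⊔ M.e2),
      ← sup_inf_assoc_of_le _ (le_sup_right : M.e2 ≤ u ⊔ M.e2), sup_comm M.e2 M.e1, M.s12,
      top_inf_eq, sup_inf_axis M.i02 hu le_rfl]
  have := M.inf_mono (M.sup_mono h (M.rfl' q M.e2)) (M.rfl' q M.e0)
  rwa [key t ht, key s hs] at this

theorem ax_le {q : X → N5} {s t : B} (h : M.le q t s) :
    M.le q ((t ⊔ M.e2) ⊓ M.e1) ((s ⊔ M.e2) ⊓ M.e1) :=
  M.inf_mono (M.sup_mono h (M.rfl' q _)) (M.rfl' q _)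

variable (Φ : CO (M.S o Y))

/-- A pair of `Φ` that is open at `q` gives such a pair on the first axis. -/
theorem open_pair {q : X → N5} {u v : B} (h : Φ.r u v) (hn : ¬ M.con q u v) :
    ∃ s t, (M.blk ho).C0 s ∧ (M.blk ho).C0 t ∧ s ≤ t ∧
      Φ.r (s ⊔ (M.blk ho).o1) (t ⊔ (M.blk ho).o1) ∧ ¬ M.le q t s := by
  obtain ⟨s, t, s', t', h1, h2, h3, h4, h5, h6, h7⟩ :=
    Blk.reduce (F := M.blk ho) (Φ.mem h).1 (Φ.mem h).2
  have k := (h7 Φ).1 h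
  by_cases e : M.le q t s
  · refine ⟨s', t', h4, h5, h6, k.2, fun e' => hn ?_⟩
    exact ((h7 (M.res _ q)).2 ⟨(M.res_axis ho h1 h2 h3).2 e, (M.res_axis ho h4 h5 h6).2 e'⟩).2.2
  · exact ⟨s, t, h1, h2, h3, k.1, e⟩

/-- Domination along a link. -/
theorem dominate {q : X → N5} (hΦ : ∀ a b, a ∈ M.S o Y → b ∈ M.S o Y → M.con q a b → Φ.r a b)
    {s t a b S : B} (hs : (M.blk ho).C0 s) (ht : (M.blk ho).C0 t) (hst : s ≤ t)
    (h : Φ.r (s ⊔ (M.blk ho).o1) (t ⊔ (M.blk ho).o1))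
    (ha : (M.blk ho).C0 a) (hb : (M.blk ho).C0 b) (hab : a ≤ b)
    (hS : S ∈ M.D Y ∧ a ⊔ (s ⊔ M.e2) ⊓ M.e1 ≤ S ∧ S ≤ b ⊔ (t ⊔ M.e2) ⊓ M.e1 ∧
      M.le q b (S ⊔ (t ⊔ M.e2) ⊓ M.e1) ∧ M.le q (S ⊓ b) a) :
    Φ.r (a ⊔ (M.blk ho).o1) (b ⊔ (M.blk ho).o1) := by
  have hs' : (M.blk ho).C1 ((s ⊔ M.e2) ⊓ M.e1) := Blk.C1_ax hs
  have ht' : (M.blk ho).C1 ((t ⊔ M.e2) ⊓ M.e1) := Blk.C1_ax ht
  have hst' : (s ⊔ M.e2) ⊓ M.e1 ≤ (t ⊔ M.e2) ⊓ M.e1 :=
    inf_le_inf_right _ (sup_le_sup_right hst _)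
  have h' : Φ.r ((M.blk ho).o0 ⊔ (s ⊔ M.e2) ⊓ M.e1) ((M.blk ho).o0 ⊔ (t ⊔ M.e2) ⊓ M.e1) :=
    (Blk.axis_iff Φ hs ht hst).2 h
  generalize (s ⊔ M.e2) ⊓ M.e1 = s' at *
  generalize (t ⊔ M.e2) ⊓ M.e1 = t' at *
  obtain ⟨h1, h2, h3, h4, h5⟩ := hS
  have lo := Blk.mem_sup ha hs'
  have hi := Blk.mem_sup hb ht'
  refine Blk.graph Φ ha hb hab hs' ht' hst' h1 h2 h3 (hΦ _ _ ?_ hi ?_) (hΦ _ _ ?_ lo ?_) h'
  · exact Blk.mem_between (F := M.blk ho) lo hi ((M.D Y).supClosed h1 ht'.1)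
      (h2.trans le_sup_left) (_root_.sup_le h3 le_sup_right)
  · exact ⟨M.of_le q (_root_.sup_le h3 le_sup_right), M.sup_le h4 (M.of_le q le_sup_right)⟩
  · exact Blk.mem_between (F := M.blk ho) lo hi
      ((M.D Y).infClosed h1 ((M.D Y).supClosed hb.1 hs'.1))
      (_root_.le_inf h2 (sup_le_sup_right hab _)) (inf_le_left.trans h3)
  · refine ⟨?_, M.of_le q (_root_.le_inf h2 (sup_le_sup_right hab _))⟩
    rw [inf_comm, sup_comm b s', sup_inf_assoc_of_le _ (le_sup_right.trans h2), inf_comm b S]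
    exact M.sup_le (M.of_le q le_sup_right) (M.trans h5 (M.of_le q le_sup_left))

include ho in
theorem simple {φ : X → Bool} (hn : NonConst Y φ)
    (hΦ : ∀ a b, a ∈ M.S o Y → b ∈ M.S o Y → M.con (lab φ) a b → Φ.r a b)
    {u v : B} (h : Φ.r u v) (hne : ¬ M.con (lab φ) u v) (a b : B) (ha : a ∈ M.S o Y)
    (hb : b ∈ M.S o Y) : Φ.r a b := by
  obtain ⟨s0, t0, hs0, ht0, hst0, h0, hne0⟩ := M.open_pair ho Φ h hne
  have pure : ∀ {a b : B}, M.Pure Y a b → ¬ M.le (lab φ) b a →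
      ∀ ψ : X → Bool, (∃ x ∈ Y, ψ x ≠ φ x) → M.le (lab ψ) b a := by
    rintro a b ⟨χ, hχ⟩ e ψ ⟨x, hx, e'⟩
    refine hχ ψ ⟨x, hx, fun e'' => e (hχ φ ⟨x, hx, fun k => e' (e''.trans k.symm)⟩)⟩
  obtain ⟨s, t, m1, m2, l1, l2, l3, hp, hne1⟩ : ∃ s t, s ∈ M.D Y ∧ t ∈ M.D Y ∧ s0 ≤ s ∧ s ≤ t ∧
      t ≤ t0 ∧ M.Pure Y s t ∧ ¬ M.le (lab φ) t s := by
    by_contra hc
    push Not at hc
    exact hne0 (M.purify (fun a b => M.le (lab φ) b a) (fun _ _ _ _ _ k1 k2 => M.trans k2 k1) Y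
      (Finset.Subset.refl _) s0 t0 hs0.1 ht0.1 hst0 ht0.2.1 hc)
  have hs := hs0.between ht0 m1 l1 (l2.trans l3)
  have ht := hs0.between ht0 m2 (l1.trans l2) l3
  have h1 : Φ.r (s ⊔ (M.blk ho).o1) (t ⊔ (M.blk ho).o1) :=
    Φ.convex h0 (Blk.mem_sup hs (M.blk ho).C1_o) (Blk.mem_sup ht (M.blk ho).C1_o)
      (sup_le_sup_right l1 _) (sup_le_sup_right (l2.trans l3) _)
      (sup_le_sup_right (l1.trans l2) _) (sup_le_sup_right l3 _)
  have all : ∀ a b, (M.blk ho).C0 a → (M.blk ho).C0 b → a ≤ b →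
      Φ.r (a ⊔ (M.blk ho).o1) (b ⊔ (M.blk ho).o1) := by
    intro a b ha hb hab
    refine M.purify (fun a b => Φ.r (a ⊔ (M.blk ho).o1) (b ⊔ (M.blk ho).o1))
      (fun _ _ _ _ _ k1 k2 => Φ.trans k1 k2) Y (Finset.Subset.refl _) a b ha.1 hb.1 hab hb.2.1 ?_
    intro a' b' n1 n2 j1 j2 j3 hp'
    have ha' := ha.between hb n1 j1 (j2.trans j3)
    have hb' := ha.between hb n2 (j1.trans j2) j3
    by_cases e : M.le (lab φ) b' a'
    · have := (M.res_axis ho ha' hb' j2).2 e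
      exact hΦ _ _ this.1 this.2.1 this.2.2
    · obtain ⟨S, hS⟩ := M.link2 Y φ a' b' _ _ hn.1 hn.2 n1 n2 (Blk.C1_ax hs).1 (Blk.C1_ax ht).1
        j2 hb'.2.1 (inf_le_inf_right _ (sup_le_sup_right l2 _)) inf_le_right
        (fun k => hne1 (M.le_of_ax hs.2.1 ht.2.1 k))
        (fun ψ hψ => ⟨pure hp' e ψ hψ, M.ax_le (pure hp hne1 ψ hψ)⟩)
      exact M.dominate ho Φ hΦ hs ht l2 h1 ha' hb' j2 hS
  obtain ⟨s1, t1, s2, t2, k1, k2, k3, k4, k5, k6, k7⟩ := Blk.reduce (F := M.blk ho) ha hb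
  exact (k7 Φ).2 ⟨all _ _ k1 k2 k3, all _ _ k4 k5 k6⟩

include ho in
theorem mono {h : X → N5} (hon : Onto Y h)
    (hΦ : ∀ a b, a ∈ M.S o Y → b ∈ M.S o Y → M.con h a b → Φ.r a b)
    {u v : B} (huv : Φ.r u v) (hne : ¬ M.con h u v) (a b : B) (ha : a ∈ M.S o Y)
    (hb : b ∈ M.S o Y) (e1 : M.con (lab (N5.p1 ∘ h)) a b) (e2 : M.con (lab (N5.p2 ∘ h)) a b) :
    Φ.r a b := by
  obtain ⟨s, t, hs, ht, hst, h1, hne1⟩ := M.open_pair ho Φ huv hne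
  have all : ∀ a b, (M.blk ho).C0 a → (M.blk ho).C0 b → a ≤ b → M.le (lab (N5.p1 ∘ h)) b a →
      M.le (lab (N5.p2 ∘ h)) b a → Φ.r (a ⊔ (M.blk ho).o1) (b ⊔ (M.blk ho).o1) := by
    intro a b ha hb hab k1 k2
    obtain ⟨S, hS⟩ := M.link5 Y h a b _ _ hon ha.1 hb.1 (Blk.C1_ax hs).1 (Blk.C1_ax ht).1
      hab hb.2.1 (inf_le_inf_right _ (sup_le_sup_right hst _)) inf_le_right
      (fun k => hne1 (M.le_of_ax hs.2.1 ht.2.1 k)) k1 k2
    exact M.dominate ho Φ hΦ hs ht hst h1 ha hb hab hS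
  obtain ⟨s1, t1, s2, t2, k1, k2, k3, k4, k5, k6, k7⟩ := Blk.reduce (F := M.blk ho) ha hb
  have c1 := (k7 (M.res _ _)).1 ⟨ha, hb, e1⟩
  have c2 := (k7 (M.res _ _)).1 ⟨ha, hb, e2⟩
  exact (k7 Φ).2 ⟨all _ _ k1 k2 k3 ((M.res_axis ho k1 k2 k3).1 c1.1)
    ((M.res_axis ho k1 k2 k3).1 c2.1), all _ _ k4 k5 k6 ((M.res_axis ho k4 k5 k6).1 c1.2)
    ((M.res_axis ho k4 k5 k6).1 c2.2)⟩

omit Φ in
/-- At a non-constant two-valued labelling the block is not collapsed. -/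
theorem exists_open {φ : X → Bool} (hn : NonConst Y φ) :
    ∃ s t, (M.blk ho).C0 s ∧ (M.blk ho).C0 t ∧ s ≤ t ∧ ¬ M.le (lab φ) t s := by
  obtain ⟨⟨x, hx, ex⟩, ⟨y, hy, ey⟩⟩ := hn
  cases eo : φ o
  · refine ⟨M.f1 o ⊓ M.f3 y, M.f1 o, ⟨(M.D Y).infClosed (M.D_fl ho).1 (M.D_fl hy).2.2,
      inf_le_left.trans (M.f1_le o), ⟨M.of_le _ inf_le_left, ?_⟩, ⟨M.of_le _ inf_le_left, ?_⟩⟩,
      (M.blk ho).C0_o, inf_le_left, fun k => M.openB φ o y eo ey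
        (M.trans k (M.of_le _ inf_le_right))⟩
    · exact M.le_inf (M.rfl' _ _) (M.trans (M.of_le _ (M.f1_le o)) (M.pure0 _ y rfl).2)
    · exact M.trans (M.pure1 _ o rfl).1 (M.of_le _ bot_le)
  · refine ⟨M.f1 o, M.f1 o ⊔ M.f1 x ⊓ M.f2 o, (M.blk ho).C0_o,
      ⟨(M.D Y).supClosed (M.D_fl ho).1 ((M.D Y).infClosed (M.D_fl hx).1 (M.D_fl ho).2.1),
        _root_.sup_le (M.f1_le o) (inf_le_left.trans (M.f1_le x)), ⟨?_, M.of_le _ le_sup_left⟩,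
        ⟨?_, M.of_le _ le_sup_left⟩⟩, le_sup_left, fun k => M.openA φ x o ex eo
        (M.trans (M.of_le _ le_sup_right) (M.trans k (M.pure1 φ o eo).1))⟩
    · exact M.sup_le (M.rfl' _ _) (M.trans (M.of_le _ inf_le_right) (M.pure0 _ o rfl).1)
    · exact M.sup_le (M.rfl' _ _) (M.trans (M.of_le _ inf_le_left)
        (M.trans (M.pure1 _ x rfl).1 (M.of_le _ bot_le)))

omit Φ in
include ho in
theorem sepZ {φ : X → Bool} {x z : X} (hn : NonConst Y φ) (hx : x ∈ Y) (hz : z ∈ Y) :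
    ∃ u v, u ∈ M.S o Y ∧ v ∈ M.S o Y ∧ ¬ M.con (lab φ) u v ∧
      ∀ q : X → N5, ((q x ≠ N5.a ∧ q z ≠ N5.a) ∨ (q x ≠ N5.b ∧ q z ≠ N5.b)) →
        ((q x).p1 ≠ φ x ∨ (q z).p1 ≠ φ z) → ((q x).p2 ≠ φ x ∨ (q z).p2 ≠ φ z) → M.con q u v := by
  classical
  obtain ⟨s, t, hs, ht, hst, hne⟩ := M.exists_open ho hn
  obtain ⟨a, b, ma, mb, hab, ⟨χ, hχ⟩, hne1⟩ : ∃ a b, a ∈ M.D {x, z} ∧ b ∈ M.D {x, z} ∧ a ≤ b ∧
      M.Pure {x, z} a b ∧ ¬ M.le (lab φ) ((s ⊔ b) ⊓ t) ((s ⊔ a) ⊓ t) := by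
    by_contra hc
    push Not at hc
    have := M.purify (fun a b => M.le (lab φ) ((s ⊔ b) ⊓ t) ((s ⊔ a) ⊓ t))
      (fun _ _ _ _ _ k1 k2 => M.trans k2 k1) {x, z} (Finset.Subset.refl _) ⊥ M.e0
      (M.D_const _).1 (M.D_const _).2.1 bot_le le_rfl
      (fun a b h1 h2 _ h3 _ h4 => hc a b h1 h2 h3 h4)
    rw [sup_bot_eq, inf_eq_left.2 hst,
      inf_eq_right.2 (ht.2.1.trans le_sup_right : t ≤ s ⊔ M.e0)] at this
    exact hne this
  have hsub : ({x, z} : Finset X) ⊆ Y := by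
    intro w hw
    rcases Finset.mem_insert.1 hw with rfl | hw
    · exact hx
    · rw [Finset.mem_singleton.1 hw]; exact hz
  have hu : (M.blk ho).C0 ((s ⊔ a) ⊓ t) := hs.between ht
    ((M.D Y).infClosed ((M.D Y).supClosed hs.1 (M.D_mono hsub ma)) ht.1)
    (_root_.le_inf le_sup_left hst) inf_le_right
  have hv : (M.blk ho).C0 ((s ⊔ b) ⊓ t) := hs.between ht
    ((M.D Y).infClosed ((M.D Y).supClosed hs.1 (M.D_mono hsub mb)) ht.1)
    (_root_.le_inf le_sup_left hst) inf_le_right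
  have huv : (s ⊔ a) ⊓ t ≤ (s ⊔ b) ⊓ t := inf_le_inf_right _ (sup_le_sup_left hab _)
  have mu := Blk.mem_sup hu (M.blk ho).C1_o
  have mv := Blk.mem_sup hv (M.blk ho).C1_o
  refine ⟨_, _, mu, mv, fun k => hne1 ((M.res_axis ho hu hv huv).1 ⟨mu, mv, k⟩),
    fun q h1 h2 h3 => ((M.res_axis ho hu hv huv).2 (M.step s t ?_)).2.2⟩
  have cx : φ x = χ x := by
    by_contra e
    exact hne1 (M.step s t (hχ φ ⟨x, by simp, e⟩))
  have cz : φ z = χ z := by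
    by_contra e
    exact hne1 (M.step s t (hχ φ ⟨z, by simp, e⟩))
  rw [cx, cz] at h2 h3
  refine M.dist_ab mb ma ?_ (hχ _ ?_) (hχ _ ?_)
  · simpa using h1
  · simpa using h2
  · simpa using h3

omit Φ in
include ho in
theorem sepA {h : X → N5} {x y : X} (hon : Onto Y h) (hx : x ∈ Y) (hy : y ∈ Y)
    (ex : h x = N5.a) (ey : h y = N5.b) :
    ∃ u v, u ∈ M.S o Y ∧ v ∈ M.S o Y ∧ ¬ M.con h u v ∧ ∀ q : X → N5, q y ≤ q x → M.con q u v := by
  classical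
  obtain ⟨s, t, hs, ht, hst, hne⟩ := M.exists_open ho hon.nonConst_beta
  have hs' : (M.blk ho).C1 ((s ⊔ M.e2) ⊓ M.e1) := Blk.C1_ax hs
  have ht' : (M.blk ho).C1 ((t ⊔ M.e2) ⊓ M.e1) := Blk.C1_ax ht
  have hst' : (s ⊔ M.e2) ⊓ M.e1 ≤ (t ⊔ M.e2) ⊓ M.e1 :=
    inf_le_inf_right _ (sup_le_sup_right hst _)
  have hne' : ¬ M.le h ((t ⊔ M.e2) ⊓ M.e1) ((s ⊔ M.e2) ⊓ M.e1) :=
    fun k => hne (M.up_beta (M.le_of_ax hs.2.1 ht.2.1 k))
  generalize (s ⊔ M.e2) ⊓ M.e1 = s' at *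
  generalize (t ⊔ M.e2) ⊓ M.e1 = t' at *
  have hsub : ({x, y} : Finset X) ⊆ Y := by
    intro w hw
    rcases Finset.mem_insert.1 hw with rfl | hw
    · exact hx
    · rw [Finset.mem_singleton.1 hw]; exact hy
  have mx := M.D_fl (Y := {x, y}) (x := x) (by simp)
  have my := M.D_fl (Y := {x, y}) (x := y) (by simp)
  have ma : M.f1 x ⊓ M.f1 y ∈ M.D {x, y} := (M.D _).infClosed mx.1 my.1
  have mb : M.f1 x ⊓ M.f2 y ∈ M.D {x, y} := (M.D _).infClosed mx.1 my.2.1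
  have hab : M.f1 x ⊓ M.f1 y ≤ M.f1 x ⊓ M.f2 y := inf_le_inf_left _ (M.fl_mono y).1
  have hb0 : M.f1 x ⊓ M.f2 y ≤ M.e0 := inf_le_left.trans (M.f1_le x)
  have cl2 : ∀ ψ : X → Bool, (ψ y = true → ψ x = true) →
      M.le (lab ψ) (M.f1 x ⊓ M.f2 y) (M.f1 x ⊓ M.f1 y) := by
    intro ψ e
    cases e' : ψ y
    · exact M.inf_mono (M.rfl' _ _) (M.pure0 ψ y e').1
    · exact M.trans (M.of_le _ inf_le_left) (M.trans (M.pure1 ψ x (e e')).1 (M.of_le _ bot_le))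
  have cl : ∀ q : X → N5, q y ≤ q x → M.le q (M.f1 x ⊓ M.f2 y) (M.f1 x ⊓ M.f1 y) := by
    intro q e
    have c1 := cl2 (N5.p1 ∘ q) (by
      simp only [Function.comp]; revert e; cases q x <;> cases q y <;> decide)
    have c2 := cl2 (N5.p2 ∘ q) (by
      simp only [Function.comp]; revert e; cases q x <;> cases q y <;> decide)
    have c3 := cl2 (N5.p01 ∘ q) (by
      simp only [Function.comp]; revert e; cases q x <;> cases q y <;> decide)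
    by_cases hc : q x ≠ N5.c ∧ q y ≠ N5.c
    · exact M.dist_c mb ma (by simpa using hc) c1 c2 c3
    · refine M.dist_ab mb ma ?_ c1 c2
      simp only [Finset.mem_insert, Finset.mem_singleton, forall_eq_or_imp, forall_eq]
      revert hc
      cases q x <;> cases q y <;> decide
  have op : ¬ M.le h (M.f1 x ⊓ M.f2 y) (M.f1 x ⊓ M.f1 y) := by
    intro k
    have k1 := M.up_delta mb ma (by simp [ex, ey]) k
    have e1 : (N5.p01 ∘ h) y = true := by simp [ey, N5.p01]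
    exact M.openA _ x y (by simp [ex, N5.p01]) e1
      (M.trans k1 (M.trans (M.of_le _ inf_le_right) (M.pure1 _ y e1).1))
  have ma' := M.D_mono hsub ma
  have mb' := M.D_mono hsub mb
  obtain ⟨S, g0, g1, g2, g3, g4⟩ := M.link5 Y h _ _ s' t' hon ma' mb' hs'.1 ht'.1 hab hb0 hst'
    ht'.2.1 hne' (cl2 _ (by simp [ex, N5.p1])) (cl2 _ (by simp [ey, N5.p2]))
  generalize M.f1 x ⊓ M.f1 y = a at *
  generalize M.f1 x ⊓ M.f2 y = b at *
  have l1 : s' ≤ (S ⊓ (a ⊔ t') ⊔ b) ⊓ t' :=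
    _root_.le_inf ((_root_.le_inf (le_sup_right.trans g1) (hst'.trans le_sup_right)).trans le_sup_left) hst'
  have l2 : (S ⊓ (a ⊔ t') ⊔ b) ⊓ t' ≤ (S ⊔ b) ⊓ t' :=
    inf_le_inf_right _ (sup_le_sup_right inf_le_left _)
  have hN : (M.blk ho).C1 ((S ⊓ (a ⊔ t') ⊔ b) ⊓ t') := hs'.between ht'
    ((M.D Y).infClosed ((M.D Y).supClosed
      ((M.D Y).infClosed g0 ((M.D Y).supClosed ma' ht'.1)) mb') ht'.1) l1 inf_le_right
  have hI : (M.blk ho).C1 ((S ⊔ b) ⊓ t') := hs'.between ht'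
    ((M.D Y).infClosed ((M.D Y).supClosed g0 mb') ht'.1) (l1.trans l2) inf_le_right
  have i10 : M.e1 ⊓ M.e0 = ⊥ := by rw [inf_comm, M.i01]
  have cax : ∀ q, M.con q (M.f1 o ⊔ (S ⊓ (a ⊔ t') ⊔ b) ⊓ t') (M.f1 o ⊔ (S ⊔ b) ⊓ t') ↔
      M.le q ((S ⊔ b) ⊓ t') ((S ⊓ (a ⊔ t') ⊔ b) ⊓ t') := by
    intro q
    rw [sup_comm (M.f1 o), sup_comm (M.f1 o)]
    exact M.con_axis i10 l2 hI.2.1 (M.f1_le o)
  refine ⟨_, _, Blk.mem_sup (M.blk ho).C0_o hN, Blk.mem_sup (M.blk ho).C0_o hI,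
    fun k => op ?_, fun q e => (cax q).2 ?_⟩
  · have k1 := M.sup_mono (M.rfl' h b) ((cax h).1 k)
    have e1 : ∀ W : B, W ≤ b ⊔ t' → b ⊔ (W ⊔ b) ⊓ t' = W ⊔ b := by
      intro W hW
      rw [inf_comm, ← sup_inf_assoc_of_le _ (le_sup_right : b ≤ W ⊔ b)]
      exact inf_eq_right.2 (_root_.sup_le hW le_sup_left)
    rw [e1 S g2, e1 _ (inf_le_left.trans g2)] at k1
    have k2 : M.le h S ((S ⊓ (a ⊔ t') ⊔ b) ⊓ S) :=
      M.le_inf (M.trans (M.of_le h le_sup_left) k1) (M.rfl' h S)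
    rw [sup_inf_assoc_of_le _ (inf_le_left : S ⊓ (a ⊔ t') ≤ S), inf_comm b S] at k2
    have k3 : M.le h S (a ⊔ t') := M.trans k2
      (M.sup_le (M.of_le h inf_le_right) (M.trans g4 (M.of_le h le_sup_left)))
    have k4 : M.le h b ((a ⊔ t') ⊓ M.e0) :=
      M.le_inf (M.trans g3 (M.sup_le k3 (M.of_le h le_sup_right))) (M.of_le h hb0)
    rwa [sup_inf_axis M.i01 (hab.trans hb0) ht'.2.1] at k4
  · exact M.inf_mono (M.sup_mono (M.le_inf (M.rfl' q S)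
      (M.trans (M.of_le q g2) (M.sup_mono (cl q e) (M.rfl' q t')))) (M.rfl' q b)) (M.rfl' q t')

end Local

/-- The system of local congruences of the block. -/
def sys (Λ : LabSys X) : Sys Λ B where
  S := M.S Λ.o
  con := M.con
  S_mono h := inf_le_inf_right _ (M.D_mono h)
  refl q := (M.isCong_con q).1.refl
  symm := (M.isCong_con _).1.symm
  trans := (M.isCong_con _).1.trans
  csup _ _ _ _ h := (M.isCong_con _).sup h ((M.isCong_con _).1.refl _)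
  cinf _ _ _ _ h := (M.isCong_con _).inf h ((M.isCong_con _).1.refl _)
  loc _ _ e ha hb h := ⟨M.loc ha.1 hb.1 e h.1, M.loc hb.1 ha.1 e h.2⟩
  dist_c _ ha hb hc h1 h2 h3 :=
    ⟨M.dist_c ha.1 hb.1 hc h1.1 h2.1 h3.1, M.dist_c hb.1 ha.1 hc h1.2 h2.2 h3.2⟩
  dist_ab _ ha hb hc h1 h2 := ⟨M.dist_ab ha.1 hb.1 hc h1.1 h2.1, M.dist_ab hb.1 ha.1 hc h1.2 h2.2⟩
  up_beta h := ⟨M.up_beta h.1, M.up_beta h.2⟩
  up_gamma h := ⟨M.up_gamma h.1, M.up_gamma h.2⟩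
  up_delta ha hb hc h := ⟨M.up_delta ha.1 hb.1 hc h.1, M.up_delta hb.1 ha.1 hc h.2⟩
  const := by
    intro Y φ a b _ _ hn ha hb
    have k : M.kap a b := M.isCong_kap.1.trans ha.2 (M.isCong_kap.1.symm hb.2)
    by_cases e : ∃ x ∈ Y, φ x = false
    · have e' : ∀ x ∈ Y, lab (fun _ => false) x = lab φ x := by
        intro x hx
        refine lab_congr ?_
        by_contra hc
        exact hn ⟨e, x, hx, by simpa using hc⟩
      exact ⟨M.loc ha.1 hb.1 e' k.1.1, M.loc hb.1 ha.1 e' k.1.2⟩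
    · have e' : ∀ x ∈ Y, lab (fun _ => true) x = lab φ x := by
        intro x hx
        refine lab_congr ?_
        by_contra hc
        exact e ⟨x, hx, by simpa using hc⟩
      exact ⟨M.loc ha.1 hb.1 e' k.2.1, M.loc hb.1 ha.1 e' k.2.2⟩
  simple Φ ho _ hn hΦ _ _ h hne := M.simple ho Φ hn hΦ h hne
  mono Φ ho _ hon hΦ _ _ h hne := M.mono ho Φ hon hΦ h hne
  sepZ ho _ hn hx hz :=
    let ⟨u, v, h1, h2, h3, h4⟩ := M.sepZ ho hn hx hz
    ⟨u, v, h1, h2, h3, fun q _ => h4 q⟩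
  sepA ho _ hon hx hy ex ey :=
    let ⟨u, v, h1, h2, h3, h4⟩ := M.sepA ho hon hx hy ex ey
    ⟨u, v, h1, h2, h3, fun q _ => h4 q⟩

theorem U_iff (Λ : LabSys X) (a : B) : (M.sys Λ).U a ↔ a ∈ M.K Λ.o :=
  ⟨fun ⟨_, h⟩ => h.2, fun h => let ⟨Y, hY⟩ := M.D_ex a; ⟨Y, hY, h⟩⟩

/-- Eventual local equality on the block. -/
def null (Λ : LabSys X) : LE.Con (M.K Λ.o) :=
  ⟨fun a b => Λ.Ev (fun q => M.con q a b),
    ⟨fun _ => LabSys.Ev.of_forall (fun q => (M.isCong_con q).1.refl _),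
      fun h => h.mono (fun q e => (M.isCong_con q).1.symm e),
      fun h h' => (h.and h').mono (fun q e => (M.isCong_con q).1.trans e.1 e.2)⟩,
    fun _ _ _ _ h h' => ⟨(h.and h').mono (fun q e => (M.isCong_con q).sup e.1 e.2),
      (h.and h').mono (fun q e => (M.isCong_con q).inf e.1 e.2)⟩⟩

open Classical in
/-- The quotient of the block is presented by the system. -/
noncomputable def pres (Λ : LabSys X) : (M.sys Λ).Pres (LE.Con.Quo (M.null Λ)) where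
  π a := if h : a ∈ M.K Λ.o then LE.Con.mkQ (M.null Λ) ⟨a, h⟩
    else LE.Con.mkQ (M.null Λ) ⟨M.base Λ.o, M.isCong_kap.1.refl _⟩
  map_sup ha hb := by
    rw [U_iff] at ha hb
    rw [dif_pos ha, dif_pos hb, dif_pos (Sublattice.sup_mem ha hb), ← map_sup]
    rfl
  map_inf ha hb := by
    rw [U_iff] at ha hb
    rw [dif_pos ha, dif_pos hb, dif_pos (Sublattice.inf_mem ha hb), ← map_inf]
    rfl
  surj m := by
    obtain ⟨a, rfl⟩ := LE.Con.mkQ_surj _ m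
    exact ⟨a.1, (M.U_iff Λ _).2 a.2, dif_pos a.2⟩
  ker ha hb := by
    rw [U_iff] at ha hb
    rw [dif_pos ha, dif_pos hb]
    exact Quotient.eq (r := ⟨(M.null Λ).1, (M.null Λ).2.1⟩)

end Mod

/-- Every lattice separated by its homomorphisms to the pentagon has the compact congruences of a
modular lattice. -/
theorem lifts (H : ModelSide) (L : Type) [Lattice L] (hL : InV L) :
    ∃ (M : Type) (_ : Lattice M), IsModularLattice M ∧ Nonempty (CCon L ≃o CCon M) := by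
  rcases isEmpty_or_nonempty L with e | ⟨⟨o⟩⟩
  · exact ⟨L, inferInstance, ⟨fun {x} => e.elim x⟩, ⟨OrderIso.refl _⟩⟩
  · obtain ⟨I⟩ := H L
    refine ⟨LE.Con.Quo (I.toMod.null (labA o)), inferInstance,
      LE.modular_of_surj _ (LE.Con.mkQ_surj _) (LE.modular_of_inj (I.toMod.K o).subtype
        Subtype.val_injective inferInstance), ?_⟩
    exact Sys.iso (presA o hL) (I.toMod.pres (labA o))

end Pool.Agent.P.MP_4a7a83_al.KS
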