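import Pool.Agent.P.MP_4a7a83_al.Dom

/-! Two lattices presented by systems of local congruences over the same admissible labellings
have isomorphic semilattices of compact congruences. -/

set_option autoImplicit false

namespace Pool.Agent.P.MP_4a7a83_al.KS

/-- The congruence generated by a set of pairs. -/
def Cg {M : Type} [Lattice M] (F : Set (M × M)) (a b : M) : Prop :=
  ∀ s : M → M → Prop, IsCong s → (∀ p ∈ F, s p.1 p.2) → s a b

/-- The compact congruences. -/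
abbrev Cc (M : Type) [Lattice M] : Type :=
  {r : M → M → Prop // IsCong r ∧ ∃ F : Set (M × M), F.Finite ∧ ∀ a b : M, r a b ↔ Cg F a b}

theorem isCong_cg {M : Type} [Lattice M] (F : Set (M × M)) : IsCong (Cg F) :=
  ⟨⟨fun a _ hs _ => hs.1.refl a, fun h s hs hF => hs.1.symm (h s hs hF),
    fun h h' s hs hF => hs.1.trans (h s hs hF) (h' s hs hF)⟩,
    fun a b c d h h' => ⟨fun s hs hF => (hs.2 a b c d (h s hs hF) (h' s hs hF)).1,
      fun s hs hF => (hs.2 a b c d (h s hs hF) (h' s hs hF)).2⟩⟩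

theorem orderIso_of_rel {P Q : Type} [PartialOrder P] [PartialOrder Q] (R : P → Q → Prop)
    (h1 : ∀ p, ∃ q, R p q) (h2 : ∀ q, ∃ p, R p q)
    (h3 : ∀ p q p' q', R p q → R p' q' → (p ≤ p' ↔ q ≤ q')) : Nonempty (P ≃o Q) := by
  choose f hf using h1
  choose g hg using h2
  refine ⟨⟨⟨f, g, fun p => ?_, fun q => ?_⟩, fun {p p'} => (h3 _ _ _ _ (hf p) (hf p')).symm⟩⟩
  · exact le_antisymm ((h3 _ _ _ _ (hg (f p)) (hf p)).2 le_rfl)
      ((h3 _ _ _ _ (hf p) (hg (f p))).2 le_rfl)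
  · exact le_antisymm ((h3 _ _ _ _ (hf (g q)) (hg q)).1 le_rfl)
      ((h3 _ _ _ _ (hg q) (hf (g q))).1 le_rfl)

namespace LabSys

variable {X : Type} (Λ : LabSys X)

/-- The predicate holds at all admissible labellings of some finite set. -/
def Ev (P : (X → N5) → Prop) : Prop := ∃ Y, ∀ q, Λ.Lab Y q → P q

variable {Λ}

theorem Ev.mono {P Q : (X → N5) → Prop} (h : Λ.Ev P) (e : ∀ q, P q → Q q) : Λ.Ev Q :=
  let ⟨Y, hY⟩ := h
  ⟨Y, fun q hq => e q (hY q hq)⟩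

theorem Ev.and {P Q : (X → N5) → Prop} (h : Λ.Ev P) (h' : Λ.Ev Q) : Λ.Ev (fun q => P q ∧ Q q) := by
  classical
  obtain ⟨Y, hY⟩ := h
  obtain ⟨Y', hY'⟩ := h'
  exact ⟨Y ∪ Y', fun q hq => ⟨hY q (Λ.anti Finset.subset_union_left hq),
    hY' q (Λ.anti Finset.subset_union_right hq)⟩⟩

theorem Ev.of_forall {P : (X → N5) → Prop} (h : ∀ q, P q) : Λ.Ev P := ⟨∅, fun q _ => h q⟩

theorem Ev.finite {ι : Type} {F : Set ι} (hF : F.Finite) {P : ι → (X → N5) → Prop}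
    (h : ∀ i ∈ F, Λ.Ev (P i)) : Λ.Ev (fun q => ∀ i ∈ F, P i q) := by
  induction F, hF using Set.Finite.induction_on with
  | empty => exact Ev.of_forall (fun q i hi => absurd hi (Set.notMem_empty i))
  | insert _ _ ih =>
    refine ((h _ (Set.mem_insert _ _)).and (ih (fun i hi => h i (Set.mem_insert_of_mem _ hi)))).mono
      ?_
    rintro q ⟨h1, h2⟩ i (rfl | hi)
    · exact h1
    · exact h2 i hi

end LabSys

namespace Sys

variable {X : Type} {Λ : LabSys X} {L : Type} [Lattice L] (T : Sys Λ L)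

/-- The union of the sublattices of the system. -/
def U (a : L) : Prop := ∃ Y, a ∈ T.S Y

theorem U.sup {a b : L} (ha : T.U a) (hb : T.U b) : T.U (a ⊔ b) := by
  classical
  obtain ⟨Y, hY⟩ := ha
  obtain ⟨Y', hY'⟩ := hb
  exact ⟨Y ∪ Y', (T.S _).supClosed (T.S_mono Finset.subset_union_left hY)
    (T.S_mono Finset.subset_union_right hY')⟩

theorem U.inf {a b : L} (ha : T.U a) (hb : T.U b) : T.U (a ⊓ b) := by
  classical
  obtain ⟨Y, hY⟩ := ha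
  obtain ⟨Y', hY'⟩ := hb
  exact ⟨Y ∪ Y', (T.S _).infClosed (T.S_mono Finset.subset_union_left hY)
    (T.S_mono Finset.subset_union_right hY')⟩

theorem exists_big {F : Set L} (hF : F.Finite) (h : ∀ a ∈ F, T.U a) (Y0 : Finset X) :
    ∃ Y, Y0 ⊆ Y ∧ Λ.o ∈ Y ∧ ∀ a ∈ F, a ∈ T.S Y := by
  classical
  induction F, hF using Set.Finite.induction_on with
  | empty => exact ⟨insert Λ.o Y0, Finset.subset_insert _ _, Finset.mem_insert_self _ _,
      fun a ha => absurd ha (Set.notMem_empty a)⟩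
  | insert _ _ ih =>
    obtain ⟨Y, h1, h2, h3⟩ := ih (fun a ha => h a (Set.mem_insert_of_mem _ ha))
    obtain ⟨Y', hY'⟩ := h _ (Set.mem_insert _ _)
    refine ⟨Y ∪ Y', h1.trans Finset.subset_union_left, Finset.mem_union_left _ h2, ?_⟩
    rintro a (rfl | ha)
    · exact T.S_mono Finset.subset_union_right hY'
    · exact T.S_mono Finset.subset_union_left (h3 a ha)

theorem exists_big' {F : Set (L × L)} (hF : F.Finite) (h : ∀ p ∈ F, T.U p.1 ∧ T.U p.2)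
    (Y0 : Finset X) : ∃ Y, Y0 ⊆ Y ∧ Λ.o ∈ Y ∧ ∀ p ∈ F, p.1 ∈ T.S Y ∧ p.2 ∈ T.S Y := by
  obtain ⟨Y, h1, h2, h3⟩ := T.exists_big ((hF.image Prod.fst).union (hF.image Prod.snd)) (by
    rintro a (⟨p, hp, rfl⟩ | ⟨p, hp, rfl⟩)
    · exact (h p hp).1
    · exact (h p hp).2) Y0
  exact ⟨Y, h1, h2, fun p hp => ⟨h3 _ (.inl ⟨p, hp, rfl⟩), h3 _ (.inr ⟨p, hp, rfl⟩)⟩⟩

/-- The local description of the congruence generated by `F`. -/
def Gen (F : Set (L × L)) (a b : L) : Prop := Λ.Ev (fun q => T.Closed F q → T.con q a b)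

theorem Gen.comp {F : Set (L × L)} {a b c : L} (ha : T.U a) (hb : T.U b) (hc : T.U c)
    (h : T.Gen F a b) : T.Gen F (a ⊔ c) (b ⊔ c) ∧ T.Gen F (a ⊓ c) (b ⊓ c) := by
  obtain ⟨Y0, h0⟩ := h
  obtain ⟨Y, h1, -, h3⟩ := T.exists_big (F := {a, b, c}) (Set.toFinite _) (by
    rintro x (rfl | rfl | rfl) <;> assumption) Y0
  have ma := h3 a (by simp)
  have mb := h3 b (by simp)
  have mc := h3 c (by simp)
  exact ⟨⟨Y, fun q hq e => T.csup hq ma mb mc (h0 q (Λ.anti h1 hq) e)⟩,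
    ⟨Y, fun q hq e => T.cinf hq ma mb mc (h0 q (Λ.anti h1 hq) e)⟩⟩

theorem Gen.trans {F : Set (L × L)} {a b c : L} (h : T.Gen F a b) (h' : T.Gen F b c) :
    T.Gen F a c :=
  (LabSys.Ev.and h h').mono (fun _ e hF => T.trans (e.1 hF) (e.2 hF))

theorem Gen.symm {F : Set (L × L)} {a b : L} (h : T.Gen F a b) : T.Gen F b a :=
  LabSys.Ev.mono h (fun _ e hF => T.symm (e hF))

/-- The lattice `M` is the union of the sublattices modulo eventual local equality. -/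
structure Pres (M : Type) [Lattice M] where
  π : L → M
  map_sup : ∀ {a b : L}, T.U a → T.U b → π (a ⊔ b) = π a ⊔ π b
  map_inf : ∀ {a b : L}, T.U a → T.U b → π (a ⊓ b) = π a ⊓ π b
  surj : ∀ m, ∃ a, T.U a ∧ π a = m
  ker : ∀ {a b : L}, T.U a → T.U b → (π a = π b ↔ Λ.Ev (fun q => T.con q a b))

variable {T}

theorem Pres.gen {M : Type} [Lattice M] (R : T.Pres M) {F : Set (L × L)} (hF : F.Finite)
    (hU : ∀ p ∈ F, T.U p.1 ∧ T.U p.2) {a b : L} (ha : T.U a) (hb : T.U b) :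
    Cg (Prod.map R.π R.π '' F) (R.π a) (R.π b) ↔ T.Gen F a b := by
  have lift : ∀ {u v : L}, T.U u → T.U v → R.π u = R.π v → T.Gen F u v :=
    fun hu hv e => ((R.ker hu hv).1 e).mono (fun _ e _ => e)
  constructor
  · intro h
    let s : M → M → Prop := fun m m' => ∃ u v, T.U u ∧ T.U v ∧ R.π u = m ∧ R.π v = m' ∧ T.Gen F u v
    have one : ∀ x y z, s x y → s (x ⊔ z) (y ⊔ z) ∧ s (x ⊓ z) (y ⊓ z) := by
      rintro _ _ z ⟨u, v, hu, hv, rfl, rfl, e⟩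
      obtain ⟨w, hw, rfl⟩ := R.surj z
      have := Gen.comp T hu hv hw e
      exact ⟨⟨_, _, U.sup T hu hw, U.sup T hv hw, R.map_sup hu hw, R.map_sup hv hw, this.1⟩,
        ⟨_, _, U.inf T hu hw, U.inf T hv hw, R.map_inf hu hw, R.map_inf hv hw, this.2⟩⟩
    have tr : ∀ {x y z}, s x y → s y z → s x z := by
      rintro _ _ _ ⟨u, v, hu, hv, rfl, rfl, e⟩ ⟨v', w, hv', hw, e1, rfl, e'⟩
      exact ⟨u, w, hu, hw, rfl, rfl, Gen.trans T (Gen.trans T e (lift hv hv' e1.symm)) e'⟩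
    have hs : IsCong s := by
      refine ⟨⟨fun m => ?_, ?_, tr⟩, fun x y z w h h' => ⟨?_, ?_⟩⟩
      · obtain ⟨u, hu, rfl⟩ := R.surj m
        exact ⟨u, u, hu, hu, rfl, rfl, lift hu hu rfl⟩
      · rintro _ _ ⟨u, v, hu, hv, rfl, rfl, e⟩
        exact ⟨v, u, hv, hu, rfl, rfl, Gen.symm T e⟩
      · have := (one z w y h').1
        rw [sup_comm z, sup_comm w] at this
        exact tr (one x y z h).1 this
      · have := (one z w y h').2
        rw [inf_comm z, inf_comm w] at this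
        exact tr (one x y z h).2 this
    obtain ⟨u, v, hu, hv, e1, e2, e⟩ := h s hs (by
      rintro _ ⟨p, hp, rfl⟩
      exact ⟨p.1, p.2, (hU p hp).1, (hU p hp).2, rfl, rfl,
        LabSys.Ev.of_forall (fun q hq => hq p hp)⟩)
    exact Gen.trans T (Gen.trans T (lift ha hu e1.symm) e) (lift hv hb e2)
  · rintro ⟨Y0, h0⟩ s hs hsF
    obtain ⟨Y, h1, ho, h3⟩ := T.exists_big' (hF.insert (a, b)) (by
      rintro p (rfl | hp)
      · exact ⟨ha, hb⟩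
      · exact hU p hp) Y0
    have mab := h3 (a, b) (Set.mem_insert _ _)
    let Φ : CO (T.S Y) :=
      { r := fun u v => u ∈ T.S Y ∧ v ∈ T.S Y ∧ s (R.π u) (R.π v)
        mem := fun h => ⟨h.1, h.2.1⟩
        refl := fun h => ⟨h, h, hs.1.refl _⟩
        symm := fun h => ⟨h.2.1, h.1, hs.1.symm h.2.2⟩
        trans := fun h h' => ⟨h.1, h'.2.1, hs.1.trans h.2.2 h'.2.2⟩
        sup := fun h hc => ⟨(T.S Y).supClosed h.1 hc, (T.S Y).supClosed h.2.1 hc, by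
          rw [R.map_sup ⟨Y, h.1⟩ ⟨Y, hc⟩, R.map_sup ⟨Y, h.2.1⟩ ⟨Y, hc⟩]
          exact (hs.2 _ _ _ _ h.2.2 (hs.1.refl _)).1⟩
        inf := fun h hc => ⟨(T.S Y).infClosed h.1 hc, (T.S Y).infClosed h.2.1 hc, by
          rw [R.map_inf ⟨Y, h.1⟩ ⟨Y, hc⟩, R.map_inf ⟨Y, h.2.1⟩ ⟨Y, hc⟩]
          exact (hs.2 _ _ _ _ h.2.2 (hs.1.refl _)).2⟩ }
    refine (T.dom ho Φ (fun u v hu hv e => ⟨hu, hv, ?_⟩) mab.1 mab.2 (fun q hq e => ?_)).2.2
    · rw [(R.ker ⟨Y, hu⟩ ⟨Y, hv⟩).2 ⟨Y, e⟩]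
      exact hs.1.refl _
    · refine h0 q (Λ.anti h1 hq) (fun p hp => e _ _ ?_)
      have := h3 p (Set.mem_insert_of_mem _ hp)
      exact ⟨this.1, this.2, hsF _ ⟨p, hp, rfl⟩⟩

/-- The compact congruence `r` is generated by the image of the finite set `F`. -/
def Pres.Rep {M : Type} [Lattice M] (R : T.Pres M) (r : Cc M) (F : Set (L × L)) : Prop :=
  F.Finite ∧ (∀ p ∈ F, T.U p.1 ∧ T.U p.2) ∧ ∀ a b, r.1 a b ↔ Cg (Prod.map R.π R.π '' F) a b

theorem Pres.exists_rep {M : Type} [Lattice M] (R : T.Pres M) (r : Cc M) : ∃ F, R.Rep r F := by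
  obtain ⟨G, hG, h⟩ := r.2.2
  choose g hg using R.surj
  refine ⟨Prod.map g g '' G, hG.image _, ?_, fun a b => ?_⟩
  · rintro _ ⟨p, -, rfl⟩
    exact ⟨(hg _).1, (hg _).1⟩
  · rw [h, Set.image_image]
    have : (fun x : M × M => Prod.map R.π R.π (Prod.map g g x)) = id := by
      funext x
      exact Prod.ext (hg _).2 (hg _).2
    rw [this, Set.image_id]

theorem Pres.rep_exists {M : Type} [Lattice M] (R : T.Pres M) {F : Set (L × L)} (hF : F.Finite)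
    (hU : ∀ p ∈ F, T.U p.1 ∧ T.U p.2) : ∃ r, R.Rep r F :=
  ⟨⟨Cg (Prod.map R.π R.π '' F), isCong_cg _, _, hF.image _, fun _ _ => Iff.rfl⟩, hF, hU,
    fun _ _ => Iff.rfl⟩

theorem Pres.le_iff {M : Type} [Lattice M] (R : T.Pres M) {r r' : Cc M} {F F' : Set (L × L)}
    (h : R.Rep r F) (h' : R.Rep r' F') :
    r ≤ r' ↔ Λ.Ev (fun q => T.Closed F' q → T.Closed F q) := by
  constructor
  · intro e
    have : ∀ p ∈ F, Λ.Ev (fun q => T.Closed F' q → T.con q p.1 p.2) := by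
      intro p hp
      refine (R.gen h'.1 h'.2.1 (h.2.1 p hp).1 (h.2.1 p hp).2).1 ((h'.2.2 _ _).1 (e _ _ ?_))
      exact (h.2.2 _ _).2 (fun s _ hs => hs (Prod.map R.π R.π p) ⟨p, hp, rfl⟩)
    exact (LabSys.Ev.finite h.1 this).mono (fun q e hq p hp => e p hp hq)
  · intro e m m' hm
    obtain ⟨a, ha, rfl⟩ := R.surj m
    obtain ⟨b, hb, rfl⟩ := R.surj m'
    refine (h'.2.2 _ _).2 ((R.gen h'.1 h'.2.1 ha hb).2 ?_)
    exact (LabSys.Ev.and e ((R.gen h.1 h.2.1 ha hb).1 ((h.2.2 _ _).1 hm))).mono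
      (fun q k hq => k.2 (k.1 hq))

theorem transfer {L' : Type} [Lattice L'] (T' : Sys Λ L') {F : Set (L × L)} (hF : F.Finite)
    (hU : ∀ p ∈ F, T.U p.1 ∧ T.U p.2) : ∃ G : Set (L' × L'), G.Finite ∧
      (∀ p ∈ G, T'.U p.1 ∧ T'.U p.2) ∧ Λ.Ev (fun q => T'.Closed G q ↔ T.Closed F q) := by
  obtain ⟨Y, -, ho, h3⟩ := T.exists_big' hF hU ∅
  obtain ⟨G, hG, h1, h2⟩ := T'.real ho (T.up_closed ho h3)
  exact ⟨G, hG, fun p hp => ⟨⟨Y, (h1 p hp).1⟩, ⟨Y, (h1 p hp).2⟩⟩, Y, h2⟩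

theorem iso {L' : Type} [Lattice L'] {T' : Sys Λ L'} {M M' : Type} [Lattice M] [Lattice M']
    (R : T.Pres M) (R' : T'.Pres M') : Nonempty (Cc M ≃o Cc M') := by
  refine orderIso_of_rel (fun r r' => ∃ F F', R.Rep r F ∧ R'.Rep r' F' ∧
    Λ.Ev (fun q => T'.Closed F' q ↔ T.Closed F q)) (fun r => ?_) (fun r' => ?_) ?_
  · obtain ⟨F, hF⟩ := R.exists_rep r
    obtain ⟨G, h1, h2, h3⟩ := transfer T' hF.1 hF.2.1
    obtain ⟨r', hr⟩ := R'.rep_exists h1 h2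
    exact ⟨r', F, G, hF, hr, h3⟩
  · obtain ⟨F, hF⟩ := R'.exists_rep r'
    obtain ⟨G, h1, h2, h3⟩ := transfer T hF.1 hF.2.1
    obtain ⟨r, hr⟩ := R.rep_exists h1 h2
    exact ⟨r, G, F, hr, hF, h3.mono (fun _ e => e.symm)⟩
  · rintro r1 r1' r2 r2' ⟨F1, F1', a1, b1, c1⟩ ⟨F2, F2', a2, b2, c2⟩
    rw [R.le_iff a1 a2, R'.le_iff b1 b2]
    constructor
    · intro e
      exact ((e.and c1).and c2).mono (fun q k hq => k.1.2.2 (k.1.1 (k.2.1 hq)))
    · intro e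
      exact ((e.and c1).and c2).mono (fun q k hq => k.1.2.1 (k.1.1 (k.2.2 hq)))

end Sys

end Pool.Agent.P.MP_4a7a83_al.KS
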