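import Pool.Agent.P.MP_4a7a83_al.LDefs

/-! The interface between the model side and the lattice side of the proof that every lattice in
the variety generated by the pentagon has the compact congruences of a modular lattice. -/

set_option autoImplicit false

namespace Pool.Agent.P.MP_4a7a83_al.KS

/-- The two-valued labelling given by a Boolean function. -/
def lab {X : Type} (φ : X → Bool) : X → N5 := fun x => N5.ofB (φ x)

/-- The labelling `h` takes each of the values `a`, `b`, `c` on `Y`. -/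
def Onto {X : Type} (Y : Finset X) (h : X → N5) : Prop :=
  (∃ x ∈ Y, h x = N5.a) ∧ (∃ x ∈ Y, h x = N5.b) ∧ (∃ x ∈ Y, h x = N5.c)

/-- What the model side delivers: terms with finite supports and, for each labelling `q` of the
generators by the pentagon, the relation `le q s t` (the inequality is valid at `q`). -/
structure Iface (X : Type) where
  Tm : Type
  bot : Tm
  top : Tm
  e0 : Tm
  e1 : Tm
  e2 : Tm
  inf : Tm → Tm → Tm
  sup : Tm → Tm → Tm
  f1 : X → Tm
  f2 : X → Tm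
  f3 : X → Tm
  Supp : Finset X → Tm → Prop
  le : (X → N5) → Tm → Tm → Prop
  -- supports
  supp_ex : ∀ t, ∃ Y, Supp Y t
  supp_mono : ∀ {Y Y' : Finset X} {t : Tm}, Y ⊆ Y' → Supp Y t → Supp Y' t
  supp_const : ∀ Y, Supp Y bot ∧ Supp Y top ∧ Supp Y e0 ∧ Supp Y e1 ∧ Supp Y e2
  supp_inf : ∀ {Y : Finset X} {s t : Tm}, Supp Y s → Supp Y t → Supp Y (inf s t)
  supp_sup : ∀ {Y : Finset X} {s t : Tm}, Supp Y s → Supp Y t → Supp Y (sup s t)
  supp_fl : ∀ {Y : Finset X} {x : X}, x ∈ Y → Supp Y (f1 x) ∧ Supp Y (f2 x) ∧ Supp Y (f3 x)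
  -- V0: each `le q` is a bounded modular lattice preorder with a frame, local in `q`
  le_refl : ∀ q t, le q t t
  le_trans : ∀ {q : X → N5} {s t u : Tm}, le q s t → le q t u → le q s u
  inf_le_left : ∀ q s t, le q (inf s t) s
  inf_le_right : ∀ q s t, le q (inf s t) t
  le_inf : ∀ {q : X → N5} {s t u : Tm}, le q s t → le q s u → le q s (inf t u)
  le_sup_left : ∀ q s t, le q s (sup s t)
  le_sup_right : ∀ q s t, le q t (sup s t)
  sup_le : ∀ {q : X → N5} {s t u : Tm}, le q s u → le q t u → le q (sup s t) u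
  bot_le : ∀ q t, le q bot t
  le_top : ∀ q t, le q t top
  modular : ∀ q s t u, le q (inf (sup (inf s u) t) u) (sup (inf s u) (inf t u))
  frame_inf : ∀ q, le q (inf e0 e1) bot ∧ le q (inf e0 e2) bot ∧ le q (inf e1 e2) bot
  frame_sup : ∀ q, le q top (sup e0 e1) ∧ le q top (sup e0 e2) ∧ le q top (sup e1 e2)
  loc : ∀ {Y : Finset X} {q q' : X → N5} {s t : Tm}, Supp Y s → Supp Y t →
    (∀ x ∈ Y, q x = q' x) → le q s t → le q' s t
  -- V1: the flag of a generator is a chain below `e0`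
  fl_mono : ∀ q x, le q (f1 x) (f2 x) ∧ le q (f2 x) (f3 x) ∧ le q (f3 x) e0
  -- V2: purity of the four steps at the two-valued labellings
  pure0 : ∀ (φ : X → Bool) (x : X), φ x = false →
    le (lab φ) (f2 x) (f1 x) ∧ le (lab φ) e0 (f3 x)
  pure1 : ∀ (φ : X → Bool) (x : X), φ x = true →
    le (lab φ) (f1 x) bot ∧ le (lab φ) (f3 x) (f2 x)
  -- V3: labellings that are not onto on the support reduce to two-valued ones
  dist_c : ∀ {Y : Finset X} {q : X → N5} {s t : Tm}, Supp Y s → Supp Y t →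
    (∀ x ∈ Y, q x ≠ N5.c) → le (lab (N5.p1 ∘ q)) s t → le (lab (N5.p2 ∘ q)) s t →
    le (lab (N5.p01 ∘ q)) s t → le q s t
  dist_a : ∀ {Y : Finset X} {q : X → N5} {s t : Tm}, Supp Y s → Supp Y t →
    (∀ x ∈ Y, q x ≠ N5.a) → le (lab (N5.p1 ∘ q)) s t → le (lab (N5.p2 ∘ q)) s t → le q s t
  dist_b : ∀ {Y : Finset X} {q : X → N5} {s t : Tm}, Supp Y s → Supp Y t →
    (∀ x ∈ Y, q x ≠ N5.b) → le (lab (N5.p1 ∘ q)) s t → le (lab (N5.p2 ∘ q)) s t → le q s t
  up_delta : ∀ {Y : Finset X} {q : X → N5} {s t : Tm}, Supp Y s → Supp Y t →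
    (∀ x ∈ Y, q x ≠ N5.c) → le q s t → le (lab (N5.p01 ∘ q)) s t
  -- V4
  up_beta : ∀ {q : X → N5} {s t : Tm}, le q s t → le (lab (N5.p1 ∘ q)) s t
  up_gamma : ∀ {q : X → N5} {s t : Tm}, le q s t → le (lab (N5.p2 ∘ q)) s t
  -- V5: links at a two-valued labelling between pure intervals `[s,t] ≤ e0` and `[s',t'] ≤ e1`
  link2 : ∀ (Y : Finset X) (φ : X → Bool) (s t s' t' : Tm),
    (∃ x ∈ Y, φ x = false) → (∃ y ∈ Y, φ y = true) → Supp Y s → Supp Y t → Supp Y s' → Supp Y t' →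
    (∀ q, le q s t) → (∀ q, le q t e0) → (∀ q, le q s' t') → (∀ q, le q t' e1) →
    ¬ le (lab φ) t' s' →
    (∀ ψ : X → Bool, (∃ x ∈ Y, ψ x ≠ φ x) → le (lab ψ) t s ∧ le (lab ψ) t' s') →
    ∃ S, Supp Y S ∧ le (lab φ) (sup s s') S ∧ le (lab φ) S (sup t t') ∧
      le (lab φ) t (sup S t') ∧ le (lab φ) (inf S t) s
  -- V6: links at a labelling that is onto on `Y`
  link5 : ∀ (Y : Finset X) (h : X → N5) (s t s' t' : Tm), Onto Y h →
    Supp Y s → Supp Y t → Supp Y s' → Supp Y t' →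
    (∀ q, le q s t) → (∀ q, le q t e0) → (∀ q, le q s' t') → (∀ q, le q t' e1) →
    ¬ le h t' s' → le (lab (N5.p1 ∘ h)) t s → le (lab (N5.p2 ∘ h)) t s →
    ∃ S, Supp Y S ∧ le h (sup s s') S ∧ le h S (sup t t') ∧
      le h t (sup S t') ∧ le h (inf S t) s
  -- V7: non-degeneracy
  openA : ∀ (φ : X → Bool) (x y : X), φ x = false → φ y = true →
    ¬ le (lab φ) (inf (f1 x) (f2 y)) bot
  openB : ∀ (φ : X → Bool) (x y : X), φ x = false → φ y = true →
    ¬ le (lab φ) (f1 x) (f3 y)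

/-- The target of the model side. -/
def ModelSide : Prop := ∀ X : Type, Nonempty (Iface X)

end Pool.Agent.P.MP_4a7a83_al.KS
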