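import Pool.Agent.P.MP_4a7a83_al.Basic

/-!
The tensor product of the gadget with a plain member.
-/

namespace Pool.Agent.P.MP_4a7a83_al.MS

open Classical N5

section

variable {X E E' : Type} [AddCommGroup E] [Module ℚ E] [AddCommGroup E'] [Module ℚ E']

theorem tn_rle_pow0 {I : Type} {F : (I →₀ E) →ₗ[ℚ] E'} {A : Submodule ℚ (I →₀ E)}
    {A0 : Submodule ℚ E} {B : Submodule ℚ E'} (hA : ∀ l, RLe (Finsupp.lapply l) A A0)
    (hF : ∀ l, RLe (F ∘ₗ Finsupp.lsingle l) A0 B) : RLe F A B := by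
  intro v hv
  have : F v = ∑ l ∈ v.support, (F ∘ₗ Finsupp.lsingle l) (Finsupp.lapply (R := ℚ) l v) := by
    conv_lhs => rw [← v.sum_single, Finsupp.sum, map_sum]
    rfl
  rw [this]
  exact B.sum_mem fun l _ => hF l _ (hA l v hv)

theorem tn_rle_pow {I : Type} {F : (I →₀ E) →ₗ[ℚ] E'} {A : Submodule ℚ (Amb X (I →₀ E))}
    {A0 : Submodule ℚ (Amb X E)} {B : Submodule ℚ (Amb X E')}
    (hA : ∀ l, RLe (hat X (Finsupp.lapply l)) A A0)
    (hF : ∀ l, RLe (hat X (F ∘ₗ Finsupp.lsingle l)) A0 B) : RLe (hat X F) A B := by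
  intro w hw
  have h1 : ∀ j, (w j).support ⊆ (w false).support ∪ (w true).support := by
    intro j
    cases j
    exacts [Finset.subset_union_left, Finset.subset_union_right]
  have : hat X F w = ∑ l ∈ (w false).support ∪ (w true).support,
      hat X (F ∘ₗ Finsupp.lsingle l) (hat X (Finsupp.lapply l) w) := by
    ext j
    rw [Finsupp.finsetSum_apply, hat_apply]
    conv_lhs => rw [← (w j).sum_single,
      Finsupp.sum_of_support_subset _ (h1 j) _ (fun _ _ => Finsupp.single_zero _), map_sum]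
    rfl
  rw [this]
  exact B.sum_mem fun l _ => hF l _ (hA l w hw)

theorem tn_atomHom_pow {I : Type} {M : Str X E} {M' : Str X E'} {F : (I →₀ E) →ₗ[ℚ] E'}
    {t : Tm X} (h : ∀ l, AtomHom M M' (F ∘ₗ Finsupp.lsingle l) t) : AtomHom (M.pow I) M' F t := by
  cases t
  case fl x k j =>
    exact fun k => tn_rle_pow0 (fun l => atomHom_lapply M I l (.fl x k j) k) fun l => h l k
  case lk Y p s0 s1 t0 t1 =>
    exact tn_rle_pow (fun l => atomHom_lapply M I l (.lk Y p s0 s1 t0 t1)) h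
  all_goals trivial

theorem tn_ev_pow {I : Type} {M : Str X E} {e : E →ₗ[ℚ] E} {F : (I →₀ E) →ₗ[ℚ] (I →₀ E)}
    (hF : ∀ l, F ∘ₗ Finsupp.lsingle l = Finsupp.lsingle l ∘ₗ e) (s t : Tm X)
    (h : RLe (hat X e) (M.ev s) (M.ev t)) : RLe (hat X F) ((M.pow I).ev s) ((M.pow I).ev t) :=
  tn_rle_pow (fun l => ev_hom_all (atomHom_lapply M I l) s) fun l => by
    rw [hF, hat_comp]
    exact (ev_hom_all (atomHom_lsingle M I l) t).comp h

theorem tn_z_pow {I : Type} {M : Str X E} {e : E →ₗ[ℚ] E} {F : (I →₀ E) →ₗ[ℚ] (I →₀ E)}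
    (hF : ∀ l, F ∘ₗ Finsupp.lsingle l = Finsupp.lsingle l ∘ₗ e) (x : X) (k k' : Fin 5)
    (h : RLe e (M.z x k) (M.z x k')) : RLe F ((M.pow I).z x k) ((M.pow I).z x k') :=
  tn_rle_pow0 (fun l => atomHom_lapply M I l (.fl x k true) k) fun l => by
    rw [hF]
    exact RLe.comp (atomHom_lsingle M I l (.fl x k true) k') h

theorem tn_plainAx_pow {I : Type} {A : Tm X → Prop} {φ : X → Bool} {M : Str X E}
    {e : E →ₗ[ℚ] E} {F : (I →₀ E) →ₗ[ℚ] (I →₀ E)}
    (hF : ∀ l, F ∘ₗ Finsupp.lsingle l = Finsupp.lsingle l ∘ₗ e) {t : Tm X}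
    (h : PlainAx A φ M e t) : PlainAx A φ (M.pow I) F t := by
  cases t
  case fl x k j =>
    simp only [PlainAx] at h ⊢
    generalize φ x = β at h ⊢
    cases β
    · exact ⟨tn_z_pow hF x _ _ h.1, tn_z_pow hF x _ _ h.2⟩
    · exact ⟨tn_z_pow hF x _ _ h.1, tn_z_pow hF x _ _ h.2⟩
  case lk Y p s0 s1 t0 t1 =>
    refine ⟨fun c => ?_, fun c => ?_⟩
    · obtain ⟨a1, a2, a3, a4⟩ := h.1 c
      exact ⟨tn_ev_pow hF (.sup s0 t0) (.lk Y p s0 s1 t0 t1) a1,
        tn_ev_pow hF (.lk Y p s0 s1 t0 t1) (.sup s1 t1) a2,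
        tn_ev_pow hF t1 (.sup (.lk Y p s0 s1 t0 t1) s1) a3,
        tn_ev_pow hF (.inf (.lk Y p s0 s1 t0 t1) t1) t0 a4⟩
    · obtain ⟨a1, a2⟩ := h.2 c
      exact ⟨tn_ev_pow hF (.sup s0 t0) (.lk Y p s0 s1 t0 t1) a1,
        tn_ev_pow hF (.lk Y p s0 s1 t0 t1) (.sup s0 t0) a2⟩
  all_goals exact ⟨fun _ => trivial, fun _ => trivial⟩

/-- The pure tensors. -/
noncomputable def tnM (E : Type) [AddCommGroup E] [Module ℚ E] :
    Gam →ₗ[ℚ] (E →ₗ[ℚ] (GI →₀ E)) :=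
  gb.constr ℚ fun l => Finsupp.lsingle l

theorem tnM_gb (l : GI) : tnM E (gb l) = Finsupp.lsingle l := by
  simp [tnM]

theorem tn_ind {P : Gam → Prop} (h0 : P 0) (hb : ∀ l, P (gb l))
    (ha : ∀ u v, P u → P v → P (u + v)) (hs : ∀ (r : ℚ) u, P u → P (r • u)) (γ : Gam) : P γ := by
  have hγ : γ ∈ Submodule.span ℚ (Set.range gb) := gb.mem_span γ
  induction hγ using Submodule.span_induction with
  | mem x hx => obtain ⟨l, rfl⟩ := hx; exact hb l
  | zero => exact h0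
  | add x y _ _ hx hy => exact ha _ _ hx hy
  | smul r x _ hx => exact hs _ _ hx

theorem tn_atomHom_tnM (M : Str X E) (t : Tm X) (γ : Gam) :
    AtomHom M (M.pow GI) (tnM E γ) t := by
  refine tn_ind (P := fun γ => AtomHom M (M.pow GI) (tnM E γ) t) ?_ (fun l => ?_)
    (fun u v hu hv => ?_) (fun r u hu => ?_) γ
  · simp only [map_zero]; exact atomHom_zero _ _ _
  · simp only [tnM_gb]; exact atomHom_lsingle M GI l t
  · simp only [map_add]; exact hu.add hv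
  · simp only [map_smul]; exact hu.smul r

/-- The map on the tensor product given by a bilinear map. -/
noncomputable def tnL (B : Gam →ₗ[ℚ] (E →ₗ[ℚ] E')) : (GI →₀ E) →ₗ[ℚ] E' :=
  Finsupp.lsum ℚ fun l => B (gb l)

theorem tnL_lsingle (B : Gam →ₗ[ℚ] (E →ₗ[ℚ] E')) (l : GI) :
    tnL B ∘ₗ Finsupp.lsingle l = B (gb l) := by
  ext v
  simp [tnL]

theorem tnL_tnM (B : Gam →ₗ[ℚ] (E →ₗ[ℚ] E')) (γ : Gam) : tnL B ∘ₗ tnM E γ = B γ := by
  refine tn_ind (P := fun γ => tnL B ∘ₗ tnM E γ = B γ) ?_ (fun l => ?_)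
    (fun u v hu hv => ?_) (fun r u hu => ?_) γ
  · simp
  · simp only [tnM_gb]; exact tnL_lsingle B l
  · simp only [map_add, LinearMap.comp_add]; rw [hu, hv]
  · simp only [map_smul, LinearMap.comp_smul]; rw [hu]

theorem tn_ext {F G : (GI →₀ E) →ₗ[ℚ] E'} (h : ∀ γ v, F (tnM E γ v) = G (tnM E γ v)) : F = G :=
  Finsupp.lhom_ext' fun l => LinearMap.ext fun v => by
    have := h (gb l) v
    rwa [tnM_gb] at this

/-- The tensor product of two endomorphisms. -/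
noncomputable def tnT (T : Gam →ₗ[ℚ] Gam) (e : E →ₗ[ℚ] E) : (GI →₀ E) →ₗ[ℚ] (GI →₀ E) :=
  tnL (((LinearMap.lcomp ℚ (GI →₀ E) e) ∘ₗ tnM E) ∘ₗ T)

theorem tnT_apply (T : Gam →ₗ[ℚ] Gam) (e : E →ₗ[ℚ] E) (γ : Gam) (v : E) :
    tnT T e (tnM E γ v) = tnM E (T γ) (e v) :=
  LinearMap.congr_fun (tnL_tnM _ γ) v

theorem tnT_lsingle (T : Gam →ₗ[ℚ] Gam) (e : E →ₗ[ℚ] E) (l : GI) :
    tnT T e ∘ₗ Finsupp.lsingle l = tnM E (T (gb l)) ∘ₗ e :=
  tnL_lsingle _ l

/-- The action on the tensor product. -/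
noncomputable def tnAct (e : E →ₗ[ℚ] E) (he : e ∘ₗ e = e) : Act (GI →₀ E) where
  φ :=
    { toFun := fun α => tnT α.1 e
      map_add' := fun α β => tn_ext fun γ v => by simp [tnT_apply]
      map_smul' := fun r α => tn_ext fun γ v => by simp [tnT_apply] }
  mul α β := tn_ext fun γ v => by
    have : e (e v) = e v := LinearMap.congr_fun he v
    simp [tnT_apply, this]
  smooth v := by
    filter_upwards [(Filter.eventually_all_finset v.support).2 fun l _ => apx_eventually (gb l)]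
      with S hS
    change tnT (apx S).1 e v = tnT (1 : Alg).1 e v
    rw [← v.sum_single, Finsupp.sum, map_sum, map_sum]
    refine Finset.sum_congr rfl fun l hl => ?_
    have h1 := LinearMap.congr_fun (tnT_lsingle (apx S).1 e l) (v l)
    have h2 := LinearMap.congr_fun (tnT_lsingle (1 : Alg).1 e l) (v l)
    rw [hS l hl] at h1
    exact h1.trans h2.symm

theorem tn_col (π : Pc) (β : Bool) : π.col (ofB β) = β := by
  cases π <;> simp [Pc.col]

end

theorem exists_tens {X E : Type} [AddCommGroup E] [Module ℚ E] {A : Tm X → Prop} {q : X → N5}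
    {φ : X → Bool} {S : Finset (Tm X)} (hS : Closed S)
    (hq : ∀ t ∈ S, ∀ x ∈ t.supp, q x = ofB (φ x)) {M : Str X E} {e : E →ₗ[ℚ] E}
    (h : PMem A φ S M e) :
    ∃ (E' : Type) (_ : AddCommGroup E') (_ : Module ℚ E') (a' : Act E') (M' : Str X E')
      (f : E →ₗ[ℚ] E') (g : E' →ₗ[ℚ] E), Mem A q S a' M' ∧
      (∀ t ∈ S, AtomHom M M' f t ∧ AtomHom M' M g t) ∧
      g ∘ₗ f = e ∧ f ∘ₗ g = a'.φ e01 ∧ f ∘ₗ e = f ∧ e ∘ₗ g = g := by
  have he : ∀ v, e (e v) = e v := fun v => LinearMap.congr_fun h.1 v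
  have hg : ∀ γ v, tnL (mf.smulRight e) (tnM E γ v) = mf γ • e v := fun γ v =>
    LinearMap.congr_fun (tnL_tnM (mf.smulRight e) γ) v
  have hall : ∀ α, ∀ t ∈ S, AtomHom (M.pow GI) (M.pow GI) ((tnAct e h.1).φ α) t :=
    fun α t ht => tn_atomHom_pow fun l => by
      change AtomHom _ _ (tnT α.1 e ∘ₗ Finsupp.lsingle l) t
      rw [tnT_lsingle]
      exact (tn_atomHom_tnM M t _).comp (h.2 t ht).1
  have hone : PMem A φ S (M.pow GI) ((tnAct e h.1).φ 1) := by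
    refine ⟨by rw [Act.comp, one_mul], fun t ht => ⟨hall 1 t ht, ?_⟩⟩
    refine tn_plainAx_pow (fun l => ?_) (h.2 t ht).2
    change tnT (1 : Alg).1 e ∘ₗ Finsupp.lsingle l = _
    rw [tnT_lsingle, ← tnM_gb]
    rfl
  refine ⟨GI →₀ E, inferInstance, inferInstance, tnAct e h.1, M.pow GI, tnM E mv ∘ₗ e,
    tnL (mf.smulRight e), fun t ht => ⟨fun π _ => ⟨hall _ t ht, ?_⟩, fun _ α => hall α t ht,
      hall 1 t ht, fun hO => ?_⟩, fun t ht => ⟨?_, ?_⟩, ?_, ?_, ?_, ?_⟩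
  · have := hone.below hS (e' := (tnAct e h.1).φ π.idem) (by rw [Act.comp, mul_one])
      (by rw [Act.comp, π.idem_mul_self]) (hall _)
    exact (this.2 t ht).2.congr_col fun x hx => by rw [hq t ht x hx, tn_col]
  · obtain ⟨⟨x, hx, h1⟩, -⟩ := hO
    exact absurd ((hq t ht x hx).symm.trans h1) (ofB_ne_a _)
  · exact (tn_atomHom_tnM M t _).comp (h.2 t ht).1
  · refine tn_atomHom_pow fun l => ?_
    rw [tnL_lsingle]
    exact (h.2 t ht).1.smul _
  · ext v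
    simp [hg, he, mf_mv]
  · refine tn_ext fun γ v => ?_
    change _ = tnT E01 e (tnM E γ v)
    simp [hg, he, tnT_apply, E01]
  · ext v
    simp [he]
  · refine tn_ext fun γ v => ?_
    simp [hg, he]

end Pool.Agent.P.MP_4a7a83_al.MS
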