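import Pool.Agent.P.MP_4a7a83_al.Wit
import Pool.Agent.P.MP_4a7a83_al.Flag
import Pool.Agent.P.MP_4a7a83_al.Dim
import Pool.Agent.P.MP_4a7a83_al.Step
import Pool.Agent.P.MP_4a7a83_al.Tens

/-!
The induction step for prescribing the `e01`-piece.
-/

namespace Pool.Agent.P.MP_4a7a83_al.MS

open Classical N5

namespace IndG

theorem ax_of_not_atom {X E : Type} [AddCommGroup E] [Module ℚ E] (A : Tm X → Prop) (q : X → N5)
    (a : Act E) (M : Str X E) {t : Tm X} (h1 : ∀ x k j, t ≠ .fl x k j)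
    (h2 : ∀ Y p s0 s1 t0 t1, t ≠ .lk Y p s0 s1 t0 t1) : Ax A q a M t := by
  cases t
  case fl => exact absurd rfl (h1 _ _ _)
  case lk => exact absurd rfl (h2 _ _ _ _ _ _)
  all_goals
    exact ⟨fun _ _ => ⟨trivial, fun _ => trivial, fun _ => trivial⟩, fun _ _ => trivial, trivial,
      fun _ _ _ => trivial⟩

theorem hom_of_not_atom {X E E' : Type} [AddCommGroup E] [Module ℚ E] [AddCommGroup E']
    [Module ℚ E'] (M : Str X E) (M' : Str X E') (f : E →ₗ[ℚ] E') {t : Tm X}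
    (h1 : ∀ x k j, t ≠ .fl x k j)
    (h2 : ∀ Y p s0 s1 t0 t1, t ≠ .lk Y p s0 s1 t0 t1) : AtomHom M M' f t := by
  cases t
  case fl => exact absurd rfl (h1 _ _ _)
  case lk => exact absurd rfl (h2 _ _ _ _ _ _)
  all_goals trivial

theorem mem_insert_of_ax {X E : Type} [AddCommGroup E] [Module ℚ E] {A : Tm X → Prop}
    {q : X → N5} {S : Finset (Tm X)} {a : Act E} {M : Str X E} (hM : Mem A q S a M) {s : Tm X}
    (hs : Ax A q a M s) : Mem A q (insert s S) a M := fun t ht => by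
  rcases Finset.mem_insert.1 ht with rfl | ht
  exacts [hs, hM t ht]

section Transport

variable {V W : Type} [AddCommGroup V] [Module ℚ V] [AddCommGroup W] [Module ℚ W]

/-- `F` and `G` identify the part of `V` cut out by `e` with the part of `W` cut out by `e'`. -/
def Iso (e : V →ₗ[ℚ] V) (e' : W →ₗ[ℚ] W) (F : V →ₗ[ℚ] W) (G : W →ₗ[ℚ] V) : Prop :=
  G ∘ₗ F = e ∧ F ∘ₗ G = e' ∧ F ∘ₗ e = F ∧ e ∘ₗ G = G

variable {e : V →ₗ[ℚ] V} {e' : W →ₗ[ℚ] W} {F : V →ₗ[ℚ] W} {G : W →ₗ[ℚ] V}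

theorem Iso.gf (h : Iso e e' F G) (v : V) : G (F v) = e v := LinearMap.congr_fun h.1 v

theorem Iso.fg (h : Iso e e' F G) (w : W) : F (G w) = e' w := LinearMap.congr_fun h.2.1 w

theorem Iso.fe (h : Iso e e' F G) (v : V) : F (e v) = F v := LinearMap.congr_fun h.2.2.1 v

theorem Iso.eg (h : Iso e e' F G) (w : W) : e (G w) = G w := LinearMap.congr_fun h.2.2.2 w

theorem Iso.ef (h : Iso e e' F G) (v : V) : e' (F v) = F v := by rw [← h.fg, h.gf, h.fe]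

theorem Iso.ge (h : Iso e e' F G) (w : W) : G (e' w) = G w := by rw [← h.fg, h.gf, h.eg]

theorem Iso.fix (h : Iso e e' F G) (ρ : Submodule ℚ V) : ∀ w ∈ ρ.map F, e' w = w := by
  rintro _ ⟨v, -, rfl⟩
  exact h.ef v

theorem Iso.rle_to (h : Iso e e' F G) {A B : Submodule ℚ V} {A' B' : Submodule ℚ W}
    (hA : RLe G A' A) (hB : RLe F B B') (hh : RLe e A B) : RLe e' A' B' := fun w hw => by
  rw [← h.fg, ← h.eg]
  exact hB _ (hh _ (hA w hw))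

theorem rle_map (F : V →ₗ[ℚ] W) (ρ : Submodule ℚ V) : RLe F ρ (ρ.map F) :=
  fun v hv => ⟨v, hv, rfl⟩

theorem Iso.rle_back (h : Iso e e' F G) {ρ : Submodule ℚ V} (hρ : RLe e ρ ρ) :
    RLe G (ρ.map F) ρ := by
  rintro _ ⟨v, hv, rfl⟩
  rw [h.gf]
  exact hρ v hv

theorem Iso.rle_back' (h : Iso e e' F G) {ρ : Submodule ℚ V} (hρ : RLe e ρ ρ)
    {R : Submodule ℚ W} (hR : RLe e' R (ρ.map F)) : RLe G R ρ := fun w hw => by
  rw [← h.ge]
  exact h.rle_back hρ _ (hR w hw)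

theorem Iso.linkS (h : Iso e e' F G) {σ0 σ1 τ0 τ1 ρ : Submodule ℚ V}
    {σ0' σ1' τ0' τ1' : Submodule ℚ W} (g0 : RLe G σ0' σ0) (f1 : RLe F σ1 σ1')
    (g2 : RLe G τ0' τ0) (f2 : RLe F τ0 τ0') (g3 : RLe G τ1' τ1) (f3 : RLe F τ1 τ1')
    (hρ : RLe e ρ ρ) (hl : LinkS e σ0 σ1 τ0 τ1 ρ) : LinkS e' σ0' σ1' τ0' τ1' (ρ.map F) :=
  ⟨h.rle_to (g0.sup g2) (rle_map F ρ) hl.1, h.rle_to (h.rle_back hρ) (f1.sup f3) hl.2.1,
    h.rle_to g3 ((rle_map F ρ).sup f1) hl.2.2.1,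
    h.rle_to ((h.rle_back hρ).inf g3) f2 hl.2.2.2⟩

theorem Iso.trivS (h : Iso e e' F G) {σ0 τ0 ρ : Submodule ℚ V}
    {σ0' τ0' : Submodule ℚ W} (g0 : RLe G σ0' σ0) (f0 : RLe F σ0 σ0')
    (g2 : RLe G τ0' τ0) (f2 : RLe F τ0 τ0')
    (hρ : RLe e ρ ρ) (hl : TrivS e σ0 τ0 ρ) : TrivS e' σ0' τ0' (ρ.map F) :=
  ⟨h.rle_to (g0.sup g2) (rle_map F ρ) hl.1, h.rle_to (h.rle_back hρ) (f0.sup f2) hl.2⟩

theorem Iso.hat (X : Type) (h : Iso e e' F G) :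
    Iso (hat X e) (hat X e') (hat X F) (hat X G) :=
  ⟨by rw [← hat_comp, h.1], by rw [← hat_comp, h.2.1], by rw [← hat_comp, h.2.2.1],
    by rw [← hat_comp, h.2.2.2]⟩

theorem Iso.flag_false (h : Iso e e' F G) {z : Fin 5 → Submodule ℚ V}
    {z' : Fin 5 → Submodule ℚ W} (hz : Monotone z) (h0 : z 0 = ⊥) (h4 : z 4 = ⊤)
    (hz' : Monotone z') (h0' : z' 0 = ⊥) (h4' : z' 4 = ⊤) (hs : RLe e (z 2) (z 2))
    (c : FlagAx false z e) (c' : FlagAx false z' e') (u1 : (z 2).map F ≤ z' 2)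
    (u2 : RLe e' (z' 2) ((z 2).map F)) :
    (∀ k, RLe F (z k) (z' k)) ∧ ∀ k, RLe G (z' k) (z k) := by
  have a0 : RLe F (z 0) (z' 0) := h0 ▸ rle_bot _ _
  have a2 : RLe F (z 2) (z' 2) := (rle_map F _).mono le_rfl u1
  have b0 : RLe G (z' 0) (z 0) := h0' ▸ rle_bot _ _
  have b2 : RLe G (z' 2) (z 2) := h.rle_back' hs u2
  refine ⟨fun k => ?_, fun k => ?_⟩
  · fin_cases k
    · exact a0
    · exact fun v hv => h.fe v ▸ hz' (by decide : (0 : Fin 5) ≤ 1) (a0 _ (c.1 v hv))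
    · exact a2
    · exact fun v hv => h.fe v ▸ hz' (by decide : (2 : Fin 5) ≤ 3) (a2 _ (c.2 v hv))
    · exact fun v _ => show F v ∈ z' 4 from h4' ▸ trivial
  · fin_cases k
    · exact b0
    · exact fun v hv => h.ge v ▸ hz (by decide : (0 : Fin 5) ≤ 1) (b0 _ (c'.1 v hv))
    · exact b2
    · exact fun v hv => h.ge v ▸ hz (by decide : (2 : Fin 5) ≤ 3) (b2 _ (c'.2 v hv))
    · exact fun v _ => show G v ∈ z 4 from h4 ▸ trivial

theorem Iso.flag_true (h : Iso e e' F G) {z : Fin 5 → Submodule ℚ V}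
    {z' : Fin 5 → Submodule ℚ W} (hz : Monotone z) (h0 : z 0 = ⊥) (h4 : z 4 = ⊤)
    (hz' : Monotone z') (h0' : z' 0 = ⊥) (h4' : z' 4 = ⊤) (hs : RLe e (z 1) (z 1))
    (c : FlagAx true z e) (c' : FlagAx true z' e') (u1 : (z 1).map F ≤ z' 1)
    (u2 : RLe e' (z' 1) ((z 1).map F)) :
    (∀ k, RLe F (z k) (z' k)) ∧ ∀ k, RLe G (z' k) (z k) := by
  have a1 : RLe F (z 1) (z' 1) := (rle_map F _).mono le_rfl u1
  have a4 : ∀ v, F v ∈ z' 4 := fun v => h4' ▸ trivial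
  have b1 : RLe G (z' 1) (z 1) := h.rle_back' hs u2
  have b4 : ∀ v, G v ∈ z 4 := fun v => h4 ▸ trivial
  refine ⟨fun k => ?_, fun k => ?_⟩
  · fin_cases k
    · exact show RLe F (z 0) (z' 0) from h0 ▸ rle_bot _ _
    · exact a1
    · exact fun v hv => h.fe v ▸ hz' (by decide : (1 : Fin 5) ≤ 2) (a1 _ (c.1 v hv))
    · exact fun v _ => h.ef v ▸ c'.2 _ (a4 v)
    · exact fun v _ => a4 v
  · fin_cases k
    · exact show RLe G (z' 0) (z 0) from h0' ▸ rle_bot _ _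
    · exact b1
    · exact fun v hv => h.ge v ▸ hz (by decide : (1 : Fin 5) ≤ 2) (b1 _ (c'.1 v hv))
    · exact fun v _ => h.eg v ▸ c.2 _ (b4 v)
    · exact fun v _ => b4 v

end Transport

theorem ge_flag {X E E' : Type} [AddCommGroup E] [Module ℚ E] [AddCommGroup E'] [Module ℚ E']
    {A : Tm X → Prop} {q : X → N5} {S : Finset (Tm X)} (hS : Closed S) {M : Str X E}
    {e : E →ₗ[ℚ] E} {a' : Act E'} {M' : Str X E'} {f : E →ₗ[ℚ] E'} {g : E' →ₗ[ℚ] E}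
    (hM : Mem A q S a' M') (hom : ∀ t ∈ S, AtomHom M M' f t ∧ AtomHom M' M g t)
    (hi : Iso e (a'.φ e01) f g) {x : X} (k : Fin 5) (j : J X) (hx : q x = a ∨ q x = b)
    (hs : ∀ k, RLe e (M.z x k) (M.z x k)) (hf : FlagAx (p01 (q x)) (M.z x) e) :
    ∃ N : Str X E', Mem A q (insert (.fl x k j) S) a' N ∧
      ∀ t ∈ insert (Tm.fl x k j) S, AtomHom M N f t ∧ AtomHom N M g t := by
  by_cases h : ∃ k' j', Tm.fl x k' j' ∈ S
  · obtain ⟨k', j', h⟩ := h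
    obtain ⟨b1, b2, b3, -⟩ := hM _ h
    refine ⟨M', mem_insert_of_ax hM ⟨b1, b2, b3, fun _ _ _ => trivial⟩, fun t ht => ?_⟩
    rcases Finset.mem_insert.1 ht with rfl | ht
    exacts [hom (.fl x k' j') h, hom t ht]
  · have key : ∃ z : Fin 5 → Submodule ℚ E', Monotone z ∧ z 0 = ⊥ ∧ z 4 = ⊤ ∧
        (∀ π : Pc, q x ≠ π.out →
          (∀ k, RLe (a'.φ π.idem) (z k) (z k)) ∧ FlagAx (π.col (q x)) z (a'.φ π.idem)) ∧
        (q x = N5.o ∨ q x = N5.i → ∀ α k, RLe (a'.φ α) (z k) (z k)) ∧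
        (∀ k, RLe (a'.φ 1) (z k) (z k)) ∧
        (∀ k, RLe f (M.z x k) (z k)) ∧ ∀ k, RLe g (z k) (M.z x k) := by
      rcases hx with hx | hx
      · obtain ⟨z, hz, h0, h4, b1, b2, b3, b4, -⟩ :=
          exists_flag a' (q x) ((M.z x 2).map f) (hi.fix _)
        have c' := (b1 .v01 (by rw [hx]; decide)).2
        refine ⟨z, hz, h0, h4, b1, b2, b3, ?_⟩
        rw [hx] at hf c'
        exact hi.flag_false (M.mono x) (M.z0 x) (M.z4 x) hz h0 h4 (hs 2) hf c' (b4 hx).1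
          (b4 hx).2
      · obtain ⟨z, hz, h0, h4, b1, b2, b3, -, b4⟩ :=
          exists_flag a' (q x) ((M.z x 1).map f) (hi.fix _)
        have c' := (b1 .v01 (by rw [hx]; decide)).2
        refine ⟨z, hz, h0, h4, b1, b2, b3, ?_⟩
        rw [hx] at hf c'
        exact hi.flag_true (M.mono x) (M.z0 x) (M.z4 x) hz h0 h4 (hs 1) hf c' (b4 hx).1
          (b4 hx).2
    obtain ⟨z, hz, h0, h4, b1, b2, b3, b4, b5⟩ := key
    have hag := agree_setZ (S := S) M' (x := x) (fun k' j' h' => h ⟨k', j', h'⟩) z hz h0 h4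
    refine ⟨_, mem_insert_of_ax (hM.congr hS hag) ⟨fun π hπ => ?_, fun hx α => ?_, ?_,
      fun _ _ _ => trivial⟩, fun t ht => ?_⟩
    · simpa only [AtomHom, PlainAx, setZ_self] using b1 π (hπ x rfl)
    · simpa only [AtomHom, setZ_self] using b2 (hx x rfl) α
    · simpa only [AtomHom, setZ_self] using b3
    · rcases Finset.mem_insert.1 ht with rfl | ht
      · exact ⟨by simpa only [AtomHom, setZ_self] using b4,
          by simpa only [AtomHom, setZ_self] using b5⟩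
      · exact ⟨(hom t ht).1.congr (Agree.refl S M) hag ht,
          (hom t ht).2.congr hag (Agree.refl S M) ht⟩

theorem e11_ne : e11 ≠ e01 ∧ e11 ≠ 1 :=
  ⟨fun h => by simpa [e11, e01] using congrArg (fun α : Alg => α.2.1) h,
    fun h => by simpa [e11] using congrArg (fun α : Alg => α.2.2) h⟩

theorem e00_ne : e00 ≠ e01 ∧ e00 ≠ 1 :=
  ⟨fun h => by simpa [e00, e01] using congrArg (fun α : Alg => α.2.2) h,
    fun h => by simpa [e00] using congrArg (fun α : Alg => α.2.1) h⟩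

theorem fine_mid {X : Type} {q : X → N5} {Y : Set X} (h0 : ¬ ∀ x ∈ Y, q x = o ∨ q x = i)
    (hc : ∀ x ∈ Y, q x ≠ c) : fine q Y =
      [(e01, fun l => ofB (p01 l)), (e11, fun l => ofB (p1 l)), (e00, fun l => ofB (p2 l))] := by
  rw [fine, if_neg h0, if_pos hc]

theorem ge_link {X E E' : Type} [AddCommGroup E] [Module ℚ E] [AddCommGroup E'] [Module ℚ E']
    {A : Tm X → Prop} (hA : ∀ t, A t → Cond A t) {q : X → N5} {S : Finset (Tm X)}
    (hS : Closed S) {Y : List X} {p : X → N5} {s0 s1 t0 t1 : Tm X}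
    (hs : Tm.lk Y p s0 s1 t0 t1 ∉ S) (hk : (Tm.lk Y p s0 s1 t0 t1).args ⊆ S) (hSE : SE A S)
    (hGE : GE A (Tm.lk Y p s0 s1 t0 t1).args)
    (h0 : ¬ ∀ x ∈ (Tm.lk Y p s0 s1 t0 t1).supp, q x = o ∨ q x = i)
    (hc : ∀ x ∈ (Tm.lk Y p s0 s1 t0 t1).supp, q x ≠ c) {M : Str X E}
    {e : E →ₗ[ℚ] E} {a' : Act E'} {M' : Str X E'} {f : E →ₗ[ℚ] E'} {g : E' →ₗ[ℚ] E}
    (hM : Mem A q S a' M') (hom : ∀ t ∈ S, AtomHom M M' f t ∧ AtomHom M' M g t)
    (hi : Iso e (a'.φ e01) f g) (hst : AtomHom M M e (.lk Y p s0 s1 t0 t1))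
    (hax : PlainAx A (fun x => p01 (q x)) M e (.lk Y p s0 s1 t0 t1)) :
    ∃ (E'' : Type) (_ : AddCommGroup E'') (_ : Module ℚ E'') (a'' : Act E'') (M'' : Str X E'')
      (f' : E →ₗ[ℚ] E'') (g' : E'' →ₗ[ℚ] E), Mem A q (insert (.lk Y p s0 s1 t0 t1) S) a'' M'' ∧
      (∀ t ∈ insert (Tm.lk Y p s0 s1 t0 t1) S, AtomHom M M'' f' t ∧ AtomHom M'' M g' t) ∧
      Iso e (a''.φ e01) f' g' := by
  have hkid : ∀ u ∈ (Tm.lk Y p s0 s1 t0 t1).kids, u ∈ S ∧ u.supp ⊆ (Tm.lk Y p s0 s1 t0 t1).supp :=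
    fun u hu => ⟨hk (Tm.kids_mem_args hu), Tm.supp_subset_of_mem_args (Tm.kids_mem_args hu)⟩
  have hfine := fine_mid h0 hc
  have hcases : ∀ φ ∈ fine q (Tm.lk Y p s0 s1 t0 t1).supp,
      φ = (e01, fun l => ofB (p01 l)) ∨ (φ.1 ≠ e01 ∧ φ.1 ≠ 1) := by
    intro φ hφ
    rw [hfine] at hφ
    simp only [List.mem_cons, List.not_mem_nil, or_false] at hφ
    rcases hφ with rfl | rfl | rfl
    exacts [Or.inl rfl, Or.inr e11_ne, Or.inr e00_ne]
  obtain ⟨E'', i1, i2, a'', N, ι, r, hN, hm, hr, -, hz, hb⟩ := enlarge hS hM (s0 := s0)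
    (hkid s1 (by simp [Tm.kids])).1 (hkid s1 (by simp [Tm.kids])).2 True
    (fun φ => (φ.1 ≠ e01 ∧ φ.1 ≠ 1) ∧ A (.lk Y p s0 s1 t0 t1) ∧
      Att (fun x => φ.2 (q x)) (.lk Y p s0 s1 t0 t1))
    fun φ hφ hP => by
      obtain ⟨F, j1, j2, b, N, c1, c2, c3⟩ := witness hA hS hk hSE hGE hφ hP.2.1 hP.2.2
      exact ⟨F, j1, j2, b, N, c1, fun _ => c2 hP.1, c3⟩
  have hi' : Iso e (a''.φ e01) (ι ∘ₗ f) (g ∘ₗ r) := by
    refine ⟨?_, ?_, ?_, ?_⟩
    · rw [LinearMap.comp_assoc, ← LinearMap.comp_assoc f ι r, hr, LinearMap.id_comp, hi.1]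
    · rw [hz trivial, ← hi.2.1]
      rfl
    · rw [LinearMap.comp_assoc, hi.2.2.1]
    · rw [← LinearMap.comp_assoc, hi.2.2.2]
  have hom' : ∀ t ∈ S, AtomHom M N (ι ∘ₗ f) t ∧ AtomHom N M (g ∘ₗ r) t := fun t ht =>
    ⟨(hm t).1.comp (hom t ht).1, (hom t ht).2.comp (hm t).2⟩
  have hh := hi'.hat X
  have evf : ∀ u ∈ (Tm.lk Y p s0 s1 t0 t1).kids, RLe (hat X (ι ∘ₗ f)) (M.ev u) (N.ev u) :=
    fun u hu => ev_hom hS (fun t ht => (hom' t ht).1) (hkid u hu).1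
  have evg : ∀ u ∈ (Tm.lk Y p s0 s1 t0 t1).kids, RLe (hat X (g ∘ₗ r)) (N.ev u) (M.ev u) :=
    fun u hu => ev_hom hS (fun t ht => (hom' t ht).2) (hkid u hu).1
  have hex : ∀ φ : Alg × (N5 → N5), ∃ ρ : Submodule ℚ (Amb X E''),
      (φ = (e01, fun l => ofB (p01 l)) →
        ρ = (M.lk (.lk Y p s0 s1 t0 t1)).map (hat X (ι ∘ₗ f))) ∧
      (φ ∈ fine q (Tm.lk Y p s0 s1 t0 t1).supp → (∀ v ∈ ρ, hat X (a''.φ φ.1) v = v) ∧
      (A (.lk Y p s0 s1 t0 t1) ∧ Att (fun x => φ.2 (q x)) (.lk Y p s0 s1 t0 t1) →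
        LinkS (hat X (a''.φ φ.1)) (N.ev s0) (N.ev s1) (N.ev t0) (N.ev t1) ρ) ∧
      (¬ (A (.lk Y p s0 s1 t0 t1) ∧ Att (fun x => φ.2 (q x)) (.lk Y p s0 s1 t0 t1)) →
        TrivS (hat X (a''.φ φ.1)) (N.ev s0) (N.ev t0) ρ)) := by
    intro φ
    by_cases h1 : φ = (e01, fun l => ofB (p01 l))
    · subst h1
      refine ⟨_, fun _ => rfl, fun _ => ⟨hh.fix _, fun hP => ?_, fun hP => ?_⟩⟩
      · exact hh.linkS (evg s0 (by simp [Tm.kids])) (evf s1 (by simp [Tm.kids]))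
          (evg t0 (by simp [Tm.kids])) (evf t0 (by simp [Tm.kids]))
          (evg t1 (by simp [Tm.kids])) (evf t1 (by simp [Tm.kids])) hst (hax.1 hP)
      · exact hh.trivS (evg s0 (by simp [Tm.kids])) (evf s0 (by simp [Tm.kids]))
          (evg t0 (by simp [Tm.kids])) (evf t0 (by simp [Tm.kids])) hst (hax.2 hP)
    by_cases hf : φ ∈ fine q (Tm.lk Y p s0 s1 t0 t1).supp
    swap
    · exact ⟨⊥, fun h => absurd h h1, fun h => absurd h hf⟩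
    have he : hat X (a''.φ φ.1) ∘ₗ hat X (a''.φ φ.1) = hat X (a''.φ φ.1) := by
      rw [a''.hat_comp, fine_idem hf]
    have st : ∀ u ∈ (Tm.lk Y p s0 s1 t0 t1).kids, RLe (hat X (a''.φ φ.1)) (N.ev u) (N.ev u) :=
      fun u hu => fine_stab hS hN hf (hkid u hu).1 (hkid u hu).2
    by_cases hP : A (.lk Y p s0 s1 t0 t1) ∧ Att (fun x => φ.2 (q x)) (.lk Y p s0 s1 t0 t1)
    · have hI : Indep s0 s1 t0 t1 := (hA _ hP.1).1
      obtain ⟨ρ, c1, c2⟩ := exists_linkS _ he (st s0 (by simp [Tm.kids]))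
        (st t0 (by simp [Tm.kids])) (st t1 (by simp [Tm.kids])) (hI.1 E'' N) (hI.2.1 E'' N)
        (hI.2.2 E'' N) (hb φ hf ⟨(hcases φ hf).resolve_left h1, hP⟩)
      exact ⟨ρ, fun h => absurd h h1, fun _ => ⟨c1, fun _ => c2, fun h => absurd hP h⟩⟩
    · obtain ⟨ρ, c1, c2⟩ := exists_trivS _ he (st s0 (by simp [Tm.kids]))
        (st t0 (by simp [Tm.kids]))
      exact ⟨ρ, fun h => absurd h h1, fun _ => ⟨c1, fun h => absurd h hP, fun _ => c2⟩⟩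
  choose ρ hρ0 hρ using hex
  obtain ⟨R, hR, hR'⟩ := step_link hA hS hs hk hN ρ hρ
  obtain ⟨d1, d2⟩ := hR' (e01, fun l => ofB (p01 l)) (by rw [hfine]; exact List.mem_cons_self)
  rw [hρ0 _ rfl] at d1 d2
  refine ⟨E'', i1, i2, a'', _, ι ∘ₗ f, g ∘ₗ r, hR, fun t ht => ?_, hi'⟩
  rcases Finset.mem_insert.1 ht with rfl | ht
  · simp only [AtomHom, setLk_self]
    exact ⟨(rle_map _ _).mono le_rfl d1, hh.rle_back' hst d2⟩
  · exact ⟨(hom' t ht).1.congr (Agree.refl S M) (agree_setLk N hs R) ht,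
      (hom' t ht).2.congr (agree_setLk N hs R) (Agree.refl S M) ht⟩

end IndG

open IndG in
theorem ge_step {X : Type} {A : Tm X → Prop} (hA : ∀ t, A t → Cond A t) {S : Finset (Tm X)}
    (hS : Closed S) (ih : ∀ S' : Finset (Tm X), Closed S' → S'.card < S.card → SE A S' ∧ GE A S') :
    GE A S := by
  intro q hc E _ _ M e hP
  have h0 : Closed (S.filter fun t => ∀ x ∈ t.supp, q x = o ∨ q x = i) := by
    intro t ht u hu
    obtain ⟨h1, h2⟩ := Finset.mem_filter.1 ht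
    exact Finset.mem_filter.2 ⟨hS t h1 u hu, fun x hx =>
      h2 x (Tm.supp_subset_of_mem_args (Tm.kids_mem_args hu) hx)⟩
  have key : ∃ (E' : Type) (_ : AddCommGroup E') (_ : Module ℚ E') (a' : Act E') (M' : Str X E')
      (f : E →ₗ[ℚ] E') (g : E' →ₗ[ℚ] E), Mem A q S a' M' ∧
      (∀ t ∈ S, AtomHom M M' f t ∧ AtomHom M' M g t) ∧ Iso e (a'.φ e01) f g := by
    refine closed_chain h0 hS (Finset.filter_subset _ _) (fun S' =>
      ∃ (E' : Type) (_ : AddCommGroup E') (_ : Module ℚ E') (a' : Act E') (M' : Str X E')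
        (f : E →ₗ[ℚ] E') (g : E' →ₗ[ℚ] E), Mem A q S' a' M' ∧
        (∀ t ∈ S', AtomHom M M' f t ∧ AtomHom M' M g t) ∧ Iso e (a'.φ e01) f g)
      (exists_tens h0 (fun t ht x hx => ?_) (hP.mono (Finset.filter_subset _ _))) ?_
    · rcases (Finset.mem_filter.1 ht).2 x hx with h | h <;> rw [h] <;> rfl
    rintro S' s c1 c2 c3 c4 c5 c6 ⟨E', i1, i2, a', M', f, g, hM', hom, hi⟩
    have hn : ¬ ∀ x ∈ s.supp, q x = o ∨ q x = i := fun h => c5 (c2 (Finset.mem_filter.2 ⟨c4, h⟩))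
    by_cases h1 : ∃ x k j, s = .fl x k j
    · obtain ⟨x, k, j, rfl⟩ := h1
      have hx : q x = a ∨ q x = b := by
        have d1 : ¬ (q x = o ∨ q x = i) := fun h => hn fun y hy => by
          rw [Set.mem_singleton_iff.1 hy]; exact h
        have d2 : q x ≠ c := hc _ c4 x rfl
        revert d1 d2
        cases q x <;> simp
      obtain ⟨N, hN, hom'⟩ := ge_flag c1 hM' hom hi k j hx (hP.2 _ c4).1 (hP.2 _ c4).2
      exact ⟨E', i1, i2, a', N, f, g, hN, hom', hi⟩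
    by_cases h2 : ∃ Y p s0 s1 t0 t1, s = .lk Y p s0 s1 t0 t1
    · obtain ⟨Y, p, s0, s1, t0, t1, rfl⟩ := h2
      have hlt : S'.card < S.card := Finset.card_lt_card ⟨c3, fun h => c5 (h c4)⟩
      exact ge_link hA c1 c5 c6 (ih S' c1 hlt).1
        (ih _ (closed_args _) ((Finset.card_le_card c6).trans_lt hlt)).2 hn (hc _ c4) hM' hom hi
        (hP.2 _ c4).1 (hP.2 _ c4).2
    · have d1 : ∀ x k j, s ≠ .fl x k j := fun x k j h => h1 ⟨x, k, j, h⟩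
      have d2 : ∀ Y p s0 s1 t0 t1, s ≠ .lk Y p s0 s1 t0 t1 :=
        fun Y p s0 s1 t0 t1 h => h2 ⟨Y, p, s0, s1, t0, t1, h⟩
      refine ⟨E', i1, i2, a', M', f, g, mem_insert_of_ax hM' (ax_of_not_atom A q a' M' d1 d2),
        fun t ht => ?_, hi⟩
      rcases Finset.mem_insert.1 ht with rfl | ht
      exacts [⟨hom_of_not_atom _ _ _ d1 d2, hom_of_not_atom _ _ _ d1 d2⟩, hom t ht]
  obtain ⟨E', i1, i2, a', M', f, g, hM', hom, hi⟩ := key
  refine ⟨E', i1, i2, a', M', f, g, hM', hom, LinearMap.ext fun v => ?_⟩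
  rw [LinearMap.comp_apply, LinearMap.comp_apply, hi.ef, hi.gf]

end Pool.Agent.P.MP_4a7a83_al.MS
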