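import Pool.Agent.P.MP_4a7a83_al.IndS
import Pool.Agent.P.MP_4a7a83_al.IndG

/-!
The main induction.
-/

namespace Pool.Agent.P.MP_4a7a83_al.MS

open Classical N5

theorem se_ge_all {X : Type} {A : Tm X → Prop} (hA : ∀ t, A t → Cond A t) (S : Finset (Tm X))
    (hS : Closed S) : SE A S ∧ GE A S := by
  induction h : S.card using Nat.strong_induction_on generalizing S with
  | _ n ih =>
    have k : ∀ S' : Finset (Tm X), Closed S' → S'.card < S.card → SE A S' ∧ GE A S' :=
      fun S' h1 h2 => ih _ (h ▸ h2) S' h1 rfl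
    exact ⟨se_step hA hS k, ge_step hA hS k⟩

end Pool.Agent.P.MP_4a7a83_al.MS
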