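import Pool.Agent.P.MP_4a7a83_al.Wit
import Pool.Agent.P.MP_4a7a83_al.Flag
import Pool.Agent.P.MP_4a7a83_al.Dim
import Pool.Agent.P.MP_4a7a83_al.Step

/-!
The induction step for extensions of members.
-/

namespace Pool.Agent.P.MP_4a7a83_al.MS

open Classical N5

namespace IndS

theorem ax_of_not_atom {X E : Type} [AddCommGroup E] [Module ℚ E] (A : Tm X → Prop) (q : X → N5)
    (a : Act E) (M : Str X E) {t : Tm X} (h1 : ∀ x k j, t ≠ .fl x k j)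
    (h2 : ∀ Y p s0 s1 t0 t1, t ≠ .lk Y p s0 s1 t0 t1) : Ax A q a M t := by
  cases t
  case fl => exact absurd rfl (h1 _ _ _)
  case lk => exact absurd rfl (h2 _ _ _ _ _ _)
  all_goals
    exact ⟨fun _ _ => ⟨trivial, fun _ => trivial, fun _ => trivial⟩, fun _ _ => trivial, trivial,
      fun _ _ _ => trivial⟩

theorem mem_insert_of_ax {X E : Type} [AddCommGroup E] [Module ℚ E] {A : Tm X → Prop}
    {q : X → N5} {S : Finset (Tm X)} {a : Act E} {M : Str X E} (hM : Mem A q S a M) {s : Tm X}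
    (hs : Ax A q a M s) : Mem A q (insert s S) a M := fun t ht => by
  rcases Finset.mem_insert.1 ht with rfl | ht
  exacts [hs, hM t ht]

theorem se_flag {X E : Type} [AddCommGroup E] [Module ℚ E] {A : Tm X → Prop}
    {q : X → N5} {S : Finset (Tm X)} (hS : Closed S) {a : Act E} {M : Str X E}
    (hM : Mem A q S a M) (x : X) (k : Fin 5) (j : J X) :
    ∃ N : Str X E, Agree S M N ∧ Mem A q (insert (.fl x k j) S) a N := by
  by_cases h : ∃ k' j', Tm.fl x k' j' ∈ S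
  · obtain ⟨k', j', h⟩ := h
    obtain ⟨b1, b2, b3, -⟩ := hM _ h
    exact ⟨M, Agree.refl _ _, mem_insert_of_ax hM ⟨b1, b2, b3, fun _ _ _ => trivial⟩⟩
  · obtain ⟨z, hz, h0, h4, b1, b2, b3, -⟩ := exists_flag a (q x) ⊥ fun v hv => by
      rw [(Submodule.mem_bot ℚ).1 hv, map_zero]
    have hag := agree_setZ (S := S) M (x := x) (fun k' j' h' => h ⟨k', j', h'⟩) z hz h0 h4
    refine ⟨_, hag, mem_insert_of_ax (hM.congr hS hag) ⟨fun π hπ => ?_, fun hx α => ?_, ?_,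
      fun _ _ _ => trivial⟩⟩
    · simpa only [AtomHom, PlainAx, setZ_self] using b1 π (hπ x rfl)
    · simpa only [AtomHom, setZ_self] using b2 (hx x rfl) α
    · simpa only [AtomHom, setZ_self] using b3

theorem se_link {X E : Type} [AddCommGroup E] [Module ℚ E] {A : Tm X → Prop}
    (hA : ∀ t, A t → Cond A t) {q : X → N5} {S : Finset (Tm X)} (hS : Closed S)
    {Y : List X} {p : X → N5} {s0 s1 t0 t1 : Tm X}
    (hs : Tm.lk Y p s0 s1 t0 t1 ∉ S) (hk : (Tm.lk Y p s0 s1 t0 t1).args ⊆ S) (hSE : SE A S)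
    (hGE : GE A (Tm.lk Y p s0 s1 t0 t1).args) {a : Act E} {M : Str X E} (hM : Mem A q S a M) :
    ∃ (E' : Type) (_ : AddCommGroup E') (_ : Module ℚ E') (a' : Act E') (M' : Str X E')
      (ι : E →ₗ[ℚ] E') (r : E' →ₗ[ℚ] E), Mem A q (insert (.lk Y p s0 s1 t0 t1) S) a' M' ∧
      (∀ t ∈ S, AtomHom M M' ι t ∧ AtomHom M' M r t) ∧ ∀ α, r ∘ₗ a'.φ α ∘ₗ ι = a.φ α := by
  have hkid : ∀ u ∈ (Tm.lk Y p s0 s1 t0 t1).kids, u ∈ S ∧ u.supp ⊆ (Tm.lk Y p s0 s1 t0 t1).supp :=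
    fun u hu => ⟨hk (Tm.kids_mem_args hu), Tm.supp_subset_of_mem_args (Tm.kids_mem_args hu)⟩
  obtain ⟨E', i1, i2, a', M', ι, r, hM', hom, hr, hα, -, hb⟩ := enlarge hS hM (s0 := s0)
    (hkid s1 (by simp [Tm.kids])).1 (hkid s1 (by simp [Tm.kids])).2 False
    (fun f => A (.lk Y p s0 s1 t0 t1) ∧ Att (fun x => f.2 (q x)) (.lk Y p s0 s1 t0 t1))
    fun f hf hP => by
      obtain ⟨F, j1, j2, b, N, c1, -, c3⟩ := witness hA hS hk hSE hGE hf hP.1 hP.2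
      exact ⟨F, j1, j2, b, N, c1, False.elim, c3⟩
  have hex : ∀ f : Alg × (N5 → N5), ∃ ρ : Submodule ℚ (Amb X E'),
      f ∈ fine q (Tm.lk Y p s0 s1 t0 t1).supp → (∀ v ∈ ρ, hat X (a'.φ f.1) v = v) ∧
      (A (.lk Y p s0 s1 t0 t1) ∧ Att (fun x => f.2 (q x)) (.lk Y p s0 s1 t0 t1) →
        LinkS (hat X (a'.φ f.1)) (M'.ev s0) (M'.ev s1) (M'.ev t0) (M'.ev t1) ρ) ∧
      (¬ (A (.lk Y p s0 s1 t0 t1) ∧ Att (fun x => f.2 (q x)) (.lk Y p s0 s1 t0 t1)) →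
        TrivS (hat X (a'.φ f.1)) (M'.ev s0) (M'.ev t0) ρ) := by
    intro f
    by_cases hf : f ∈ fine q (Tm.lk Y p s0 s1 t0 t1).supp
    swap
    · exact ⟨⊥, fun h => absurd h hf⟩
    have he : hat X (a'.φ f.1) ∘ₗ hat X (a'.φ f.1) = hat X (a'.φ f.1) := by
      rw [a'.hat_comp, fine_idem hf]
    have st : ∀ u ∈ (Tm.lk Y p s0 s1 t0 t1).kids, RLe (hat X (a'.φ f.1)) (M'.ev u) (M'.ev u) :=
      fun u hu => fine_stab hS hM' hf (hkid u hu).1 (hkid u hu).2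
    by_cases hP : A (.lk Y p s0 s1 t0 t1) ∧ Att (fun x => f.2 (q x)) (.lk Y p s0 s1 t0 t1)
    · have hI : Indep s0 s1 t0 t1 := (hA _ hP.1).1
      obtain ⟨ρ, c1, c2⟩ := exists_linkS _ he (st s0 (by simp [Tm.kids]))
        (st t0 (by simp [Tm.kids])) (st t1 (by simp [Tm.kids])) (hI.1 E' M') (hI.2.1 E' M')
        (hI.2.2 E' M') (hb f hf hP)
      exact ⟨ρ, fun _ => ⟨c1, fun _ => c2, fun h => absurd hP h⟩⟩
    · obtain ⟨ρ, c1, c2⟩ := exists_trivS _ he (st s0 (by simp [Tm.kids]))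
        (st t0 (by simp [Tm.kids]))
      exact ⟨ρ, fun _ => ⟨c1, fun h => absurd h hP, fun _ => c2⟩⟩
  choose ρ hρ using hex
  obtain ⟨R, hR, -⟩ := step_link hA hS hs hk hM' ρ hρ
  refine ⟨E', i1, i2, a', _, ι, r, hR, fun t ht => ⟨?_, ?_⟩, fun α => ?_⟩
  · exact (hom t).1.congr (Agree.refl S M) (agree_setLk M' hs R) ht
  · exact (hom t).2.congr (agree_setLk M' hs R) (Agree.refl S M) ht
  · rw [← LinearMap.comp_assoc, hα, LinearMap.comp_assoc, hr, LinearMap.comp_id]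

end IndS

open IndS in
theorem se_step {X : Type} {A : Tm X → Prop} (hA : ∀ t, A t → Cond A t) {S : Finset (Tm X)}
    (hS : Closed S) (ih : ∀ S' : Finset (Tm X), Closed S' → S'.card < S.card → SE A S' ∧ GE A S') :
    SE A S := by
  intro q S0 h0 hsub E _ _ a M hM
  refine closed_chain h0 hS hsub (fun S' =>
    ∃ (E' : Type) (_ : AddCommGroup E') (_ : Module ℚ E') (a' : Act E') (M' : Str X E')
      (f : E →ₗ[ℚ] E') (g : E' →ₗ[ℚ] E), Mem A q S' a' M' ∧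
      (∀ t ∈ S0, AtomHom M M' f t ∧ AtomHom M' M g t) ∧ ∀ α, g ∘ₗ a'.φ α ∘ₗ f = a.φ α)
    ⟨E, _, _, a, M, LinearMap.id, LinearMap.id, hM,
      fun t _ => ⟨atomHom_id M t, atomHom_id M t⟩, fun α => rfl⟩ ?_
  rintro S' s c1 c2 c3 c4 c5 c6 ⟨E', i1, i2, a', M', f, g, hM', hom, hα⟩
  by_cases h1 : ∃ x k j, s = .fl x k j
  · obtain ⟨x, k, j, rfl⟩ := h1
    obtain ⟨N, hag, hN⟩ := se_flag c1 hM' x k j
    exact ⟨E', i1, i2, a', N, f, g, hN, fun t ht =>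
      ⟨(hom t ht).1.congr (Agree.refl S' M) hag (c2 ht),
        (hom t ht).2.congr hag (Agree.refl S' M) (c2 ht)⟩, hα⟩
  by_cases h2 : ∃ Y p s0 s1 t0 t1, s = .lk Y p s0 s1 t0 t1
  · obtain ⟨Y, p, s0, s1, t0, t1, rfl⟩ := h2
    have hlt : S'.card < S.card := Finset.card_lt_card ⟨c3, fun h => c5 (h c4)⟩
    obtain ⟨E'', j1, j2, a'', M'', ι, r, hN, hom', hβ⟩ := se_link hA c1 c5 c6 (ih S' c1 hlt).1
      (ih _ (closed_args _) ((Finset.card_le_card c6).trans_lt hlt)).2 hM'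
    refine ⟨E'', j1, j2, a'', M'', ι ∘ₗ f, g ∘ₗ r, hN, fun t ht =>
      ⟨(hom' t (c2 ht)).1.comp (hom t ht).1, (hom t ht).2.comp (hom' t (c2 ht)).2⟩, fun α => ?_⟩
    rw [← hα α, ← hβ α]
    rfl
  · exact ⟨E', i1, i2, a', M', f, g, mem_insert_of_ax hM' (ax_of_not_atom A q a' M'
      (fun x k j h => h1 ⟨x, k, j, h⟩) fun Y p s0 s1 t0 t1 h => h2 ⟨Y, p, s0, s1, t0, t1, h⟩),
      hom, hα⟩

end Pool.Agent.P.MP_4a7a83_al.MS
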