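import Mathlib

/-!
The pentagon, lattice congruences as relations, and the class of lattices separated by their
homomorphisms to the pentagon.
-/

namespace Pool.Agent.P.MP_4a7a83_al

/-- The pentagon `o < a < b < i`, `o < c < i`. -/
inductive N5
  | o | a | b | c | i
  deriving DecidableEq, Fintype

namespace N5

def le' : N5 → N5 → Bool
  | o, _ => true
  | _, i => true
  | a, a => true
  | a, b => true
  | b, b => true
  | c, c => true
  | _, _ => false

def sup' (x y : N5) : N5 := if le' x y then y else if le' y x then x else i

def inf' (x y : N5) : N5 := if le' x y then x else if le' y x then y else o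

instance : Lattice N5 where
  le x y := le' x y = true
  le_refl := by decide
  le_trans := by decide
  le_antisymm := by decide
  sup := sup'
  le_sup_left := by decide
  le_sup_right := by decide
  sup_le := by decide
  inf := inf'
  inf_le_left := by decide
  inf_le_right := by decide
  le_inf := by decide

instance : DecidableLE N5 := fun x y => inferInstanceAs (Decidable (le' x y = true))

/-- The two-valued labels. -/
def ofB : Bool → N5
  | false => o
  | true => i

/-- The homomorphism `a, b ↦ 1`, `c ↦ 0`. -/
def p1 : N5 → Bool
  | o => false | a => true | b => true | c => false | i => true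

/-- The homomorphism `a, b ↦ 0`, `c ↦ 1`. -/
def p2 : N5 → Bool
  | o => false | a => false | b => false | c => true | i => true

/-- The cut `a ↦ 0`, `b ↦ 1` of the chain `o < a < b < i`. -/
def p01 : N5 → Bool
  | o => false | a => false | b => true | c => false | i => true

end N5

/-- `q` takes all three values `a, b, c` on `S`. -/
def Onto {X : Type} (q : X → N5) (S : Set X) : Prop :=
  (∃ x ∈ S, q x = N5.a) ∧ (∃ x ∈ S, q x = N5.b) ∧ (∃ x ∈ S, q x = N5.c)

/-- Lattice congruences, as relations. -/
def IsCong {L : Type} [Lattice L] (r : L → L → Prop) : Prop :=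
  Equivalence r ∧ ∀ a b c d : L, r a b → r c d → r (a ⊔ c) (b ⊔ d) ∧ r (a ⊓ c) (b ⊓ d)

/-- The congruence generated by `F`. -/
def Gen {L : Type} [Lattice L] (F : Set (L × L)) (a b : L) : Prop :=
  ∀ s : L → L → Prop, IsCong s → (∀ p ∈ F, s p.1 p.2) → s a b

/-- The compact congruences, literally as in the frozen statement. -/
abbrev CCon (L : Type) [Lattice L] : Type :=
  {r : L → L → Prop //
    (Equivalence r ∧ ∀ a b c d : L, r a b → r c d →
        r (a ⊔ c) (b ⊔ d) ∧ r (a ⊓ c) (b ⊓ d)) ∧
    ∃ F : Set (L × L), F.Finite ∧
      ∀ a b : L, r a b ↔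
        ∀ s : L → L → Prop,
          (Equivalence s ∧ ∀ x y z w : L, s x y → s z w →
              s (x ⊔ z) (y ⊔ w) ∧ s (x ⊓ z) (y ⊓ w)) →
          (∀ p ∈ F, s p.1 p.2) → s a b}

/-- Lattices whose homomorphisms to the pentagon separate points. -/
def InV (L : Type) [Lattice L] : Prop :=
  ∀ x y : L, x ≠ y → ∃ q : LatticeHom L N5, q x ≠ q y

/-- `δ x y` is the set of points separating `x` and `y`; the points determine the compact
congruences. -/
structure IsDelta {L P : Type} [Lattice L] (δ : L → L → Set P) : Prop where
  cong : ∀ p : P, IsCong fun x y => p ∉ δ x y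
  gen : ∀ (F : Set (L × L)) (x y : L), F.Finite → δ x y ⊆ ⋃ f ∈ F, δ f.1 f.2 → Gen F x y

end Pool.Agent.P.MP_4a7a83_al
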