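import Mathlib

/-! Congruence lattices of lattices: completeness, distributivity, subdirect decomposition,
an ultrafilter lemma, and a criterion for two congruence lattices to be isomorphic. -/

namespace Pool.Agent.P.MP_4a7a83_al.LE

/-- lattice congruences, as relations -/
def IsCon {L : Type} [Lattice L] (r : L → L → Prop) : Prop :=
  Equivalence r ∧ ∀ a b c d : L, r a b → r c d → r (a ⊔ c) (b ⊔ d) ∧ r (a ⊓ c) (b ⊓ d)

/-- the congruences of a lattice -/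
def Con (L : Type) [Lattice L] : Type := {r : L → L → Prop // IsCon r}

variable {L : Type} [Lattice L]

instance : PartialOrder (Con L) := Subtype.partialOrder _

namespace Con

theorem le_iff {α β : Con L} : α ≤ β ↔ ∀ a b, α.1 a b → β.1 a b := Iff.rfl

theorem ext' {α β : Con L} (h : ∀ a b, α.1 a b ↔ β.1 a b) : α = β :=
  le_antisymm (fun a b => (h a b).1) (fun a b => (h a b).2)

theorem refl (α : Con L) (a : L) : α.1 a a := α.2.1.refl a
theorem symm (α : Con L) {a b : L} (h : α.1 a b) : α.1 b a := α.2.1.symm h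
theorem trans (α : Con L) {a b c : L} (h : α.1 a b) (h' : α.1 b c) : α.1 a c := α.2.1.trans h h'
theorem sup (α : Con L) {a b c d : L} (h : α.1 a b) (h' : α.1 c d) : α.1 (a ⊔ c) (b ⊔ d) :=
  (α.2.2 a b c d h h').1
theorem inf (α : Con L) {a b c d : L} (h : α.1 a b) (h' : α.1 c d) : α.1 (a ⊓ c) (b ⊓ d) :=
  (α.2.2 a b c d h h').2

theorem of_eq (α : Con L) {a b : L} (h : a = b) : α.1 a b := h ▸ α.refl a

/-- a pair is collapsed iff the interval it spans is -/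
theorem inf_sup_iff (α : Con L) {a b : L} : α.1 (a ⊓ b) (a ⊔ b) ↔ α.1 a b := by
  constructor
  · intro h
    have h1 : α.1 (a ⊓ b) a := by simpa using α.inf h (α.refl a)
    have h2 : α.1 (a ⊓ b) b := by simpa using α.inf h (α.refl b)
    exact α.trans (α.symm h1) h2
  · intro h
    have h1 : α.1 (a ⊓ b) b := by simpa using α.inf h (α.refl b)
    have h2 : α.1 b (a ⊔ b) := by simpa using α.sup (α.symm h) (α.refl b)
    exact α.trans h1 h2

/-- congruence classes are convex -/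
theorem convex (α : Con L) {a b c d : L} (h : α.1 a d) (hab : a ≤ b) (hbc : b ≤ c) (hcd : c ≤ d) :
    α.1 b c := by
  have h1 := α.inf (α.sup h (α.refl b)) (α.refl c)
  rwa [sup_eq_right.2 hab, inf_eq_left.2 hbc, sup_eq_left.2 (hbc.trans hcd),
    inf_eq_right.2 hcd] at h1

instance : InfSet (Con L) :=
  ⟨fun S => ⟨fun a b => ∀ r ∈ S, r.1 a b,
    ⟨⟨fun a r _ => r.refl a, fun h r hr => r.symm (h r hr),
      fun h h' r hr => r.trans (h r hr) (h' r hr)⟩,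
     fun _ _ _ _ h h' => ⟨fun r hr => r.sup (h r hr) (h' r hr),
      fun r hr => r.inf (h r hr) (h' r hr)⟩⟩⟩⟩

theorem sInf_iff {S : Set (Con L)} {a b : L} : (sInf S).1 a b ↔ ∀ r ∈ S, r.1 a b := Iff.rfl

instance : CompleteLattice (Con L) :=
  completeLatticeOfInf (Con L) fun _ =>
    ⟨fun r hr _ _ h => h r hr, fun _ hr a b h _ hs => hr hs a b h⟩

theorem iInf_iff {ι : Sort*} {f : ι → Con L} {a b : L} : (⨅ i, f i).1 a b ↔ ∀ i, (f i).1 a b := by
  rw [iInf, sInf_iff]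
  simp

theorem inf_iff {α β : Con L} {a b : L} : (α ⊓ β).1 a b ↔ α.1 a b ∧ β.1 a b := by
  rw [← sInf_pair, sInf_iff]
  simp

theorem top_iff {a b : L} : (⊤ : Con L).1 a b := by
  rw [← sInf_empty, sInf_iff]
  simp

/-- the kernel of a lattice homomorphism -/
def ker {M : Type} [Lattice M] (f : LatticeHom L M) : Con L :=
  ⟨fun a b => f a = f b, ⟨⟨fun _ => rfl, Eq.symm, Eq.trans⟩, fun a b c d h h' => by
    simp only [map_sup, map_inf] at *
    rw [h, h']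
    exact ⟨rfl, rfl⟩⟩⟩

theorem ker_iff {M : Type} [Lattice M] {f : LatticeHom L M} {a b : L} :
    (ker f).1 a b ↔ f a = f b := Iff.rfl

theorem bot_iff {a b : L} : (⊥ : Con L).1 a b ↔ a = b :=
  ⟨fun h => (bot_le : (⊥ : Con L) ≤ ker (LatticeHom.id L)) a b h, fun h => of_eq _ h⟩

/-- the transitive closure of a union of two congruences -/
def chain (α β : Con L) : Con L :=
  ⟨Relation.TransGen fun x y => α.1 x y ∨ β.1 x y, by
    have key : ∀ g : L → L, (∀ x y, α.1 x y → α.1 (g x) (g y)) →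
        (∀ x y, β.1 x y → β.1 (g x) (g y)) → ∀ x y,
        Relation.TransGen (fun x y => α.1 x y ∨ β.1 x y) x y →
        Relation.TransGen (fun x y => α.1 x y ∨ β.1 x y) (g x) (g y) := by
      intro g h1 h2 x y h
      exact h.lift g fun a b hab => hab.imp (h1 a b) (h2 a b)
    refine ⟨⟨fun a => .single (Or.inl (α.refl a)), fun {x y} h => ?_, fun h h' => h.trans h'⟩,
      fun a b c d h h' => ⟨?_, ?_⟩⟩
    · induction h with
      | single h => exact .single (h.imp α.symm β.symm)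
      | tail _ h ih => exact .head (h.imp α.symm β.symm) ih
    · exact (key (· ⊔ c) (fun x y h => α.sup h (α.refl c)) (fun x y h => β.sup h (β.refl c))
        a b h).trans (key (b ⊔ ·) (fun x y h => α.sup (α.refl b) h)
          (fun x y h => β.sup (β.refl b) h) c d h')
    · exact (key (· ⊓ c) (fun x y h => α.inf h (α.refl c)) (fun x y h => β.inf h (β.refl c))
        a b h).trans (key (b ⊓ ·) (fun x y h => α.inf (α.refl b) h)
          (fun x y h => β.inf (β.refl b) h) c d h')⟩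

theorem sup_eq_chain (α β : Con L) : α ⊔ β = chain α β := by
  refine le_antisymm (sup_le (fun a b h => .single (Or.inl h)) (fun a b h => .single (Or.inr h))) ?_
  intro a b h
  induction h with
  | single h =>
    exact h.elim ((le_sup_left : α ≤ α ⊔ β) _ _) ((le_sup_right : β ≤ α ⊔ β) _ _)
  | tail _ h ih =>
    exact (α ⊔ β).trans ih
      (h.elim ((le_sup_left : α ≤ α ⊔ β) _ _) ((le_sup_right : β ≤ α ⊔ β) _ _))

theorem sup_iff {α β : Con L} {a b : L} :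
    (α ⊔ β).1 a b ↔ Relation.TransGen (fun x y => α.1 x y ∨ β.1 x y) a b := by
  rw [sup_eq_chain]
  rfl

theorem inf_sup_le (α β γ : Con L) : α ⊓ (β ⊔ γ) ≤ α ⊓ β ⊔ α ⊓ γ := by
  intro a b h
  obtain ⟨hα, h⟩ := inf_iff.1 h
  have hm : ∀ (r : Con L) (x y : L), r.1 x y →
      r.1 (a ⊓ x ⊔ (x ⊓ b ⊔ a ⊓ b)) (a ⊓ y ⊔ (y ⊓ b ⊔ a ⊓ b)) := fun r x y hxy =>
    r.sup (r.inf (r.refl a) hxy) (r.sup (r.inf hxy (r.refl b)) (r.refl _))
  have ha : ∀ x : L, α.1 (a ⊓ x ⊔ (x ⊓ b ⊔ a ⊓ b)) a := by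
    intro x
    have h1 : α.1 (a ⊓ x ⊔ (x ⊓ b ⊔ a ⊓ b)) (a ⊓ x ⊔ (x ⊓ a ⊔ a ⊓ a)) :=
      α.sup (α.refl _) (α.sup (α.inf (α.refl x) (α.symm hα)) (α.inf (α.refl a) (α.symm hα)))
    have h2 : a ⊓ x ⊔ (x ⊓ a ⊔ a ⊓ a) = a := by simp
    rwa [h2] at h1
  have step : ∀ x y : L, (β.1 x y ∨ γ.1 x y) →
      (α ⊓ β ⊔ α ⊓ γ).1 (a ⊓ x ⊔ (x ⊓ b ⊔ a ⊓ b)) (a ⊓ y ⊔ (y ⊓ b ⊔ a ⊓ b)) := by
    intro x y hxy
    have h0 := α.trans (ha x) (α.symm (ha y))
    rcases hxy with hxy | hxy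
    · exact (le_sup_left : α ⊓ β ≤ _) _ _ (inf_iff.2 ⟨h0, hm β x y hxy⟩)
    · exact (le_sup_right : α ⊓ γ ≤ _) _ _ (inf_iff.2 ⟨h0, hm γ x y hxy⟩)
  have key : ∀ z, Relation.TransGen (fun x y => β.1 x y ∨ γ.1 x y) a z →
      (α ⊓ β ⊔ α ⊓ γ).1 (a ⊓ a ⊔ (a ⊓ b ⊔ a ⊓ b)) (a ⊓ z ⊔ (z ⊓ b ⊔ a ⊓ b)) := by
    intro z hz
    induction hz with
    | single h => exact step _ _ h
    | tail _ h ih => exact Con.trans _ ih (step _ _ h)
  have h1 := key b (sup_iff.1 h)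
  have e1 : a ⊓ a ⊔ (a ⊓ b ⊔ a ⊓ b) = a := by simp
  have e2 : a ⊓ b ⊔ (b ⊓ b ⊔ a ⊓ b) = b := by simp
  rwa [e1, e2] at h1

instance : DistribLattice (Con L) := DistribLattice.ofInfSupLe inf_sup_le

/-- the union of a nonempty directed family of congruences -/
def dirUnion (S : Set (Con L)) (hne : S.Nonempty) (hd : DirectedOn (· ≤ ·) S) : Con L :=
  ⟨fun a b => ∃ r ∈ S, r.1 a b, by
    refine ⟨⟨fun a => ?_, fun ⟨r, hr, h⟩ => ⟨r, hr, r.symm h⟩, fun ⟨r, hr, h⟩ ⟨s, hs, h'⟩ => ?_⟩,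
      fun a b c d ⟨r, hr, h⟩ ⟨s, hs, h'⟩ => ?_⟩
    · obtain ⟨r, hr⟩ := hne
      exact ⟨r, hr, r.refl a⟩
    · obtain ⟨t, ht, h1, h2⟩ := hd r hr s hs
      exact ⟨t, ht, t.trans (h1 _ _ h) (h2 _ _ h')⟩
    · obtain ⟨t, ht, h1, h2⟩ := hd r hr s hs
      exact ⟨⟨t, ht, t.sup (h1 _ _ h) (h2 _ _ h')⟩, ⟨t, ht, t.inf (h1 _ _ h) (h2 _ _ h')⟩⟩⟩

theorem isLUB_dirUnion (S : Set (Con L)) (hne : S.Nonempty) (hd : DirectedOn (· ≤ ·) S) :
    IsLUB S (dirUnion S hne hd) :=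
  ⟨fun r hr _ _ h => ⟨r, hr, h⟩, fun _ hu a b ⟨_, hr, h⟩ => hu hr a b h⟩

/-- a pair outside a congruence is outside a meet-prime congruence above it -/
theorem exists_infPrime (α : Con L) {a b : L} (h : ¬ α.1 a b) :
    ∃ μ : Con L, α ≤ μ ∧ ¬ μ.1 a b ∧ InfPrime μ := by
  obtain ⟨μ, hαμ, hμ⟩ := zorn_le_nonempty₀ {r : Con L | ¬ r.1 a b} (fun c hc hch y hy =>
    ⟨dirUnion c ⟨y, hy⟩ hch.directedOn, fun ⟨r, hr, h⟩ => hc hr h,
      fun z hz => (isLUB_dirUnion c ⟨y, hy⟩ hch.directedOn).1 hz⟩) α h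
  refine ⟨μ, hαμ, hμ.1, fun hm => hμ.1 (hm le_top a b top_iff), fun β γ hβγ => ?_⟩
  by_contra hc
  push Not at hc
  have k : ∀ δ : Con L, ¬ δ ≤ μ → (μ ⊔ δ).1 a b := by
    intro δ hδ
    by_contra hn
    exact hδ (le_sup_right.trans (hμ.2 hn le_sup_left))
  have e : (μ ⊔ β) ⊓ (μ ⊔ γ) ≤ μ := by
    rw [← sup_inf_left]
    exact sup_le le_rfl hβγ
  exact hμ.1 (e a b (inf_iff.2 ⟨k β hc.1, k γ hc.2⟩))

theorem le_of_infPrime {α β : Con L} (h : ∀ μ : Con L, InfPrime μ → β ≤ μ → α ≤ μ) : α ≤ β := by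
  intro a b hab
  by_contra hn
  obtain ⟨μ, h1, h2, h3⟩ := exists_infPrime β hn
  exact h2 (h μ h3 h1 a b hab)

/-- ultrafilter lemma: a meet-prime congruence above an intersection of congruences is above an
ultrafilter limit of them -/
theorem exists_ultra {X : Type} (θ : X → Con L) (S : Set X) {μ : Con L} (hμ : InfPrime μ)
    (h : ⨅ q ∈ S, θ q ≤ μ) :
    ∃ U : Ultrafilter X, S ∈ U ∧ ∀ a b, {q | (θ q).1 a b} ∈ U → μ.1 a b := by
  have htop : ¬ (⊤ : Con L) ≤ μ := fun h => hμ.1 fun b _ => le_top.trans h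
  let F : Filter X :=
    { sets := {J | ¬ ⨅ q ∈ S \ J, θ q ≤ μ}
      univ_sets := by simpa using htop
      sets_of_superset := fun {J J'} hJ hJJ' h' =>
        hJ (le_trans (biInf_mono fun q hq => ⟨hq.1, fun h => hq.2 (hJJ' h)⟩) h')
      inter_sets := fun {J J'} hJ hJ' h' => by
        rw [Set.sdiff_inter, iInf_union] at h'
        exact (hμ.2 h').elim hJ hJ' }
  have hF : F.NeBot := by
    rw [Filter.neBot_iff, Ne, ← Filter.empty_mem_iff_bot]
    intro h'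
    exact h' (by simpa using h)
  refine ⟨Ultrafilter.of F, Ultrafilter.of_le F (show ¬ _ by simpa using htop), fun a b hab => ?_⟩
  by_contra hn
  have : {q | (θ q).1 a b}ᶜ ∈ F := by
    intro h'
    refine hn (h' a b ?_)
    simp only [iInf_iff]
    intro q hq
    simpa using hq.2
  exact (Ultrafilter.compl_mem_iff_notMem.1 (Ultrafilter.of_le F this)) hab

end Con

/-- a family of congruences indexed by a space of points with ultrafilter limits -/
structure Fam {X : Type} (lim : Ultrafilter X → X) (θ : X → Con L) : Prop where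
  sep : ∀ a b, (∀ q, (θ q).1 a b) → a = b
  lim : ∀ U a b, (θ (lim U)).1 a b ↔ {q | (θ q).1 a b} ∈ U
  above : ∀ q ψ, θ q ≤ ψ → ∃ q', ψ = θ q'

namespace Fam

variable {X : Type} {lim : Ultrafilter X → X} {M : Type} [Lattice M] {κ : X → Con L}
  {θ : X → Con M}

theorem exists_point (h : Fam lim κ) (S : Set X) {μ : Con L} (hμ : InfPrime μ)
    (hS : ⨅ q ∈ S, κ q ≤ μ) : ∃ U : Ultrafilter X, S ∈ U ∧ κ (lim U) ≤ μ := by
  obtain ⟨U, h1, h2⟩ := Con.exists_ultra κ S hμ hS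
  exact ⟨U, h1, fun a b hab => h2 a b ((h.lim U a b).1 hab)⟩

theorem iInf_le_lim (h : Fam lim κ) {S : Set X} {U : Ultrafilter X} (hS : S ∈ U) :
    ⨅ q ∈ S, κ q ≤ κ (lim U) := by
  intro a b hab
  simp only [Con.iInf_iff] at hab
  exact (h.lim U a b).2 (Filter.mem_of_superset hS fun q hq => hab q hq)

theorem prime_eq (h : Fam lim κ) {μ : Con L} (hμ : InfPrime μ) : ∃ q, μ = κ q := by
  obtain ⟨U, -, hU⟩ := h.exists_point Set.univ hμ (by
    intro a b hab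
    simp only [Con.iInf_iff] at hab
    exact μ.of_eq (h.sep a b fun q => hab q trivial))
  exact h.above _ _ hU

/-- every congruence is an intersection of members of the family -/
theorem iInf_eq (h : Fam lim κ) (α : Con L) : ⨅ q ∈ {q | α ≤ κ q}, κ q = α := by
  refine le_antisymm (Con.le_of_infPrime fun μ hμ hα => ?_) (le_iInf₂ fun q hq => hq)
  obtain ⟨q, rfl⟩ := h.prime_eq hμ
  exact iInf₂_le q hα

theorem infPrime_transfer (hκ : Fam lim κ) (hθ : Fam lim θ)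
    (h : ∀ q q', κ q ≤ κ q' ↔ θ q ≤ θ q') {q : X} (hq : InfPrime (θ q)) : InfPrime (κ q) := by
  rw [infPrime_iff_infIrred]
  refine ⟨fun hm => hq.1 fun ψ hψ => ?_, fun β γ e => ?_⟩
  · obtain ⟨q', rfl⟩ := hθ.above q ψ hψ
    exact (h _ _).1 (hm ((h _ _).2 hψ))
  · have hβ : κ q ≤ β := e ▸ inf_le_left
    have hγ : κ q ≤ γ := e ▸ inf_le_right
    obtain ⟨q1, rfl⟩ := hκ.above q β hβ
    obtain ⟨q2, rfl⟩ := hκ.above q γ hγ
    obtain ⟨q3, h3⟩ := hθ.above q (θ q1 ⊓ θ q2) (le_inf ((h _ _).1 hβ) ((h _ _).1 hγ))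
    have h4 : κ q3 ≤ κ q := by
      rw [← e]
      exact le_inf ((h _ _).2 (h3 ▸ inf_le_left)) ((h _ _).2 (h3 ▸ inf_le_right))
    rcases hq.2 (h3 ▸ (h _ _).1 h4 : θ q1 ⊓ θ q2 ≤ θ q) with h5 | h5
    · exact Or.inl (le_antisymm ((h _ _).2 h5) hβ)
    · exact Or.inr (le_antisymm ((h _ _).2 h5) hγ)

theorem iInf_transfer (hκ : Fam lim κ) (hθ : Fam lim θ)
    (h : ∀ q q', κ q ≤ κ q' ↔ θ q ≤ θ q') (S : Set X) {q' : X} (hS : ⨅ q ∈ S, κ q ≤ κ q') :
    ⨅ q ∈ S, θ q ≤ θ q' := by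
  refine Con.le_of_infPrime fun μ hμ hq' => ?_
  obtain ⟨q'', rfl⟩ := hθ.above q' μ hq'
  obtain ⟨U, hU, hl⟩ := hκ.exists_point S (infPrime_transfer hκ hθ h hμ)
    (hS.trans ((h _ _).2 hq'))
  exact (hθ.iInf_le_lim hU).trans ((h _ _).1 hl)

theorem transfer_le_iff (hκ : Fam lim κ) (hθ : Fam lim θ)
    (h : ∀ q q', κ q ≤ κ q' ↔ θ q ≤ θ q') (α : Con L) (q' : X) :
    ⨅ q ∈ {q | α ≤ κ q}, θ q ≤ θ q' ↔ α ≤ κ q' := by
  constructor
  · intro h'
    rw [← hκ.iInf_eq α]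
    exact iInf_transfer hθ hκ (fun q q' => (h q q').symm) _ h'
  · intro h'
    exact iInf₂_le q' h'

/-- criterion for isomorphic congruence lattices -/
theorem conIso (hκ : Fam lim κ) (hθ : Fam lim θ) (h : ∀ q q', κ q ≤ κ q' ↔ θ q ≤ θ q') :
    Nonempty (Con L ≃o Con M) := by
  have h' : ∀ q q', θ q ≤ θ q' ↔ κ q ≤ κ q' := fun q q' => (h q q').symm
  refine ⟨Equiv.toOrderIso
    { toFun := fun α => ⨅ q ∈ {q | α ≤ κ q}, θ q
      invFun := fun ψ => ⨅ q ∈ {q | ψ ≤ θ q}, κ q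
      left_inv := fun α => ?_
      right_inv := fun ψ => ?_ } ?_ ?_⟩
  · simp only [transfer_le_iff hκ hθ h]
    exact hκ.iInf_eq α
  · simp only [transfer_le_iff hθ hκ h']
    exact hθ.iInf_eq ψ
  · intro α β hαβ
    exact biInf_mono fun q hq => hαβ.trans hq
  · intro α β hαβ
    exact biInf_mono fun q hq => hαβ.trans hq

end Fam

end Pool.Agent.P.MP_4a7a83_al.LE
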