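import Pool.Agent.P.MP_4a7a83_al.LDefs
import Pool.Agent.P.MP_4a7a83_al.LatCon

/-!
Congruence distributivity of lattices, in a form that does not mention joins of congruences.
-/

namespace Pool.Agent.P.MP_4a7a83_al

theorem dist_two {K : Type} [Lattice K] {θ α β : K → K → Prop} (hθ : IsCong θ) (hα : IsCong α)
    (hβ : IsCong β) (hαβ : ∀ u v, α u v → β u v → θ u v) {x y : K}
    (h1 : ∀ s : K → K → Prop, IsCong s → (∀ u v, θ u v → s u v) → (∀ u v, α u v → s u v) → s x y)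
    (h2 : ∀ s : K → K → Prop, IsCong s → (∀ u v, θ u v → s u v) → (∀ u v, β u v → s u v) → s x y) :
    θ x y := by
  let t : LE.Con K := ⟨θ, hθ⟩
  let a : LE.Con K := ⟨α, hα⟩
  let b : LE.Con K := ⟨β, hβ⟩
  have e : (t ⊔ a) ⊓ (t ⊔ b) ≤ t := by
    rw [← sup_inf_left]
    exact sup_le le_rfl fun u v h => hαβ u v (LE.Con.inf_iff.1 h).1 (LE.Con.inf_iff.1 h).2
  exact e x y (LE.Con.inf_iff.2
    ⟨h1 _ (t ⊔ a).2 (le_sup_left : t ≤ t ⊔ a) (le_sup_right : a ≤ t ⊔ a),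
     h2 _ (t ⊔ b).2 (le_sup_left : t ≤ t ⊔ b) (le_sup_right : b ≤ t ⊔ b)⟩)

theorem dist_fin {K : Type} [Lattice K] {I : Type} [Finite I] (η : I → K → K → Prop)
    (hη : ∀ i, IsCong (η i)) {θ : K → K → Prop} (hθ : IsCong θ)
    (hbot : ∀ u v, (∀ i, η i u v) → θ u v) {x y : K}
    (h : ∀ i, ∀ s : K → K → Prop, IsCong s → (∀ u v, θ u v → s u v) → (∀ u v, η i u v → s u v) →
      s x y) : θ x y := by
  have := Fintype.ofFinite I
  let t : LE.Con K := ⟨θ, hθ⟩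
  let a : I → LE.Con K := fun i => ⟨η i, hη i⟩
  have e : (Finset.univ.inf fun i => t ⊔ a i) ≤ t := by
    rw [← Finset.inf_sup_distrib_left]
    exact sup_le le_rfl fun u v h => hbot u v fun i =>
      (Finset.inf_le (Finset.mem_univ i) : Finset.univ.inf a ≤ a i) u v h
  refine e x y ?_
  have e2 : (⨅ i, t ⊔ a i) ≤ Finset.univ.inf fun i => t ⊔ a i :=
    Finset.le_inf fun i _ => iInf_le _ i
  exact e2 x y (LE.Con.iInf_iff.2 fun i =>
    h i _ (t ⊔ a i).2 (le_sup_left : t ≤ t ⊔ a i) (le_sup_right : a i ≤ t ⊔ a i))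

end Pool.Agent.P.MP_4a7a83_al
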