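import Pool.Agent.P.MP_4a7a83_al.LJon
import Pool.Agent.P.MP_4a7a83_al.LatEnd

/-!
Comparison of compact congruences through points, and the reduction of the main theorem.
-/

namespace Pool.Agent.P.MP_4a7a83_al

namespace IsoA

/-- the set of points at which a relation is not trivial -/
def supp {L P : Type} (δ : L → L → Set P) (r : L → L → Prop) : Set P :=
  {p | ∃ x y, r x y ∧ p ∈ δ x y}

theorem supp_gen {L P : Type} [Lattice L] {δ : L → L → Set P} (h : IsDelta δ) {r : L → L → Prop}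
    {F : Set (L × L)} (hr : ∀ a b, r a b ↔ Gen F a b) : supp δ r = ⋃ f ∈ F, δ f.1 f.2 := by
  ext p
  simp only [Set.mem_iUnion]
  constructor
  · rintro ⟨x, y, hxy, hp⟩
    by_contra hn
    push Not at hn
    exact (hr x y).1 hxy _ (h.cong p) hn hp
  · rintro ⟨f, hf, hp⟩
    exact ⟨f.1, f.2, (hr _ _).2 fun s _ hs => hs f hf, hp⟩

theorem le_iff {L P : Type} [Lattice L] {δ : L → L → Set P} (h : IsDelta δ) (r s : CCon L) :
    r ≤ s ↔ supp δ r.1 ⊆ supp δ s.1 := by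
  constructor
  · rintro hrs p ⟨x, y, hxy, hp⟩
    exact ⟨x, y, hrs x y hxy, hp⟩
  · intro hrs x y hxy
    obtain ⟨G, hG, hs⟩ := s.2.2
    refine (hs x y).2 (h.gen G x y hG ?_)
    rw [← supp_gen h hs]
    exact fun p hp => hrs ⟨x, y, hxy, hp⟩

theorem isCong_gen {L : Type} [Lattice L] (F : Set (L × L)) : IsCong (Gen F) :=
  ⟨⟨fun a _ hs _ => hs.1.refl a, fun h s hs hF => hs.1.symm (h s hs hF),
    fun h h' s hs hF => hs.1.trans (h s hs hF) (h' s hs hF)⟩,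
   fun a b c d h h' => ⟨fun s hs hF => (hs.2 a b c d (h s hs hF) (h' s hs hF)).1,
    fun s hs hF => (hs.2 a b c d (h s hs hF) (h' s hs hF)).2⟩⟩

theorem exists_match {L M P : Type} [Lattice L] [Lattice M] {δ₁ : L → L → Set P}
    {δ₂ : M → M → Set P} (h₁ : IsDelta δ₁) (h₂ : IsDelta δ₂)
    (c₁ : ∀ x y, ∃ G : Set (M × M), G.Finite ∧ δ₁ x y = ⋃ g ∈ G, δ₂ g.1 g.2) (r : CCon L) :
    ∃ s : CCon M, supp δ₂ s.1 = supp δ₁ r.1 := by
  obtain ⟨F, hF, hr⟩ := r.2.2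
  choose G hG hδ using c₁
  refine ⟨⟨Gen (⋃ f ∈ F, G f.1 f.2), isCong_gen _, _, hF.biUnion fun f _ => hG f.1 f.2,
    fun _ _ => Iff.rfl⟩, ?_⟩
  rw [supp_gen h₁ hr, supp_gen h₂ fun _ _ => Iff.rfl, Set.biUnion_iUnion]
  simp only [Set.biUnion_iUnion, hδ]

end IsoA

theorem ccon_iso {L M P : Type} [Lattice L] [Lattice M] (δ₁ : L → L → Set P)
    (δ₂ : M → M → Set P) (h₁ : IsDelta δ₁) (h₂ : IsDelta δ₂)
    (c₁ : ∀ x y, ∃ G : Set (M × M), G.Finite ∧ δ₁ x y = ⋃ g ∈ G, δ₂ g.1 g.2)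
    (c₂ : ∀ x y, ∃ F : Set (L × L), F.Finite ∧ δ₂ x y = ⋃ f ∈ F, δ₁ f.1 f.2) :
    Nonempty (CCon L ≃o CCon M) := by
  choose f hf using IsoA.exists_match h₁ h₂ c₁
  refine ⟨RelIso.ofSurjective (OrderEmbedding.ofMapLEIff f fun r s => ?_) fun s => ?_⟩
  · rw [IsoA.le_iff h₁, IsoA.le_iff h₂, hf, hf]
  · obtain ⟨r, hr⟩ := IsoA.exists_match h₂ h₁ c₂ s
    refine ⟨r, le_antisymm ?_ ?_⟩
    · exact (IsoA.le_iff h₂ (f r) s).2 (by rw [hf, hr])
    · exact (IsoA.le_iff h₂ s (f r)).2 (by rw [hf, hr])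

theorem not_main
    (h : ∀ (L : Type) [Lattice L], InV L →
      ∃ (M : Type) (_ : Lattice M), IsModularLattice M ∧ Nonempty (CCon L ≃o CCon M)) :
    ¬ (∀ V W : (α : Type) → [Lattice α] → Prop,
    ((∀ (A B : Type) [Lattice A] [Lattice B] (f : LatticeHom A B),
        Function.Surjective f → V A → V B) ∧
     (∀ (A B : Type) [Lattice A] [Lattice B] (f : LatticeHom A B),
        Function.Injective f → V B → V A) ∧
     (∀ (I : Type) (A : I → Type) [∀ i, Lattice (A i)],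
        (∀ i, V (A i)) → V (∀ i, A i))) →
    ((∀ (A B : Type) [Lattice A] [Lattice B] (f : LatticeHom A B),
        Function.Surjective f → W A → W B) ∧
     (∀ (A B : Type) [Lattice A] [Lattice B] (f : LatticeHom A B),
        Function.Injective f → W B → W A) ∧
     (∀ (I : Type) (A : I → Type) [∀ i, Lattice (A i)],
        (∀ i, W (A i)) → W (∀ i, A i))) →
    (∀ (L : Type) [Lattice L], V L →
      ∃ (M : Type) (_ : Lattice M), W M ∧ Nonempty (CCon L ≃o CCon M)) →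
    (∀ (L : Type) [Lattice L], V L → W L) ∨
    (∀ (L : Type) [Lattice L], V L → W Lᵒᵈ)) := by
  intro hm
  have hN : ¬ IsModularLattice N5 := fun hN =>
    absurd (hN.sup_inf_le_assoc_of_le N5.c (show N5.a ≤ N5.b by decide)) (by decide)
  rcases hm (fun L _ => InV L) (fun L _ => IsModularLattice L) ⟨inV_surj, inV_inj, inV_pi⟩
    ⟨fun _ _ _ _ => LE.modular_of_surj, fun _ _ _ _ => LE.modular_of_inj,
      fun _ => LE.modular_pi⟩ h with h1 | h1
  · exact hN (h1 N5 inV_N5)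
  · have h2 := h1 N5 inV_N5
    exact hN (inferInstance : IsModularLattice N5ᵒᵈᵒᵈ)

end Pool.Agent.P.MP_4a7a83_al
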