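import Pool.Agent.P.MP_4a7a83_al.LDefs

/-!
The finite fact about congruences of sublattices of the pentagon.
-/

namespace Pool.Agent.P.MP_4a7a83_al

namespace JonA

open N5

def all5 (p : N5 → Bool) : Bool := p o && p a && p b && p c && p i

theorem all5_iff (p : N5 → Bool) : all5 p = true ↔ ∀ x, p x = true := by
  constructor
  · intro h x
    simp only [all5, Bool.and_eq_true] at h
    cases x <;> simp [h]
  · intro h
    simp [all5, h]

def eqb : N5 → N5 → Bool
  | o, o => true
  | a, a => true
  | b, b => true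
  | c, c => true
  | i, i => true
  | _, _ => false

theorem eqb_iff (x y : N5) : eqb x y = true ↔ x = y := by
  cases x <;> cases y <;> simp [eqb]

def mkS (s0 s1 s2 s3 s4 : Bool) : N5 → Bool
  | o => s0 | a => s1 | b => s2 | c => s3 | i => s4

def mkR (r0 r1 r2 r3 r4 r5 r6 r7 r8 r9 : Bool) : N5 → N5 → Bool
  | o, o => true | a, a => true | b, b => true | c, c => true | i, i => true
  | o, a => r0 | a, o => r0
  | o, b => r1 | b, o => r1
  | o, c => r2 | c, o => r2
  | o, i => r3 | i, o => r3
  | a, b => r4 | b, a => r4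
  | a, c => r5 | c, a => r5
  | a, i => r6 | i, a => r6
  | b, c => r7 | c, b => r7
  | b, i => r8 | i, b => r8
  | c, i => r9 | i, c => r9

def subOK (S : N5 → Bool) : Bool :=
  all5 fun u => all5 fun v => !(S u && S v) || (S (sup' u v) && S (inf' u v))

def inOK (S : N5 → Bool) (R : N5 → N5 → Bool) : Bool :=
  all5 fun u => all5 fun v => !(R u v) || eqb u v || (S u && S v)

def trOK (R : N5 → N5 → Bool) : Bool :=
  all5 fun u => all5 fun v => all5 fun w => !(R u v && R v w) || R u w

def cgOK (S : N5 → Bool) (R : N5 → N5 → Bool) : Bool :=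
  all5 fun u => all5 fun v => all5 fun w =>
    !(S u && S v && S w && R u v) || (R (sup' u w) (sup' v w) && R (inf' u w) (inf' v w))

def goodG (S : N5 → Bool) (R : N5 → N5 → Bool) (g : N5 → N5) : Bool :=
  (all5 fun u => all5 fun v =>
    !(S u && S v) || (eqb (g (sup' u v)) (sup' (g u) (g v)) && eqb (g (inf' u v)) (inf' (g u) (g v)))) &&
  (all5 fun u => all5 fun v => !(R u v) || eqb (g u) (g v))

def g1 (x : N5) : N5 := ofB (p1 x)
def g2 (x : N5) : N5 := ofB (p2 x)
def g3 (x : N5) : N5 := ofB (p01 x)

def concl (S : N5 → Bool) (R : N5 → N5 → Bool) : Bool :=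
  all5 fun u => all5 fun v => !(S u && S v) || R u v ||
    goodG S R id || (!(eqb (g1 u) (g1 v)) && goodG S R g1) || (!(eqb (g2 u) (g2 v)) && goodG S R g2) ||
      (!(eqb (g3 u) (g3 v)) && goodG S R g3)

def allB (p : Bool → Bool) : Bool := p false && p true

theorem allB_iff (p : Bool → Bool) : allB p = true ↔ ∀ x, p x = true := by
  constructor
  · intro h x
    simp only [allB, Bool.and_eq_true] at h
    cases x <;> simp [h]
  · intro h
    simp [allB, h]

def test (S : N5 → Bool) (R : N5 → N5 → Bool) : Bool :=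
  !(inOK S R && trOK R && cgOK S R) || concl S R

def testS (S : N5 → Bool) : Bool :=
  !(subOK S) || allB fun r0 => allB fun r1 => allB fun r2 => allB fun r3 => allB fun r4 =>
    allB fun r5 => allB fun r6 => allB fun r7 => allB fun r8 => allB fun r9 =>
      test S (mkR r0 r1 r2 r3 r4 r5 r6 r7 r8 r9)

theorem test_all : (allB fun s0 => allB fun s1 => allB fun s2 => allB fun s3 => allB fun s4 =>
    testS (mkS s0 s1 s2 s3 s4)) = true := by
  decide +kernel

theorem test_gen (S : N5 → Bool) (R : N5 → N5 → Bool) (hr : ∀ u, R u u = true)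
    (hs : ∀ u v, R u v = R v u) (hS : subOK S = true) : test S R = true := by
  have h := test_all
  simp only [allB_iff] at h
  have h1 := h (S o) (S a) (S b) (S c) (S i)
  have e1 : mkS (S o) (S a) (S b) (S c) (S i) = S := by
    funext x; cases x <;> rfl
  rw [e1, testS, hS] at h1
  simp only [Bool.not_true, Bool.false_or, allB_iff] at h1
  have h2 := h1 (R o a) (R o b) (R o c) (R o i) (R a b) (R a c) (R a i) (R b c) (R b i) (R c i)
  have e2 : mkR (R o a) (R o b) (R o c) (R o i) (R a b) (R a c) (R a i) (R b c) (R b i) (R c i)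
      = R := by
    funext x y
    cases x <;> cases y <;> first | rfl | exact (hr _).symm | exact hs _ _
  rwa [e2] at h2

theorem sup_eq (u v : N5) : u ⊔ v = sup' u v := rfl
theorem inf_eq (u v : N5) : u ⊓ v = inf' u v := rfl

open Classical in
theorem good_spec (S : N5 → Prop) (R : N5 → N5 → Prop) (g : N5 → N5)
    (h : goodG (fun u => decide (S u)) (fun u v => decide (R u v)) g = true) :
    (∀ u v, S u → S v → g (u ⊔ v) = g u ⊔ g v ∧ g (u ⊓ v) = g u ⊓ g v) ∧
      ∀ u v, R u v → g u = g v := by
  simp only [goodG, Bool.and_eq_true, all5_iff, Bool.or_eq_true, Bool.not_eq_true', eqb_iff,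
    Bool.and_eq_false_iff, decide_eq_false_iff_not] at h
  refine ⟨fun u v hu hv => ?_, fun u v huv => ?_⟩
  · rcases h.1 u v with (h' | h') | h'
    · exact absurd hu h'
    · exact absurd hv h'
    · exact h'
  · rcases h.2 u v with h' | h'
    · exact absurd huv h'
    · exact h'

theorem fin_fact (S : N5 → Prop) (R : N5 → N5 → Prop)
    (hS : ∀ u v, S u → S v → S (u ⊔ v) ∧ S (u ⊓ v)) (hr : ∀ u, R u u)
    (hs : ∀ u v, R u v → R v u) (ht : ∀ u v w, R u v → R v w → R u w)
    (hin : ∀ u v, R u v → u = v ∨ (S u ∧ S v))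
    (hc : ∀ u v w, S u → S v → S w → R u v → R (u ⊔ w) (v ⊔ w) ∧ R (u ⊓ w) (v ⊓ w))
    {x y : N5} (hx : S x) (hy : S y) (h : ¬ R x y) :
    ∃ g : N5 → N5, (∀ u v, S u → S v → g (u ⊔ v) = g u ⊔ g v ∧ g (u ⊓ v) = g u ⊓ g v) ∧
      (∀ u v, R u v → g u = g v) ∧ g x ≠ g y := by
  classical
  have h0 := test_gen (fun u => decide (S u)) (fun u v => decide (R u v)) (fun u => by simp [hr])
    (fun u v => by
      simp only [decide_eq_decide]
      exact ⟨hs _ _, hs _ _⟩)
    (by
      simp only [subOK, all5_iff, Bool.or_eq_true, Bool.not_eq_true', Bool.and_eq_true,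
        Bool.and_eq_false_iff, decide_eq_false_iff_not, decide_eq_true_eq]
      intro u v
      by_cases hu : S u
      · by_cases hv : S v
        · exact Or.inr (hS u v hu hv)
        · exact Or.inl (Or.inr hv)
      · exact Or.inl (Or.inl hu))
  have h1 : inOK (fun u => decide (S u)) (fun u v => decide (R u v)) = true := by
    simp only [inOK, all5_iff, Bool.or_eq_true, Bool.not_eq_true', Bool.and_eq_true,
      decide_eq_false_iff_not, decide_eq_true_eq, eqb_iff]
    intro u v
    by_cases huv : R u v
    · rcases hin u v huv with h' | h'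
      · exact Or.inl (Or.inr h')
      · exact Or.inr h'
    · exact Or.inl (Or.inl huv)
  have h2 : trOK (fun u v => decide (R u v)) = true := by
    simp only [trOK, all5_iff, Bool.or_eq_true, Bool.not_eq_true',
      Bool.and_eq_false_iff, decide_eq_false_iff_not, decide_eq_true_eq]
    intro u v w
    by_cases huv : R u v
    · by_cases hvw : R v w
      · exact Or.inr (ht _ _ _ huv hvw)
      · exact Or.inl (Or.inr hvw)
    · exact Or.inl (Or.inl huv)
  have h3 : cgOK (fun u => decide (S u)) (fun u v => decide (R u v)) = true := by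
    simp only [cgOK, all5_iff, Bool.or_eq_true, Bool.not_eq_true', Bool.and_eq_true,
      Bool.and_eq_false_iff, decide_eq_false_iff_not, decide_eq_true_eq]
    intro u v w
    by_cases hu : S u
    · by_cases hv : S v
      · by_cases hw : S w
        · by_cases huv : R u v
          · exact Or.inr (hc u v w hu hv hw huv)
          · exact Or.inl (Or.inr huv)
        · exact Or.inl (Or.inl (Or.inr hw))
      · exact Or.inl (Or.inl (Or.inl (Or.inr hv)))
    · exact Or.inl (Or.inl (Or.inl (Or.inl hu)))
  rw [test, h1, h2, h3] at h0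
  simp only [Bool.and_self, Bool.not_true, Bool.false_or, concl, all5_iff] at h0
  have h4 := h0 x y
  have hxy : x ≠ y := fun e => h (e ▸ hr x)
  simp only [hx, hy, h, decide_true, decide_false, Bool.and_self, Bool.not_true, Bool.false_or,
    Bool.or_eq_true, Bool.and_eq_true, Bool.not_eq_true'] at h4
  have ne : ∀ p q : N5, eqb p q = false → p ≠ q := fun p q e e' => by
    rw [(eqb_iff p q).2 e'] at e
    exact absurd e (by simp)
  rcases h4 with ((h4 | h4) | h4) | h4
  · exact ⟨id, (good_spec S R _ h4).1, (good_spec S R _ h4).2, hxy⟩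
  · exact ⟨g1, (good_spec S R _ h4.2).1, (good_spec S R _ h4.2).2, ne _ _ h4.1⟩
  · exact ⟨g2, (good_spec S R _ h4.2).1, (good_spec S R _ h4.2).2, ne _ _ h4.1⟩
  · exact ⟨g3, (good_spec S R _ h4.2).1, (good_spec S R _ h4.2).2, ne _ _ h4.1⟩

end JonA

end Pool.Agent.P.MP_4a7a83_al
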