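import Pool.Agent.P.MP_4a7a83_al.LDist
import Pool.Agent.P.MP_4a7a83_al.LJonA

/-!
The class `InV` is a variety (Jonsson's lemma for the pentagon).
-/

namespace Pool.Agent.P.MP_4a7a83_al

namespace JonB

/-- The elements whose values under homomorphisms to the pentagon are fixed by the values on `Y`. -/
def det {L : Type} [Lattice L] (Y : Finset L) : Sublattice L where
  carrier := {u | ∀ h h' : LatticeHom L N5, (∀ y ∈ Y, h y = h' y) → h u = h' u}
  supClosed' := fun u hu v hv h h' e => by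
    rw [map_sup, map_sup, hu h h' e, hv h h' e]
  infClosed' := fun u hu v hv h h' e => by
    rw [map_inf, map_inf, hu h h' e, hv h h' e]

theorem mem_det {L : Type} [Lattice L] {Y : Finset L} {u : L} (hu : u ∈ Y) : u ∈ det Y :=
  fun _ _ e => e u hu

theorem fin_step {L : Type} [Lattice L] (hL : InV L) {θ : L → L → Prop}
    (hθ : IsCong θ) {x y : L} (h : ¬ θ x y) (Y : Finset L) (hx : x ∈ Y) (hy : y ∈ Y) :
    ∃ q : L → N5, (∀ u ∈ Y, ∀ v ∈ Y,
      q (u ⊔ v) = q u ⊔ q v ∧ q (u ⊓ v) = q u ⊓ q v ∧ (θ u v → q u = q v)) ∧ q x ≠ q y := by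
  classical
  let η : (Y → N5) → det Y → det Y → Prop := fun r u v =>
    ∀ k : LatticeHom L N5, (∀ z : Y, k z = r z) → k u = k v
  let θ' : det Y → det Y → Prop := fun u v => θ u v
  have hη : ∀ r, IsCong (η r) := by
    intro r
    refine ⟨⟨fun u k _ => rfl, fun e k hk => (e k hk).symm,
      fun e e' k hk => (e k hk).trans (e' k hk)⟩, fun a b c d e e' => ⟨fun k hk => ?_, fun k hk => ?_⟩⟩
    · simp only [Sublattice.coe_sup, map_sup, e k hk, e' k hk]
    · simp only [Sublattice.coe_inf, map_inf, e k hk, e' k hk]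
  have hθ' : IsCong θ' :=
    ⟨⟨fun u => hθ.1.refl _, fun e => hθ.1.symm e, fun e e' => hθ.1.trans e e'⟩,
      fun a b c d e e' => hθ.2 _ _ _ _ e e'⟩
  have hbot : ∀ u v, (∀ r, η r u v) → θ' u v := by
    intro u v e
    have : (u : L) = v := by
      by_contra hne
      obtain ⟨k, hk⟩ := hL _ _ hne
      exact hk (e (fun z => k z) k fun _ => rfl)
    change θ u v
    rw [this]
    exact hθ.1.refl _
  have key : ¬ ∀ r, ∀ s : det Y → det Y → Prop, IsCong s → (∀ u v, θ' u v → s u v) →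
      (∀ u v, η r u v → s u v) → s ⟨x, mem_det hx⟩ ⟨y, mem_det hy⟩ :=
    fun hh => h (dist_fin η hη hθ' hbot hh)
  push Not at key
  obtain ⟨r, s, hs, hθs, hηs, hxy⟩ := key
  have hex : ∃ k : LatticeHom L N5, ∀ z : Y, k z = r z := by
    by_contra hne
    exact hxy (hηs _ _ fun k hk => absurd ⟨k, hk⟩ hne)
  obtain ⟨k, hk⟩ := hex
  have hker : ∀ a b : det Y, k a = k b → s a b := by
    intro a b e
    refine hηs _ _ fun k' hk' => ?_
    have e' : ∀ z ∈ Y, k' z = k z := fun z hz => (hk' ⟨z, hz⟩).trans (hk ⟨z, hz⟩).symm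
    rw [a.2 k' k e', b.2 k' k e', e]
  let S : N5 → Prop := fun u => ∃ a : det Y, k a = u
  let R : N5 → N5 → Prop := fun u v => u = v ∨ ∃ a b : det Y, k a = u ∧ k b = v ∧ s a b
  obtain ⟨g, hg1, hg2, hg3⟩ := JonA.fin_fact S R
    (by
      rintro _ _ ⟨a, rfl⟩ ⟨b, rfl⟩
      exact ⟨⟨a ⊔ b, by simp⟩, ⟨a ⊓ b, by simp⟩⟩)
    (fun u => Or.inl rfl)
    (by
      rintro u v (e | ⟨a, b, rfl, rfl, e⟩)
      · exact Or.inl e.symm
      · exact Or.inr ⟨b, a, rfl, rfl, hs.1.symm e⟩)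
    (by
      rintro u v w (e | ⟨a, b, rfl, rfl, e⟩) e'
      · exact e ▸ e'
      · rcases e' with e' | ⟨b', c, e1, rfl, e'⟩
        · exact Or.inr ⟨a, b, rfl, e', e⟩
        · exact Or.inr ⟨a, c, rfl, rfl, hs.1.trans e (hs.1.trans (hker _ _ e1.symm) e')⟩)
    (by
      rintro u v (e | ⟨a, b, rfl, rfl, _⟩)
      · exact Or.inl e
      · exact Or.inr ⟨⟨a, rfl⟩, ⟨b, rfl⟩⟩)
    (by
      rintro u v _ _ _ ⟨c, rfl⟩ (e | ⟨a, b, rfl, rfl, e⟩)
      · exact ⟨Or.inl (by rw [e]), Or.inl (by rw [e])⟩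
      · have := hs.2 a b c c e (hs.1.refl c)
        exact ⟨Or.inr ⟨a ⊔ c, b ⊔ c, by simp, by simp, this.1⟩,
          Or.inr ⟨a ⊓ c, b ⊓ c, by simp, by simp, this.2⟩⟩)
    (x := k x) (y := k y) ⟨⟨x, mem_det hx⟩, rfl⟩ ⟨⟨y, mem_det hy⟩, rfl⟩
    (by
      rintro (e | ⟨a, b, ea, eb, e⟩)
      · exact hxy (hker ⟨x, mem_det hx⟩ ⟨y, mem_det hy⟩ e)
      · exact hxy (hs.1.trans (hker ⟨x, mem_det hx⟩ a ea.symm)
          (hs.1.trans e (hker b ⟨y, mem_det hy⟩ eb))))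
  refine ⟨fun u => g (k u), fun u hu v hv => ?_, hg3⟩
  have hS := hg1 (k u) (k v) ⟨⟨u, mem_det hu⟩, rfl⟩ ⟨⟨v, mem_det hv⟩, rfl⟩
  refine ⟨?_, ?_, fun e => ?_⟩
  · simp only [map_sup, hS.1]
  · simp only [map_inf, hS.2]
  · exact hg2 _ _ (Or.inr ⟨⟨u, mem_det hu⟩, ⟨v, mem_det hv⟩, rfl, rfl, hθs _ _ e⟩)

theorem isCong_gen {L : Type} [Lattice L] (F : Set (L × L)) : IsCong (Gen F) :=
  ⟨⟨fun a _ hs _ => hs.1.refl a, fun e s hs hF => hs.1.symm (e s hs hF),
    fun e e' s hs hF => hs.1.trans (e s hs hF) (e' s hs hF)⟩,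
    fun _ _ _ _ e e' => ⟨fun s hs hF => (hs.2 _ _ _ _ (e s hs hF) (e' s hs hF)).1,
      fun s hs hF => (hs.2 _ _ _ _ (e s hs hF) (e' s hs hF)).2⟩⟩

theorem isCong_ker {A B : Type} [Lattice A] [Lattice B] (f : LatticeHom A B) :
    IsCong fun u v : A => f u = f v :=
  ⟨⟨fun _ => rfl, fun e => e.symm, fun e e' => e.trans e'⟩, fun a b c d e e' => by
    simp only at e e' ⊢
    exact ⟨by rw [map_sup, map_sup, e, e'], by rw [map_inf, map_inf, e, e']⟩⟩

end JonB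

open Filter in
theorem exists_hom_of_not_cong {L : Type} [Lattice L] (hL : InV L) {θ : L → L → Prop}
    (hθ : IsCong θ) {x y : L} (h : ¬ θ x y) :
    ∃ q : LatticeHom L N5, (∀ u v, θ u v → q u = q v) ∧ q x ≠ q y := by
  classical
  have hstep := fun Y : Finset L => JonB.fin_step hL hθ h (insert x (insert y Y)) (by simp) (by simp)
  choose Q hQ hQxy using hstep
  let U : Ultrafilter (Finset L) := Ultrafilter.of atTop
  have hU : (U : Filter (Finset L)) ≤ atTop := Ultrafilter.of_le _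
  have hlim : ∀ u : L, ∃ w : N5, ∀ᶠ Y in (U : Filter (Finset L)), Q Y u = w := by
    intro u
    obtain ⟨w, hw⟩ := Ultrafilter.eq_pure_of_finite (U.map fun Y => Q Y u)
    refine ⟨w, ?_⟩
    have : {w} ∈ U.map fun Y => Q Y u := by
      rw [hw]
      exact Ultrafilter.mem_pure.2 rfl
    exact this
  choose q hq using hlim
  have hmem : ∀ u : L, ∀ᶠ Y in (U : Filter (Finset L)), u ∈ insert x (insert y Y) := by
    intro u
    refine hU ((eventually_ge_atTop ({u} : Finset L)).mono fun Y hY => ?_)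
    have : u ∈ Y := hY (Finset.mem_singleton_self u)
    simp [this]
  have hpair : ∀ u v : L, q (u ⊔ v) = q u ⊔ q v ∧ q (u ⊓ v) = q u ⊓ q v ∧ (θ u v → q u = q v) := by
    intro u v
    obtain ⟨Y, ⟨⟨⟨h1, h2⟩, h3, h4⟩, h5, h6⟩⟩ := ((((hq u).and (hq v)).and
      ((hq (u ⊔ v)).and (hq (u ⊓ v)))).and ((hmem u).and (hmem v))).exists
    rw [← h1, ← h2, ← h3, ← h4]
    exact hQ Y u h5 v h6
  refine ⟨⟨⟨q, fun u v => (hpair u v).1⟩, fun u v => (hpair u v).2.1⟩,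
    fun u v e => (hpair u v).2.2 e, ?_⟩
  obtain ⟨Y, h1, h2⟩ := ((hq x).and (hq y)).exists
  change q x ≠ q y
  rw [← h1, ← h2]
  exact hQxy Y

theorem isDelta_hom {L : Type} [Lattice L] (hL : InV L) :
    IsDelta fun x y : L => {q : LatticeHom L N5 | q x ≠ q y} := by
  refine ⟨fun p => ?_, fun F x y _ hsub => ?_⟩
  · simp only [Set.mem_ofPred_eq, not_not]
    exact JonB.isCong_ker p
  · by_contra hne
    obtain ⟨q, hq, hxy⟩ := exists_hom_of_not_cong hL (JonB.isCong_gen F) hne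
    have := hsub hxy
    simp only [Set.mem_iUnion, Set.mem_ofPred_eq] at this
    obtain ⟨f, hf, hqf⟩ := this
    exact hqf (hq _ _ fun s _ hF => hF f hf)

theorem inV_surj (A B : Type) [Lattice A] [Lattice B] (f : LatticeHom A B)
    (hf : Function.Surjective f) (hA : InV A) : InV B := by
  intro x y hxy
  obtain ⟨a, rfl⟩ := hf x
  obtain ⟨b, rfl⟩ := hf y
  obtain ⟨q, hq, hab⟩ := exists_hom_of_not_cong hA (JonB.isCong_ker f) hxy
  have hs : ∀ z : B, f (Function.surjInv hf z) = z := Function.surjInv_eq hf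
  refine ⟨⟨⟨fun z => q (Function.surjInv hf z), fun u v => ?_⟩, fun u v => ?_⟩, ?_⟩
  · rw [← map_sup]
    exact hq _ _ (by rw [map_sup, hs, hs, hs])
  · change q _ = q _ ⊓ q _
    rw [← map_inf]
    exact hq _ _ (by rw [map_inf, hs, hs, hs])
  · change q _ ≠ q _
    rw [hq _ a (hs _), hq _ b (hs _)]
    exact hab

theorem inV_inj (A B : Type) [Lattice A] [Lattice B] (f : LatticeHom A B)
    (hf : Function.Injective f) (hB : InV B) : InV A := by
  intro x y hxy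
  obtain ⟨q, hq⟩ := hB _ _ (hf.ne hxy)
  exact ⟨q.comp f, hq⟩

theorem inV_pi (I : Type) (A : I → Type) [∀ i, Lattice (A i)] (hA : ∀ i, InV (A i)) :
    InV (∀ i, A i) := by
  intro x y hxy
  obtain ⟨i, hi⟩ := Function.ne_iff.1 hxy
  obtain ⟨q, hq⟩ := hA i _ _ hi
  exact ⟨q.comp ⟨⟨fun z => z i, fun _ _ => rfl⟩, fun _ _ => rfl⟩, hq⟩

theorem inV_N5 : InV N5 := by
  intro x y hxy
  exact ⟨LatticeHom.id N5, hxy⟩

end Pool.Agent.P.MP_4a7a83_al
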