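import Pool.Agent.P.MP_4a7a83_al.LDefs

/-!
Homomorphisms to the pentagon: compactness and pairs isolating a point.
-/

namespace Pool.Agent.P.MP_4a7a83_al

open N5

namespace LPair

theorem sup_p1 : ∀ x y : N5, ofB (p1 (x ⊔ y)) = ofB (p1 x) ⊔ ofB (p1 y) := by decide
theorem inf_p1 : ∀ x y : N5, ofB (p1 (x ⊓ y)) = ofB (p1 x) ⊓ ofB (p1 y) := by decide
theorem sup_p2 : ∀ x y : N5, ofB (p2 (x ⊔ y)) = ofB (p2 x) ⊔ ofB (p2 y) := by decide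
theorem inf_p2 : ∀ x y : N5, ofB (p2 (x ⊓ y)) = ofB (p2 x) ⊓ ofB (p2 y) := by decide
theorem sup_p01 : ∀ x y : N5, x ≠ c → y ≠ c →
    ofB (p01 (x ⊔ y)) = ofB (p01 x) ⊔ ofB (p01 y) := by decide
theorem inf_p01 : ∀ x y : N5, x ≠ c → y ≠ c →
    ofB (p01 (x ⊓ y)) = ofB (p01 x) ⊓ ofB (p01 y) := by decide

theorem exists_sup {L : Type} [Lattice L] (Y : List L) (P : L → Prop) (hne : ∃ y ∈ Y, P y) :
    ∃ s : L, ∀ (h : LatticeHom L N5) (z : N5), h s ≤ z ↔ ∀ y ∈ Y, P y → h y ≤ z := by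
  classical
  obtain ⟨y0, hy0, hP0⟩ := hne
  have hT : (Y.toFinset.filter P).Nonempty := ⟨y0, by simp [hy0, hP0]⟩
  refine ⟨(Y.toFinset.filter P).sup' hT id, fun h z => ?_⟩
  rw [map_finset_sup' h, Finset.sup'_le_iff]
  simp

theorem exists_inf {L : Type} [Lattice L] (Y : List L) (P : L → Prop) (hne : ∃ y ∈ Y, P y) :
    ∃ s : L, ∀ (h : LatticeHom L N5) (z : N5), z ≤ h s ↔ ∀ y ∈ Y, P y → z ≤ h y := by
  classical
  obtain ⟨y0, hy0, hP0⟩ := hne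
  have hT : (Y.toFinset.filter P).Nonempty := ⟨y0, by simp [hy0, hP0]⟩
  refine ⟨(Y.toFinset.filter P).inf' hT id, fun h z => ?_⟩
  rw [map_finset_inf' h, Finset.le_inf'_iff]
  simp

theorem sep2 : ∀ x w : N5, w ⊓ x ≠ x ↔
    (a ≤ x ∧ w ≤ c) ∨ (c ≤ x ∧ w ≤ b) ∨ (b ≤ x ∧ w ≤ a) := by decide

theorem eq_p1 : ∀ (t : Bool) (x : N5), t = p1 x ↔ (t = true → a ≤ x) ∧ (t = false → x ≤ c) := by
  decide

theorem eq_p2 : ∀ (t : Bool) (x : N5), t = p2 x ↔ (t = true → c ≤ x) ∧ (t = false → x ≤ b) := by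
  decide

theorem eq_p01 : ∀ (t : Bool) (x : N5),
    (x ≠ c ∧ t = p01 x) ↔ (t = true → b ≤ x) ∧ (t = false → x ≤ a) := by
  decide

/-- The two sides of the pentagon test. -/
def Sep5 (la ha lb hb lc hc : N5) : Prop :=
  (la ⊔ lb ⊓ lc) ⊓ (hb ⊓ (ha ⊔ hc)) ≠ hb ⊓ (ha ⊔ hc) ↔
    (la ≤ a ∧ a ≤ ha) ∧ (lb ≤ b ∧ b ≤ hb) ∧ (lc ≤ c ∧ c ≤ hc)

instance (la ha lb hb lc hc : N5) : Decidable (Sep5 la ha lb hb lc hc) := by
  unfold Sep5; infer_instance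

theorem sep5' : ∀ la ha : N5, ha ≤ la → ∀ lb hb : N5, hb ≤ lb → ∀ lc hc : N5, hc ≤ lc →
    Sep5 la ha lb hb lc hc := by
  decide +kernel

theorem sep5 (la ha : N5) (h1 : ha ≤ la) (lb hb : N5) (h2 : hb ≤ lb) (lc hc : N5) (h3 : hc ≤ lc) :
    (la ⊔ lb ⊓ lc) ⊓ (hb ⊓ (ha ⊔ hc)) ≠ hb ⊓ (ha ⊔ hc) ↔
      (la ≤ a ∧ a ≤ ha) ∧ (lb ≤ b ∧ b ≤ hb) ∧ (lc ≤ c ∧ c ≤ hc) :=
  sep5' la ha h1 lb hb h2 lc hc h3

theorem eq5 : ∀ x w : N5, ((w ≤ a → x ≤ a) ∧ (a ≤ w → a ≤ x)) → ((w ≤ b → x ≤ b) ∧ (b ≤ w → b ≤ x)) →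
    ((w ≤ c → x ≤ c) ∧ (c ≤ w → c ≤ x)) → x = w := by
  decide

end LPair

open LPair

theorem exists_hom1 {L : Type} [Lattice L] (q : LatticeHom L N5) :
    ∃ q' : LatticeHom L N5, ∀ y, q' y = ofB (p1 (q y)) := by
  exact ⟨⟨⟨fun y => ofB (p1 (q y)), fun x y => by rw [map_sup, sup_p1]⟩,
    fun x y => by simp only [map_inf, inf_p1]⟩, fun _ => rfl⟩

theorem exists_hom2 {L : Type} [Lattice L] (q : LatticeHom L N5) :
    ∃ q' : LatticeHom L N5, ∀ y, q' y = ofB (p2 (q y)) := by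
  exact ⟨⟨⟨fun y => ofB (p2 (q y)), fun x y => by rw [map_sup, sup_p2]⟩,
    fun x y => by simp only [map_inf, inf_p2]⟩, fun _ => rfl⟩

theorem exists_full {L : Type} [Lattice L] (Y : List L) :
    ∃ Y' : List L, (∀ y ∈ Y, y ∈ Y') ∧ ∀ q : LatticeHom L N5, (∀ y ∈ Y', q y ≠ c) →
      ∃ q' : LatticeHom L N5, ∀ y ∈ Y, q' y = ofB (p01 (q y)) := by
  let : TopologicalSpace N5 := ⊥
  have : DiscreteTopology N5 := ⟨rfl⟩
  let H : Set (L → N5) := {q | ∀ x y, q (x ⊔ y) = q x ⊔ q y ∧ q (x ⊓ y) = q x ⊓ q y}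
  let B : Set ({y // y ∈ Y} → N5) :=
    {r | ¬ ∃ q' : LatticeHom L N5, ∀ y : {y // y ∈ Y}, q' y = ofB (p01 (r y))}
  have hop : ∀ (f : N5 → N5 → N5) (x y : L), Continuous fun q : L → N5 => f (q x) (q y) :=
    fun f x y => (continuous_of_discreteTopology (f := fun p : N5 × N5 => f p.1 p.2)).comp
      (f := fun q : L → N5 => (q x, q y)) ((continuous_apply x).prodMk (continuous_apply y))
  have : Finite {y // y ∈ Y} := (List.finite_toSet Y).to_subtype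
  have hH : IsClosed H := by
    simp only [H, Set.ofPred_forall]
    refine isClosed_iInter fun x => isClosed_iInter fun y => IsClosed.and ?_ ?_
    · exact isClosed_eq (continuous_apply _) (hop (· ⊔ ·) x y)
    · exact isClosed_eq (continuous_apply _) (hop (· ⊓ ·) x y)
  have hB : IsClosed ((fun (q : L → N5) (y : {y // y ∈ Y}) => q y) ⁻¹' B) :=
    (isClosed_discrete B).preimage (continuous_pi fun y => continuous_apply _)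
  obtain ⟨t, ht⟩ := (hH.inter hB).isCompact.elim_finite_subcover
    (fun l : L => {q : L → N5 | q l = c})
    (fun l => show IsOpen ((fun q : L → N5 => q l) ⁻¹' {c}) from
      (isOpen_discrete {c}).preimage (continuous_apply l)) (by
      rintro q ⟨h1, h2⟩
      by_contra hn
      simp only [Set.mem_iUnion, Set.mem_ofPred_eq, not_exists] at hn
      exact h2 ⟨⟨⟨fun y => ofB (p01 (q y)), fun x y => by
        rw [(h1 x y).1, sup_p01 _ _ (hn x) (hn y)]⟩,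
        fun x y => by simp only [(h1 x y).2, inf_p01 _ _ (hn x) (hn y)]⟩, fun _ => rfl⟩)
  refine ⟨Y ++ t.toList, fun y hy => List.mem_append_left _ hy, fun q hq => ?_⟩
  by_contra hn
  have h1 : (q : L → N5) ∈ H ∩ (fun (q : L → N5) (y : {y // y ∈ Y}) => q y) ⁻¹' B :=
    ⟨fun x y => ⟨map_sup q x y, map_inf q x y⟩, fun ⟨q', hq'⟩ => hn ⟨q', fun y hy => hq' ⟨y, hy⟩⟩⟩
  obtain ⟨l, hl, h2⟩ := Set.mem_iUnion₂.mp (ht h1)
  exact hq l (List.mem_append_right _ (Finset.mem_toList.mpr hl)) h2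

theorem pair_two {L : Type} [Lattice L] (Y : List L) (φ : L → Bool) (h0 : ∃ y ∈ Y, φ y = false)
    (h1 : ∃ y ∈ Y, φ y = true) :
    ∃ u v : L, ∀ h : LatticeHom L N5, h u ≠ h v ↔
      ((∀ y ∈ Y, φ y = p1 (h y)) ∨ (∀ y ∈ Y, φ y = p2 (h y)) ∨
        ((∀ y ∈ Y, h y ≠ c) ∧ ∀ y ∈ Y, φ y = p01 (h y))) := by
  obtain ⟨I, hI⟩ := exists_sup Y (fun y => φ y = false) h0
  obtain ⟨F, hF⟩ := exists_inf Y (fun y => φ y = true) h1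
  refine ⟨I ⊓ F, F, fun h => ?_⟩
  rw [map_inf, sep2, hI, hI, hI, hF, hF, hF, ← forall₂_and, ← forall₂_and, ← forall₂_and,
    ← forall₂_and]
  simp only [eq_p01, ← eq_p1, ← eq_p2]

theorem pair_five {L : Type} [Lattice L] (Y : List L) (p : L → N5) (hp : Onto p {y | y ∈ Y}) :
    ∃ u v : L, ∀ h : LatticeHom L N5, h u ≠ h v ↔ ∀ y ∈ Y, h y = p y := by
  obtain ⟨⟨ya, ya1, ya2⟩, ⟨yb, yb1, yb2⟩, yc, yc1, yc2⟩ := hp
  have key : ∀ l : N5, (∃ y ∈ Y, p y = l) → ∃ lo hi : L, ∀ h : LatticeHom L N5, h hi ≤ h lo ∧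
      ((h lo ≤ l ∧ l ≤ h hi) ↔ ∀ y ∈ Y, (p y ≤ l → h y ≤ l) ∧ (l ≤ p y → l ≤ h y)) := by
    rintro l ⟨y, hy, e⟩
    obtain ⟨lo, hlo⟩ := exists_sup Y (fun y => p y ≤ l) ⟨y, hy, e.le⟩
    obtain ⟨hi, hhi⟩ := exists_inf Y (fun y => l ≤ p y) ⟨y, hy, e.ge⟩
    refine ⟨lo, hi, fun h => ⟨((hhi h _).mp le_rfl y hy e.ge).trans
      ((hlo h _).mp le_rfl y hy e.le), ?_⟩⟩
    rw [hlo, hhi, ← forall₂_and]
  obtain ⟨la, ha, h1⟩ := key a ⟨ya, ya1, ya2⟩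
  obtain ⟨lb, hb, h2⟩ := key b ⟨yb, yb1, yb2⟩
  obtain ⟨lc, hc, h3⟩ := key c ⟨yc, yc1, yc2⟩
  refine ⟨(la ⊔ lb ⊓ lc) ⊓ (hb ⊓ (ha ⊔ hc)), hb ⊓ (ha ⊔ hc), fun h => ?_⟩
  simp only [map_inf, map_sup]
  rw [sep5 _ _ (h1 h).1 _ _ (h2 h).1 _ _ (h3 h).1, (h1 h).2, (h2 h).2, (h3 h).2]
  refine ⟨fun e y hy => eq5 _ _ (e.1 y hy) (e.2.1 y hy) (e.2.2 y hy), fun e => ?_⟩
  refine ⟨fun y hy => ?_, fun y hy => ?_, fun y hy => ?_⟩ <;> rw [e y hy] <;> exact ⟨id, id⟩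

end Pool.Agent.P.MP_4a7a83_al
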