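import Mathlib

/-!
Labels for the model side: the five labels and their three two-valued colourings.
-/

namespace Pool.Agent.P.MP_4a7a83_al.MS

/-- The labels `o < a < b < i`, `o < c < i`. -/
inductive N5
  | o | a | b | c | i
  deriving DecidableEq, Fintype

namespace N5

/-- The two-valued labels. -/
def ofB : Bool → N5
  | false => o
  | true => i

/-- The colouring `a, b ↦ 1`, `c ↦ 0`. -/
def p1 : N5 → Bool
  | o => false | a => true | b => true | c => false | i => true

/-- The colouring `a, b ↦ 0`, `c ↦ 1`. -/
def p2 : N5 → Bool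
  | o => false | a => false | b => false | c => true | i => true

/-- The cut `a ↦ 0`, `b ↦ 1` of the chain `o < a < b < i`. -/
def p01 : N5 → Bool
  | o => false | a => false | b => true | c => false | i => true

@[simp] theorem p1_ofB (β : Bool) : p1 (ofB β) = β := by cases β <;> rfl

@[simp] theorem p2_ofB (β : Bool) : p2 (ofB β) = β := by cases β <;> rfl

@[simp] theorem p01_ofB (β : Bool) : p01 (ofB β) = β := by cases β <;> rfl

theorem ofB_inj {β γ : Bool} (h : ofB β = ofB γ) : β = γ := by
  cases β <;> cases γ <;> first | rfl | cases h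

theorem ofB_oi (β : Bool) : ofB β = o ∨ ofB β = i := by cases β <;> simp [ofB]

theorem ofB_ne_a (β : Bool) : ofB β ≠ a := by cases β <;> simp [ofB]

theorem ofB_ne_b (β : Bool) : ofB β ≠ b := by cases β <;> simp [ofB]

theorem ofB_ne_c (β : Bool) : ofB β ≠ c := by cases β <;> simp [ofB]

end N5

/-- `q` takes all three values `a, b, c` on `S`. -/
def Onto {X : Type} (q : X → N5) (S : Set X) : Prop :=
  (∃ x ∈ S, q x = N5.a) ∧ (∃ x ∈ S, q x = N5.b) ∧ (∃ x ∈ S, q x = N5.c)

end Pool.Agent.P.MP_4a7a83_al.MS
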