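import Pool.Agent.P.MP_4a7a83_al.Plain

/-!
Validity at a labelling has all the properties that the lattice side needs.
-/

namespace Pool.Agent.P.MP_4a7a83_al.MS

open Classical N5

namespace ValA

variable {X : Type} {A : Tm X → Prop}

theorem closed2 (s t : Tm X) : Closed (s.sub ∪ t.sub) := (closed_sub s).union (closed_sub t)

theorem mem_l (s t : Tm X) : s ∈ s.sub ∪ t.sub := Finset.mem_union_left _ s.mem_sub_self

theorem mem_r (s t : Tm X) : t ∈ s.sub ∪ t.sub := Finset.mem_union_right _ t.mem_sub_self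

theorem supp2 {s t : Tm X} {P : X → Prop} (h : ∀ x ∈ s.supp ∪ t.supp, P x) :
    ∀ u ∈ s.sub ∪ t.sub, ∀ x ∈ u.supp, P x := fun _ hu x hx => by
  rcases Finset.mem_union.1 hu with hu | hu
  · exact h x (Or.inl (Tm.supp_subset_of_mem_sub hu hx))
  · exact h x (Or.inr (Tm.supp_subset_of_mem_sub hu hx))

/-- Validity does not depend on the closed set. -/
theorem valOn_iff (hS : ∀ S, Closed S → SE A S) {q : X → N5} {S : Finset (Tm X)} (hc : Closed S)
    {s t : Tm X} (hs : s ∈ S) (ht : t ∈ S) : ValOn A q S s t ↔ Val A q s t := by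
  have h0 : s.sub ∪ t.sub ⊆ S := Finset.union_subset (hc.sub_subset hs) (hc.sub_subset ht)
  refine ⟨fun h E _ _ a M hM => ?_, fun h E _ _ a M hM => h E a M (hM.mono h0)⟩
  obtain ⟨E', _, _, a', M', f, g, hM', hfg, hα⟩ := hS S hc q _ (closed2 s t) h0 E a M hM
  exact rle_of_retract (hα 1) (ev_hom (closed2 s t) (fun u hu => (hfg u hu).1) (mem_l s t))
    (ev_hom (closed2 s t) (fun u hu => (hfg u hu).2) (mem_r s t)) (h E' a' M' hM')

theorem pval_iff (hA : ∀ t, A t → Cond A t) (hS : ∀ S, Closed S → SE A S) {φ : X → Bool}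
    {S : Finset (Tm X)} (hc : Closed S) {s t : Tm X} (hs : s ∈ S) (ht : t ∈ S) :
    PValOn A φ S s t ↔ Val A (fun x => ofB (φ x)) s t :=
  (pvalOn_iff hA hc s t).trans (valOn_iff hS hc hs ht)

theorem piece (hA : ∀ t, A t → Cond A t) {q : X → N5} {s t : Tm X} (π : Pc)
    (hq : ∀ x ∈ s.supp ∪ t.supp, q x ≠ π.out) (h : Val A (fun x => ofB (π.col (q x))) s t)
    {E : Type} [AddCommGroup E] [Module ℚ E] {a : Act E} {M : Str X E}
    (hM : Mem A q (s.sub ∪ t.sub) a M) : RLe (hat X (a.φ π.idem)) (M.ev s) (M.ev t) :=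
  (pvalOn_iff hA (closed2 s t) s t).2 h E M _ (hM.piece π (supp2 hq))

theorem val_fl (hA : ∀ t, A t → Cond A t) {φ : X → Bool} {x : X} {j : J X} {k l : Fin 5}
    (h : ∀ (E : Type) [AddCommGroup E] [Module ℚ E] (z : Fin 5 → Submodule ℚ E) (e : E →ₗ[ℚ] E),
      FlagAx (φ x) z e → RLe e (z k) (z l)) :
    Val A (fun x => ofB (φ x)) (.fl x k j) (.fl x l j) := by
  refine (pvalOn_iff hA (closed2 _ _) _ _).1 fun E _ _ M e hM => ?_
  rintro _ ⟨v, hv, rfl⟩
  exact ⟨e v, h E _ e (hM.2 _ (mem_l _ _)).2 v hv, (hat_single e j v).symm⟩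

/-- The one-dimensional structure whose flags jump at `1` or at `n`. -/
noncomputable def line (φ : X → Bool) (n : Fin 5) (hn : n ≠ 0) : Str X ℚ where
  z w k := if (if φ w then 1 else n) ≤ k then ⊤ else ⊥
  mono w k l h := by
    dsimp only
    by_cases h1 : (if φ w then 1 else n) ≤ k
    · rw [if_pos h1, if_pos (h1.trans h)]
    · rw [if_neg h1]
      exact bot_le
  z0 w := if_neg (by cases φ w <;> simp [hn])
  z4 w := if_pos (Fin.le_last _)
  lk _ := ⊥

theorem pmem_line {φ : X → Bool} {n : Fin 5} (hn : n ≠ 0) (hn' : n = 2 ∨ n = 4)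
    {S : Finset (Tm X)} (h : ∀ Y p s0 s1 t0 t1, Tm.lk Y p s0 s1 t0 t1 ∉ S) :
    PMem A φ S (line φ n hn) LinearMap.id := by
  refine ⟨rfl, fun t ht => ⟨atomHom_id _ t, ?_⟩⟩
  cases t
  case fl x k j =>
    change FlagAx (φ x) (fun k => if (if φ x then 1 else n) ≤ k then ⊤ else ⊥) _
    cases φ x <;> rcases hn' with rfl | rfl <;> simp [FlagAx, RLe]
  case lk Y p s0 s1 t0 t1 => exact absurd ht (h _ _ _ _ _ _)
  all_goals exact ⟨fun _ => trivial, fun _ => trivial⟩

theorem linkV_of {V : (X → N5) → Tm X → Tm X → Prop} {q p : X → N5} {Y : List X}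
    {s0 s1 t0 t1 : Tm X}
    (h : ∀ u v, (∀ (E : Type) [AddCommGroup E] [Module ℚ E] (M : Str X E) (e : E →ₗ[ℚ] E),
      LinkAx M e (.lk Y p s0 s1 t0 t1) → RLe (hat X e) (M.ev u) (M.ev v)) → V q u v) :
    LinkV V q (.lk Y p s0 s1 t0 t1) s0 s1 t0 t1 :=
  ⟨h _ _ fun _ _ _ _ _ hl => hl.1, h _ _ fun _ _ _ _ _ hl => hl.2.1,
    h _ _ fun _ _ _ _ _ hl => hl.2.2.1, h _ _ fun _ _ _ _ _ hl => hl.2.2.2⟩

theorem kid {t u : Tm X} (v : Tm X) (h : u ∈ t.kids) : u ∈ t.sub ∪ v.sub :=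
  closed2 t v t (mem_l t v) u h

end ValA

open ValA in
theorem sem_val {X : Type} {A : Tm X → Prop} (hA : ∀ t, A t ↔ Cond A t)
    (hS : ∀ S, Closed S → SE A S) (hG : ∀ S, Closed S → GE A S) : Sem (Val A) := by
  have hA' : ∀ t, A t → Cond A t := fun t => (hA t).1
  refine
    { ule := fun {q s t} h E _ _ a M hM =>
        (hM.ev_stab_one (closed2 s t) (mem_l s t)).mono le_rfl (h E M)
      trans := fun {q s t u} h1 h2 => ?_
      sup_le := fun {q s t u} h1 h2 E _ _ a M hM => ?_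
      le_inf := fun {q s t u} h1 h2 E _ _ a M hM => ?_
      loc := fun {q q' s t} hq h E _ _ a M hM =>
        h E a M (hM.congr_lab (supp2 fun x hx => (hq x hx).symm))
      dec_c := fun {q s t} hq h1 h2 h3 E _ _ a M hM => ?_
      dec_b := fun {q s t} hq h1 h2 E _ _ a M hM => ?_
      dec_a := fun {q s t} hq h1 h2 E _ _ a M hM => ?_
      sp1 := fun {q s t} h => (pvalOn_iff hA' (closed2 s t) s t).1 fun E _ _ M e hM => ?_
      sp2 := fun {q s t} h => (pvalOn_iff hA' (closed2 s t) s t).1 fun E _ _ M e hM => ?_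
      sp01 := fun {q s t} hq h => (pvalOn_iff hA' (closed2 s t) s t).1 fun E _ _ M e hM => ?_
      flag_t := fun {φ x j} h => ⟨val_fl hA' fun _ _ _ _ _ hz => (h ▸ hz).1,
        val_fl hA' fun _ _ _ _ _ hz => (h ▸ hz).2⟩
      flag_f := fun {φ x j} h => ⟨val_fl hA' fun _ _ _ _ _ hz => (h ▸ hz).1,
        val_fl hA' fun _ _ _ _ _ hz => (h ▸ hz).2⟩
      openA := fun {φ x y j} hx hy h => ?_
      openB := fun {φ x y j} hx hy h => ?_
      link2 := fun {φ Y s0 s1 t0 t1} hI hY h1 h2 => ?_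
      link5 := fun {p Y s0 s1 t0 t1} hI hY h1 h2 h3 => ?_ }
  · have hc := (closed2 s t).union (closed_sub u)
    have a1 : s ∈ s.sub ∪ t.sub ∪ u.sub := Finset.mem_union_left _ (mem_l s t)
    have a2 : t ∈ s.sub ∪ t.sub ∪ u.sub := Finset.mem_union_left _ (mem_r s t)
    have a3 : u ∈ s.sub ∪ t.sub ∪ u.sub := Finset.mem_union_right _ u.mem_sub_self
    exact (valOn_iff hS hc a1 a3).1 fun E _ _ a M hM =>
      RLe.trans_idem (by rw [a.hat_comp, one_mul]) ((valOn_iff hS hc a1 a2).2 h1 E a M hM)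
        ((valOn_iff hS hc a2 a3).2 h2 E a M hM)
  · exact ((valOn_iff hS (closed2 _ u) (kid u (by simp [Tm.kids])) (mem_r _ u)).2 h1
      E a M hM).sup_le
      ((valOn_iff hS (closed2 _ u) (kid u (by simp [Tm.kids])) (mem_r _ u)).2 h2 E a M hM)
  · rw [Finset.union_comm] at hM
    exact ((valOn_iff hS (closed2 _ u) (mem_r _ u) (kid u (by simp [Tm.kids]))).2 h1
      E a M hM).le_inf
      ((valOn_iff hS (closed2 _ u) (mem_r _ u) (kid u (by simp [Tm.kids]))).2 h2 E a M hM)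
  · rw [← e_sum, a.hat_add, a.hat_add]
    exact ((piece hA' .v00 hq h2 hM).add (piece hA' .v01 hq h3 hM)).add (piece hA' .v11 hq h1 hM)
  · rw [← f_sum, a.hat_add]
    exact (piece hA' .w1 hq h1 hM).add (piece hA' .w2 hq h2 hM)
  · rw [← g_sum, a.hat_add]
    exact (piece hA' .u1 hq h1 hM).add (piece hA' .u2 hq h2 hM)
  · have := h E _ M (mem_N1 hA' (closed2 s t) hM)
    rwa [show (actN1 e hM.1).φ 1 = e from one_smul ℚ e] at this
  · have := h E _ M (mem_N2 hA' (closed2 s t) hM)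
    rwa [show (actN2 e hM.1).φ 1 = e from one_smul ℚ e] at this
  · obtain ⟨E', _, _, a', M', f, g, hM', hfg, he⟩ := hG _ (closed2 s t) q (supp2 hq) E M e hM
    exact rle_of_retract he (ev_hom (closed2 s t) (fun u hu => (hfg u hu).1) (mem_l s t))
      (ev_hom (closed2 s t) (fun u hu => (hfg u hu).2) (mem_r s t))
      ((h E' a' M' hM').below (by rw [a'.hat_comp, mul_one])
        ((hM'.piece .v01 (supp2 hq)).ev_stab (closed2 s t) (mem_r s t)))
  · have := (pvalOn_iff hA' (closed2 _ _) _ _).2 h ℚ _ _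
      (pmem_line (n := 2) (by decide) (Or.inl rfl) (by simp [Tm.sub])) (Finsupp.single j 1)
      ⟨⟨1, by simp [line, hx], rfl⟩, ⟨1, by simp [line, hy], rfl⟩⟩
    simp [hat_single, Str.ev] at this
  · have := (pvalOn_iff hA' (closed2 _ _) _ _).2 h ℚ _ _
      (pmem_line (n := 4) (by decide) (Or.inr rfl) (by simp [Tm.sub])) (Finsupp.single j 1)
      ⟨1, by simp [line, hx], rfl⟩
    simp [hat_single, Str.ev, line, hy] at this
  · have hc := closed_args (Tm.lk Y (fun x => ofB (φ x)) s0 s1 t0 t1)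
    have k : ∀ u ∈ [s0, s1, t0, t1], u ∈ (Tm.lk Y (fun x => ofB (φ x)) s0 s1 t0 t1).args :=
      fun u hu => Tm.kids_mem_args hu
    have hs : A (.lk Y (fun x => ofB (φ x)) s0 s1 t0 t1) := by
      refine (hA _).2 ⟨hI, Or.inl ⟨φ, fun _ _ => rfl, fun h => h1 ((pval_iff hA' hS hc
        (k _ (by simp)) (k _ (by simp))).1 h), fun ψ hψ => ?_⟩⟩
      have h3 : ∃ y ∈ Y, ψ y ≠ φ y := by
        by_contra h3
        refine hψ fun x hx => ?_
        have h4 : x ∈ Y := hx.elim id (hY x)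
        by_contra h5
        exact h3 ⟨x, h4, fun h6 => h5 (by simp only [h6])⟩
      exact ⟨(pval_iff hA' hS hc (k _ (by simp)) (k _ (by simp))).2 (h2 ψ h3).1,
        (pval_iff hA' hS hc (k _ (by simp)) (k _ (by simp))).2 (h2 ψ h3).2⟩
    refine linkV_of fun u v h => ?_
    exact (pval_iff hA' hS ((closed2 u v).union (closed_sub _))
      (Finset.mem_union_left _ (mem_l u v)) (Finset.mem_union_left _ (mem_r u v))).1
      fun E _ _ M e hM => h E M e ((hM.2 (.lk Y (fun x => ofB (φ x)) s0 s1 t0 t1)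
        (Finset.mem_union_right _ (Tm.mem_sub_self _))).2.1 ⟨hs, fun _ _ => rfl⟩)
  · have hc := closed_args (Tm.lk Y p s0 s1 t0 t1)
    have k : ∀ u ∈ [s0, s1, t0, t1], u ∈ (Tm.lk Y p s0 s1 t0 t1).args :=
      fun u hu => Tm.kids_mem_args hu
    have ho : Onto p (Tm.lk Y p s0 s1 t0 t1).supp := by
      obtain ⟨⟨x, hx, a1⟩, ⟨y, hy, a2⟩, ⟨z, hz, a3⟩⟩ := hY
      exact ⟨⟨x, Or.inl hx, a1⟩, ⟨y, Or.inl hy, a2⟩, ⟨z, Or.inl hz, a3⟩⟩
    have hs : A (.lk Y p s0 s1 t0 t1) :=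
      (hA _).2 ⟨hI, Or.inr ⟨ho, fun h => h1 ((valOn_iff hS hc (k _ (by simp))
        (k _ (by simp))).1 h), (pval_iff hA' hS hc (k _ (by simp)) (k _ (by simp))).2 h2,
        (pval_iff hA' hS hc (k _ (by simp)) (k _ (by simp))).2 h3⟩⟩
    refine linkV_of fun u v h => ?_
    exact (valOn_iff hS ((closed2 u v).union (closed_sub _))
      (Finset.mem_union_left _ (mem_l u v)) (Finset.mem_union_left _ (mem_r u v))).1
      fun E _ _ a M hM => h E M _ ((hM _ (Finset.mem_union_right _ (Tm.mem_sub_self _))).2.2.2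
        ho hs fun _ _ => rfl)

end Pool.Agent.P.MP_4a7a83_al.MS
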