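import Pool.Agent.P.MP_4a7a83_al.Model
import Pool.Agent.P.MP_4a7a83_al.Val
import Pool.Agent.P.MP_4a7a83_al.Ind
import Pool.Agent.P.MP_4a7a83_al.Fix

/-!
The model side.
-/

namespace Pool.Agent.P.MP_4a7a83_al.MS

open Classical

theorem modelSide : KS.ModelSide := fun X => by
  obtain ⟨A, hA⟩ := exists_fix X
  exact iface_of_sem (sem_val hA (fun S hS => (se_ge_all (fun t => (hA t).1) S hS).1)
    fun S hS => (se_ge_all (fun t => (hA t).1) S hS).2)

end Pool.Agent.P.MP_4a7a83_al.MS
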