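import Pool.Agent.P.MP_4a7a83_al.Iface

/-! The lattice of terms modulo validity at all labellings. -/

set_option autoImplicit false

namespace Pool.Agent.P.MP_4a7a83_al.KS

/-- The interface at the level of a bounded modular lattice. -/
structure Mod (X : Type) (B : Type) [Lattice B] [BoundedOrder B] where
  e0 : B
  e1 : B
  e2 : B
  f1 : X → B
  f2 : X → B
  f3 : X → B
  D : Finset X → Sublattice B
  le : (X → N5) → B → B → Prop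
  D_ex : ∀ t, ∃ Y, t ∈ D Y
  D_mono : ∀ {Y Y' : Finset X}, Y ⊆ Y' → D Y ≤ D Y'
  D_const : ∀ Y, ⊥ ∈ D Y ∧ e0 ∈ D Y ∧ e1 ∈ D Y ∧ e2 ∈ D Y
  D_fl : ∀ {Y : Finset X} {x : X}, x ∈ Y → f1 x ∈ D Y ∧ f2 x ∈ D Y ∧ f3 x ∈ D Y
  of_le : ∀ (q : X → N5) {s t : B}, s ≤ t → le q s t
  trans : ∀ {q : X → N5} {s t u : B}, le q s t → le q t u → le q s u
  le_inf : ∀ {q : X → N5} {s t u : B}, le q s t → le q s u → le q s (t ⊓ u)
  sup_le : ∀ {q : X → N5} {s t u : B}, le q s u → le q t u → le q (s ⊔ t) u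
  i01 : e0 ⊓ e1 = ⊥
  i02 : e0 ⊓ e2 = ⊥
  i12 : e1 ⊓ e2 = ⊥
  s01 : e0 ⊔ e1 = ⊤
  s02 : e0 ⊔ e2 = ⊤
  s12 : e1 ⊔ e2 = ⊤
  loc : ∀ {Y : Finset X} {q q' : X → N5} {s t : B}, s ∈ D Y → t ∈ D Y →
    (∀ x ∈ Y, q x = q' x) → le q s t → le q' s t
  fl_mono : ∀ x, f1 x ≤ f2 x ∧ f2 x ≤ f3 x ∧ f3 x ≤ e0
  pure0 : ∀ (φ : X → Bool) (x : X), φ x = false →
    le (lab φ) (f2 x) (f1 x) ∧ le (lab φ) e0 (f3 x)
  pure1 : ∀ (φ : X → Bool) (x : X), φ x = true →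
    le (lab φ) (f1 x) ⊥ ∧ le (lab φ) (f3 x) (f2 x)
  dist_c : ∀ {Y : Finset X} {q : X → N5} {s t : B}, s ∈ D Y → t ∈ D Y →
    (∀ x ∈ Y, q x ≠ N5.c) → le (lab (N5.p1 ∘ q)) s t → le (lab (N5.p2 ∘ q)) s t →
    le (lab (N5.p01 ∘ q)) s t → le q s t
  dist_ab : ∀ {Y : Finset X} {q : X → N5} {s t : B}, s ∈ D Y → t ∈ D Y →
    ((∀ x ∈ Y, q x ≠ N5.a) ∨ (∀ x ∈ Y, q x ≠ N5.b)) → le (lab (N5.p1 ∘ q)) s t →
    le (lab (N5.p2 ∘ q)) s t → le q s t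
  up_delta : ∀ {Y : Finset X} {q : X → N5} {s t : B}, s ∈ D Y → t ∈ D Y →
    (∀ x ∈ Y, q x ≠ N5.c) → le q s t → le (lab (N5.p01 ∘ q)) s t
  up_beta : ∀ {q : X → N5} {s t : B}, le q s t → le (lab (N5.p1 ∘ q)) s t
  up_gamma : ∀ {q : X → N5} {s t : B}, le q s t → le (lab (N5.p2 ∘ q)) s t
  link2 : ∀ (Y : Finset X) (φ : X → Bool) (s t s' t' : B),
    (∃ x ∈ Y, φ x = false) → (∃ y ∈ Y, φ y = true) → s ∈ D Y → t ∈ D Y → s' ∈ D Y → t' ∈ D Y →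
    s ≤ t → t ≤ e0 → s' ≤ t' → t' ≤ e1 → ¬ le (lab φ) t' s' →
    (∀ ψ : X → Bool, (∃ x ∈ Y, ψ x ≠ φ x) → le (lab ψ) t s ∧ le (lab ψ) t' s') →
    ∃ S, S ∈ D Y ∧ s ⊔ s' ≤ S ∧ S ≤ t ⊔ t' ∧ le (lab φ) t (S ⊔ t') ∧ le (lab φ) (S ⊓ t) s
  link5 : ∀ (Y : Finset X) (h : X → N5) (s t s' t' : B), Onto Y h →
    s ∈ D Y → t ∈ D Y → s' ∈ D Y → t' ∈ D Y → s ≤ t → t ≤ e0 → s' ≤ t' → t' ≤ e1 →
    ¬ le h t' s' → le (lab (N5.p1 ∘ h)) t s → le (lab (N5.p2 ∘ h)) t s →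
    ∃ S, S ∈ D Y ∧ s ⊔ s' ≤ S ∧ S ≤ t ⊔ t' ∧ le h t (S ⊔ t') ∧ le h (S ⊓ t) s
  openA : ∀ (φ : X → Bool) (x y : X), φ x = false → φ y = true → ¬ le (lab φ) (f1 x ⊓ f2 y) ⊥
  openB : ∀ (φ : X → Bool) (x y : X), φ x = false → φ y = true → ¬ le (lab φ) (f1 x) (f3 y)

namespace Iface

variable {X : Type} (I : Iface X)

/-- Validity at all labellings. -/
def all (s t : I.Tm) : Prop := ∀ q, I.le q s t

/-- Equivalence of terms. -/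
def setoid : Setoid I.Tm where
  r s t := I.all s t ∧ I.all t s
  iseqv := ⟨fun t => ⟨fun q => I.le_refl q t, fun q => I.le_refl q t⟩, fun h => ⟨h.2, h.1⟩,
    fun h h' => ⟨fun q => I.le_trans (h.1 q) (h'.1 q), fun q => I.le_trans (h'.2 q) (h.2 q)⟩⟩

/-- The term lattice. -/
def B : Type := Quotient I.setoid

/-- The class of a term. -/
def cls (t : I.Tm) : I.B := Quotient.mk I.setoid t

theorem ind (b : I.B) : ∃ t, b = I.cls t := Quotient.inductionOn b (fun t => ⟨t, rfl⟩)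

/-- Validity at `q` on classes. -/
def leq (q : X → N5) : I.B → I.B → Prop :=
  Quotient.lift₂ (I.le q) (fun _ _ _ _ h h' => propext
    ⟨fun e => I.le_trans (h.2 q) (I.le_trans e (h'.1 q)),
      fun e => I.le_trans (h.1 q) (I.le_trans e (h'.2 q))⟩)

theorem sup_mono {q : X → N5} {s t s' t' : I.Tm} (h : I.le q s s') (h' : I.le q t t') :
    I.le q (I.sup s t) (I.sup s' t') :=
  I.sup_le (I.le_trans h (I.le_sup_left _ _ _)) (I.le_trans h' (I.le_sup_right _ _ _))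

theorem inf_mono {q : X → N5} {s t s' t' : I.Tm} (h : I.le q s s') (h' : I.le q t t') :
    I.le q (I.inf s t) (I.inf s' t') :=
  I.le_inf (I.le_trans (I.inf_le_left _ _ _) h) (I.le_trans (I.inf_le_right _ _ _) h')

instance : Lattice I.B where
  le s t := ∀ q, I.leq q s t
  le_refl s q := by obtain ⟨s, rfl⟩ := I.ind s; exact I.le_refl q s
  le_trans s t u h h' q := by
    obtain ⟨s, rfl⟩ := I.ind s
    obtain ⟨t, rfl⟩ := I.ind t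
    obtain ⟨u, rfl⟩ := I.ind u
    exact I.le_trans (h q) (h' q)
  le_antisymm s t h h' := by
    obtain ⟨s, rfl⟩ := I.ind s
    obtain ⟨t, rfl⟩ := I.ind t
    exact Quotient.sound ⟨h, h'⟩
  sup := Quotient.map₂ I.sup (fun _ _ h _ _ h' =>
    ⟨fun q => I.sup_mono (h.1 q) (h'.1 q), fun q => I.sup_mono (h.2 q) (h'.2 q)⟩)
  le_sup_left s t q := by
    obtain ⟨s, rfl⟩ := I.ind s
    obtain ⟨t, rfl⟩ := I.ind t
    exact I.le_sup_left q s t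
  le_sup_right s t q := by
    obtain ⟨s, rfl⟩ := I.ind s
    obtain ⟨t, rfl⟩ := I.ind t
    exact I.le_sup_right q s t
  sup_le s t u h h' q := by
    obtain ⟨s, rfl⟩ := I.ind s
    obtain ⟨t, rfl⟩ := I.ind t
    obtain ⟨u, rfl⟩ := I.ind u
    exact I.sup_le (h q) (h' q)
  inf := Quotient.map₂ I.inf (fun _ _ h _ _ h' =>
    ⟨fun q => I.inf_mono (h.1 q) (h'.1 q), fun q => I.inf_mono (h.2 q) (h'.2 q)⟩)
  inf_le_left s t q := by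
    obtain ⟨s, rfl⟩ := I.ind s
    obtain ⟨t, rfl⟩ := I.ind t
    exact I.inf_le_left q s t
  inf_le_right s t q := by
    obtain ⟨s, rfl⟩ := I.ind s
    obtain ⟨t, rfl⟩ := I.ind t
    exact I.inf_le_right q s t
  le_inf s t u h h' q := by
    obtain ⟨s, rfl⟩ := I.ind s
    obtain ⟨t, rfl⟩ := I.ind t
    obtain ⟨u, rfl⟩ := I.ind u
    exact I.le_inf (h q) (h' q)

instance : BoundedOrder I.B where
  top := I.cls I.top
  le_top s q := by obtain ⟨s, rfl⟩ := I.ind s; exact I.le_top q s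
  bot := I.cls I.bot
  bot_le s q := by obtain ⟨s, rfl⟩ := I.ind s; exact I.bot_le q s

theorem mk_sup (s t : I.Tm) : I.cls s ⊔ I.cls t = I.cls (I.sup s t) := rfl

theorem mk_inf (s t : I.Tm) : I.cls s ⊓ I.cls t = I.cls (I.inf s t) := rfl

instance : IsModularLattice I.B where
  sup_inf_le_assoc_of_le := by
    intro s t u h
    have key : (s ⊓ u ⊔ t) ⊓ u ≤ s ⊓ u ⊔ t ⊓ u := by
      obtain ⟨s, rfl⟩ := I.ind s
      obtain ⟨t, rfl⟩ := I.ind t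
      obtain ⟨u, rfl⟩ := I.ind u
      exact fun q => I.modular q s t u
    rwa [inf_eq_left.2 h] at key

/-- The classes of the terms supported in `Y`. -/
def D (Y : Finset X) : Sublattice I.B where
  carrier := {b | ∃ t, I.Supp Y t ∧ b = I.cls t}
  supClosed' := by
    rintro _ ⟨s, hs, rfl⟩ _ ⟨t, ht, rfl⟩
    exact ⟨_, I.supp_sup hs ht, rfl⟩
  infClosed' := by
    rintro _ ⟨s, hs, rfl⟩ _ ⟨t, ht, rfl⟩
    exact ⟨_, I.supp_inf hs ht, rfl⟩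

theorem clip {Y : Finset X} {q : X → N5} {s t s' t' S : I.Tm} (hs : I.Supp Y s) (ht : I.Supp Y t)
    (hs' : I.Supp Y s') (ht' : I.Supp Y t') (h1 : I.cls s ≤ I.cls t) (h2 : I.cls s' ≤ I.cls t')
    (h : I.Supp Y S ∧ I.le q (I.sup s s') S ∧ I.le q S (I.sup t t') ∧ I.le q t (I.sup S t') ∧
      I.le q (I.inf S t) s) :
    ∃ S', S' ∈ I.D Y ∧ I.cls s ⊔ I.cls s' ≤ S' ∧ S' ≤ I.cls t ⊔ I.cls t' ∧
      I.leq q (I.cls t) (S' ⊔ I.cls t') ∧ I.leq q (S' ⊓ I.cls t) (I.cls s) := by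
  refine ⟨(I.cls S ⊔ (I.cls s ⊔ I.cls s')) ⊓ (I.cls t ⊔ I.cls t'),
    ⟨_, I.supp_inf (I.supp_sup h.1 (I.supp_sup hs hs')) (I.supp_sup ht ht'), rfl⟩,
    _root_.le_inf _root_.le_sup_right (sup_le_sup h1 h2), _root_.inf_le_right, ?_, ?_⟩
  · exact I.le_trans h.2.2.2.1
      (I.sup_mono (I.le_inf (I.le_sup_left _ _ _) h.2.2.1) (I.le_refl _ _))
  · exact I.le_trans (I.inf_mono (I.le_trans (I.inf_le_left _ _ _)
      (I.sup_le (I.le_refl _ _) h.2.1)) (I.le_refl _ _)) h.2.2.2.2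

/-- The term lattice satisfies the interface. -/
def toMod : Mod X I.B where
  e0 := I.cls I.e0
  e1 := I.cls I.e1
  e2 := I.cls I.e2
  f1 x := I.cls (I.f1 x)
  f2 x := I.cls (I.f2 x)
  f3 x := I.cls (I.f3 x)
  D := I.D
  le := I.leq
  D_ex t := by
    obtain ⟨t, rfl⟩ := I.ind t
    obtain ⟨Y, hY⟩ := I.supp_ex t
    exact ⟨Y, t, hY, rfl⟩
  D_mono h _ := fun ⟨t, ht, e⟩ => ⟨t, I.supp_mono h ht, e⟩
  D_const Y := ⟨⟨_, (I.supp_const Y).1, rfl⟩, ⟨_, (I.supp_const Y).2.2.1, rfl⟩,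
    ⟨_, (I.supp_const Y).2.2.2.1, rfl⟩, ⟨_, (I.supp_const Y).2.2.2.2, rfl⟩⟩
  D_fl h := ⟨⟨_, (I.supp_fl h).1, rfl⟩, ⟨_, (I.supp_fl h).2.1, rfl⟩, ⟨_, (I.supp_fl h).2.2, rfl⟩⟩
  of_le q _ _ h := h q
  trans := by
    intro q s t u h h'
    obtain ⟨s, rfl⟩ := I.ind s
    obtain ⟨t, rfl⟩ := I.ind t
    obtain ⟨u, rfl⟩ := I.ind u
    exact I.le_trans h h'
  le_inf := by
    intro q s t u h h'
    obtain ⟨s, rfl⟩ := I.ind s
    obtain ⟨t, rfl⟩ := I.ind t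
    obtain ⟨u, rfl⟩ := I.ind u
    exact I.le_inf h h'
  sup_le := by
    intro q s t u h h'
    obtain ⟨s, rfl⟩ := I.ind s
    obtain ⟨t, rfl⟩ := I.ind t
    obtain ⟨u, rfl⟩ := I.ind u
    exact I.sup_le h h'
  i01 := le_bot_iff.1 (fun q => (I.frame_inf q).1)
  i02 := le_bot_iff.1 (fun q => (I.frame_inf q).2.1)
  i12 := le_bot_iff.1 (fun q => (I.frame_inf q).2.2)
  s01 := top_le_iff.1 (fun q => (I.frame_sup q).1)
  s02 := top_le_iff.1 (fun q => (I.frame_sup q).2.1)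
  s12 := top_le_iff.1 (fun q => (I.frame_sup q).2.2)
  loc := by
    rintro Y q q' _ _ ⟨s, hs, rfl⟩ ⟨t, ht, rfl⟩ h e
    exact I.loc hs ht h e
  fl_mono x := ⟨fun q => (I.fl_mono q x).1, fun q => (I.fl_mono q x).2.1,
    fun q => (I.fl_mono q x).2.2⟩
  pure0 := I.pure0
  pure1 := I.pure1
  dist_c := by
    rintro Y q _ _ ⟨s, hs, rfl⟩ ⟨t, ht, rfl⟩ h
    exact I.dist_c hs ht h
  dist_ab := by
    rintro Y q _ _ ⟨s, hs, rfl⟩ ⟨t, ht, rfl⟩ (h | h)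
    · exact I.dist_a hs ht h
    · exact I.dist_b hs ht h
  up_delta := by
    rintro Y q _ _ ⟨s, hs, rfl⟩ ⟨t, ht, rfl⟩ h
    exact I.up_delta hs ht h
  up_beta := by
    intro q s t
    obtain ⟨s, rfl⟩ := I.ind s
    obtain ⟨t, rfl⟩ := I.ind t
    exact I.up_beta
  up_gamma := by
    intro q s t
    obtain ⟨s, rfl⟩ := I.ind s
    obtain ⟨t, rfl⟩ := I.ind t
    exact I.up_gamma
  link2 := by
    rintro Y φ _ _ _ _ n0 n1 ⟨s, hs, rfl⟩ ⟨t, ht, rfl⟩ ⟨s', hs', rfl⟩ ⟨t', ht', rfl⟩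
      h1 h2 h3 h4 h5 h6
    obtain ⟨S, hS⟩ := I.link2 Y φ s t s' t' n0 n1 hs ht hs' ht' h1 h2 h3 h4 h5 h6
    exact I.clip hs ht hs' ht' h1 h3 hS
  link5 := by
    rintro Y h _ _ _ _ n0 ⟨s, hs, rfl⟩ ⟨t, ht, rfl⟩ ⟨s', hs', rfl⟩ ⟨t', ht', rfl⟩
      h1 h2 h3 h4 h5 h6 h7
    obtain ⟨S, hS⟩ := I.link5 Y h s t s' t' n0 hs ht hs' ht' h1 h2 h3 h4 h5 h6 h7
    exact I.clip hs ht hs' ht' h1 h3 hS
  openA := I.openA
  openB := I.openB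

end Iface

end Pool.Agent.P.MP_4a7a83_al.KS
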