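import Pool.Agent.P.MP_4a7a83_al.Iface
import Pool.Agent.P.MP_4a7a83_al.Basic

/-!
From validity to the interface of the lattice side (labels are reversed).
-/

namespace Pool.Agent.P.MP_4a7a83_al.MS

open Classical

/-- The labels of the lattice side. -/
abbrev LN : Type := Pool.Agent.P.MP_4a7a83_al.N5

/-- The reversal of labels. -/
def sg : LN → MS.N5
  | .o => .i | .a => .b | .b => .a | .c => .c | .i => .o

/-- The inverse reversal. -/
def sg' : MS.N5 → LN
  | .o => .i | .a => .b | .b => .a | .c => .c | .i => .o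

theorem sg_sg' (l : MS.N5) : sg (sg' l) = l := by cases l <;> rfl

theorem sg_ofB (β : Bool) : sg (Pool.Agent.P.MP_4a7a83_al.N5.ofB β) = MS.N5.ofB (!β) := by
  cases β <;> rfl

theorem sg_p1 (l : LN) : sg (Pool.Agent.P.MP_4a7a83_al.N5.ofB l.p1) = MS.N5.ofB (sg l).p2 := by
  cases l <;> rfl

theorem sg_p2 (l : LN) : sg (Pool.Agent.P.MP_4a7a83_al.N5.ofB l.p2) = MS.N5.ofB (sg l).p1 := by
  cases l <;> rfl

theorem sg_p01 (l : LN) (h : l ≠ .c) :
    sg (Pool.Agent.P.MP_4a7a83_al.N5.ofB l.p01) = MS.N5.ofB (sg l).p01 := by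
  cases l <;> first | rfl | exact absurd rfl h

theorem sg_ne_a {l : LN} (h : l ≠ .b) : sg l ≠ .a := by
  cases l <;> first | exact absurd rfl h | decide

theorem sg_ne_b {l : LN} (h : l ≠ .a) : sg l ≠ .b := by
  cases l <;> first | exact absurd rfl h | decide

theorem sg_ne_c {l : LN} (h : l ≠ .c) : sg l ≠ .c := by
  cases l <;> first | exact absurd rfl h | decide

variable {X : Type}

theorem lab_eq (φ : X → Bool) :
    (fun x => sg (KS.lab φ x)) = fun x => MS.N5.ofB (!φ x) := funext fun _ => sg_ofB _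

theorem lab_p1 (q : X → LN) :
    (fun x => sg (KS.lab (Pool.Agent.P.MP_4a7a83_al.N5.p1 ∘ q) x)) =
      fun x => MS.N5.ofB (sg (q x)).p2 := funext fun _ => sg_p1 _

theorem lab_p2 (q : X → LN) :
    (fun x => sg (KS.lab (Pool.Agent.P.MP_4a7a83_al.N5.p2 ∘ q) x)) =
      fun x => MS.N5.ofB (sg (q x)).p1 := funext fun _ => sg_p2 _

theorem mem_dg {E : Type} [AddCommGroup E] [Module ℚ E] (M : Str X E) (r s : ℚ) (v : Amb X E) :
    v ∈ M.ev (.dg r s) ↔ ∃ w, v false = r • w ∧ v true = s • w := by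
  constructor
  · rintro ⟨w, rfl⟩
    exact ⟨w, by simp, by simp⟩
  · rintro ⟨w, h1, h2⟩
    refine ⟨w, Finsupp.ext fun j => ?_⟩
    cases j
    · simp [h1]
    · simp [h2]

theorem ule_inf_dg {r s r' s' : ℚ} (h : r * s' - s * r' ≠ 0) :
    ULe (.inf (.dg r s) (.dg r' s') : Tm X) .bot := by
  intro E _ _ M v hv
  obtain ⟨w, h1, h2⟩ := (mem_dg M r s v).1 hv.1
  obtain ⟨w', h3, h4⟩ := (mem_dg M r' s' v).1 hv.2
  have e : (r * s' - s * r') • w = 0 := by
    rw [sub_smul, mul_comm r, mul_comm s, mul_smul, mul_smul, ← h1, ← h2, h3, h4, smul_smul,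
      smul_smul, mul_comm, sub_self]
  have e' : w = 0 := (smul_eq_zero.1 e).resolve_left h
  change v ∈ (⊥ : Submodule ℚ _)
  rw [Submodule.mem_bot]
  refine Finsupp.ext fun j => ?_
  cases j
  · simp [h1, e']
  · simp [h2, e']

theorem ule_sup_dg {r s r' s' : ℚ} (h : r * s' - s * r' = 1) (t : Tm X) :
    ULe t (.sup (.dg r s) (.dg r' s')) := by
  intro E _ _ M v _
  let a : E := s' • v false - r' • v true
  let b : E := r • v true - s • v false
  refine Submodule.mem_sup.2 ⟨Finsupp.single false (r • a) + Finsupp.single true (s • a),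
    (mem_dg M r s _).2 ⟨a, by simp, by simp⟩,
    Finsupp.single false (r' • b) + Finsupp.single true (s' • b),
    (mem_dg M r' s' _).2 ⟨b, by simp, by simp⟩, Finsupp.ext fun j => ?_⟩
  cases j
  · have : r • a + r' • b = (r * s' - s * r') • v false := by
      simp only [a, b]; module
    simpa [h] using this
  · have : s • a + s' • b = (r * s' - s * r') • v true := by
      simp only [a, b]; module
    simpa [h] using this

theorem ule_fl_dg (x : X) (k : Fin 5) : ULe (.fl x k false : Tm X) (.dg 1 0) := by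
  rintro E _ _ M _ ⟨w, _, rfl⟩
  exact (mem_dg M 1 0 _).2 ⟨w, by simp, by simp⟩

theorem ule_dg_fl (x : X) : ULe (.dg 1 0 : Tm X) (.fl x 4 false) := by
  rintro E _ _ M _ ⟨w, rfl⟩
  exact ⟨w, by simp [M.z4], by simp⟩

theorem ule_fl_bot (x : X) (j : Bool) : ULe (.fl x 0 j : Tm X) .bot := by
  intro E _ _ M
  simp [Str.ev, M.z0]

theorem ule_fl (x : X) {k k' : Fin 5} (h : k ≤ k') (j : Bool) :
    ULe (.fl x k j : Tm X) (.fl x k' j) :=
  fun _ _ _ M => Submodule.map_mono (M.mono x h)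

theorem ule_il (s t : Tm X) : ULe (.inf s t) s := fun _ _ _ _ => inf_le_left

theorem ule_ir (s t : Tm X) : ULe (.inf s t) t := fun _ _ _ _ => inf_le_right

theorem ule_sl (s t : Tm X) : ULe s (.sup s t) := fun _ _ _ _ => le_sup_left

theorem ule_sr (s t : Tm X) : ULe t (.sup s t) := fun _ _ _ _ => le_sup_right

theorem ule_refl (s : Tm X) : ULe s s := fun _ _ _ _ => le_rfl

theorem indep_clip (s t s' t' : Tm X) :
    Indep (.inf (.inf s' t') (.dg 0 1)) (.inf t' (.dg 0 1)) (.inf (.inf s t) (.dg 1 0))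
      (.inf t (.dg 1 0)) := by
  refine ⟨fun _ _ _ _ => inf_le_inf_right _ inf_le_right,
    fun _ _ _ _ => inf_le_inf_right _ inf_le_right, fun E _ _ M => ?_⟩
  refine le_trans ?_ ((ule_inf_dg (r := 0) (s := 1) (r' := 1) (s' := 0) (by norm_num) E M).trans
    bot_le)
  exact inf_le_inf inf_le_right inf_le_right

variable {V : (X → MS.N5) → Tm X → Tm X → Prop}

theorem clip_lo (h : Sem V) {q : X → MS.N5} {s t e : Tm X} (h1 : V q s t) (h2 : V q t e) :
    V q s (.inf (.inf s t) e) :=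
  h.le_inf (h.le_inf (h.ule (ule_refl s)) h1) (h.trans h1 h2)

theorem clip_lo' (h : Sem V) (q : X → MS.N5) (s t e : Tm X) : V q (.inf (.inf s t) e) s :=
  h.trans (h.ule (ule_il _ _)) (h.ule (ule_il _ _))

theorem clip_hi (h : Sem V) {q : X → MS.N5} {t e : Tm X} (h2 : V q t e) : V q t (.inf t e) :=
  h.le_inf (h.ule (ule_refl t)) h2

theorem clip_to (h : Sem V) {q : X → MS.N5} {s t e : Tm X} (h1 : V q s t) (h2 : V q t e)
    (h3 : V q t s) : V q (.inf t e) (.inf (.inf s t) e) :=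
  h.trans (h.trans (h.ule (ule_il _ _)) h3) (clip_lo h h1 h2)

theorem clip_from (h : Sem V) {q : X → MS.N5} {s t e : Tm X} (h2 : V q t e)
    (h3 : V q (.inf t e) (.inf (.inf s t) e)) : V q t s :=
  h.trans (h.trans (clip_hi h h2) h3) (clip_lo' h q s t e)

theorem clip_link (h : Sem V) {q : X → MS.N5} {S s t s' t' e e' : Tm X} (h1 : V q s t)
    (h2 : V q t e) (h3 : V q s' t') (h4 : V q t' e')
    (hl : LinkV V q S (.inf (.inf s' t') e') (.inf t' e') (.inf (.inf s t) e) (.inf t e)) :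
    V q (.sup s s') S ∧ V q S (.sup t t') ∧ V q t (.sup S t') ∧ V q (.inf S t) s := by
  obtain ⟨a1, a2, a3, a4⟩ := hl
  refine ⟨h.sup_le (h.trans (h.trans (clip_lo h h1 h2) (h.ule (ule_sr _ _))) a1)
    (h.trans (h.trans (clip_lo h h3 h4) (h.ule (ule_sl _ _))) a1),
    h.trans a2 (h.sup_le (h.trans (h.ule (ule_il _ _)) (h.ule (ule_sr _ _)))
      (h.trans (h.ule (ule_il _ _)) (h.ule (ule_sl _ _)))),
    h.trans (h.trans (clip_hi h h2) a3) (h.sup_le (h.ule (ule_sl _ _))
      (h.trans (h.ule (ule_il _ _)) (h.ule (ule_sr _ _)))), ?_⟩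
  exact h.trans (h.trans (h.le_inf (h.ule (ule_il _ _))
    (h.trans (h.ule (ule_ir _ _)) (clip_hi h h2))) a4) (clip_lo' h q s t e)

theorem all_lab {s t : Tm X} (h : ∀ q : X → LN, V (fun x => sg (q x)) s t) (q : X → MS.N5) :
    V q s t := by
  simpa only [sg_sg'] using h fun x => sg' (q x)

theorem clip_supp {Y : Finset X} {s t s' t' : Tm X} (hs : s.supp ⊆ Y) (ht : t.supp ⊆ Y)
    (hs' : s'.supp ⊆ Y) (ht' : t'.supp ⊆ Y) :
    (Tm.inf (.inf s' t') (.dg 0 1)).supp ∪ (Tm.inf t' (.dg 0 1)).supp ∪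
      (Tm.inf (.inf s t) (.dg 1 0)).supp ∪ (Tm.inf t (.dg 1 0)).supp ⊆ Y := by
  simp only [Tm.supp, Set.union_subset_iff, Set.empty_subset, and_true]
  exact ⟨⟨⟨⟨hs', ht'⟩, ht'⟩, hs, ht⟩, ht⟩

theorem lk_supp {Y : Finset X} {p : X → MS.N5} {s0 s1 t0 t1 : Tm X}
    (h : s0.supp ∪ s1.supp ∪ t0.supp ∪ t1.supp ⊆ Y) :
    (Tm.lk Y.toList p s0 s1 t0 t1).supp ⊆ Y :=
  Set.union_subset (fun _ hx => Finset.mem_toList.1 hx) h

theorem iface_of_sem {X : Type} {V : (X → MS.N5) → Tm X → Tm X → Prop} (h : Sem V) :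
    Nonempty (KS.Iface X) := by
  refine ⟨{
    Tm := Tm X
    bot := .bot
    top := .sup (.dg 1 0) (.dg 0 1)
    e0 := .dg 1 0
    e1 := .dg 0 1
    e2 := .dg 1 1
    inf := .inf
    sup := .sup
    f1 := fun x => .fl x 1 false
    f2 := fun x => .fl x 2 false
    f3 := fun x => .fl x 3 false
    Supp := fun Y t => t.supp ⊆ Y
    le := fun q s t => V (fun x => sg (q x)) s t
    supp_ex := fun t => ⟨t.supp_finite.toFinset, by simp⟩
    supp_mono := fun h1 h2 => h2.trans (Finset.coe_subset.2 h1)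
    supp_const := fun Y => by simp [Tm.supp]
    supp_inf := fun h1 h2 => Set.union_subset h1 h2
    supp_sup := fun h1 h2 => Set.union_subset h1 h2
    supp_fl := fun hx => by simpa [Tm.supp] using hx
    le_refl := fun _ t => h.ule (ule_refl t)
    le_trans := h.trans
    inf_le_left := fun _ s t => h.ule (ule_il s t)
    inf_le_right := fun _ s t => h.ule (ule_ir s t)
    le_inf := h.le_inf
    le_sup_left := fun _ s t => h.ule (ule_sl s t)
    le_sup_right := fun _ s t => h.ule (ule_sr s t)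
    sup_le := h.sup_le
    bot_le := fun _ t => h.ule fun _ _ _ _ => bot_le
    le_top := fun _ t => h.ule (ule_sup_dg (by norm_num) t)
    modular := fun _ s t u => h.ule fun _ _ _ M => ?_
    frame_inf := fun _ => ⟨h.ule (ule_inf_dg (by norm_num)), h.ule (ule_inf_dg (by norm_num)),
      h.ule (ule_inf_dg (by norm_num))⟩
    frame_sup := fun _ => ⟨h.ule (ule_refl _), h.ule (ule_sup_dg (by norm_num) _),
      h.ule fun E _ _ M => (ule_sup_dg (r := 1) (s := 1) (r' := 0) (s' := 1) (by norm_num) _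
        E M).trans (sup_comm _ _).le⟩
    loc := fun hs ht hq => h.loc fun x hx => by rw [hq x (Set.union_subset hs ht hx)]
    fl_mono := fun _ x => ⟨h.ule (ule_fl x (by decide) _), h.ule (ule_fl x (by decide) _),
      h.ule (ule_fl_dg x _)⟩
    pure0 := fun φ x hx => ?_
    pure1 := fun φ x hx => ?_
    dist_c := fun {Y q s t} hs ht hq h1 h2 h3 => ?_
    dist_a := fun {Y q s t} hs ht hq h1 h2 => ?_
    dist_b := fun {Y q s t} hs ht hq h1 h2 => ?_
    up_delta := fun {Y q s t} hs ht hq h1 => ?_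
    up_beta := fun h1 => by rw [lab_p1]; exact h.sp2 h1
    up_gamma := fun h1 => by rw [lab_p2]; exact h.sp1 h1
    link2 := fun Y φ s t s' t' _ _ hs ht hs' ht' h1 h2 h3 h4 h5 h6 => ?_
    link5 := fun Y p s t s' t' ho hs ht hs' ht' h1 h2 h3 h4 h5 h6 h7 => ?_
    openA := fun φ x y hx hy => by
      rw [lab_eq]; exact h.openA (φ := fun x => !φ x) (by simp [hx]) (by simp [hy])
    openB := fun φ x y hx hy => by
      rw [lab_eq]; exact h.openB (φ := fun x => !φ x) (by simp [hx]) (by simp [hy]) }⟩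
  · exact (sup_inf_assoc_of_le (M.ev t) (inf_le_right : M.ev s ⊓ M.ev u ≤ M.ev u)).le
  · rw [lab_eq]
    obtain ⟨h1, h2⟩ := h.flag_t (φ := fun x => !φ x) (x := x) (j := false) (by simp [hx])
    exact ⟨h1, h.trans (h.ule (ule_dg_fl x)) h2⟩
  · rw [lab_eq]
    obtain ⟨h1, h2⟩ := h.flag_f (φ := fun x => !φ x) (x := x) (j := false) (by simp [hx])
    exact ⟨h.trans h1 (h.ule (ule_fl_bot x _)), h2⟩
  · rw [lab_p1] at h1
    rw [lab_p2] at h2
    exact h.dec_c (fun x hx => sg_ne_c (hq x (Set.union_subset hs ht hx))) h2 h1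
      (h.loc (fun x hx => sg_p01 _ (hq x (Set.union_subset hs ht hx))) h3)
  · rw [lab_p1] at h1
    rw [lab_p2] at h2
    exact h.dec_b (fun x hx => sg_ne_b (hq x (Set.union_subset hs ht hx))) h2 h1
  · rw [lab_p1] at h1
    rw [lab_p2] at h2
    exact h.dec_a (fun x hx => sg_ne_a (hq x (Set.union_subset hs ht hx))) h2 h1
  · exact h.loc (fun x hx => (sg_p01 _ (hq x (Set.union_subset hs ht hx))).symm)
      (h.sp01 (fun x hx => sg_ne_c (hq x (Set.union_subset hs ht hx))) h1)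
  · have a1 := all_lab h1
    have a2 := all_lab h2
    have a3 := all_lab h3
    have a4 := all_lab h4
    have hY := clip_supp hs ht hs' ht'
    rw [lab_eq] at h5 ⊢
    refine ⟨_, lk_supp hY, clip_link h (a1 _) (a2 _) (a3 _) (a4 _)
      (h.link2 (φ := fun x => !φ x) (Y := Y.toList) (indep_clip s t s' t')
        (fun x hx => Finset.mem_toList.2 (hY hx)) (fun hc => h5 (clip_from h (a4 _) hc))
        fun ψ hψ => ?_)⟩
    obtain ⟨y, hy, hne⟩ := hψ
    have := h6 (fun x => !ψ x) ⟨y, Finset.mem_toList.1 hy, fun e => hne (by rw [← e]; simp)⟩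
    rw [lab_eq] at this
    simp only [Bool.not_not] at this
    exact ⟨clip_to h (a3 _) (a4 _) this.2, clip_to h (a1 _) (a2 _) this.1⟩
  · have a1 := all_lab h1
    have a2 := all_lab h2
    have a3 := all_lab h3
    have a4 := all_lab h4
    have hY := clip_supp hs ht hs' ht'
    rw [lab_p1] at h6
    rw [lab_p2] at h7
    obtain ⟨⟨x, hx, ex⟩, ⟨y, hy, ey⟩, ⟨z, hz, ez⟩⟩ := ho
    exact ⟨_, lk_supp hY, clip_link h (a1 _) (a2 _) (a3 _) (a4 _)
      (h.link5 (p := fun x => sg (p x)) (Y := Y.toList) (indep_clip s t s' t')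
        ⟨⟨y, Finset.mem_toList.2 hy, congrArg sg ey⟩, ⟨x, Finset.mem_toList.2 hx, congrArg sg ex⟩,
          ⟨z, Finset.mem_toList.2 hz, congrArg sg ez⟩⟩
        (fun hc => h5 (clip_from h (a4 _) hc)) (clip_to h (a1 _) (a2 _) h7)
        (clip_to h (a1 _) (a2 _) h6))⟩

end Pool.Agent.P.MP_4a7a83_al.MS
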