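import Pool.Agent.P.MP_4a7a83_al.Basic

/-!
Interpreting one more link whose support is labelled by `o` and `i`.
-/

namespace Pool.Agent.P.MP_4a7a83_al.MS

open Classical N5

namespace StepA

section

variable {V : Type} [AddCommGroup V] [Module ℚ V]

theorem link_transfer {e : V →ₗ[ℚ] V} {σ0 σ1 τ0 τ1 ρ R : Submodule ℚ V} (he : e ∘ₗ e = e)
    (h1 : ρ ≤ R) (h2 : RLe e R ρ) (hτ : RLe e τ1 τ1) (h : LinkS e σ0 σ1 τ0 τ1 ρ) :
    LinkS e σ0 σ1 τ0 τ1 R :=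
  ⟨h.1.mono le_rfl h1, RLe.trans_idem he h2 h.2.1,
    h.2.2.1.mono le_rfl (sup_le_sup_right h1 _), RLe.trans_idem he (h2.inf hτ) h.2.2.2⟩

theorem triv_transfer {e : V →ₗ[ℚ] V} {σ0 τ0 ρ R : Submodule ℚ V} (he : e ∘ₗ e = e)
    (h1 : ρ ≤ R) (h2 : RLe e R ρ) (h : TrivS e σ0 τ0 ρ) : TrivS e σ0 τ0 R :=
  ⟨h.1.mono le_rfl h1, RLe.trans_idem he h2 h.2⟩

end

/-- The three pieces. -/
noncomputable def L3 : List (Alg × (N5 → N5)) :=
  [(e01, fun l => ofB (p01 l)), (n1, fun l => ofB (p1 l)), (n2, fun l => ofB (p2 l))]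

theorem L3_idem {f : Alg × (N5 → N5)} (hf : f ∈ L3) : f.1 * f.1 = f.1 := by
  simp only [L3, List.mem_cons, List.not_mem_nil, or_false] at hf
  rcases hf with rfl | rfl | rfl
  · exact e01_e01
  · exact n1_n1
  · exact n2_n2

theorem L3_lab {f : Alg × (N5 → N5)} (hf : f ∈ L3) {l : N5} (hl : l = o ∨ l = i) : f.2 l = l := by
  simp only [L3, List.mem_cons, List.not_mem_nil, or_false] at hf
  rcases hf with rfl | rfl | rfl <;> rcases hl with rfl | rfl <;> rfl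

theorem L3_mul {f f' : Alg × (N5 → N5)} (hf : f ∈ L3) (hf' : f' ∈ L3) (α : Alg) :
    (f = f' ∧ ∃ r : ℚ, f.1 * α * f'.1 = r • f.1) ∨ f.1 * α * f'.1 = 0 := by
  simp only [L3, List.mem_cons, List.not_mem_nil, or_false] at hf hf'
  rcases hf with rfl | rfl | rfl <;> rcases hf' with rfl | rfl | rfl
  · exact Or.inl ⟨rfl, _, e01_mul_e01 α⟩
  · right; rw [mul_n1]; simp [e01]
  · right; rw [mul_n2]; simp [e01]
  · right; rw [mul_assoc, n1_mul]; simp [e01]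
  · exact Or.inl ⟨rfl, _, mul_n1 _⟩
  · right; rw [mul_n2]; simp [n1]
  · right; rw [mul_assoc, n2_mul]; simp [e01]
  · right; rw [mul_n1]; simp [n2]
  · exact Or.inl ⟨rfl, _, mul_n2 _⟩

theorem col_lab (π : Pc) {l : N5} (hl : l = o ∨ l = i) : ofB (π.col l) = l := by
  cases π <;> rcases hl with rfl | rfl <;> rfl

variable {X E : Type} [AddCommGroup E] [Module ℚ E]

/-- The largest stable subspace with prescribed pieces. -/
noncomputable def RR (a : Act E) (ρ : Alg × (N5 → N5) → Submodule ℚ (Amb X E)) :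
    Submodule ℚ (Amb X E) :=
  ⨅ α : Alg, ⨅ f ∈ L3, (ρ f).comap (hat X (a.φ (f.1 * α)))

theorem mem_RR {a : Act E} {ρ : Alg × (N5 → N5) → Submodule ℚ (Amb X E)} {v : Amb X E} :
    v ∈ RR a ρ ↔ ∀ α : Alg, ∀ f ∈ L3, hat X (a.φ (f.1 * α)) v ∈ ρ f := by
  simp only [RR, Submodule.mem_iInf, Submodule.mem_comap]

theorem RR_stab (a : Act E) (ρ : Alg × (N5 → N5) → Submodule ℚ (Amb X E)) (β : Alg) :
    RLe (hat X (a.φ β)) (RR a ρ) (RR a ρ) := by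
  intro v hv
  rw [mem_RR] at hv ⊢
  intro α f hf
  rw [a.hat_hat, mul_assoc]
  exact hv _ f hf

theorem RR_rle (a : Act E) (ρ : Alg × (N5 → N5) → Submodule ℚ (Amb X E)) {f : Alg × (N5 → N5)}
    (hf : f ∈ L3) : RLe (hat X (a.φ f.1)) (RR a ρ) (ρ f) := by
  intro v hv
  have h := mem_RR.1 hv 1 f hf
  rwa [mul_one] at h

theorem le_RR (a : Act E) (ρ : Alg × (N5 → N5) → Submodule ℚ (Amb X E))
    (hρ : ∀ f ∈ L3, ∀ v ∈ ρ f, hat X (a.φ f.1) v = v) {f' : Alg × (N5 → N5)} (hf' : f' ∈ L3) :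
    ρ f' ≤ RR a ρ := by
  intro v hv
  rw [mem_RR]
  intro α f hf
  have h1 : hat X (a.φ (f.1 * α)) v = hat X (a.φ (f.1 * α * f'.1)) v := by
    rw [← a.hat_hat (f.1 * α) f'.1 v, hρ f' hf' v hv]
  rw [h1]
  rcases L3_mul hf hf' α with ⟨rfl, r, h⟩ | h
  · rw [h, map_smul, hat_smul, LinearMap.smul_apply, hρ f hf v hv]
    exact (ρ f).smul_mem r hv
  · rw [h, map_zero]
    have : hat X (0 : Module.End ℚ E) = 0 := hat_zero
    rw [this]
    exact (ρ f).zero_mem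

end StepA

theorem step_link_two {X E : Type} [AddCommGroup E] [Module ℚ E] {A : Tm X → Prop}
    (hA : ∀ t, A t → Cond A t) {q : X → N5} {S : Finset (Tm X)} (hS : Closed S)
    {Y : List X} {p : X → N5} {s0 s1 t0 t1 : Tm X}
    (hs : Tm.lk Y p s0 s1 t0 t1 ∉ S) (hk : (Tm.lk Y p s0 s1 t0 t1).args ⊆ S)
    (h0 : ∀ x ∈ (Tm.lk Y p s0 s1 t0 t1).supp, q x = o ∨ q x = i)
    {a : Act E} {M : Str X E} (hM : Mem A q S a M)
    (ρ : Alg × (N5 → N5) → Submodule ℚ (Amb X E))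
    (hρ : ∀ f ∈ fine q (Tm.lk Y p s0 s1 t0 t1).supp,
      (∀ v ∈ ρ f, hat X (a.φ f.1) v = v) ∧
      (A (.lk Y p s0 s1 t0 t1) ∧ Att (fun x => f.2 (q x)) (.lk Y p s0 s1 t0 t1) →
        LinkS (hat X (a.φ f.1)) (M.ev s0) (M.ev s1) (M.ev t0) (M.ev t1) (ρ f)) ∧
      (¬ (A (.lk Y p s0 s1 t0 t1) ∧ Att (fun x => f.2 (q x)) (.lk Y p s0 s1 t0 t1)) →
        TrivS (hat X (a.φ f.1)) (M.ev s0) (M.ev t0) (ρ f))) :
    ∃ R : Submodule ℚ (Amb X E),
      Mem A q (insert (.lk Y p s0 s1 t0 t1) S) a (M.setLk (.lk Y p s0 s1 t0 t1) R) ∧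
      ∀ f ∈ fine q (Tm.lk Y p s0 s1 t0 t1).supp,
        ρ f ≤ R ∧ RLe (hat X (a.φ f.1)) R (ρ f) := by
  have hfine : fine q (Tm.lk Y p s0 s1 t0 t1).supp = StepA.L3 := by
    rw [fine, if_pos h0]; rfl
  rw [hfine] at hρ ⊢
  have hle := fun f (hf : f ∈ StepA.L3) => StepA.le_RR a ρ (fun g hg => (hρ g hg).1) hf
  have hrle := fun f (hf : f ∈ StepA.L3) => StepA.RR_rle a ρ hf
  have hR := StepA.RR_stab a ρ
  refine ⟨StepA.RR a ρ, ?_, fun f hf => ⟨hle f hf, hrle f hf⟩⟩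
  set R := StepA.RR a ρ with hRdef
  have hag := agree_setLk M hs R
  have hkid : ∀ u ∈ (Tm.lk Y p s0 s1 t0 t1).kids, u ∈ (Tm.lk Y p s0 s1 t0 t1).args :=
    fun u hu => Tm.kids_mem_args hu
  have hst : ∀ u ∈ (Tm.lk Y p s0 s1 t0 t1).kids, ∀ α, RLe (hat X (a.φ α)) (M.ev u) (M.ev u) :=
    fun u hu α => ev_hom (closed_args _) (fun w hw => (hM w (hk hw)).2.1
      (fun x hx => h0 x (Tm.supp_subset_of_mem_args hw hx)) α) (hkid u hu)
  have a0 := hst s0 (by simp [Tm.kids])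
  have a1 := hst s1 (by simp [Tm.kids])
  have b0 := hst t0 (by simp [Tm.kids])
  have b1 := hst t1 (by simp [Tm.kids])
  have hev : ∀ u ∈ (Tm.lk Y p s0 s1 t0 t1).kids,
      (M.setLk (.lk Y p s0 s1 t0 t1) R).ev u = M.ev u :=
    fun u hu => (hag.ev hS (hk (hkid u hu))).symm
  have hatt : ∀ f ∈ StepA.L3, (Att (fun x => f.2 (q x)) (.lk Y p s0 s1 t0 t1) ↔
      Att q (.lk Y p s0 s1 t0 t1)) :=
    fun f hf => att_congr fun x hx => StepA.L3_lab hf (h0 x hx)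
  have hid : ∀ f ∈ StepA.L3, hat X (a.φ f.1) ∘ₗ hat X (a.φ f.1) = hat X (a.φ f.1) :=
    fun f hf => by rw [a.hat_comp, StepA.L3_idem hf]
  have m1 : (e01, fun l => ofB (p01 l)) ∈ StepA.L3 := by simp [StepA.L3]
  have m2 : (n1, fun l => ofB (p1 l)) ∈ StepA.L3 := by simp [StepA.L3]
  have m3 : (n2, fun l => ofB (p2 l)) ∈ StepA.L3 := by simp [StepA.L3]
  have hlink : A (.lk Y p s0 s1 t0 t1) ∧ Att q (.lk Y p s0 s1 t0 t1) →
      LinkS (hat X (a.φ 1)) (M.ev s0) (M.ev s1) (M.ev t0) (M.ev t1) R := by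
    intro hc
    have k := fun f (hf : f ∈ StepA.L3) => StepA.link_transfer (hid f hf) (hle f hf) (hrle f hf)
      (b1 f.1) ((hρ f hf).2.1 ⟨hc.1, (hatt f hf).2 hc.2⟩)
    have k1 := k _ m1
    have k2 := k _ m2
    have k3 := k _ m3
    exact ⟨a.rle_one (fun α => (a0 α).sup (b0 α)) hR k1.1 k2.1 k3.1,
      a.rle_one hR (fun α => (a1 α).sup (b1 α)) k1.2.1 k2.2.1 k3.2.1,
      a.rle_one b1 (fun α => (hR α).sup (a1 α)) k1.2.2.1 k2.2.2.1 k3.2.2.1,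
      a.rle_one (fun α => (hR α).inf (b1 α)) b0 k1.2.2.2 k2.2.2.2 k3.2.2.2⟩
  have htriv : ¬ (A (.lk Y p s0 s1 t0 t1) ∧ Att q (.lk Y p s0 s1 t0 t1)) →
      TrivS (hat X (a.φ 1)) (M.ev s0) (M.ev t0) R := by
    intro hc
    have k := fun f (hf : f ∈ StepA.L3) => StepA.triv_transfer (hid f hf) (hle f hf) (hrle f hf)
      ((hρ f hf).2.2 fun h => hc ⟨h.1, (hatt f hf).1 h.2⟩)
    have k1 := k _ m1
    have k2 := k _ m2
    have k3 := k _ m3
    exact ⟨a.rle_one (fun α => (a0 α).sup (b0 α)) hR k1.1 k2.1 k3.1,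
      a.rle_one hR (fun α => (a0 α).sup (b0 α)) k1.2 k2.2 k3.2⟩
  intro t ht
  rcases Finset.mem_insert.1 ht with rfl | ht
  · have hhom : ∀ α, AtomHom (M.setLk (.lk Y p s0 s1 t0 t1) R) (M.setLk (.lk Y p s0 s1 t0 t1) R)
        (a.φ α) (.lk Y p s0 s1 t0 t1) := fun α => by
      simp only [AtomHom, setLk_self]
      exact hR α
    refine ⟨fun π _ => ⟨hhom _, ?_⟩, fun _ => hhom, hhom 1, fun ho => ?_⟩
    · have hc : Att (fun x => ofB (π.col (q x))) (.lk Y p s0 s1 t0 t1) ↔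
          Att q (.lk Y p s0 s1 t0 t1) := att_congr fun x hx => StepA.col_lab π (h0 x hx)
      have he : hat X (a.φ π.idem) ∘ₗ hat X (a.φ 1) = hat X (a.φ π.idem) := by
        rw [a.hat_comp, mul_one]
      simp only [PlainAx, LinkAx, TrivAx, setLk_self, hc, hev s0 (by simp [Tm.kids]),
        hev s1 (by simp [Tm.kids]), hev t0 (by simp [Tm.kids]), hev t1 (by simp [Tm.kids])]
      exact ⟨fun h => (hlink h).below he (a1 _) (b0 _) (b1 _) (hR _),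
        fun h => (htriv h).below he (a0 _) (b0 _) (hR _)⟩
    · obtain ⟨⟨x, hx, h1⟩, -⟩ := ho
      rcases h0 x hx with h | h <;> rw [h1] at h <;> cases h
  · exact hM.congr hS hag t ht

end Pool.Agent.P.MP_4a7a83_al.MS
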