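import Pool.Agent.P.MP_4a7a83_al.Basic

/-!
Products and direct sums of members.
-/

namespace Pool.Agent.P.MP_4a7a83_al.MS

open Classical N5

variable {X E E' : Type} [AddCommGroup E] [Module ℚ E] [AddCommGroup E'] [Module ℚ E']

/-- Every inclusion that holds in both `(M, e)` and `(M', e')` holds in `(N, f)`. -/
structure Both {F : Type} [AddCommGroup F] [Module ℚ F] (M : Str X E) (e : E →ₗ[ℚ] E)
    (M' : Str X E') (e' : E' →ₗ[ℚ] E') (N : Str X F) (f : F →ₗ[ℚ] F) : Prop where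
  ev : ∀ s t, RLe (hat X e) (M.ev s) (M.ev t) → RLe (hat X e') (M'.ev s) (M'.ev t) →
    RLe (hat X f) (N.ev s) (N.ev t)
  z : ∀ x k l, RLe e (M.z x k) (M.z x l) → RLe e' (M'.z x k) (M'.z x l) →
    RLe f (N.z x k) (N.z x l)

namespace Both

variable {F : Type} [AddCommGroup F] [Module ℚ F] {M : Str X E} {e : E →ₗ[ℚ] E}
  {M' : Str X E'} {e' : E' →ₗ[ℚ] E'} {N : Str X F} {f : F →ₗ[ℚ] F}

theorem atom (B : Both M e M' e' N f) {t : Tm X} (h : AtomHom M M e t)
    (h' : AtomHom M' M' e' t) : AtomHom N N f t := by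
  cases t
  case fl x k j => exact fun l => B.z x l l (h l) (h' l)
  case lk Y p s0 s1 t0 t1 => exact B.ev (.lk Y p s0 s1 t0 t1) (.lk Y p s0 s1 t0 t1) h h'
  all_goals trivial

theorem link (B : Both M e M' e' N f) {t : Tm X} (h : LinkAx M e t) (h' : LinkAx M' e' t) :
    LinkAx N f t := by
  cases t
  case lk Y p s0 s1 t0 t1 =>
    exact ⟨B.ev (.sup s0 t0) (.lk Y p s0 s1 t0 t1) h.1 h'.1,
      B.ev (.lk Y p s0 s1 t0 t1) (.sup s1 t1) h.2.1 h'.2.1,
      B.ev t1 (.sup (.lk Y p s0 s1 t0 t1) s1) h.2.2.1 h'.2.2.1,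
      B.ev (.inf (.lk Y p s0 s1 t0 t1) t1) t0 h.2.2.2 h'.2.2.2⟩
  all_goals trivial

theorem triv (B : Both M e M' e' N f) {t : Tm X} (h : TrivAx M e t) (h' : TrivAx M' e' t) :
    TrivAx N f t := by
  cases t
  case lk Y p s0 s1 t0 t1 =>
    exact ⟨B.ev (.sup s0 t0) (.lk Y p s0 s1 t0 t1) h.1 h'.1,
      B.ev (.lk Y p s0 s1 t0 t1) (.sup s0 t0) h.2 h'.2⟩
  all_goals trivial

theorem plain (B : Both M e M' e' N f) {A : Tm X → Prop} {φ : X → Bool} {t : Tm X}
    (h : PlainAx A φ M e t) (h' : PlainAx A φ M' e' t) : PlainAx A φ N f t := by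
  cases t
  case fl x k j =>
    simp only [PlainAx] at h h' ⊢
    cases hx : φ x <;> rw [hx] at h h'
    · exact ⟨B.z _ _ _ h.1 h'.1, B.z _ _ _ h.2 h'.2⟩
    · exact ⟨B.z _ _ _ h.1 h'.1, B.z _ _ _ h.2 h'.2⟩
  all_goals exact ⟨fun c => B.link (h.1 c) (h'.1 c), fun c => B.triv (h.2 c) (h'.2 c)⟩

end Both

theorem mem_of_both {F : Type} [AddCommGroup F] [Module ℚ F] {A : Tm X → Prop} {q : X → N5}
    {S : Finset (Tm X)} {a : Act E} {M : Str X E} {a' : Act E'} {M' : Str X E'} {b : Act F}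
    {N : Str X F} (B : ∀ α, Both M (a.φ α) M' (a'.φ α) N (b.φ α)) (h : Mem A q S a M)
    (h' : Mem A q S a' M') : Mem A q S b N := by
  intro t ht
  obtain ⟨h1, h2, h3, h4⟩ := h t ht
  obtain ⟨k1, k2, k3, k4⟩ := h' t ht
  exact ⟨fun π hπ => ⟨(B _).atom (h1 π hπ).1 (k1 π hπ).1, (B _).plain (h1 π hπ).2 (k1 π hπ).2⟩,
    fun hh α => (B α).atom (h2 hh α) (k2 hh α), (B 1).atom h3 k3,
    fun a1 a2 a3 => (B 1).link (h4 a1 a2 a3) (k4 a1 a2 a3)⟩

theorem both_prod (M : Str X E) (e : E →ₗ[ℚ] E) (M' : Str X E') (e' : E' →ₗ[ℚ] E') :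
    Both M e M' e' (M.prod M') (e.prodMap e') where
  ev s t h h' v hv := by
    have e1 : hat X (e.prodMap e') v =
        hat X (LinearMap.inl ℚ E E') (hat X e (hat X (LinearMap.fst ℚ E E') v)) +
          hat X (LinearMap.inr ℚ E E') (hat X e' (hat X (LinearMap.snd ℚ E E') v)) := by
      ext j <;> simp
    rw [e1]
    exact Submodule.add_mem _
      (ev_hom_all (atomHom_inl M M') t _ (h _ (ev_hom_all (atomHom_fst M M') s v hv)))
      (ev_hom_all (atomHom_inr M M') t _ (h' _ (ev_hom_all (atomHom_snd M M') s v hv)))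
  z _ _ _ h h' v hv := ⟨h _ hv.1, h' _ hv.2⟩

theorem both_pow (M : Str X E) (e : E →ₗ[ℚ] E) (I : Type) :
    Both M e M e (M.pow I) (Finsupp.mapRange.linearMap e) where
  ev s t h _ v hv := by
    have e1 : hat X (Finsupp.mapRange.linearMap e) v =
        ∑ l ∈ (v false).support ∪ (v true).support,
          hat X (Finsupp.lsingle l) (hat X e (hat X (Finsupp.lapply l) v)) := by
      ext j l
      simp only [hat_apply, Finsupp.mapRange.linearMap_apply, Finsupp.mapRange_apply,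
        Finsupp.finsetSum_apply, Finsupp.lsingle_apply, Finsupp.lapply_apply, Finsupp.single_apply,
        Finset.sum_ite_eq']
      split_ifs with hl
      · rfl
      · have : v j l = 0 := by
          rw [Finset.mem_union, not_or, Finsupp.notMem_support_iff,
            Finsupp.notMem_support_iff] at hl
          cases j
          exacts [hl.1, hl.2]
        rw [this, map_zero]
    rw [e1]
    exact Submodule.sum_mem _ fun l _ =>
      ev_hom_all (atomHom_lsingle M I l) t _ (h _ (ev_hom_all (atomHom_lapply M I l) s v hv))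
  z _ _ _ h _ v hv :=
    (Submodule.mem_iInf _).2 fun l => h _ ((Submodule.mem_iInf _).1 hv l)

theorem Mem.prod {A : Tm X → Prop} {q : X → N5} {S : Finset (Tm X)} {a : Act E} {M : Str X E}
    {a' : Act E'} {M' : Str X E'} (h : Mem A q S a M) (h' : Mem A q S a' M') :
    Mem A q S (a.prod a') (M.prod M') :=
  mem_of_both (fun α => both_prod M (a.φ α) M' (a'.φ α)) h h'

theorem Mem.pow {A : Tm X → Prop} {q : X → N5} {S : Finset (Tm X)} {a : Act E} {M : Str X E}
    (h : Mem A q S a M) (I : Type) : Mem A q S (a.pow I) (M.pow I) :=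
  mem_of_both (fun α => both_pow M (a.φ α) I) h h

end Pool.Agent.P.MP_4a7a83_al.MS
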