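import Pool.Agent.P.MP_4a7a83_al.Enl

/-!
Witnesses: members in which the target pair of an active link is open.
-/

namespace Pool.Agent.P.MP_4a7a83_al.MS

open Classical N5

/-- An open pair stays open in a suitable member over a larger closed set. -/
theorem SE.open {X : Type} {A : Tm X → Prop} {S : Finset (Tm X)} (hSE : SE A S) {q : X → N5}
    {S0 : Finset (Tm X)} (h0 : Closed S0) (hk : S0 ⊆ S) {s0 s1 : Tm X} (m0 : s0 ∈ S0)
    (m1 : s1 ∈ S0) {E : Type} [AddCommGroup E] [Module ℚ E] {a : Act E} {M : Str X E}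
    (hM : Mem A q S0 a M) {α : Alg} (h : ¬ RLe (hat X (a.φ α)) (M.ev s1) (M.ev s0)) :
    ∃ (E' : Type) (_ : AddCommGroup E') (_ : Module ℚ E') (a' : Act E') (M' : Str X E'),
      Mem A q S a' M' ∧ ¬ RLe (hat X (a'.φ α)) (M'.ev s1) (M'.ev s0) := by
  obtain ⟨E', _, _, a', M', f, g, h1, h2, h3⟩ := hSE q S0 h0 hk E a M hM
  exact ⟨E', _, _, a', M', h1, fun hh => h (rle_of_retract (h3 α)
    (ev_hom h0 (fun t ht => (h2 t ht).1) m1) (ev_hom h0 (fun t ht => (h2 t ht).2) m0) hh)⟩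

/-- The same for plain members. -/
theorem SE.popen {X : Type} {A : Tm X → Prop} (hA : ∀ t, A t → Cond A t) {S : Finset (Tm X)}
    (hS : Closed S) (hSE : SE A S) {ψ : X → Bool}
    {S0 : Finset (Tm X)} (h0 : Closed S0) (hk : S0 ⊆ S) {s0 s1 : Tm X} (m0 : s0 ∈ S0)
    (m1 : s1 ∈ S0) {E : Type} [AddCommGroup E] [Module ℚ E] {e : E →ₗ[ℚ] E} {M : Str X E}
    (hM : PMem A ψ S0 M e) (h : ¬ RLe (hat X e) (M.ev s1) (M.ev s0)) :
    ∃ (E' : Type) (_ : AddCommGroup E') (_ : Module ℚ E') (e' : E' →ₗ[ℚ] E') (M' : Str X E'),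
      PMem A ψ S M' e' ∧ ¬ RLe (hat X e') (M'.ev s1) (M'.ev s0) := by
  have h1 : PMem A (fun x => p1 ((fun x => ofB (ψ x)) x)) S0 M e :=
    hM.congr_col fun _ _ _ _ => (p1_ofB _).symm
  have h2 : (actN1 e h1.1).φ n1 = e := by simp [actN1, n1]
  obtain ⟨E', _, _, a', M', k1, k2⟩ := hSE.open h0 hk m0 m1
    (mem_N1 (q := fun x => ofB (ψ x)) hA h0 h1) (α := n1) (by rwa [h2])
  exact ⟨E', _, _, a'.φ n1, M', k1.plain_n1 hS, k2⟩

/-- An active link attached to a two-valued labelling has an open plain member there. -/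
theorem cond_two {X : Type} {A : Tm X → Prop} {Y : List X} {p : X → N5} {s0 s1 t0 t1 : Tm X}
    (hc : Cond A (.lk Y p s0 s1 t0 t1)) {ψ : X → Bool}
    (hatt : Att (fun x => ofB (ψ x)) (.lk Y p s0 s1 t0 t1)) :
    ∃ (E : Type) (_ : AddCommGroup E) (_ : Module ℚ E) (e : E →ₗ[ℚ] E) (M : Str X E),
      PMem A ψ (Tm.lk Y p s0 s1 t0 t1).args M e ∧ ¬ RLe (hat X e) (M.ev s1) (M.ev s0) := by
  rcases hc.2 with ⟨φ, h1, h2, -⟩ | ⟨⟨⟨x, hx, h⟩, -⟩, -⟩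
  · unfold PValOn at h2
    push Not at h2
    obtain ⟨E, _, _, M, e, k1, k2⟩ := h2
    refine ⟨E, _, _, e, M, k1.congr_col fun t ht x hx => ?_, k2⟩
    have hx' := Tm.supp_subset_of_mem_args ht hx
    exact ofB_inj ((h1 x hx').symm.trans (hatt x hx'))
  · exact absurd ((hatt x hx).symm.trans h) (ofB_ne_a _)

theorem fine_cases' {X : Type} {q : X → N5} {Y : Set X} {f : Alg × (N5 → N5)}
    (hf : f ∈ fine q Y) :
    (f.2 = (fun l => ofB (p1 l)) ∧ f.1.2.1 = 1) ∨ (f.2 = (fun l => ofB (p2 l)) ∧ f.1.2.2 = 1) ∨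
    ((∀ x ∈ Y, q x ≠ c) ∧ f = (e01, fun l => ofB (p01 l))) ∨ (Onto q Y ∧ f = (1, fun l => l)) := by
  rcases fine_cases hf with ⟨h, rfl | rfl | rfl⟩ | ⟨π, h, rfl⟩ | h
  · refine .inr (.inr (.inl ⟨fun x hx e => ?_, rfl⟩))
    rcases h x hx with h | h <;> rw [h] at e <;> cases e
  · exact .inl ⟨rfl, rfl⟩
  · exact .inr (.inl ⟨rfl, rfl⟩)
  · cases π
    exacts [.inr (.inl ⟨rfl, rfl⟩), .inr (.inr (.inl ⟨h, rfl⟩)), .inl ⟨rfl, rfl⟩, .inl ⟨rfl, rfl⟩,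
      .inr (.inl ⟨rfl, rfl⟩), .inl ⟨rfl, rfl⟩, .inr (.inl ⟨rfl, rfl⟩)]
  · exact .inr (.inr (.inr h))

theorem witness {X : Type} {A : Tm X → Prop} (hA : ∀ t, A t → Cond A t) {q : X → N5}
    {S : Finset (Tm X)} (hS : Closed S) {Y : List X} {p : X → N5} {s0 s1 t0 t1 : Tm X}
    (hk : (Tm.lk Y p s0 s1 t0 t1).args ⊆ S) (hSE : SE A S)
    (hGE : GE A (Tm.lk Y p s0 s1 t0 t1).args) {f : Alg × (N5 → N5)}
    (hf : f ∈ fine q (Tm.lk Y p s0 s1 t0 t1).supp) (ha : A (.lk Y p s0 s1 t0 t1))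
    (hatt : Att (fun x => f.2 (q x)) (.lk Y p s0 s1 t0 t1)) :
    Wit A q S (f.1 ≠ e01 ∧ f.1 ≠ 1) f.1 s0 s1 := by
  have hc := hA _ ha
  have h0 := closed_args (Tm.lk Y p s0 s1 t0 t1)
  have m0 : s0 ∈ (Tm.lk Y p s0 s1 t0 t1).args := Tm.kids_mem_args (by simp [Tm.kids])
  have m1 : s1 ∈ (Tm.lk Y p s0 s1 t0 t1).args := Tm.kids_mem_args (by simp [Tm.kids])
  rcases fine_cases' hf with ⟨h1, h2⟩ | ⟨h1, h2⟩ | ⟨h1, rfl⟩ | ⟨h1, rfl⟩
  · rw [h1] at hatt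
    obtain ⟨E, _, _, e, M, k1, k2⟩ := cond_two hc (ψ := fun x => p1 (q x)) hatt
    obtain ⟨E', _, _, e', M', l1, l2⟩ := hSE.popen hA hS h0 hk m0 m1 k1 k2
    refine ⟨E', _, _, _, M', mem_N1 hA hS l1, fun _ => by simp [actN1, e01], ?_⟩
    have : (actN1 e' l1.1).φ f.1 = e' := by simp [actN1, h2]
    rwa [this]
  · rw [h1] at hatt
    obtain ⟨E, _, _, e, M, k1, k2⟩ := cond_two hc (ψ := fun x => p2 (q x)) hatt
    obtain ⟨E', _, _, e', M', l1, l2⟩ := hSE.popen hA hS h0 hk m0 m1 k1 k2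
    refine ⟨E', _, _, _, M', mem_N2 hA hS l1, fun _ => by simp [actN2, e01], ?_⟩
    have : (actN2 e' l1.1).φ f.1 = e' := by simp [actN2, h2]
    rwa [this]
  · obtain ⟨E, _, _, e, M, k1, k2⟩ := cond_two hc (ψ := fun x => p01 (q x)) hatt
    obtain ⟨E', _, _, a', M', g, r, l1, l2, l3⟩ :=
      hGE q (fun t ht x hx => h1 x (Tm.supp_subset_of_mem_args ht hx)) E M e k1
    obtain ⟨E'', _, _, a'', M'', j1, j2⟩ := hSE.open h0 hk m0 m1 l1 (α := e01) fun hh =>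
      k2 (rle_of_retract l3 (ev_hom h0 (fun t ht => (l2 t ht).1) m1)
        (ev_hom h0 (fun t ht => (l2 t ht).2) m0) hh)
    exact ⟨E'', _, _, a'', M'', j1, fun hz => absurd rfl hz.1, j2⟩
  · rcases hc.2 with ⟨φ, k1, -⟩ | ⟨-, k2, -⟩
    · obtain ⟨⟨x, hx, h⟩, -⟩ := h1
      exact absurd (((k1 x hx).symm.trans (hatt x hx)).trans h) (ofB_ne_a _)
    · unfold ValOn at k2
      push Not at k2
      obtain ⟨E, _, _, a, M, l1, l2⟩ := k2
      obtain ⟨E', _, _, a', M', j1, j2⟩ := hSE.open h0 hk m0 m1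
        (l1.congr_lab (q' := q) fun t ht x hx => hatt x (Tm.supp_subset_of_mem_args ht hx)) l2
      exact ⟨E', _, _, a', M', j1, fun hz => absurd rfl hz.2, j2⟩

end Pool.Agent.P.MP_4a7a83_al.MS
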